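import Mathlib

/-!
# Generators of the ideal of initial forms of a semigroup ring
-/

set_option autoImplicit false

namespace Pool.Agent.Lib.MP_a2efaf_al

open MvPolynomial

variable {ι : Type} [Fintype ι]

/-- The weight of an exponent vector. -/
def wt (g : ι → ℕ) (u : ι →₀ ℕ) : ℕ := ∑ i, u i * g i

theorem wt_add (g : ι → ℕ) (u v : ι →₀ ℕ) : wt g (u + v) = wt g u + wt g v := by
  simp [wt, Finset.sum_add_distrib, add_mul]

theorem wt_single (g : ι → ℕ) (i : ι) (n : ℕ) : wt g (Finsupp.single i n) = n * g i := by
  classical
  unfold wt
  rw [Finset.sum_eq_single i]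
  · simp
  · intro j _ hj
    simp [Ne.symm hj]
  · simp

theorem wt_zero (g : ι → ℕ) : wt g 0 = 0 := by simp [wt]

/-- The ideal of initial forms. -/
noncomputable def initIdeal (k : Type) [Field k] (g : ι → ℕ) : Ideal (MvPolynomial ι k) :=
  Ideal.span {p | ∃ f ∈ RingHom.ker (MvPolynomial.aeval
              (fun i : ι => (Polynomial.X : Polynomial k) ^ g i)),
              ∃ n : ℕ, p = MvPolynomial.homogeneousComponent n f ∧
                ∀ n' < n, MvPolynomial.homogeneousComponent n' f = 0}

theorem aeval_monomial_wt (k : Type) [Field k] (g : ι → ℕ) (u : ι →₀ ℕ) (c : k) :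
    aeval (fun i : ι => (Polynomial.X : Polynomial k) ^ g i) (monomial u c) =
      Polynomial.monomial (wt g u) c := by
  rw [aeval_monomial, Finsupp.prod_fintype _ _ (by simp)]
  rw [← Polynomial.C_mul_X_pow_eq_monomial]
  congr 1
  unfold wt
  rw [← Finset.prod_pow_eq_pow_sum]
  refine Finset.prod_congr rfl ?_
  intro i _
  rw [← pow_mul, mul_comm]

/-- The coefficient of the image of a polynomial. -/
theorem coeff_aeval_wt (k : Type) [Field k] (g : ι → ℕ) (f : MvPolynomial ι k) (γ : ℕ) :
    (aeval (fun i : ι => (Polynomial.X : Polynomial k) ^ g i) f).coeff γ =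
      ∑ u ∈ f.support with wt g u = γ, coeff u f := by
  conv_lhs => rw [f.as_sum]
  rw [map_sum, Polynomial.finsetSum_coeff, Finset.sum_filter]
  refine Finset.sum_congr rfl ?_
  intro u _
  rw [aeval_monomial_wt, Polynomial.coeff_monomial]

section

variable (k : Type) [Field k] (g : ι → ℕ) (can : ℕ → (ι →₀ ℕ))

open Classical in
/-- The element of the ideal of initial forms given by a monomial. -/
noncomputable def F (u : ι →₀ ℕ) : MvPolynomial ι k :=
  if (can (wt g u)).degree = u.degree then monomial u 1 - monomial (can (wt g u)) 1
  else monomial u 1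

theorem F_eq (u : ι →₀ ℕ) (h : (can (wt g u)).degree = u.degree) :
    F k g can u = monomial u 1 - monomial (can (wt g u)) 1 := by
  unfold F; rw [if_pos h]

theorem F_ne (u : ι →₀ ℕ) (h : (can (wt g u)).degree ≠ u.degree) :
    F k g can u = monomial u 1 := by
  unfold F; rw [if_neg h]

variable (hcan : ∀ u : ι →₀ ℕ, wt g (can (wt g u)) = wt g u ∧
    u.degree ≤ (can (wt g u)).degree)

include hcan in
theorem F_mem (u : ι →₀ ℕ) : F k g can u ∈ initIdeal k g := by
  classical
  apply Ideal.subset_span
  refine ⟨monomial u 1 - monomial (can (wt g u)) 1, ?_, u.degree, ?_, ?_⟩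
  · rw [RingHom.mem_ker]
    show aeval _ _ = _
    rw [map_sub, aeval_monomial_wt, aeval_monomial_wt, (hcan u).1, sub_self]
  · ext d
    rw [coeff_homogeneousComponent, coeff_sub, coeff_monomial, coeff_monomial]
    by_cases h : (can (wt g u)).degree = u.degree
    · rw [F_eq _ _ _ _ h, coeff_sub, coeff_monomial, coeff_monomial]
      by_cases hd : d.degree = u.degree
      · rw [if_pos hd]
      · rw [if_neg hd, if_neg, if_neg]
        · simp
        · intro he; exact hd (by rw [← he, h])
        · intro he; exact hd (by rw [← he])
    · rw [F_ne _ _ _ _ h, coeff_monomial]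
      by_cases hd : d.degree = u.degree
      · rw [if_pos hd]
        have hne : can (wt g u) ≠ d := by
          intro he
          exact h (by rw [he, hd])
        rw [if_neg hne, sub_zero]
      · rw [if_neg hd, if_neg]
        intro he; exact hd (by rw [← he])
  · intro n' hn'
    ext d
    rw [coeff_homogeneousComponent, coeff_zero]
    by_cases hd : d.degree = n'
    · rw [if_pos hd, coeff_sub, coeff_monomial, coeff_monomial, if_neg, if_neg, sub_zero]
      · intro he
        have := (hcan u).2
        rw [he, hd] at this
        omega
      · intro he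
        rw [he] at hn'
        omega
    · rw [if_neg hd]

include hcan in
/-- The ideal of initial forms is generated by the `F u`. -/
theorem initIdeal_le : initIdeal k g ≤ Ideal.span (Set.range (F k g can)) := by
  classical
  unfold initIdeal
  rw [Ideal.span_le]
  rintro p ⟨f, hf, n, hp, hlow⟩
  have hlow' : ∀ u, coeff u f ≠ 0 → n ≤ u.degree := by
    intro u hu
    by_contra hlt
    push Not at hlt
    have h1 := hlow _ hlt
    have h2 : coeff u (homogeneousComponent u.degree f) = 0 := by rw [h1, coeff_zero]
    rw [coeff_homogeneousComponent, if_pos rfl] at h2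
    exact hu h2
  -- the coefficients sum to zero on each fibre of order `n`
  have hfib : ∀ γ : ℕ, (can γ).degree = n → (∃ u : ι →₀ ℕ, wt g u = γ) →
      ∑ u ∈ p.support with wt g u = γ, coeff u p = 0 := by
    rintro γ hγ ⟨u₀, hu₀⟩
    have h1 : (aeval (fun i : ι => (Polynomial.X : Polynomial k) ^ g i) f).coeff γ = 0 := by
      have : aeval (fun i : ι => (Polynomial.X : Polynomial k) ^ g i) f = 0 := hf
      rw [this, Polynomial.coeff_zero]
    rw [coeff_aeval_wt] at h1
    rw [← h1]
    have hsub : (p.support.filter (fun u => wt g u = γ)) ⊆
        (f.support.filter (fun u => wt g u = γ)) := by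
      intro u hu
      rw [Finset.mem_filter] at hu ⊢
      refine ⟨?_, hu.2⟩
      have h3 := hu.1
      rw [mem_support_iff, hp, coeff_homogeneousComponent] at h3
      rw [mem_support_iff]
      intro h0
      apply h3
      rw [h0]
      simp
    have hdeg : ∀ u ∈ f.support.filter (fun u => wt g u = γ), u.degree = n := by
      intro u hu
      rw [Finset.mem_filter, mem_support_iff] at hu
      have h4 := hlow' u hu.1
      have h5 := (hcan u).2
      rw [hu.2, hγ] at h5
      omega
    rw [← Finset.sum_subset hsub]
    · refine Finset.sum_congr rfl ?_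
      intro u hu
      have hu' := hdeg u (hsub hu)
      rw [hp, coeff_homogeneousComponent, if_pos hu']
    · intro u hu hnot
      have hu' := hdeg u hu
      by_contra hne
      apply hnot
      rw [Finset.mem_filter] at hu ⊢
      refine ⟨?_, hu.2⟩
      rw [mem_support_iff, hp, coeff_homogeneousComponent, if_pos hu']
      exact hne
  have hpdeg : ∀ u ∈ p.support, u.degree = n := by
    intro u hu
    rw [mem_support_iff, hp, coeff_homogeneousComponent] at hu
    by_contra hne
    rw [if_neg hne] at hu
    exact hu rfl
  let G : ℕ → MvPolynomial ι k := fun γ => if (can γ).degree = n then monomial (can γ) 1 else 0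
  have hFG : ∀ u ∈ p.support, monomial u (coeff u p) =
      C (coeff u p) * F k g can u + C (coeff u p) * G (wt g u) := by
    intro u hu
    have hdu := hpdeg u hu
    by_cases h : (can (wt g u)).degree = u.degree
    · rw [F_eq _ _ _ _ h]
      have hG : G (wt g u) = monomial (can (wt g u)) 1 := by
        show (if _ then _ else _) = _
        rw [if_pos (by rw [h, hdu])]
      rw [hG, ← mul_add, sub_add_cancel, C_mul_monomial, mul_one]
    · rw [F_ne _ _ _ _ h]
      have hG : G (wt g u) = 0 := by
        show (if _ then _ else _) = _
        rw [if_neg (by rw [← hdu]; exact h)]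
      rw [hG, mul_zero, add_zero, C_mul_monomial, mul_one]
  have hsum0 : ∑ u ∈ p.support, C (coeff u p) * G (wt g u) = 0 := by
    have h1 : ∑ u ∈ p.support, C (coeff u p) * G (wt g u) =
        ∑ γ ∈ p.support.image (wt g), ∑ u ∈ p.support with wt g u = γ,
          C (coeff u p) * G (wt g u) := by
      symm
      apply Finset.sum_fiberwise_of_maps_to
      intro u hu
      exact Finset.mem_image_of_mem _ hu
    rw [h1]
    apply Finset.sum_eq_zero
    intro γ hγ
    rw [Finset.mem_image] at hγ
    obtain ⟨u₀, hu₀, hγ⟩ := hγ
    have h2 : ∑ u ∈ p.support with wt g u = γ, C (coeff u p) * G (wt g u) =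
        C (∑ u ∈ p.support with wt g u = γ, coeff u p) * G γ := by
      rw [map_sum, Finset.sum_mul]
      refine Finset.sum_congr rfl ?_
      intro u hu
      rw [Finset.mem_filter] at hu
      rw [hu.2]
    rw [h2]
    by_cases hd : (can γ).degree = n
    · rw [hfib γ hd ⟨u₀, hγ⟩, map_zero, zero_mul]
    · have hG : G γ = 0 := by
        show (if _ then _ else _) = _
        rw [if_neg hd]
      rw [hG, mul_zero]
  have hpe : p = ∑ u ∈ p.support, C (coeff u p) * F k g can u := by
    conv_lhs => rw [p.as_sum]
    rw [Finset.sum_congr rfl hFG, Finset.sum_add_distrib, hsum0, add_zero]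
  rw [SetLike.mem_coe, hpe]
  apply Ideal.sum_mem
  intro u _
  exact Ideal.mul_mem_left _ _ (Ideal.subset_span ⟨u, rfl⟩)

omit [Fintype ι] in
theorem monomial_eq_X_mul (u : ι →₀ ℕ) (i : ι) (hi : 0 < u i) :
    (monomial u (1 : k)) = X i * monomial (u - Finsupp.single i 1) 1 := by
  classical
  have h : Finsupp.single i 1 + (u - Finsupp.single i 1) = u := by
    apply add_tsub_cancel_of_le
    rw [Finsupp.single_le_iff]
    exact hi
  rw [X, monomial_mul, h, one_mul]

/-- **The generator principle.** Let `can` choose a factorization of maximal length of every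
element, let `V` be a finite set of exponent vectors such that every exponent vector `u` is
canonical, or in `V`, or there is a smaller exponent vector of the same degree and weight
which shares a variable with `u`, or some `u / x_i` is not of maximal length.
Then the ideal of initial forms is generated by at most `|V|` elements. -/
theorem gen_principle (r : (ι →₀ ℕ) → (ι →₀ ℕ) → Prop) (hr : WellFounded r)
    (hcan : ∀ u : ι →₀ ℕ, wt g (can (wt g u)) = wt g u ∧ u.degree ≤ (can (wt g u)).degree)
    (V : Finset (ι →₀ ℕ))
    (hV : ∀ u : ι →₀ ℕ, u = can (wt g u) ∨ u ∈ V ∨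
      (∃ u', r u' u ∧ u'.degree = u.degree ∧ wt g u' = wt g u ∧ ∃ i, 0 < u i ∧ 0 < u' i) ∨
      (∃ i, 0 < u i ∧ ∃ v : ι →₀ ℕ, wt g v + g i = wt g u ∧ u.degree ≤ v.degree)) :
    ∃ s : Finset (MvPolynomial ι k), s.card ≤ V.card ∧
      Ideal.span (s : Set (MvPolynomial ι k)) = initIdeal k g := by
  classical
  refine ⟨V.image (F k g can), Finset.card_image_le, ?_⟩
  apply le_antisymm
  · rw [Ideal.span_le]
    intro p hp
    rw [Finset.coe_image] at hp
    obtain ⟨u, -, rfl⟩ := hp
    exact F_mem k g can hcan u
  · refine (initIdeal_le k g can hcan).trans ?_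
    rw [Ideal.span_le]
    rintro p ⟨u, rfl⟩
    set J : Ideal (MvPolynomial ι k) :=
      Ideal.span (((V.image (F k g can) : Finset _)) : Set (MvPolynomial ι k)) with hJ
    have hdegsub : ∀ (u : ι →₀ ℕ) (i : ι), 0 < u i →
        (u - Finsupp.single i 1).degree + 1 = u.degree ∧
        wt g (u - Finsupp.single i 1) + g i = wt g u := by
      intro u i hi
      have h : (u - Finsupp.single i 1) + Finsupp.single i 1 = u := by
        apply tsub_add_cancel_of_le
        rw [Finsupp.single_le_iff]
        exact hi
      constructor
      · conv_rhs => rw [← h]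
        rw [map_add, Finsupp.degree_single]
      · conv_rhs => rw [← h]
        rw [wt_add, wt_single, one_mul]
    have key : ∀ n : ℕ, ∀ u : ι →₀ ℕ, u.degree = n → F k g can u ∈ J := by
      intro n
      induction n using Nat.strong_induction_on with
      | _ n ih =>
        intro u
        induction u using hr.induction with
        | _ u ihu =>
          intro hu
          rcases hV u with h | h | ⟨u', hru, hdeg, hwt, i, hi, hi'⟩ | ⟨i, hi, v, hv, hdv⟩
          · rw [F_eq _ _ _ _ (by rw [← h]), ← h, sub_self]
            exact Ideal.zero_mem _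
          · apply Ideal.subset_span
            rw [Finset.coe_image]
            exact ⟨u, h, rfl⟩
          · obtain ⟨h1, h2⟩ := hdegsub u i hi
            obtain ⟨h1', h2'⟩ := hdegsub u' i hi'
            have hF' : F k g can u' ∈ J := ihu u' hru (by rw [hdeg, hu])
            have ha : F k g can (u - Finsupp.single i 1) ∈ J :=
              ih _ (by omega) _ rfl
            have hb : F k g can (u' - Finsupp.single i 1) ∈ J :=
              ih _ (by omega) _ rfl
            have hwt1 : wt g (u - Finsupp.single i 1) = wt g (u' - Finsupp.single i 1) := by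
              omega
            have hdeg1 : (u - Finsupp.single i 1).degree = (u' - Finsupp.single i 1).degree := by
              omega
            have hdiff : ∀ a b : ι →₀ ℕ, wt g a = wt g b → a.degree = b.degree →
                F k g can a - F k g can b = monomial a 1 - monomial b 1 := by
              intro a b hab hdab
              by_cases hc : (can (wt g a)).degree = a.degree
              · rw [F_eq _ _ _ _ hc, F_eq _ _ _ _ (by rw [← hab, hc, hdab]), hab]
                ring
              · rw [F_ne _ _ _ _ hc, F_ne _ _ _ _ (by rw [← hab, ← hdab]; exact hc)]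
            have e1 : F k g can u = F k g can u' + X i * (F k g can (u - Finsupp.single i 1) -
                F k g can (u' - Finsupp.single i 1)) := by
              rw [hdiff _ _ hwt1 hdeg1, mul_sub, ← monomial_eq_X_mul k u i hi,
                ← monomial_eq_X_mul k u' i hi', ← hdiff u u' hwt.symm hdeg.symm]
              ring
            rw [e1]
            exact Ideal.add_mem _ hF' (Ideal.mul_mem_left _ _ (Ideal.sub_mem _ ha hb))
          · obtain ⟨h1, h2⟩ := hdegsub u i hi
            have ha : F k g can (u - Finsupp.single i 1) ∈ J :=
              ih _ (by omega) _ rfl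
            have hva : wt g v = wt g (u - Finsupp.single i 1) := by omega
            have h3 := (hcan v).2
            rw [hva] at h3
            have hFa : F k g can (u - Finsupp.single i 1) = monomial (u - Finsupp.single i 1) 1 :=
              F_ne _ _ _ _ (by omega)
            have h4 := (hcan (v + Finsupp.single i 1)).2
            have h5 : wt g (v + Finsupp.single i 1) = wt g u := by
              rw [wt_add, wt_single, one_mul, hv]
            rw [h5, map_add, Finsupp.degree_single] at h4
            have hFu : F k g can u = monomial u 1 := F_ne _ _ _ _ (by omega)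
            rw [hFu, monomial_eq_X_mul k u i hi, ← hFa]
            exact Ideal.mul_mem_left _ _ ha
    exact key _ u rfl

end

end Pool.Agent.Lib.MP_a2efaf_al
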