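import Pool.Agent.Lib.MP_a2efaf_al.Gen

/-!
# Lower bound for the number of generators, for a semigroup generated by an interval
-/

set_option autoImplicit false

namespace Pool.Agent.Lib.MP_a2efaf_al

open MvPolynomial

section Rank

variable {k : Type} [Field k] {ι : Type}

/-- If a linear map kills the product of the ideal with all the variables, and takes
independent values on elements of the ideal, then the ideal needs many generators. -/
theorem card_le_of_span {T : Type} [Fintype T] [DecidableEq T]
    (I : Ideal (MvPolynomial ι k)) (Φ : MvPolynomial ι k →ₗ[k] (T → k))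
    (hΦ : ∀ f ∈ I, ∀ j, Φ (X j * f) = 0)
    (hsurj : ∀ τ : T, ∃ f ∈ I, Φ f = Pi.single τ 1)
    (t : Finset (MvPolynomial ι k)) (ht : Ideal.span (t : Set (MvPolynomial ι k)) = I) :
    Fintype.card T ≤ t.card := by
  classical
  have hmul : ∀ h : MvPolynomial ι k, ∀ f ∈ I, Φ (h * f) = constantCoeff h • Φ f := by
    intro h f hf
    induction h using MvPolynomial.induction_on with
    | C a =>
      rw [constantCoeff_C, ← smul_eq_C_mul, map_smul]
    | add p q hp hq =>
      rw [add_mul, map_add, map_add, hp, hq, add_smul]
    | mul_X p j hp =>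
      have e : p * X j * f = X j * (p * f) := by ring
      rw [e, hΦ _ (I.mul_mem_left p hf) j]
      simp
  have hmem : ∀ f ∈ I, Φ f ∈ Submodule.span k ((t.image Φ : Finset (T → k)) : Set (T → k)) := by
    intro f hf
    rw [← ht] at hf
    refine Submodule.span_induction (p := fun f _ => Φ f ∈
      Submodule.span k ((t.image Φ : Finset (T → k)) : Set (T → k))) ?_ ?_ ?_ ?_ hf
    · intro x hx
      apply Submodule.subset_span
      rw [Finset.coe_image]
      exact ⟨x, hx, rfl⟩
    · rw [map_zero]; exact Submodule.zero_mem _
    · intro x y _ _ hx hy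
      rw [map_add]; exact Submodule.add_mem _ hx hy
    · intro a x hx hx'
      have hxI : x ∈ I := by rw [← ht]; exact hx
      rw [smul_eq_mul, hmul a x hxI]
      exact Submodule.smul_mem _ _ hx'
  have htop : Submodule.span k ((t.image Φ : Finset (T → k)) : Set (T → k)) = ⊤ := by
    rw [eq_top_iff]
    intro v _
    have hv : v = ∑ τ, v τ • (Pi.single τ (1 : k) : T → k) := by
      ext σ
      rw [Finset.sum_apply, Finset.sum_eq_single σ]
      · simp
      · intro τ _ hτ
        simp [Ne.symm hτ]
      · intro h; exact absurd (Finset.mem_univ _) h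
    rw [hv]
    apply Submodule.sum_mem
    intro τ _
    apply Submodule.smul_mem
    obtain ⟨f, hf, hfe⟩ := hsurj τ
    rw [← hfe]
    exact hmem f hf
  have h1 : Module.finrank k (T → k) ≤ (t.image Φ).card := by
    rw [← finrank_top k (T → k), ← htop]
    exact finrank_span_finset_le_card _
  rw [Module.finrank_fintype_fun_eq_card] at h1
  exact h1.trans Finset.card_image_le

end Rank

section Interval

variable (k : Type) [Field k]

/-- The homomorphism recording degree and additional weight. -/
noncomputable def Psi (m : ℕ) : MvPolynomial (Fin m) k →ₐ[k] Polynomial (Polynomial k) :=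
  aeval (fun j : Fin m => Polynomial.monomial 1 (Polynomial.X ^ (j : ℕ)))

theorem Psi_monomial (m : ℕ) (u : Fin m →₀ ℕ) (c : k) :
    Psi k m (monomial u c) = Polynomial.monomial u.degree
      (Polynomial.monomial (wt (fun j : Fin m => (j : ℕ)) u) c) := by
  unfold Psi
  rw [aeval_monomial, Finsupp.prod_fintype _ _ (by simp)]
  have h : ∀ j : Fin m, (Polynomial.monomial 1 ((Polynomial.X : Polynomial k) ^ (j : ℕ))) ^ (u j)
      = Polynomial.monomial (u j) ((Polynomial.X : Polynomial k) ^ ((u j) * (j : ℕ))) := by
    intro j
    rw [Polynomial.monomial_pow, one_mul, ← pow_mul, mul_comm]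
  simp_rw [h]
  have h2 : ∀ s : Finset (Fin m), ∏ j ∈ s, Polynomial.monomial (u j)
      ((Polynomial.X : Polynomial k) ^ ((u j) * (j : ℕ))) =
      Polynomial.monomial (∑ j ∈ s, u j) (Polynomial.X ^ (∑ j ∈ s, u j * (j : ℕ))) := by
    classical
    intro s
    induction s using Finset.induction_on with
    | empty => simp
    | insert a s ha ih =>
      rw [Finset.prod_insert ha, ih, Polynomial.monomial_mul_monomial, Finset.sum_insert ha,
        Finset.sum_insert ha, pow_add]
  rw [h2, Finsupp.degree_eq_sum]
  have h3 : (algebraMap k (Polynomial (Polynomial k))) c = Polynomial.C (Polynomial.C c) := rfl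
  rw [h3, Polynomial.C_mul_monomial, Polynomial.C_mul_X_pow_eq_monomial]
  rfl

theorem coeff_Psi (m : ℕ) (f : MvPolynomial (Fin m) k) (d s : ℕ) :
    ((Psi k m f).coeff d).coeff s =
      ∑ u ∈ f.support with u.degree = d ∧ wt (fun j : Fin m => (j : ℕ)) u = s, coeff u f := by
  classical
  conv_lhs => rw [f.as_sum]
  rw [map_sum, Polynomial.finsetSum_coeff, Polynomial.finsetSum_coeff, Finset.sum_filter]
  refine Finset.sum_congr rfl ?_
  intro u _
  rw [Psi_monomial, Polynomial.coeff_monomial]
  by_cases h : u.degree = d
  · rw [if_pos h, Polynomial.coeff_monomial]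
    by_cases h2 : wt (fun j : Fin m => (j : ℕ)) u = s
    · rw [if_pos h2, if_pos ⟨h, h2⟩]
    · rw [if_neg h2, if_neg (fun h3 => h2 h3.2)]
  · rw [if_neg h, if_neg (fun h3 => h h3.1), Polynomial.coeff_zero]

theorem wt_shift (m M : ℕ) (u : Fin m →₀ ℕ) :
    wt (fun j : Fin m => M + (j : ℕ)) u = u.degree * M + wt (fun j : Fin m => (j : ℕ)) u := by
  unfold wt
  rw [Finsupp.degree_eq_sum, Finset.sum_mul, ← Finset.sum_add_distrib]
  refine Finset.sum_congr rfl ?_
  intro j _
  ring

theorem wt_le (w : ℕ) (u : Fin (w + 1) →₀ ℕ) :
    wt (fun j : Fin (w + 1) => (j : ℕ)) u ≤ u.degree * w := by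
  unfold wt
  rw [Finsupp.degree_eq_sum, Finset.sum_mul]
  refine Finset.sum_le_sum ?_
  intro j _
  exact Nat.mul_le_mul_left _ (Nat.lt_succ_iff.1 j.2)

/-- Below degree `q + 1` the ideal of initial forms consists of toric relations. -/
theorem Psi_mem (w M q b : ℕ) (hM : M = q * w + b) (hb : 1 ≤ b)
    (f : MvPolynomial (Fin (w + 1)) k)
    (hf : f ∈ initIdeal k (fun j : Fin (w + 1) => M + (j : ℕ))) :
    Psi k (w + 1) f ∈ Ideal.span {(Polynomial.X : Polynomial (Polynomial k)) ^ (q + 1)} := by
  classical
  have hle : initIdeal k (fun j : Fin (w + 1) => M + (j : ℕ)) ≤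
      (Ideal.span {(Polynomial.X : Polynomial (Polynomial k)) ^ (q + 1)}).comap
        (Psi k (w + 1)).toRingHom := by
    unfold initIdeal
    rw [Ideal.span_le]
    rintro p ⟨f, hf, n, hp, hlow⟩
    have hlow' : ∀ u, coeff u f ≠ 0 → n ≤ u.degree := by
      intro u hu
      by_contra hlt
      push Not at hlt
      have h1 := hlow _ hlt
      have h2 : coeff u (homogeneousComponent u.degree f) = 0 := by rw [h1, coeff_zero]
      rw [coeff_homogeneousComponent, if_pos rfl] at h2
      exact hu h2
    rw [SetLike.mem_coe, Ideal.mem_comap]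
    show Psi k (w + 1) p ∈ _
    rw [Ideal.mem_span_singleton, Polynomial.X_pow_dvd_iff]
    intro d hd
    ext s
    rw [Polynomial.coeff_zero, coeff_Psi]
    by_cases hdn : d = n
    · subst hdn
      by_cases hs : s ≤ d * w
      · have h1 : (aeval (fun i : Fin (w + 1) => (Polynomial.X : Polynomial k) ^ (M + (i : ℕ))) f).coeff
            (d * M + s) = 0 := by
          have : aeval (fun i : Fin (w + 1) => (Polynomial.X : Polynomial k) ^ (M + (i : ℕ))) f = 0 :=
            hf
          rw [this, Polynomial.coeff_zero]
        rw [coeff_aeval_wt k (fun j : Fin (w + 1) => M + (j : ℕ))] at h1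
        rw [← h1]
        have hsets : (p.support.filter (fun u => u.degree = d ∧
            wt (fun j : Fin (w + 1) => (j : ℕ)) u = s)) =
            (f.support.filter (fun u => wt (fun j : Fin (w + 1) => M + (j : ℕ)) u = d * M + s)) := by
          ext u
          rw [Finset.mem_filter, Finset.mem_filter, mem_support_iff, mem_support_iff, hp,
            coeff_homogeneousComponent]
          constructor
          · rintro ⟨h2, h3, h4⟩
            rw [if_pos h3] at h2
            refine ⟨h2, ?_⟩
            rw [wt_shift, h3, h4]
          · rintro ⟨h2, h3⟩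
            rw [wt_shift] at h3
            have h5 := hlow' u h2
            have h6 : u.degree = d := by
              by_contra hne
              have h7 : d + 1 ≤ u.degree := by omega
              have h8 : (d + 1) * M ≤ u.degree * M := Nat.mul_le_mul_right _ h7
              have h9 : (d + 1) * M = d * M + M := by ring
              have h10 : d * w ≤ q * w := Nat.mul_le_mul_right _ (by omega)
              omega
            rw [if_pos h6]
            refine ⟨h2, h6, ?_⟩
            rw [h6] at h3
            omega
        rw [hsets]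
        refine Finset.sum_congr rfl ?_
        intro u hu
        rw [← hsets, Finset.mem_filter] at hu
        rw [hp, coeff_homogeneousComponent, if_pos hu.2.1]
      · rw [Finset.filter_false_of_mem, Finset.sum_empty]
        rintro u - ⟨h3, h4⟩
        have h5 := wt_le w u
        rw [h3, h4] at h5
        exact hs h5
    · rw [Finset.filter_false_of_mem, Finset.sum_empty]
      rintro u hu ⟨h3, -⟩
      rw [mem_support_iff, hp, coeff_homogeneousComponent] at hu
      rw [if_neg (by rw [h3]; exact hdn)] at hu
      exact hu rfl
  exact hle hf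

/-- The exponent vector of the product of two variables. -/
noncomputable def pr (n : ℕ) (z : Sym2 (Fin n)) : Fin (n + 2) →₀ ℕ :=
  Sym2.lift ⟨fun i j => Finsupp.single i.castSucc.succ 1 + Finsupp.single j.castSucc.succ 1,
    fun _ _ => add_comm _ _⟩ z

theorem pr_mk (n : ℕ) (i j : Fin n) : pr n s(i, j) =
    Finsupp.single i.castSucc.succ 1 + Finsupp.single j.castSucc.succ 1 := rfl

theorem pr_degree (n : ℕ) (z : Sym2 (Fin n)) : (pr n z).degree = 2 := by
  induction z using Sym2.ind with
  | _ i j => rw [pr_mk, map_add, Finsupp.degree_single, Finsupp.degree_single]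

theorem pr_zero (n : ℕ) (z : Sym2 (Fin n)) : pr n z 0 = 0 := by
  induction z using Sym2.ind with
  | _ i j =>
    rw [pr_mk, Finsupp.add_apply, Finsupp.single_eq_of_ne (by exact (Fin.succ_ne_zero _).symm),
      Finsupp.single_eq_of_ne (by exact (Fin.succ_ne_zero _).symm), add_zero]

theorem pr_last (n : ℕ) (z : Sym2 (Fin n)) : pr n z (Fin.last (n + 1)) = 0 := by
  have h : ∀ i : Fin n, (i.castSucc.succ : Fin (n + 2)) ≠ Fin.last (n + 1) := by
    intro i hi
    have := congrArg Fin.val hi
    simp at this
    omega
  induction z using Sym2.ind with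
  | _ i j =>
    rw [pr_mk, Finsupp.add_apply, Finsupp.single_eq_of_ne (h i).symm,
      Finsupp.single_eq_of_ne (h j).symm, add_zero]

theorem pr_inj (n : ℕ) : Function.Injective (pr n) := by
  classical
  have hinj : Function.Injective (fun i : Fin n => (i.castSucc.succ : Fin (n + 2))) := by
    intro i j hij
    have := congrArg Fin.val hij
    simp at this
    exact Fin.ext this
  intro z z'
  induction z using Sym2.ind with
  | _ i j =>
    induction z' using Sym2.ind with
    | _ i' j' =>
      intro h
      rw [pr_mk, pr_mk] at h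
      have h2 := (Finsupp.single_add_single_eq_single_add_single one_ne_zero one_ne_zero).1 h
      rw [Sym2.eq_iff]
      rcases h2 with ⟨h3, h4⟩ | ⟨-, h3, h4⟩ | ⟨h5, -, -⟩
      · left; exact ⟨hinj h3, hinj h4⟩
      · right; exact ⟨hinj h3, hinj h4⟩
      · exact absurd h5 (by norm_num)

/-- The functionals. -/
noncomputable def Phi (n q r N : ℕ) :
    MvPolynomial (Fin (n + 2)) k →ₗ[k] (Sym2 (Fin n) ⊕ Fin N → k) where
  toFun f := Sum.elim (fun z => coeff (pr n z) f)
    (fun a => ((Psi k (n + 2) f).coeff (q + 1)).coeff (r + a))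
  map_add' f g := by
    ext τ
    rcases τ with z | a <;> simp
  map_smul' c f := by
    ext τ
    rcases τ with z | a
    · simp
    · simp [map_smul]

theorem Phi_inl (n q r N : ℕ) (f : MvPolynomial (Fin (n + 2)) k) (z : Sym2 (Fin n)) :
    Phi k n q r N f (Sum.inl z) = coeff (pr n z) f := rfl

theorem Phi_inr (n q r N : ℕ) (f : MvPolynomial (Fin (n + 2)) k) (a : Fin N) :
    Phi k n q r N f (Sum.inr a) = ((Psi k (n + 2) f).coeff (q + 1)).coeff (r + a) := rfl

theorem coeff_low (n M q b : ℕ) (hM : M = q * (n + 1) + b) (hb : 1 ≤ b) (hq : 1 ≤ q)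
    (f : MvPolynomial (Fin (n + 2)) k)
    (hf : f ∈ initIdeal k (fun j : Fin (n + 2) => M + (j : ℕ))) (u : Fin (n + 2) →₀ ℕ)
    (hu : u.degree ≤ 1) : coeff u f = 0 := by
  classical
  have h1 := Psi_mem k (n + 1) M q b hM hb f hf
  rw [Ideal.mem_span_singleton, Polynomial.X_pow_dvd_iff] at h1
  have h2 := h1 u.degree (by omega)
  have h3 : ((Psi k (n + 2) f).coeff u.degree).coeff (wt (fun j : Fin (n + 2) => (j : ℕ)) u) = 0 := by
    rw [h2, Polynomial.coeff_zero]
  rw [coeff_Psi] at h3
  by_contra hne
  apply hne
  rw [← h3]
  symm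
  apply Finset.sum_eq_single u
  · intro v hv hvu
    exfalso
    rw [Finset.mem_filter] at hv
    obtain ⟨-, hd, hw⟩ := hv
    apply hvu
    have hcases : u.degree = 0 ∨ u.degree = 1 := by omega
    rcases hcases with h0 | h0
    · rw [Finsupp.degree_eq_zero_iff] at h0
      rw [h0, map_zero, Finsupp.degree_eq_zero_iff] at hd
      rw [hd, h0]
    · rw [h0] at hd
      have h0' : u ∈ {d : Fin (n + 2) →₀ ℕ | d.degree = 1} := h0
      have hd' : v ∈ {d : Fin (n + 2) →₀ ℕ | d.degree = 1} := hd
      rw [← Finsupp.range_single_one] at h0' hd'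
      obtain ⟨i, hi⟩ := h0'
      obtain ⟨j, hj⟩ := hd'
      rw [← hi, ← hj, wt_single, wt_single, one_mul, one_mul] at hw
      rw [← hi, ← hj, Fin.ext hw]
  · intro hnot
    by_contra hne'
    apply hnot
    rw [Finset.mem_filter, mem_support_iff]
    exact ⟨hne', rfl, rfl⟩

theorem interval_lower_aux (n M q b : ℕ) (hM : M = q * (n + 1) + b) (hb : 1 ≤ b)
    (hbw : b ≤ n + 1) (hq : 1 ≤ q) (t : Finset (MvPolynomial (Fin (n + 2)) k))
    (ht : Ideal.span (t : Set (MvPolynomial (Fin (n + 2)) k)) =
      initIdeal k (fun j : Fin (n + 2) => M + (j : ℕ))) :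
    Nat.choose (n + 1) 2 + (n + 1 - b + 1) ≤ t.card := by
  classical
  have hcard : Fintype.card (Sym2 (Fin n) ⊕ Fin (n + 1 - b + 1)) =
      Nat.choose (n + 1) 2 + (n + 1 - b + 1) := by
    rw [Fintype.card_sum, Sym2.card, Fintype.card_fin, Fintype.card_fin]
  rw [← hcard]
  refine card_le_of_span _ (Phi k n q M (n + 1 - b + 1)) ?_ ?_ t ht
  · intro f hf j
    ext τ
    rcases τ with z | a
    · rw [Phi_inl, Pi.zero_apply, coeff_X_mul']
      split_ifs with hj
      · apply coeff_low k n M q b hM hb hq f hf
        have h1 : (pr n z - Finsupp.single j 1) + Finsupp.single j 1 = pr n z := by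
          apply tsub_add_cancel_of_le
          rw [Finsupp.single_le_iff]
          rw [Finsupp.mem_support_iff] at hj
          omega
        have h2 := congrArg Finsupp.degree h1
        rw [map_add, Finsupp.degree_single, pr_degree] at h2
        omega
      · rfl
    · rw [Phi_inr, Pi.zero_apply, map_mul]
      have h1 := Psi_mem k (n + 1) M q b hM hb f hf
      rw [Ideal.mem_span_singleton, Polynomial.X_pow_dvd_iff] at h1
      have h2 : Psi k (n + 2) (X j) = Polynomial.monomial 1 (Polynomial.X ^ (j : ℕ)) := by
        unfold Psi; rw [aeval_X]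
      rw [h2, ← Polynomial.C_mul_X_pow_eq_monomial, pow_one, mul_assoc, Polynomial.coeff_C_mul,
        Polynomial.coeff_X_mul, h1 q (by omega), mul_zero, Polynomial.coeff_zero]
  · -- the elements
    have hker : ∀ (u v : Fin (n + 2) →₀ ℕ),
        wt (fun j : Fin (n + 2) => M + (j : ℕ)) u = wt (fun j : Fin (n + 2) => M + (j : ℕ)) v →
        (monomial u (1 : k)) - monomial v 1 ∈ RingHom.ker (aeval
          (fun i : Fin (n + 2) => (Polynomial.X : Polynomial k) ^ (M + (i : ℕ)))) := by
      intro u v huv
      rw [RingHom.mem_ker]
      show aeval _ _ = _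
      rw [map_sub, aeval_monomial_wt k (fun j : Fin (n + 2) => M + (j : ℕ)),
        aeval_monomial_wt k (fun j : Fin (n + 2) => M + (j : ℕ)), huv, sub_self]
    have hmem1 : ∀ (u v : Fin (n + 2) →₀ ℕ),
        wt (fun j : Fin (n + 2) => M + (j : ℕ)) u = wt (fun j : Fin (n + 2) => M + (j : ℕ)) v →
        u.degree = v.degree →
        (monomial u (1 : k)) - monomial v 1 ∈ initIdeal k (fun j : Fin (n + 2) => M + (j : ℕ)) := by
      intro u v huv hd
      apply Ideal.subset_span
      refine ⟨_, hker u v huv, u.degree, ?_, ?_⟩
      · ext d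
        rw [coeff_homogeneousComponent, coeff_sub, coeff_monomial, coeff_monomial]
        by_cases h : d.degree = u.degree
        · rw [if_pos h]
        · rw [if_neg h, if_neg, if_neg, sub_zero]
          · rintro rfl; exact h hd.symm
          · rintro rfl; exact h rfl
      · intro n' hn'
        ext d
        rw [coeff_homogeneousComponent, coeff_sub, coeff_monomial, coeff_monomial, coeff_zero]
        by_cases h : d.degree = n'
        · rw [if_pos h, if_neg, if_neg, sub_zero]
          · rintro rfl; omega
          · rintro rfl; omega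
        · rw [if_neg h]
    have hmem2 : ∀ (u v : Fin (n + 2) →₀ ℕ),
        wt (fun j : Fin (n + 2) => M + (j : ℕ)) u = wt (fun j : Fin (n + 2) => M + (j : ℕ)) v →
        u.degree < v.degree →
        (monomial u (1 : k)) ∈ initIdeal k (fun j : Fin (n + 2) => M + (j : ℕ)) := by
      intro u v huv hd
      apply Ideal.subset_span
      refine ⟨_, hker u v huv, u.degree, ?_, ?_⟩
      · ext d
        rw [coeff_homogeneousComponent, coeff_sub, coeff_monomial, coeff_monomial]
        by_cases h : d.degree = u.degree
        · have hvd : v ≠ d := by rintro rfl; omega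
          rw [if_pos h, if_neg hvd, sub_zero]
        · rw [if_neg h, if_neg]
          rintro rfl; exact h rfl
      · intro n' hn'
        ext d
        rw [coeff_homogeneousComponent, coeff_sub, coeff_monomial, coeff_monomial, coeff_zero]
        by_cases h : d.degree = n'
        · rw [if_pos h, if_neg, if_neg, sub_zero]
          · rintro rfl; omega
          · rintro rfl; omega
        · rw [if_neg h]
    rintro (z | a)
    · -- quadratic relations
      induction z using Sym2.ind with
      | _ i j =>
        obtain ⟨v, hv1, hv2, hv3⟩ : ∃ v : Fin (n + 2) →₀ ℕ, v.degree = 2 ∧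
            wt (fun j : Fin (n + 2) => (j : ℕ)) v =
              wt (fun j : Fin (n + 2) => (j : ℕ)) (pr n s(i, j)) ∧
            (0 < v 0 ∨ 0 < v (Fin.last (n + 1))) := by
          have hwt : wt (fun j : Fin (n + 2) => (j : ℕ)) (pr n s(i, j)) =
              (i : ℕ) + 1 + ((j : ℕ) + 1) := by
            rw [pr_mk, wt_add, wt_single, wt_single]
            simp
          rw [hwt]
          by_cases h : (i : ℕ) + 1 + ((j : ℕ) + 1) ≤ n + 1
          · refine ⟨Finsupp.single 0 1 + Finsupp.single
              (⟨(i : ℕ) + 1 + ((j : ℕ) + 1), by omega⟩ : Fin (n + 2)) 1, ?_, ?_, ?_⟩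
            · rw [map_add, Finsupp.degree_single, Finsupp.degree_single]
            · rw [wt_add, wt_single, wt_single]
              simp
            · left
              simp
          · have hi := i.2
            have hj := j.2
            refine ⟨Finsupp.single (Fin.last (n + 1)) 1 + Finsupp.single
              (⟨(i : ℕ) + 1 + ((j : ℕ) + 1) - (n + 1), by omega⟩ : Fin (n + 2)) 1, ?_, ?_, ?_⟩
            · rw [map_add, Finsupp.degree_single, Finsupp.degree_single]
            · rw [wt_add, wt_single, wt_single]
              simp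
              omega
            · right
              simp
        have hne : ∀ z', v ≠ pr n z' := by
          rintro z' rfl
          rcases hv3 with h | h
          · rw [pr_zero] at h; omega
          · rw [pr_last] at h; omega
        refine ⟨monomial (pr n s(i, j)) 1 - monomial v 1, ?_, ?_⟩
        · apply hmem1
          · rw [wt_shift, wt_shift, hv1, hv2, pr_degree]
          · rw [pr_degree, hv1]
        · ext τ
          rcases τ with z' | a
          · rw [Phi_inl, coeff_sub, coeff_monomial, coeff_monomial, if_neg (hne z'), sub_zero]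
            by_cases h : s(i, j) = z'
            · rw [if_pos (by rw [h]), h, Pi.single_eq_same]
            · rw [if_neg (fun h' => h (pr_inj n h')), Pi.single_eq_of_ne]
              intro h'
              exact h (Sum.inl.inj h').symm
          · rw [Phi_inr, map_sub, Psi_monomial, Psi_monomial, hv1, hv2, pr_degree, sub_self,
              Polynomial.coeff_zero, Polynomial.coeff_zero, Pi.single_eq_of_ne]
            exact fun h => by cases h
    · -- monomials
      have ha := a.2
      have hmax : b + (a : ℕ) < n + 2 := by omega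
      have hmax2 : (a : ℕ) < n + 2 := by omega
      refine ⟨monomial (Finsupp.single (Fin.last (n + 1)) q +
        Finsupp.single (⟨b + a, hmax⟩ : Fin (n + 2)) 1) 1, ?_, ?_⟩
      · apply hmem2 _ (Finsupp.single 0 (q + 1) + Finsupp.single (⟨a, hmax2⟩ : Fin (n + 2)) 1)
        · rw [wt_add, wt_add, wt_single, wt_single, wt_single, wt_single]
          simp only [Fin.val_last, Fin.val_zero]
          rw [hM]
          ring
        · rw [map_add, map_add, Finsupp.degree_single, Finsupp.degree_single,
            Finsupp.degree_single, Finsupp.degree_single]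
          omega
      · ext τ
        rcases τ with z' | a'
        · rw [Phi_inl, coeff_monomial, if_neg, Pi.single_eq_of_ne]
          · exact fun h => by cases h
          · intro h
            have h2 := DFunLike.congr_fun h (Fin.last (n + 1))
            rw [pr_last, Finsupp.add_apply, Finsupp.single_eq_same] at h2
            omega
        · rw [Phi_inr, Psi_monomial]
          have hd : (Finsupp.single (Fin.last (n + 1)) q +
              Finsupp.single (⟨b + a, hmax⟩ : Fin (n + 2)) 1).degree = q + 1 := by
            rw [map_add, Finsupp.degree_single, Finsupp.degree_single]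
          have hw : wt (fun j : Fin (n + 2) => (j : ℕ)) (Finsupp.single (Fin.last (n + 1)) q +
              Finsupp.single (⟨b + a, hmax⟩ : Fin (n + 2)) 1) = M + a := by
            rw [wt_add, wt_single, wt_single]
            simp only [Fin.val_last]
            rw [hM]
            ring
          rw [hd, hw, Polynomial.coeff_monomial, if_pos rfl, Polynomial.coeff_monomial]
          by_cases h : (a' : ℕ) = a
          · rw [if_pos (by rw [h])]
            have h' : a' = a := Fin.ext h
            rw [h', Pi.single_eq_same]
          · rw [if_neg (by omega), Pi.single_eq_of_ne]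
            intro h'
            exact h (congrArg Fin.val (Sum.inr.inj h'))

/-- **The lower bound.** -/
theorem interval_lower (m M w q b : ℕ) (hm : m = w + 1) (hw : 1 ≤ w) (hM : M = q * w + b)
    (hb : 1 ≤ b) (hbw : b ≤ w) (hq : 1 ≤ q) (t : Finset (MvPolynomial (Fin m) k))
    (ht : Ideal.span (t : Set (MvPolynomial (Fin m) k)) =
      initIdeal k (fun j : Fin m => M + (j : ℕ))) :
    Nat.choose w 2 + (w - b + 1) ≤ t.card := by
  obtain ⟨n, rfl⟩ : ∃ n, w = n + 1 := ⟨w - 1, by omega⟩
  subst hm
  exact interval_lower_aux k n M q b hM hb hbw hq t ht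

end Interval

end Pool.Agent.Lib.MP_a2efaf_al
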