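import Pool.Agent.Lib.MP_a2efaf_al.NCan

/-!
# Narrow case: the exponent vectors not handled by the generator principle
-/

set_option autoImplicit false

namespace Pool.Agent.Lib.MP_a2efaf_al.Nar

variable {N : ℕ}

/-- Some `u / x_i` is not of maximal length. -/
def Dead (g : Fin (N + 1) → ℕ) (u : Fin (N + 1) →₀ ℕ) : Prop :=
  ∃ i, 0 < u i ∧ ∃ v : Fin (N + 1) →₀ ℕ, wt g v + g i = wt g u ∧ u.degree ≤ v.degree

/-- The relation of the generator principle. -/
def rr (g : Fin (N + 1) → ℕ) (u' u : Fin (N + 1) →₀ ℕ) : Prop :=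
  wt g u' = wt g u ∧ ((Dead g u' ∧ ¬ Dead g u) ∨ ((Dead g u' ↔ Dead g u) ∧ key u < key u'))

/-- `u` is bad: not canonical, not dead and without a smaller exponent vector of the same degree and
weight sharing a letter. -/
def Bad (g : Fin (N + 1) → ℕ) (can : ℕ → (Fin (N + 1) →₀ ℕ)) (u : Fin (N + 1) →₀ ℕ) : Prop :=
  u ≠ can (wt g u) ∧ ¬ Dead g u ∧ ∀ u' : Fin (N + 1) →₀ ℕ, u'.degree = u.degree →
    wt g u' = wt g u → (∃ i, 0 < u i ∧ 0 < u' i) → ¬ rr g u' u

variable {g : Fin (N + 1) → ℕ} {can : ℕ → (Fin (N + 1) →₀ ℕ)}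

theorem nbad_sub {u : Fin (N + 1) →₀ ℕ} {i : Fin (N + 1)} (hi : 0 < u i) :
    (u - Finsupp.single i 1) + Finsupp.single i 1 = u := by
  apply tsub_add_cancel_of_le
  rw [Finsupp.single_le_iff]
  exact hi

theorem nbad_deg {u : Fin (N + 1) →₀ ℕ} {i : Fin (N + 1)} (hi : 0 < u i) :
    (u - Finsupp.single i 1).degree + 1 = u.degree := by
  conv_rhs => rw [← nbad_sub hi]
  rw [map_add, Finsupp.degree_single]

theorem nbad_wt {u : Fin (N + 1) →₀ ℕ} {i : Fin (N + 1)} (hi : 0 < u i) :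
    wt g (u - Finsupp.single i 1) + g i = wt g u := by
  conv_rhs => rw [← nbad_sub hi]
  rw [wt_add, wt_single, one_mul]

theorem nbad_irrefl (u : Fin (N + 1) →₀ ℕ) : ¬ rr g u u := by
  rintro ⟨-, ⟨h1, h2⟩ | ⟨-, h⟩⟩
  · exact h2 h1
  · exact lt_irrefl _ h

theorem nbad_trans {u v w : Fin (N + 1) →₀ ℕ} (h1 : rr g u v) (h2 : rr g v w) : rr g u w := by
  refine ⟨h1.1.trans h2.1, ?_⟩
  rcases h1.2 with ⟨a, b⟩ | ⟨a, b⟩ <;> rcases h2.2 with ⟨c, d⟩ | ⟨c, d⟩
  · exact absurd c b
  · exact Or.inl ⟨a, fun h => b (c.mpr h)⟩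
  · exact Or.inl ⟨a.mpr c, d⟩
  · exact Or.inr ⟨a.trans c, d.trans b⟩

/-- `rr` is a strict order on the finite sets `{u | wt g u = s}` (`finite_wt`), so it is
well founded (measure: the number of `rr`-smaller elements). -/
theorem rr_wf (hg : Ng g) : WellFounded (rr g) := by
  refine Subrelation.wf (r := fun u' u => {v | rr g v u'}.ncard < {v | rr g v u}.ncard) ?_
    (measure (fun u : Fin (N + 1) →₀ ℕ => {v | rr g v u}.ncard)).wf
  intro u' u h
  refine Set.ncard_lt_ncard ?_ ?_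
  · refine ⟨fun v hv => nbad_trans hv h, ?_⟩
    intro hsub
    exact nbad_irrefl u' (hsub h)
  · exact (finite_wt hg (wt g u)).subset (fun v hv => hv.1)

/-- `gen_principle` with `r = rr g`. -/
theorem gen_bad (k : Type) [Field k] (hg : Ng g) (hc : IsCanN g can)
    (V : Finset (Fin (N + 1) →₀ ℕ)) (hV : ∀ u, Bad g can u → u ∈ V) :
    ∃ s : Finset (MvPolynomial (Fin (N + 1)) k), s.card ≤ V.card ∧
      Ideal.span (s : Set (MvPolynomial (Fin (N + 1)) k)) = initIdeal k g := by
  refine gen_principle k g can (rr g) (rr_wf hg) (fun u => ⟨hc.wt_can u, hc.deg_le u⟩) V ?_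
  intro u
  by_cases h1 : u = can (wt g u)
  · exact Or.inl h1
  by_cases h2 : u ∈ V
  · exact Or.inr (Or.inl h2)
  by_cases h3 : Dead g u
  · exact Or.inr (Or.inr (Or.inr h3))
  refine Or.inr (Or.inr (Or.inl ?_))
  by_contra hno
  refine h2 (hV u ⟨h1, h3, ?_⟩)
  intro u' hdeg hwt hsh hr
  exact hno ⟨u', hr, hdeg, hwt, hsh⟩

/-- All `u / x_i` are canonical: `u / x_i` is of maximal length (not dead); if it is not
`c1 = can (wt (u / x_i))` then `key (u / x_i) < key c1` and `u' = x_i + c1` has `rr u' u`. -/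
theorem Bad.div (hg : Ng g) (hc : IsCanN g can) {u : Fin (N + 1) →₀ ℕ} (hu : Bad g can u)
    {i : Fin (N + 1)} (hi : 0 < u i) :
    u - Finsupp.single i 1 = can (wt g (u - Finsupp.single i 1)) := by
  by_contra hne
  set w := u - Finsupp.single i 1 with hw
  have hwu : w + Finsupp.single i 1 = u := nbad_sub hi
  have hwd : w.degree + 1 = u.degree := nbad_deg hi
  have hww : wt g w + g i = wt g u := nbad_wt hi
  have h1 := hc.wt_can w
  have h2 := hc.deg_le w
  set c := can (wt g w) with hcdef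
  have h3 : ¬ u.degree ≤ c.degree := by
    intro h
    exact hu.2.1 ⟨i, hi, c, by rw [h1, hww], h⟩
  have h4 : w.degree = c.degree := by omega
  have h5 : key w ≤ key c := hc.key_le w h4
  have h6 : key w < key c := lt_of_le_of_ne h5 (fun h => hne (key_inj h))
  have h7 : key u < key (c + Finsupp.single i 1) := by
    rw [← hwu]
    exact key_add_lt h6 _
  have h8 : wt g (c + Finsupp.single i 1) = wt g u := by
    rw [wt_add, wt_single, one_mul, h1, hww]
  have h9 : (c + Finsupp.single i 1).degree = u.degree := by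
    rw [map_add, Finsupp.degree_single, ← h4, hwd]
  refine hu.2.2 (c + Finsupp.single i 1) h9 h8 ⟨i, hi, by simp⟩ ⟨h8, ?_⟩
  by_cases hd : Dead g (c + Finsupp.single i 1)
  · exact Or.inl ⟨hd, hu.2.1⟩
  · exact Or.inr ⟨⟨fun h => absurd h hd, fun h => absurd h hu.2.1⟩, h7⟩

/-- `deg u ≥ 2` (`can_zero`, `can_single`). -/
theorem Bad.two_le (hg : Ng g) (hc : IsCanN g can) {u : Fin (N + 1) →₀ ℕ} (hu : Bad g can u) :
    2 ≤ u.degree := by
  by_contra hlt
  have h : u = 0 ∨ ∃ i, 0 < u i := by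
    by_cases h : ∃ i, 0 < u i
    · exact Or.inr h
    · left
      push Not at h
      ext i
      have := h i
      simpa using this
  rcases h with rfl | ⟨i, hi⟩
  · exact hu.1 (can_zero hg hc)
  · have hd := nbad_deg hi
    have h0 : (u - Finsupp.single i 1).degree = 0 := by omega
    have h1 : u - Finsupp.single i 1 = 0 := (Finsupp.degree_eq_zero_iff _).mp h0
    have h2 := nbad_sub hi
    rw [h1, zero_add] at h2
    exact hu.1 (by rw [← h2]; exact can_single hg hc i)

/-- If `x_0 | u` then `u` is not of maximal length: otherwise `z = can (wt u)` has `key u ≤ key z`, so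
`0 < z 0` and `z / x_0` is canonical of the weight of `u / x_0` (which is canonical), so `z = u`. -/
theorem Bad.deg_lt (hg : Ng g) (hc : IsCanN g can) {u : Fin (N + 1) →₀ ℕ} (hu : Bad g can u)
    (h0 : 0 < u 0) : u.degree < (can (wt g u)).degree := by
  by_contra hlt
  have h1 := hc.deg_le u
  have h2 : u.degree = (can (wt g u)).degree := by omega
  have h3 := key_zero (hc.key_le u h2)
  have h4 := hc.wt_can u
  set z := can (wt g u) with hz
  have hz0 : 0 < z 0 := lt_of_lt_of_le h0 h3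
  have hzc : z = can (wt g z) := by rw [h4]
  have h5 : z - Finsupp.single 0 1 = can (wt g (z - Finsupp.single 0 1)) :=
    hc.sub hzc tsub_le_self
  have h6 := hu.div hg hc h0
  have h7 : wt g (z - Finsupp.single 0 1) = wt g (u - Finsupp.single 0 1) := by
    have a := nbad_wt (g := g) hz0
    have b := nbad_wt (g := g) h0
    omega
  have h8 : z - Finsupp.single 0 1 = u - Finsupp.single 0 1 := by
    rw [h5, h7, ← h6]
  apply hu.1
  rw [← hz, ← nbad_sub h0, ← nbad_sub hz0, h8]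

/-- `can (wt u)` does not contain `x_0` (`u / x_0` is of maximal length). -/
theorem Bad.z_zero (hg : Ng g) (hc : IsCanN g can) {u : Fin (N + 1) →₀ ℕ} (hu : Bad g can u)
    (h0 : 0 < u 0) : (can (wt g u)) 0 = 0 := by
  by_contra hne
  have hz0 : 0 < (can (wt g u)) 0 := Nat.pos_of_ne_zero hne
  have h1 := hu.deg_lt hg hc h0
  have h2 := nbad_deg hz0
  refine hu.2.1 ⟨0, h0, can (wt g u) - Finsupp.single 0 1, ?_, ?_⟩
  · rw [nbad_wt hz0, hc.wt_can]
  · omega

/-- Disjointness: if `x_l | can (wt u)`, `l ≠ 0`, then no factorization `c'` of `wt u - g 0` of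
degree `deg u - 1` contains `x_l`: otherwise `u' = x_0 + c'` shares `x_0` with `u`, has the same degree and
weight and is dead (`i = l`, `v = can (wt u) / x_l`). -/
theorem Bad.disj (hg : Ng g) (hc : IsCanN g can) {u : Fin (N + 1) →₀ ℕ} (hu : Bad g can u)
    (h0 : 0 < u 0) {l : Fin (N + 1)} (hl : l ≠ 0) (hz : 0 < (can (wt g u)) l)
    {c' : Fin (N + 1) →₀ ℕ} (h1 : c'.degree + 1 = u.degree) (h2 : wt g c' + g 0 = wt g u) :
    c' l = 0 := by
  by_contra hne
  have hcl : 0 < c' l := Nat.pos_of_ne_zero hne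
  have hlt := hu.deg_lt hg hc h0
  have hd := nbad_deg hz
  have hw := nbad_wt (g := g) hz
  have h8 : wt g (c' + Finsupp.single 0 1) = wt g u := by
    rw [wt_add, wt_single, one_mul, h2]
  have h9 : (c' + Finsupp.single 0 1).degree = u.degree := by
    rw [map_add, Finsupp.degree_single, h1]
  refine hu.2.2 (c' + Finsupp.single 0 1) h9 h8 ⟨0, h0, by simp⟩ ⟨h8, Or.inl ⟨?_, hu.2.1⟩⟩
  refine ⟨l, ?_, can (wt g u) - Finsupp.single l 1, ?_, ?_⟩
  · simp only [Finsupp.add_apply]
    omega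
  · rw [hw, h8, hc.wt_can]
  · rw [h9]
    omega

end Pool.Agent.Lib.MP_a2efaf_al.Nar
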