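import Pool.Agent.Lib.MP_a2efaf_al.Gen

/-!
# Narrow case: canonical factorizations

Letters: `0`, `Fin.last N` and the inner letters. The canonical factorization of a number is the one of
maximal length with the largest `key`: most copies of `g 0`, then most copies of the last generator,
then lexicographically largest.
-/

set_option autoImplicit false

namespace Pool.Agent.Lib.MP_a2efaf_al.Nar

variable {N : ℕ}

/-- Generators `g 0 < ... < g N < 2 g 0`, at least two of them. -/
structure Ng (g : Fin (N + 1) → ℕ) : Prop where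
  mono : StrictMono g
  pos : 0 < g 0
  one : 1 ≤ N
  lt : g (Fin.last N) < 2 * g 0

/-- The width. -/
def ww (g : Fin (N + 1) → ℕ) : ℕ := g (Fin.last N) - g 0

/-- The value of an exponent vector with respect to the letters `g i - g 0`. -/
noncomputable def val (g : Fin (N + 1) → ℕ) (u : Fin (N + 1) →₀ ℕ) : ℕ := wt (fun i => g i - g 0) u

/-- The comparison key. -/
noncomputable def key (u : Fin (N + 1) →₀ ℕ) : ℕ ×ₗ (ℕ ×ₗ Lex (Fin (N + 1) →₀ ℕ)) :=
  toLex (u 0, toLex (u (Fin.last N), toLex u))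

/-- Homogeneous canonical: the largest key among the exponent vectors of the same degree and weight. -/
def Hc (g : Fin (N + 1) → ℕ) (v : Fin (N + 1) →₀ ℕ) : Prop :=
  ∀ u : Fin (N + 1) →₀ ℕ, u.degree = v.degree → wt g u = wt g v → key u ≤ key v

/-- Inner homogeneous canonical exponent vectors. -/
structure BB (g : Fin (N + 1) → ℕ) (v : Fin (N + 1) →₀ ℕ) : Prop where
  hc : Hc g v
  zero : v 0 = 0
  last : v (Fin.last N) = 0
  ne : v ≠ 0

/-- `can s` is the canonical factorization of `s`. -/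
structure IsCanN (g : Fin (N + 1) → ℕ) (can : ℕ → (Fin (N + 1) →₀ ℕ)) : Prop where
  wt_can : ∀ u : Fin (N + 1) →₀ ℕ, wt g (can (wt g u)) = wt g u
  deg_le : ∀ u : Fin (N + 1) →₀ ℕ, u.degree ≤ (can (wt g u)).degree
  key_le : ∀ u : Fin (N + 1) →₀ ℕ, u.degree = (can (wt g u)).degree → key u ≤ key (can (wt g u))

/-- Inner canonical exponent vectors. -/
structure OO (g : Fin (N + 1) → ℕ) (can : ℕ → (Fin (N + 1) →₀ ℕ)) (v : Fin (N + 1) →₀ ℕ) :
    Prop where
  can : v = can (wt g v)
  zero : v 0 = 0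
  last : v (Fin.last N) = 0
  ne : v ≠ 0

variable {g : Fin (N + 1) → ℕ} {can : ℕ → (Fin (N + 1) →₀ ℕ)}

theorem Ng.le (hg : Ng g) (i : Fin (N + 1)) : g 0 ≤ g i ∧ g i ≤ g (Fin.last N) :=
  ⟨hg.mono.monotone (Fin.zero_le i), hg.mono.monotone (Fin.le_last i)⟩

/-- The width is positive and less than `g 0`. -/
theorem Ng.ww_pos (hg : Ng g) : 0 < ww g ∧ ww g < g 0 := by
  have h1 : g 0 < g (Fin.last N) := by
    apply hg.mono
    have := hg.one
    rw [Fin.lt_def]
    simp only [Fin.val_zero, Fin.val_last]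
    omega
  have h2 := hg.lt
  unfold ww
  constructor <;> omega

theorem val_add (u v : Fin (N + 1) →₀ ℕ) : val g (u + v) = val g u + val g v := wt_add _ u v

theorem val_single (i : Fin (N + 1)) (n : ℕ) : val g (Finsupp.single i n) = n * (g i - g 0) :=
  wt_single _ i n

theorem wt_eq (hg : Ng g) (u : Fin (N + 1) →₀ ℕ) : wt g u = u.degree * g 0 + val g u := by
  unfold val wt
  rw [Finsupp.degree_eq_sum, Finset.sum_mul, ← Finset.sum_add_distrib]
  refine Finset.sum_congr rfl ?_
  intro i _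
  rw [← mul_add]
  congr 1
  have := (hg.le i).1
  show g i = g 0 + (g i - g 0)
  omega

theorem val_le (hg : Ng g) (u : Fin (N + 1) →₀ ℕ) : val g u ≤ u.degree * ww g := by
  unfold val wt
  rw [Finsupp.degree_eq_sum, Finset.sum_mul]
  refine Finset.sum_le_sum ?_
  intro i _
  refine Nat.mul_le_mul_left _ ?_
  have := hg.le i
  unfold ww
  show g i - g 0 ≤ g (Fin.last N) - g 0
  omega

theorem key_inj {u v : Fin (N + 1) →₀ ℕ} (h : key u = key v) : u = v := by
  unfold key at h
  have h1 := toLex.injective h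
  have h2 := toLex.injective (Prod.ext_iff.mp h1).2
  exact toLex.injective (Prod.ext_iff.mp h2).2

theorem ncan_key_lt {u v : Fin (N + 1) →₀ ℕ} : key u < key v ↔
    u 0 < v 0 ∨ (u 0 = v 0 ∧ (u (Fin.last N) < v (Fin.last N) ∨
      (u (Fin.last N) = v (Fin.last N) ∧ toLex u < toLex v))) := by
  unfold key
  rw [Prod.Lex.toLex_lt_toLex, Prod.Lex.toLex_lt_toLex]

theorem key_add_lt {u v : Fin (N + 1) →₀ ℕ} (h : key u < key v) (x : Fin (N + 1) →₀ ℕ) :
    key (u + x) < key (v + x) := by
  rw [ncan_key_lt] at h ⊢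
  simp only [Finsupp.add_apply]
  rcases h with h | ⟨h0, h | ⟨h1, h2⟩⟩
  · left; omega
  · right; exact ⟨by omega, Or.inl (by omega)⟩
  · right
    refine ⟨by omega, Or.inr ⟨by omega, ?_⟩⟩
    rw [toLex_add, toLex_add]
    exact add_lt_add_left h2 _

theorem key_add_le {u v : Fin (N + 1) →₀ ℕ} (h : key u ≤ key v) (x : Fin (N + 1) →₀ ℕ) :
    key (u + x) ≤ key (v + x) := by
  rcases lt_or_eq_of_le h with h | h
  · exact (key_add_lt h x).le
  · rw [key_inj h]

theorem key_zero {u v : Fin (N + 1) →₀ ℕ} (h : key u ≤ key v) : u 0 ≤ v 0 := by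
  by_contra hlt
  push Not at hlt
  exact absurd (ncan_key_lt.mpr (Or.inl hlt)) (not_lt.mpr h)

theorem key_last {u v : Fin (N + 1) →₀ ℕ} (h : key u ≤ key v) (h0 : u 0 = v 0) :
    u (Fin.last N) ≤ v (Fin.last N) := by
  by_contra hlt
  push Not at hlt
  exact absurd (ncan_key_lt.mpr (Or.inr ⟨h0.symm, Or.inl hlt⟩)) (not_lt.mpr h)

/-- The factorizations of a number form a finite set. -/
theorem finite_wt (hg : Ng g) (s : ℕ) : {u : Fin (N + 1) →₀ ℕ | wt g u = s}.Finite := by
  refine Set.Finite.subset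
    (Set.finite_Iic (Finsupp.equivFunOnFinite.symm (fun _ : Fin (N + 1) => s))) ?_
  intro u hu i
  have hu' : wt g u = s := hu
  have h1 : u i * g i ≤ wt g u := by
    unfold wt
    exact Finset.single_le_sum (f := fun i => u i * g i) (fun _ _ => Nat.zero_le _)
      (Finset.mem_univ i)
  have h2 : 0 < g i := lt_of_lt_of_le hg.pos (hg.le i).1
  have h3 : u i ≤ u i * g i := Nat.le_mul_of_pos_right _ h2
  show u i ≤ s
  omega

theorem exists_can (hg : Ng g) : ∃ can : ℕ → (Fin (N + 1) →₀ ℕ), IsCanN g can := by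
  classical
  have key1 : ∀ s : ℕ, ∃ c : Fin (N + 1) →₀ ℕ, ∀ u : Fin (N + 1) →₀ ℕ, wt g u = s →
      wt g c = s ∧ toLex (u.degree, key u) ≤ toLex (c.degree, key c) := by
    intro s
    by_cases hne : {u : Fin (N + 1) →₀ ℕ | wt g u = s}.Nonempty
    · obtain ⟨c, hc, hmax⟩ := Set.exists_max_image {u : Fin (N + 1) →₀ ℕ | wt g u = s}
        (fun u => toLex (u.degree, key u)) (finite_wt hg s) hne
      exact ⟨c, fun u hu => ⟨hc, hmax u hu⟩⟩
    · refine ⟨0, fun u hu => absurd ⟨u, hu⟩ hne⟩
  choose can hcan using key1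
  refine ⟨can, ⟨fun u => (hcan _ u rfl).1, fun u => ?_, fun u hu => ?_⟩⟩
  · have h := (hcan _ u rfl).2
    rw [Prod.Lex.toLex_le_toLex] at h
    rcases h with h | h
    · exact h.le
    · exact h.1.le
  · have h := (hcan _ u rfl).2
    rw [Prod.Lex.toLex_le_toLex] at h
    rcases h with h | h
    · exact absurd hu h.ne
    · exact h.2

theorem exists_Hc (hg : Ng g) (u : Fin (N + 1) →₀ ℕ) :
    ∃ v, Hc g v ∧ v.degree = u.degree ∧ wt g v = wt g u := by
  obtain ⟨v, hv, hmax⟩ := Set.exists_max_image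
    {v : Fin (N + 1) →₀ ℕ | wt g v = wt g u ∧ v.degree = u.degree} key
    ((finite_wt hg (wt g u)).subset (fun v hv => hv.1)) ⟨u, rfl, rfl⟩
  refine ⟨v, ?_, hv.2, hv.1⟩
  intro x hx1 hx2
  exact hmax x ⟨hx2.trans hv.1, hx1.trans hv.2⟩

/-- Divisors of homogeneous canonical exponent vectors are homogeneous canonical: if `x` beats `u ≤ v`
then `x + (v - u)` beats `v`. -/
theorem Hc.sub {u v : Fin (N + 1) →₀ ℕ} (hv : Hc g v) (h : u ≤ v) : Hc g u := by
  intro x hx1 hx2
  have hr : u + (v - u) = v := add_tsub_cancel_of_le h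
  by_contra hlt
  push Not at hlt
  have h1 := key_add_lt hlt (v - u)
  rw [hr] at h1
  have h2 := hv (x + (v - u))
    (by rw [map_add, hx1, ← map_add, hr])
    (by rw [wt_add, hx2, ← wt_add, hr])
  exact absurd h1 (not_lt.mpr h2)

theorem Hc.unique {u v : Fin (N + 1) →₀ ℕ} (hu : Hc g u) (hv : Hc g v)
    (h1 : u.degree = v.degree) (h2 : wt g u = wt g v) : u = v :=
  key_inj (le_antisymm (hv u h1 h2) (hu v h1.symm h2.symm))

theorem BB.sub {u v : Fin (N + 1) →₀ ℕ} (hv : BB g v) (h : u ≤ v) (hne : u ≠ 0) : BB g u := by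
  refine ⟨hv.hc.sub h, ?_, ?_, hne⟩
  · have h1 := h 0
    rw [hv.zero] at h1
    omega
  · have h1 := h (Fin.last N)
    rw [hv.last] at h1
    omega

/-- An inner homogeneous canonical `v` has no other representation using the letters `0` or last. -/
theorem BB.no {u v : Fin (N + 1) →₀ ℕ} (hv : BB g v) (h1 : u.degree = v.degree)
    (h2 : wt g u = wt g v) : u 0 = 0 ∧ u (Fin.last N) = 0 := by
  have h := hv.hc u h1 h2
  have h3 := key_zero h
  rw [hv.zero] at h3
  have h4 : u 0 = 0 := by omega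
  have h5 := key_last h (by rw [h4, hv.zero])
  rw [hv.last] at h5
  exact ⟨h4, by omega⟩

theorem IsCanN.hc (hc : IsCanN g can) {v : Fin (N + 1) →₀ ℕ} (hv : v = can (wt g v)) :
    Hc g v := by
  intro u h1 h2
  have h3 : can (wt g u) = v := by rw [h2, ← hv]
  have h4 := hc.key_le u (by rw [h3, h1])
  rwa [h3] at h4

/-- A divisor of a canonical factorization is canonical. -/
theorem IsCanN.sub (hc : IsCanN g can) {u v : Fin (N + 1) →₀ ℕ} (hv : v = can (wt g v))
    (h : u ≤ v) : u = can (wt g u) := by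
  have hr : u + (v - u) = v := add_tsub_cancel_of_le h
  have hw : wt g (can (wt g u) + (v - u)) = wt g v := by
    rw [wt_add, hc.wt_can, ← wt_add, hr]
  have hd := hc.deg_le (can (wt g u) + (v - u))
  rw [hw, ← hv, map_add] at hd
  have hd2 := hc.deg_le u
  have hd3 : v.degree = u.degree + (v - u).degree := by rw [← map_add, hr]
  have hdeg : u.degree = (can (wt g u)).degree := by omega
  have h1 := hc.key_le u hdeg
  refine key_inj (le_antisymm h1 ?_)
  have h2 := (hc.hc hv).sub h (can (wt g u)) hdeg.symm (hc.wt_can u)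
  exact h2

/-- A divisor of a factorization of maximal length is of maximal length. -/
theorem IsCanN.deg_sub (hc : IsCanN g can) {u v : Fin (N + 1) →₀ ℕ}
    (hv : v.degree = (can (wt g v)).degree) (h : u ≤ v) : u.degree = (can (wt g u)).degree := by
  have hr : u + (v - u) = v := add_tsub_cancel_of_le h
  have hw : wt g (can (wt g u) + (v - u)) = wt g v := by
    rw [wt_add, hc.wt_can, ← wt_add, hr]
  have hd := hc.deg_le (can (wt g u) + (v - u))
  rw [hw, ← hv, map_add] at hd
  have hd2 := hc.deg_le u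
  have hd3 : v.degree = u.degree + (v - u).degree := by rw [← map_add, hr]
  omega

theorem OO.bb (hc : IsCanN g can) {v : Fin (N + 1) →₀ ℕ} (hv : OO g can v) : BB g v :=
  ⟨hc.hc hv.can, hv.zero, hv.last, hv.ne⟩

theorem OO.sub (hc : IsCanN g can) {u v : Fin (N + 1) →₀ ℕ} (hv : OO g can v) (h : u ≤ v)
    (hne : u ≠ 0) : OO g can u := by
  have hb := (hv.bb hc).sub h hne
  exact ⟨hc.sub hv.can h, hb.zero, hb.last, hne⟩

/-- `0` and the letters are canonical (`g i < 2 * g 0`, and `g` is injective). -/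
theorem can_zero (hg : Ng g) (hc : IsCanN g can) : (0 : Fin (N + 1) →₀ ℕ) = can (wt g 0) := by
  have h := hc.wt_can 0
  have h0 : wt g (0 : Fin (N + 1) →₀ ℕ) = 0 := wt_zero g
  have h1 := wt_eq hg (can (wt g 0))
  rw [h, h0] at h1
  have h2 : (can (wt g 0)).degree * g 0 = 0 := by rw [h0]; omega
  have h3 : (can (wt g 0)).degree = 0 := by
    rcases Nat.mul_eq_zero.mp h2 with h | h
    · exact h
    · exact absurd h hg.pos.ne'
  exact ((Finsupp.degree_eq_zero_iff _).mp h3).symm

theorem can_single (hg : Ng g) (hc : IsCanN g can) (i : Fin (N + 1)) :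
    Finsupp.single i 1 = can (wt g (Finsupp.single i 1)) := by
  have h := hc.wt_can (Finsupp.single i 1)
  have hd := hc.deg_le (Finsupp.single i 1)
  rw [Finsupp.degree_single] at hd
  generalize can (wt g (Finsupp.single i 1)) = c at h hd
  have hw : wt g (Finsupp.single i 1) = g i := by rw [wt_single, one_mul]
  rw [hw] at h
  have h1 := wt_eq hg c
  have h2 := hg.lt
  have h3 := (hg.le i).2
  have h4 : c.degree < 2 := by
    by_contra hge
    push Not at hge
    have h5 : 2 * g 0 ≤ c.degree * g 0 := Nat.mul_le_mul_right _ hge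
    omega
  have h5 : c.degree = 1 := by omega
  have hne : c ≠ 0 := by
    intro h0
    rw [h0, map_zero] at h5
    omega
  obtain ⟨j, hj⟩ := Finsupp.ne_iff.mp hne
  have hj' : Finsupp.single j 1 ≤ c := by
    rw [Finsupp.single_le_iff]
    have : c j ≠ 0 := hj
    omega
  have hr : Finsupp.single j 1 + (c - Finsupp.single j 1) = c := add_tsub_cancel_of_le hj'
  have hr2 : (c - Finsupp.single j 1).degree = 0 := by
    have h7 : c.degree = (Finsupp.single j 1).degree + (c - Finsupp.single j 1).degree := by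
      rw [← map_add, hr]
    rw [Finsupp.degree_single] at h7
    omega
  rw [(Finsupp.degree_eq_zero_iff _).mp hr2, add_zero] at hr
  rw [← hr, wt_single, one_mul] at h
  have h6 : j = i := hg.mono.injective h
  rw [← hr, h6]

end Pool.Agent.Lib.MP_a2efaf_al.Nar
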