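import Mathlib

/-!
# Narrow case: combinatorics of antichains, and a summation lemma
-/

set_option autoImplicit false

namespace Pool.Agent.Lib.MP_a2efaf_al.Nar

section

variable {α : Type}

private lemma ncomb_le_range (C : Finset α) (p : α → ℕ) (hp : Set.InjOn p C) (a b : ℕ)
    (h : ∀ v ∈ C, a ≤ p v ∧ p v < b) : C.card ≤ b - a := by
  classical
  rw [← Nat.card_Ico, ← Finset.card_image_of_injOn hp]
  apply Finset.card_le_card
  intro x hx
  rw [Finset.mem_image] at hx
  obtain ⟨v, hv, rfl⟩ := hx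
  rw [Finset.mem_Ico]
  exact h v hv

private theorem ncomb_pair_card (B : Finset α) (p q : α → ℕ) (p0 q0 : ℕ)
    (hp : Set.InjOn p B) (hq : Set.InjOn q B)
    (hw : ∀ v ∈ B, p v < p0 ∨ q v < q0 ∨ (p v = p0 ∧ q v = q0)) :
    B.card ≤ p0 + q0 + 1 := by
  classical
  have h1 : B ⊆ (B.filter (fun v => p v < p0) ∪ B.filter (fun v => q v < q0)) ∪
      B.filter (fun v => p v = p0 ∧ q v = q0) := by
    intro v hv
    rw [Finset.mem_union, Finset.mem_union, Finset.mem_filter, Finset.mem_filter,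
      Finset.mem_filter]
    rcases hw v hv with h | h | h
    · exact Or.inl (Or.inl ⟨hv, h⟩)
    · exact Or.inl (Or.inr ⟨hv, h⟩)
    · exact Or.inr ⟨hv, h⟩
  have h2 : (B.filter (fun v => p v < p0)).card ≤ p0 - 0 :=
    ncomb_le_range _ p (hp.mono (by intro x hx; exact (Finset.mem_filter.1 hx).1)) 0 p0
      (fun v hv => ⟨Nat.zero_le _, (Finset.mem_filter.1 hv).2⟩)
  have h3 : (B.filter (fun v => q v < q0)).card ≤ q0 - 0 :=
    ncomb_le_range _ q (hq.mono (by intro x hx; exact (Finset.mem_filter.1 hx).1)) 0 q0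
      (fun v hv => ⟨Nat.zero_le _, (Finset.mem_filter.1 hv).2⟩)
  have h4 : (B.filter (fun v => p v = p0 ∧ q v = q0)).card ≤ (p0 + 1) - p0 :=
    ncomb_le_range _ p (hp.mono (by intro x hx; exact (Finset.mem_filter.1 hx).1)) p0 (p0 + 1)
      (fun v hv => by
        have := (Finset.mem_filter.1 hv).2
        omega)
  have h5 := Finset.card_le_card h1
  have h6 := Finset.card_union_le (B.filter (fun v => p v < p0) ∪ B.filter (fun v => q v < q0))
    (B.filter (fun v => p v = p0 ∧ q v = q0))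
  have h7 := Finset.card_union_le (B.filter (fun v => p v < p0)) (B.filter (fun v => q v < q0))
  omega

private lemma ncomb_both (B : Finset α) (p q : α → ℕ) (p0 q0 : ℕ)
    (hp : Set.InjOn p B) (hq : Set.InjOn q B)
    (hw : ∀ v ∈ B, p v < p0 ∨ q v < q0 ∨ (p v = p0 ∧ q v = q0)) :
    (B.filter (fun v => 3 ≤ q v ∧ 2 ≤ p v)).card ≤ p0 + q0 - 2 := by
  classical
  have h1 : B.filter (fun v => 3 ≤ q v ∧ 2 ≤ p v) ⊆
      (B.filter (fun v => 2 ≤ p v ∧ p v < p0) ∪ B.filter (fun v => 3 ≤ q v ∧ q v < q0)) ∪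
      B.filter (fun v => p v = p0 ∧ q v = q0 ∧ 2 ≤ p0 ∧ 3 ≤ q0) := by
    intro v hv
    rw [Finset.mem_filter] at hv
    rw [Finset.mem_union, Finset.mem_union, Finset.mem_filter, Finset.mem_filter,
      Finset.mem_filter]
    rcases hw v hv.1 with h | h | h
    · exact Or.inl (Or.inl ⟨hv.1, hv.2.2, h⟩)
    · exact Or.inl (Or.inr ⟨hv.1, hv.2.1, h⟩)
    · exact Or.inr ⟨hv.1, h.1, h.2, by omega, by omega⟩
  have h2 : (B.filter (fun v => 2 ≤ p v ∧ p v < p0)).card ≤ p0 - 2 :=
    ncomb_le_range _ p (hp.mono (by intro x hx; exact (Finset.mem_filter.1 hx).1)) 2 p0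
      (fun v hv => (Finset.mem_filter.1 hv).2)
  have h3 : (B.filter (fun v => 3 ≤ q v ∧ q v < q0)).card ≤ q0 - 3 :=
    ncomb_le_range _ q (hq.mono (by intro x hx; exact (Finset.mem_filter.1 hx).1)) 3 q0
      (fun v hv => (Finset.mem_filter.1 hv).2)
  have h4 : (B.filter (fun v => p v = p0 ∧ q v = q0 ∧ 2 ≤ p0 ∧ 3 ≤ q0)).card ≤ (p0 + 1) - p0 :=
    ncomb_le_range _ p (hp.mono (by intro x hx; exact (Finset.mem_filter.1 hx).1)) p0 (p0 + 1)
      (fun v hv => by
        have := (Finset.mem_filter.1 hv).2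
        omega)
  have h4' : ¬ (2 ≤ p0 ∧ 3 ≤ q0) →
      (B.filter (fun v => p v = p0 ∧ q v = q0 ∧ 2 ≤ p0 ∧ 3 ≤ q0)).card = 0 := by
    intro hn
    rw [Finset.card_eq_zero, Finset.filter_eq_empty_iff]
    intro v _ h'
    exact hn h'.2.2
  have h5 := Finset.card_le_card h1
  have h6 := Finset.card_union_le
    (B.filter (fun v => 2 ≤ p v ∧ p v < p0) ∪ B.filter (fun v => 3 ≤ q v ∧ q v < q0))
    (B.filter (fun v => p v = p0 ∧ q v = q0 ∧ 2 ≤ p0 ∧ 3 ≤ q0))
  have h7 := Finset.card_union_le (B.filter (fun v => 2 ≤ p v ∧ p v < p0))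
    (B.filter (fun v => 3 ≤ q v ∧ q v < q0))
  by_cases hc : 2 ≤ p0 ∧ 3 ≤ q0
  · omega
  · have := h4' hc
    omega

private lemma ncomb_incl_excl (B : Finset α) (p q : α → ℕ) :
    (B.filter (fun v => 3 ≤ q v)).card + (B.filter (fun v => 2 ≤ p v)).card ≤
      B.card + (B.filter (fun v => 3 ≤ q v ∧ 2 ≤ p v)).card := by
  classical
  rw [← Finset.card_union_add_card_inter, ← Finset.filter_or, ← Finset.filter_and]
  have := Finset.card_filter_le B (fun v => 3 ≤ q v ∨ 2 ≤ p v)
  omega


end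

section

variable {α : Type} (S : Finset α) (p q : α → ℕ) (p0 q0 : ℕ)

/-- The positions of the elements of `S` form an antichain. -/
def Anti : Prop :=
  ∀ x ∈ S, ∀ y ∈ S, x ≠ y → (p x < p y ∧ q y < q x) ∨ (p y < p x ∧ q x < q y)

/-- No position is above `(p0, q0)`, except `(p0, q0)` itself. -/
def Below : Prop := ∀ x ∈ S, p x < p0 ∨ q x < q0 ∨ (p x = p0 ∧ q x = q0)

variable {S p q p0 q0}

private theorem ncomb_inj_p (h : Anti S p q) : Set.InjOn p S := by
  intro x hx y hy hxy
  by_contra hne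
  have := h x hx y hy hne
  omega

private theorem ncomb_inj_q (h : Anti S p q) : Set.InjOn q S := by
  intro x hx y hy hxy
  by_contra hne
  have := h x hx y hy hne
  omega

private theorem ncomb_filter_le (S : Finset α) (p q : α → ℕ) :
    (S.filter (fun x => 2 ≤ p x ∧ 2 ≤ p x + q x)).card ≤ (S.filter (fun x => 2 ≤ p x)).card := by
  apply Finset.card_le_card
  intro x hx
  rw [Finset.mem_filter] at hx ⊢
  exact ⟨hx.1, hx.2.1⟩

private theorem ncomb_two_aux (h : Anti S p q) (h0 : Below S p q p0 q0) :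
    S.card + (S.filter (fun x => 3 ≤ q x)).card +
      (S.filter (fun x => 2 ≤ p x)).card ≤ 2 * S.card + (p0 + q0 - 2) := by
  have h1 := ncomb_both S p q p0 q0 (ncomb_inj_p h) (ncomb_inj_q h) h0
  have h2 := ncomb_incl_excl S p q
  omega

/-- `p` and `q` are injective on `S`, so at most `p0` elements have `p x < p0` and at most `q0`
elements have `q x < q0`. -/
theorem comb_card (h : Anti S p q) (h0 : Below S p q p0 q0) : S.card ≤ p0 + q0 + 1 :=
  ncomb_pair_card S p q p0 q0 (ncomb_inj_p h) (ncomb_inj_q h) h0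

/-- `#{3 ≤ q} ≤ p0 + q0 - min q0 2` (at most `p0` with `p < p0`; with `3 ≤ q < q0`: at most `q0 - 3`; and `(p0,q0)`
only if `3 ≤ q0`), `#{2 ≤ p, 2 ≤ p + q} ≤ p0 + q0 - min p0 1`, and `min q0 2 + min p0 1 ≥ 1`. -/
theorem comb_three (h : Anti S p q) (h0 : Below S p q p0 q0) (h1 : 1 ≤ p0 + q0) :
    S.card + (S.filter (fun x => 3 ≤ q x)).card +
      (S.filter (fun x => 2 ≤ p x ∧ 2 ≤ p x + q x)).card ≤ 3 * (p0 + q0) := by
  have h2 := ncomb_two_aux h h0
  have h3 := comb_card h h0
  have h4 := ncomb_filter_le S p q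
  rcases Nat.lt_or_ge 1 (p0 + q0) with h5 | h5
  · omega
  · -- `p0 + q0 = 1`
    have hp := ncomb_inj_p h
    have hq := ncomb_inj_q h
    rcases (show (p0 = 1 ∧ q0 = 0) ∨ (p0 = 0 ∧ q0 = 1) by omega) with ⟨rfl, rfl⟩ | ⟨rfl, rfl⟩
    · have h6 : (S.filter (fun v => 2 ≤ p v)).card = 0 := by
        rw [Finset.card_eq_zero, Finset.filter_eq_empty_iff]
        intro v hv h'
        have := h0 v hv
        omega
      have h7 : (S.filter (fun v => 3 ≤ q v)).card ≤ 1 - 0 :=
        ncomb_le_range _ p (hp.mono (by intro x hx; exact (Finset.mem_filter.1 hx).1)) 0 1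
          (fun v hv => by
            have h3 := h0 v (Finset.mem_filter.1 hv).1
            have h4 := (Finset.mem_filter.1 hv).2
            omega)
      omega
    · have h6 : (S.filter (fun v => 3 ≤ q v)).card = 0 := by
        rw [Finset.card_eq_zero, Finset.filter_eq_empty_iff]
        intro v hv h'
        have := h0 v hv
        omega
      have h7 : (S.filter (fun v => 2 ≤ p v)).card ≤ 1 - 0 :=
        ncomb_le_range _ q (hq.mono (by intro x hx; exact (Finset.mem_filter.1 hx).1)) 0 1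
          (fun v hv => by
            have h3 := h0 v (Finset.mem_filter.1 hv).1
            have h4 := (Finset.mem_filter.1 hv).2
            omega)
      omega

/-- At most `p0 + q0 - 2` elements have `2 ≤ p` and `3 ≤ q`: they have `2 ≤ p < p0` or `3 ≤ q < q0` or are
at `(p0, q0)` (with `2 ≤ p0`, `3 ≤ q0`). -/
theorem comb_two (h : Anti S p q) (h0 : Below S p q p0 q0) :
    S.card + (S.filter (fun x => 3 ≤ q x)).card +
      (S.filter (fun x => 2 ≤ p x ∧ 2 ≤ p x + q x)).card ≤ 2 * S.card + (p0 + q0 - 2) := by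
  have h2 := ncomb_two_aux h h0
  have h4 := ncomb_filter_le S p q
  omega

end

/-- Induction on `M.card`, removing an element `r` with the largest `d r`: then
`{r' | d r' < d r} ⊆ M \ {r}`, so `d r ≤ 2 + (M.card - 1) / κ`. -/
theorem sum_sort (κ : ℕ) (hκ : 1 ≤ κ) (F : ℕ → ℚ) (hF : Monotone F) (M : Finset ℕ) (d : ℕ → ℕ)
    (h : ∀ r ∈ M, κ * (d r - 2) ≤ (M.filter (fun r' => d r' < d r)).card) :
    ∑ r ∈ M, F (d r) ≤ ∑ i ∈ Finset.range M.card, F (2 + i / κ) := by
  classical
  obtain ⟨n, hn⟩ : ∃ n, M.card = n := ⟨_, rfl⟩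
  induction n generalizing M with
  | zero =>
    rw [Finset.card_eq_zero] at hn
    subst hn
    simp
  | succ n ih =>
    have hne : M.Nonempty := by
      rw [← Finset.card_pos]; omega
    obtain ⟨r0, hr0, hmax⟩ := Finset.exists_max_image M d hne
    have hcard : (M.erase r0).card = n := by
      rw [Finset.card_erase_of_mem hr0, hn]; omega
    have hle : d r0 ≤ 2 + n / κ := by
      have h3 := h r0 hr0
      have h4 : M.filter (fun r' => d r' < d r0) ⊆ M.erase r0 := by
        intro r hr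
        rw [Finset.mem_filter] at hr
        rw [Finset.mem_erase]
        refine ⟨?_, hr.1⟩
        rintro rfl
        exact lt_irrefl _ hr.2
      have h5 := Finset.card_le_card h4
      rw [hcard] at h5
      have h6 : d r0 - 2 ≤ n / κ := by
        rw [Nat.le_div_iff_mul_le (by omega), mul_comm]
        exact h3.trans h5
      generalize n / κ = e at h6 ⊢
      omega
    have h7 := ih (M.erase r0) (by
      intro r hr
      have h3 := h r (Finset.mem_of_mem_erase hr)
      have h4 : (M.erase r0).filter (fun r' => d r' < d r) =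
          M.filter (fun r' => d r' < d r) := by
        ext x
        rw [Finset.mem_filter, Finset.mem_filter, Finset.mem_erase]
        constructor
        · rintro ⟨⟨_, h6⟩, h7⟩
          exact ⟨h6, h7⟩
        · rintro ⟨h6, h7⟩
          refine ⟨⟨?_, h6⟩, h7⟩
          rintro rfl
          have := hmax r (Finset.mem_of_mem_erase hr)
          omega
      rw [h4]
      exact h3) hcard
    rw [hcard] at h7
    rw [← Finset.add_sum_erase M _ hr0, hn, Finset.sum_range_succ, add_comm]
    exact add_le_add h7 (hF hle)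

end Pool.Agent.Lib.MP_a2efaf_al.Nar
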