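import Pool.Agent.Lib.MP_a2efaf_al.NHalf
import Pool.Agent.Lib.MP_a2efaf_al.NComb

/-!
# Narrow case: the weights of the inner canonical exponent vectors, class by class
-/

set_option autoImplicit false

namespace Pool.Agent.Lib.MP_a2efaf_al.Nar

variable {N : ℕ}

/-- The weight of an inner canonical exponent vector (`P` is the parameter of the Macaulay-Lovasz bound). -/
noncomputable def wgt (g : Fin (N + 1) → ℕ) (P : ℚ) (v : Fin (N + 1) →₀ ℕ) : ℚ :=
  1 + (if 3 ≤ qq g v then 1 else 0) + (if 2 ≤ pp g v ∧ 3 ≤ v.degree then 1 else 0) +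
    (P - 1) / ((v.degree : ℚ) + 1)

/-- The bound for a class in the general case. -/
def F3 (P : ℚ) (d : ℕ) : ℚ := 3 * ((d : ℚ) - 1) + (P - 1) * d / ((d : ℚ) + 1)

/-- The bound for a class in the case of two letters. -/
def F2 (d : ℕ) : ℚ :=
  (min (3 * (d - 1)) (min (3 * (1 + d / 2)) (2 * (1 + d / 2) + (d - 3))) : ℕ) +
    (if d ≤ 2 then 2 / 3 else 3 / 5)

theorem F3_mono (P : ℚ) (hP : 1 ≤ P) : Monotone (F3 P) := by
  apply monotone_nat_of_le_succ
  intro d
  unfold F3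
  have h1 : (0 : ℚ) < (d : ℚ) + 1 := by positivity
  have h2 : (0 : ℚ) < (d : ℚ) + 1 + 1 := by positivity
  have h3 : (P - 1) * (d : ℚ) / ((d : ℚ) + 1) ≤ (P - 1) * ((d : ℚ) + 1) / ((d : ℚ) + 1 + 1) := by
    rw [div_le_div_iff₀ h1 h2]
    have h4 : 0 ≤ P - 1 := by linarith
    nlinarith [h4]
  push_cast
  linarith

theorem F3_nonneg (P : ℚ) (hP : 1 ≤ P) (d : ℕ) (hd : 1 ≤ d) : 0 ≤ F3 P d := by
  unfold F3
  have h1 : (1 : ℚ) ≤ d := by exact_mod_cast hd
  have h2 : 0 ≤ (P - 1) * (d : ℚ) / ((d : ℚ) + 1) := by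
    apply div_nonneg
    · apply mul_nonneg
      · linarith
      · linarith
    · linarith
  linarith

theorem F2_mono : Monotone F2 := by
  apply monotone_nat_of_le_succ
  intro d
  unfold F2
  rcases Nat.lt_or_ge d 3 with h | h
  · interval_cases d <;> norm_num
  · rw [if_neg (by omega), if_neg (by omega)]
    have h1 : min (3 * (d - 1)) (min (3 * (1 + d / 2)) (2 * (1 + d / 2) + (d - 3))) ≤
        min (3 * (d + 1 - 1)) (min (3 * (1 + (d + 1) / 2)) (2 * (1 + (d + 1) / 2) + (d + 1 - 3))) := by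
      apply min_le_min
      · omega
      · apply min_le_min
        · omega
        · omega
    have h2 := (Nat.cast_le (α := ℚ)).2 h1
    linarith

theorem F2_nonneg (d : ℕ) : 0 ≤ F2 d := by
  unfold F2
  have h : (0 : ℚ) ≤ (min (3 * (d - 1)) (min (3 * (1 + d / 2)) (2 * (1 + d / 2) + (d - 3))) : ℕ) :=
    Nat.cast_nonneg _
  split_ifs <;> linarith

variable {g : Fin (N + 1) → ℕ}

/-- The antichain of a class: the hypotheses of the combinatorial lemmas with `p = pp g`, `q = qq g`,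
`(p0, q0) = (pp g u, qq g u)` for `u` as in `dl_spec`, `p0 + q0 + 1 = dl g r`. -/
theorem class_anti (hg : Ng g) {r : ℕ} (hr : r ∈ Rm g) (S : Finset (Fin (N + 1) →₀ ℕ))
    (hS : ∀ v ∈ S, BB g v ∧ 2 ≤ v.degree ∧ val g v % ww g = r) :
    ∃ p0 q0, p0 + q0 + 1 = dl g r ∧ Anti S (pp g) (qq g) ∧ Below S (pp g) (qq g) p0 q0 := by
  obtain ⟨_, u, hu0, hul, hune, hudeg, hucl⟩ := dl_spec hg hr
  refine ⟨pp g u, qq g u, ?_, ?_, ?_⟩
  · rw [pq_deg hg hu0 hul hune, hudeg]
  · intro x hx y hy hxy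
    exact antichain hg (hS x hx).1 (hS y hy).1 (by rw [(hS x hx).2.2, (hS y hy).2.2]) hxy
  · intro x hx
    exact pos_cases hg (hS x hx).1 hu0 hul hune (by rw [(hS x hx).2.2, hucl])

/-- The number of elements of a class. -/
theorem class_card (hg : Ng g) {r : ℕ} (hr : r ∈ Rm g) (S : Finset (Fin (N + 1) →₀ ℕ))
    (hS : ∀ v ∈ S, BB g v ∧ 2 ≤ v.degree ∧ val g v % ww g = r) : S.card ≤ dl g r := by
  obtain ⟨p0, q0, h1, h2, h3⟩ := class_anti hg hr S hS
  rw [← h1]
  exact comb_card h2 h3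

/-- The degree of an element of a class. -/
theorem class_deg (hg : Ng g) {r : ℕ} {v : Fin (N + 1) →₀ ℕ}
    (hv : BB g v ∧ 2 ≤ v.degree ∧ val g v % ww g = r) : dl g r ≤ v.degree := by
  have h := (class_Rm hg hv.1 hv.2.1).2
  rw [hv.2.2] at h
  exact h

/-- The weights, summed up. -/
theorem class_sum (hg : Ng g) (P : ℚ) (hP : 1 ≤ P) {r : ℕ} (S : Finset (Fin (N + 1) →₀ ℕ))
    (hS : ∀ v ∈ S, BB g v ∧ 2 ≤ v.degree ∧ val g v % ww g = r) :
    ∑ v ∈ S, wgt g P v ≤ ((S.card + (S.filter (fun x => 3 ≤ qq g x)).card +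
      (S.filter (fun x => 2 ≤ pp g x ∧ 2 ≤ pp g x + qq g x)).card : ℕ) : ℚ) +
      (P - 1) * S.card / ((dl g r : ℚ) + 1) := by
  have h1 : ∀ v ∈ S, wgt g P v ≤ (1 + (if 3 ≤ qq g v then 1 else 0) +
      (if 2 ≤ pp g v ∧ 2 ≤ pp g v + qq g v then 1 else 0)) + (P - 1) / ((dl g r : ℚ) + 1) := by
    intro v hv
    obtain ⟨hb, hd, hc⟩ := hS v hv
    have h2 := pq_deg hg hb.zero hb.last hb.ne
    have h3 : (2 ≤ pp g v ∧ 3 ≤ v.degree) ↔ (2 ≤ pp g v ∧ 2 ≤ pp g v + qq g v) := by
      constructor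
      · rintro ⟨h4, h5⟩
        exact ⟨h4, by omega⟩
      · rintro ⟨h4, h5⟩
        exact ⟨h4, by omega⟩
    have h6 : (P - 1) / ((v.degree : ℚ) + 1) ≤ (P - 1) / ((dl g r : ℚ) + 1) := by
      apply div_le_div_of_nonneg_left
      · linarith
      · positivity
      · have h7 : (dl g r : ℚ) ≤ v.degree := by
          exact_mod_cast class_deg hg (hS v hv)
        linarith
    unfold wgt
    have h8 : (if 2 ≤ pp g v ∧ 3 ≤ v.degree then (1 : ℚ) else 0) =
        (if 2 ≤ pp g v ∧ 2 ≤ pp g v + qq g v then 1 else 0) := by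
      by_cases h9 : 2 ≤ pp g v ∧ 3 ≤ v.degree
      · rw [if_pos h9, if_pos (h3.1 h9)]
      · rw [if_neg h9, if_neg (fun h => h9 (h3.2 h))]
    rw [h8]
    linarith
  refine (Finset.sum_le_sum h1).trans ?_
  rw [Finset.sum_add_distrib, Finset.sum_add_distrib, Finset.sum_add_distrib]
  rw [Finset.sum_const, Finset.sum_const, ← Finset.sum_filter, ← Finset.sum_filter,
    Finset.sum_const, Finset.sum_const]
  simp only [nsmul_eq_mul, mul_one]
  push_cast
  rw [mul_comm (P - 1) (S.card : ℚ), mul_div_assoc]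

/-- General case: `comb_three`; `2 ≤ pp v ∧ 3 ≤ deg v` iff `2 ≤ pp v ∧ 2 ≤ pp v + qq v`; `deg v ≥ dl g r` and
`comb_card` for the last summand. -/
theorem class_three (hg : Ng g) (P : ℚ) (hP : 1 ≤ P) {r : ℕ} (hr : r ∈ Rm g)
    (S : Finset (Fin (N + 1) →₀ ℕ))
    (hS : ∀ v ∈ S, BB g v ∧ 2 ≤ v.degree ∧ val g v % ww g = r) :
    ∑ v ∈ S, wgt g P v ≤ F3 P (dl g r) := by
  refine (class_sum hg P hP S hS).trans ?_
  obtain ⟨p0, q0, h1, h2, h3⟩ := class_anti hg hr S hS
  have hd := (dl_spec hg hr).1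
  have h4 := comb_three h2 h3 (by omega)
  have h5 : S.card ≤ dl g r := class_card hg hr S hS
  have h6 : ((S.card + (S.filter (fun x => 3 ≤ qq g x)).card +
      (S.filter (fun x => 2 ≤ pp g x ∧ 2 ≤ pp g x + qq g x)).card : ℕ) : ℚ) ≤
      3 * ((dl g r : ℚ) - 1) := by
    have h7 : ((p0 + q0 : ℕ) : ℚ) = (dl g r : ℚ) - 1 := by
      rw [← h1]
      push_cast
      ring
    rw [← h7]
    exact_mod_cast h4
  have h8 : (P - 1) * S.card / ((dl g r : ℚ) + 1) ≤ (P - 1) * dl g r / ((dl g r : ℚ) + 1) := by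
    apply div_le_div_of_nonneg_right
    · apply mul_le_mul_of_nonneg_left
      · exact_mod_cast h5
      · linarith
    · positivity
  unfold F3
  linarith

/-- Two letters: `comb_three`, `comb_two` and the weight of an element is at most `3` (plus the last
summand); `(1 + d / 2) / (d + 1) ≤ 2 / 3` for `d = 2` and `≤ 3 / 5` for `d ≥ 3`. -/
theorem class_two (hg : Ng g) {r : ℕ} (hr : r ∈ Rm g) (S : Finset (Fin (N + 1) →₀ ℕ))
    (hS : ∀ v ∈ S, BB g v ∧ 2 ≤ v.degree ∧ val g v % ww g = r)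
    (hcard : S.card ≤ 1 + dl g r / 2) : ∑ v ∈ S, wgt g 2 v ≤ F2 (dl g r) := by
  refine (class_sum hg 2 (by norm_num) S hS).trans ?_
  obtain ⟨p0, q0, h1, h2, h3⟩ := class_anti hg hr S hS
  have hd := (dl_spec hg hr).1
  have h4 := comb_three h2 h3 (by omega)
  have h5 := comb_two h2 h3
  have h6 : (S.filter (fun x => 3 ≤ qq g x)).card ≤ S.card := Finset.card_filter_le _ _
  have h7 : (S.filter (fun x => 2 ≤ pp g x ∧ 2 ≤ pp g x + qq g x)).card ≤ S.card :=
    Finset.card_filter_le _ _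
  set T := S.card + (S.filter (fun x => 3 ≤ qq g x)).card +
      (S.filter (fun x => 2 ≤ pp g x ∧ 2 ≤ pp g x + qq g x)).card with hT
  have h8 : T ≤ min (3 * (dl g r - 1))
      (min (3 * (1 + dl g r / 2)) (2 * (1 + dl g r / 2) + (dl g r - 3))) := by
    apply le_min
    · omega
    · apply le_min
      · omega
      · omega
  have h9 : (T : ℚ) ≤ (min (3 * (dl g r - 1))
      (min (3 * (1 + dl g r / 2)) (2 * (1 + dl g r / 2) + (dl g r - 3))) : ℕ) := by
    exact_mod_cast h8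
  have h10 : ((2 : ℚ) - 1) * S.card / ((dl g r : ℚ) + 1) ≤
      (if dl g r ≤ 2 then 2 / 3 else 3 / 5) := by
    have hpos : (0 : ℚ) < (dl g r : ℚ) + 1 := by positivity
    rw [div_le_iff₀ hpos]
    split_ifs with h
    · have h11 : dl g r = 2 := by omega
      rw [h11] at hcard ⊢
      have h12 : (S.card : ℚ) ≤ 2 := by exact_mod_cast hcard
      push_cast
      linarith
    · have h11 : 5 * S.card ≤ 3 * (dl g r + 1) := by omega
      have h12 : (5 : ℚ) * S.card ≤ 3 * ((dl g r : ℚ) + 1) := by exact_mod_cast h11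
      linarith
  unfold F2
  linarith

/-- Summation over the classes. -/
theorem sum_classes (hg : Ng g) (O : Finset (Fin (N + 1) →₀ ℕ)) (hO : ∀ v ∈ O, BB g v)
    (f : (Fin (N + 1) →₀ ℕ) → ℚ) (F : ℕ → ℚ)
    (h : ∀ r ∈ Rm g, ∑ v ∈ O.filter (fun v => 2 ≤ v.degree ∧ val g v % ww g = r), f v ≤ F r) :
    ∑ v ∈ O.filter (fun v => 2 ≤ v.degree), f v ≤ ∑ r ∈ Rm g, F r := by
  rw [← Finset.sum_fiberwise_of_maps_to (s := O.filter (fun v => 2 ≤ v.degree)) (t := Rm g)
    (g := fun v => val g v % ww g)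
    (fun v hv => (class_Rm hg (hO v (Finset.mem_filter.1 hv).1) (Finset.mem_filter.1 hv).2).1)]
  apply Finset.sum_le_sum
  intro r hr
  rw [Finset.filter_filter]
  exact h r hr

/-- The total, general case. -/
theorem total_three (hg : Ng g) (O : Finset (Fin (N + 1) →₀ ℕ)) (hO : ∀ v ∈ O, BB g v)
    (P : ℚ) (hP : 1 ≤ P)
    (h3 : ∀ r ∈ Rm g, 3 * (dl g r - 2) ≤ ((Rm g).filter (fun r' => dl g r' < dl g r)).card) :
    ∑ v ∈ O.filter (fun v => 2 ≤ v.degree), wgt g P v ≤
      ∑ i ∈ Finset.range (MissN g).card, F3 P (2 + i / 3) := by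
  refine (sum_classes hg O hO (wgt g P) (fun r => F3 P (dl g r)) ?_).trans ?_
  · intro r hr
    apply class_three hg P hP hr
    intro v hv
    rw [Finset.mem_filter] at hv
    exact ⟨hO v hv.1, hv.2.1, hv.2.2⟩
  · refine (sum_sort 3 (by norm_num) (F3 P) (F3_mono P hP) (Rm g) (dl g) h3).trans ?_
    apply Finset.sum_le_sum_of_subset_of_nonneg
    · exact Finset.range_subset_range.2 (Finset.card_le_card Rm_sub)
    · intro i _ _
      exact F3_nonneg P hP _ (by omega)

/-- The total, two letters. -/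
theorem total_two (hg : Ng g) (O : Finset (Fin (N + 1) →₀ ℕ)) (hO : ∀ v ∈ O, BB g v)
    (h2 : ∀ r ∈ Rm g, 2 * (dl g r - 2) ≤ ((Rm g).filter (fun r' => dl g r' < dl g r)).card)
    (x y : Fin (N + 1)) (hxy : x ≠ y)
    (hs : ∀ v, BB g v → 2 ≤ v.degree → ∀ l, l ≠ x → l ≠ y → v l = 0) :
    ∑ v ∈ O.filter (fun v => 2 ≤ v.degree), wgt g 2 v ≤
      ∑ i ∈ Finset.range (MissN g).card, F2 (2 + i / 2) := by
  refine (sum_classes hg O hO (wgt g 2) (fun r => F2 (dl g r)) ?_).trans ?_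
  · intro r hr
    have hS : ∀ v ∈ O.filter (fun v => 2 ≤ v.degree ∧ val g v % ww g = r),
        BB g v ∧ 2 ≤ v.degree ∧ val g v % ww g = r := by
      intro v hv
      rw [Finset.mem_filter] at hv
      exact ⟨hO v hv.1, hv.2.1, hv.2.2⟩
    exact class_two hg hr _ hS (half_bound hg x y hxy hs hr _ hS)
  · refine (sum_sort 2 (by norm_num) F2 F2_mono (Rm g) (dl g) h2).trans ?_
    apply Finset.sum_le_sum_of_subset_of_nonneg
    · exact Finset.range_subset_range.2 (Finset.card_le_card Rm_sub)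
    · intro i _ _
      exact F2_nonneg _

/-- The total, one letter (`one_letter`). -/
theorem total_one (hg : Ng g) (hN : N = 2) (O : Finset (Fin (N + 1) →₀ ℕ)) (hO : ∀ v ∈ O, BB g v) :
    ∑ v ∈ O.filter (fun v => 2 ≤ v.degree), wgt g 1 v ≤ 3 * (MissN g).card ∧
    (O.filter (fun v => 2 ≤ v.degree)).card ≤ (MissN g).card := by
  classical
  have hcard : (O.filter (fun v => 2 ≤ v.degree)).card ≤ (MissN g).card := by
    apply Finset.card_le_card_of_injOn (fun v => val g v % ww g)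
    · intro v hv
      rw [Finset.mem_coe, Finset.mem_filter] at hv
      exact class_miss hg (hO v hv.1) hv.2
    · intro v hv v' hv' h
      rw [Finset.mem_coe, Finset.mem_filter] at hv hv'
      by_contra hne
      have h1 := one_letter hg hN (r := val g v % ww g) {v, v'} (by
        intro x hx
        rw [Finset.mem_insert, Finset.mem_singleton] at hx
        rcases hx with rfl | rfl
        · exact ⟨hO _ hv.1, hv.2, rfl⟩
        · exact ⟨hO _ hv'.1, hv'.2, h.symm⟩)
      rw [Finset.card_pair hne] at h1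
      omega
  refine ⟨?_, hcard⟩
  have h1 : ∀ v ∈ O.filter (fun v => 2 ≤ v.degree), wgt g 1 v ≤ 3 := by
    intro v _
    unfold wgt
    split_ifs <;> norm_num
  refine (Finset.sum_le_card_nsmul _ _ 3 h1).trans ?_
  rw [nsmul_eq_mul, mul_comm]
  have h2 : ((O.filter (fun v => 2 ≤ v.degree)).card : ℚ) ≤ (MissN g).card := by
    exact_mod_cast hcard
  linarith

/-- At most two missing classes: all distances are `2` (`grow_two`), so there are at most `2 c` elements of
degree `≥ 2` (`class_card`). -/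
theorem total_small (hg : Ng g) (hN : 3 ≤ N) (hc : (MissN g).card ≤ 2)
    (O : Finset (Fin (N + 1) →₀ ℕ)) (hO : ∀ v ∈ O, BB g v) :
    (O.filter (fun v => 2 ≤ v.degree)).card ≤ 2 * (MissN g).card := by
  classical
  have h1 : ∀ r ∈ Rm g, dl g r ≤ 2 := by
    intro r hr
    have h2 := grow_two hg hN hr
    have h3 : ((Rm g).filter (fun r' => dl g r' < dl g r)) ⊆ (Rm g).erase r := by
      intro r' hr'
      rw [Finset.mem_filter] at hr'
      rw [Finset.mem_erase]
      refine ⟨?_, hr'.1⟩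
      rintro rfl
      exact lt_irrefl _ hr'.2
    have h4 := Finset.card_le_card h3
    rw [Finset.card_erase_of_mem hr] at h4
    have h5 : (Rm g).card ≤ (MissN g).card := Finset.card_le_card Rm_sub
    omega
  have h2 := sum_classes hg O hO (fun _ => (1 : ℚ)) (fun _ => 2) (by
    intro r hr
    rw [Finset.sum_const, nsmul_eq_mul, mul_one]
    have h3 := class_card hg hr (O.filter (fun v => 2 ≤ v.degree ∧ val g v % ww g = r)) (by
      intro v hv
      rw [Finset.mem_filter] at hv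
      exact ⟨hO v hv.1, hv.2.1, hv.2.2⟩)
    have h4 : (O.filter (fun v => 2 ≤ v.degree ∧ val g v % ww g = r)).card ≤ 2 :=
      h3.trans (h1 r hr)
    exact_mod_cast h4)
  rw [Finset.sum_const, Finset.sum_const, nsmul_eq_mul, nsmul_eq_mul, mul_one] at h2
  have h3 : (O.filter (fun v => 2 ≤ v.degree)).card ≤ (Rm g).card * 2 := by
    exact_mod_cast h2
  have h5 : (Rm g).card ≤ (MissN g).card := Finset.card_le_card Rm_sub
  omega

end Pool.Agent.Lib.MP_a2efaf_al.Nar
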