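import Pool.Agent.Lib.Kneser

/-!
# Growth of sumsets from Kneser's theorem
-/

set_option autoImplicit false

open Finset Pointwise

namespace Pool.Agent.Lib.MP_a2efaf_al.Nar

variable {G : Type} [AddCommGroup G] [DecidableEq G]

open Pool.Agent.Lib.Kneser in
private lemma nkne_aux {S A : Finset G} (hS : S.Nonempty) (h0 : (0 : G) ∈ A)
    (hne : S + A + A ≠ S + A) :
    S.card + (A + stab (S + A)).card ≤ (S + A).card + (stab (S + A)).card ∧
      2 * (stab (S + A)).card ≤ (A + stab (S + A)).card := by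
  have hA : A.Nonempty := ⟨0, h0⟩
  have hX : (S + A).Nonempty := hS.add hA
  have hc : ¬ A ⊆ stab (S + A) := by
    intro hc
    apply hne
    apply Finset.Subset.antisymm
    · intro x hx
      rw [Finset.mem_add] at hx
      obtain ⟨a, ha, s, hs, rfl⟩ := hx
      exact (add_mem_iff hX (hc hs) a).2 ha
    · intro x hx
      rw [Finset.mem_add]
      exact ⟨x, hx, 0, h0, add_zero x⟩
  refine ⟨?_, ?_⟩
  · have h1 := kneser hS hA
    have h2 : S.card ≤ (S + stab (S + A)).card := by
      apply Finset.card_le_card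
      intro x hx
      rw [Finset.mem_add]
      exact ⟨x, hx, 0, zero_mem_stab hX, add_zero x⟩
    omega
  · obtain ⟨s, hs, hsn⟩ := Finset.not_subset.1 hc
    have h1 : stab (S + A) ∪ (stab (S + A)).image (fun x => s + x) ⊆ A + stab (S + A) := by
      intro x hx
      rw [Finset.mem_union, Finset.mem_image] at hx
      rw [Finset.mem_add]
      rcases hx with hx | ⟨y, hy, rfl⟩
      · exact ⟨0, h0, x, hx, zero_add x⟩
      · exact ⟨s, hs, y, hy, rfl⟩
    have h2 : Disjoint (stab (S + A)) ((stab (S + A)).image (fun x => s + x)) := by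
      rw [Finset.disjoint_left]
      intro x hx hx'
      rw [Finset.mem_image] at hx'
      obtain ⟨y, hy, rfl⟩ := hx'
      apply hsn
      have h3 := add_mem_stab hX hx (neg_mem_stab hX hy)
      have h4 : s + y + -y = s := by abel
      rwa [h4] at h3
    have h3 := Finset.card_le_card h1
    rw [Finset.card_union_of_disjoint h2, Finset.card_image_of_injective _
      (add_right_injective s)] at h3
    omega

open Pool.Agent.Lib.Kneser in
/-- One step, from `kneser` for `S + A`: let `H = stab (S + A)`. If `H = {0}` the growth is at least `|A| - 1`.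
Otherwise `A ⊄ H` (if `A ⊆ H` then `S + A + A = S + A`), so `|A + H| ≥ 2 |H|` and the growth is at least
`|A + H| - |H| ≥ |H| ≥ 2`; it is at least `3` if `|H| ≥ 3`, or if `|A + H| ≥ 5`; if `|H| = 2` and `|A + H| = 4 ≤ |A|`
then `A = A + H`. -/
theorem kneser_step {S A : Finset G} (hS : S.Nonempty) (h0 : (0 : G) ∈ A)
    (hne : S + A + A ≠ S + A) :
    (3 ≤ A.card → S.card + 2 ≤ (S + A).card) ∧
    (4 ≤ A.card → S.card + 3 ≤ (S + A).card ∨ (A.card = 4 ∧ ∃ h : G, h ≠ 0 ∧ h +ᵥ A = A)) := by
  have hA : A.Nonempty := ⟨0, h0⟩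
  have hX : (S + A).Nonempty := hS.add hA
  obtain ⟨h1, h2⟩ := nkne_aux hS h0 hne
  set H := stab (S + A) with hH
  have h0H : (0 : G) ∈ H := zero_mem_stab hX
  have hsub : A ⊆ A + H := by
    intro x hx
    rw [Finset.mem_add]
    exact ⟨x, hx, 0, h0H, add_zero x⟩
  have h3 : A.card ≤ (A + H).card := Finset.card_le_card hsub
  have hHpos : 0 < H.card := Finset.card_pos.2 ⟨0, h0H⟩
  refine ⟨fun _ => by omega, fun h4 => ?_⟩
  by_cases h5 : S.card + 3 ≤ (S + A).card
  · exact Or.inl h5
  right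
  have hH2 : H.card = 2 := by omega
  have hSH : (A + H).card = 4 := by omega
  have hA4 : A.card = 4 := by omega
  have hEq : A = A + H := Finset.eq_of_subset_of_card_le hsub (by omega)
  obtain ⟨h, hhH, hh0⟩ : ∃ h ∈ H, h ≠ 0 := by
    by_contra hne
    push Not at hne
    have : H ⊆ {0} := by
      intro x hx
      rw [Finset.mem_singleton]
      exact hne x hx
    have := Finset.card_le_card this
    rw [Finset.card_singleton] at this
    omega
  refine ⟨hA4, h, hh0, ?_⟩
  apply Finset.eq_of_subset_of_card_le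
  · intro x hx
    rw [Finset.mem_vadd_finset] at hx
    obtain ⟨a, ha, rfl⟩ := hx
    rw [hEq, Finset.mem_add]
    exact ⟨a, ha, h, hhH, by rw [vadd_eq_add, add_comm]⟩
  · simp

private lemma nkne_stable {A : Finset G} {j : ℕ} (h : (j + 2) • A = (j + 1) • A) (i : ℕ) :
    (j + 1 + i) • A = (j + 1) • A := by
  induction i with
  | zero => rfl
  | succ i ih =>
    rw [show j + 1 + (i + 1) = (j + 1 + i) + 1 from rfl, succ_nsmul, ih, ← succ_nsmul]
    exact h

private lemma nkne_chain {A : Finset G} (h0 : (0 : G) ∈ A) (κ : ℕ)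
    (hstep : ∀ S : Finset G, S.Nonempty → S + A + A ≠ S + A → S.card + κ ≤ (S + A).card)
    (x : G) (j : ℕ) (h1 : x ∈ (j + 2) • A) (h2 : x ∉ (j + 1) • A) :
    A.card + κ * j ≤ ((j + 1) • A).card := by
  have hmem : ∀ i : ℕ, (0 : G) ∈ i • A := by
    intro i
    induction i with
    | zero => rw [zero_nsmul]; exact Finset.zero_mem_zero
    | succ i ih =>
      rw [succ_nsmul, Finset.mem_add]
      exact ⟨0, ih, 0, h0, add_zero 0⟩
  have hne : ∀ k, k ≤ j → (k + 2) • A ≠ (k + 1) • A := by
    intro k hk he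
    have h3 := nkne_stable he (j + 1 - k)
    have h4 := nkne_stable he (j - k)
    rw [show k + 1 + (j + 1 - k) = j + 2 by omega] at h3
    rw [show k + 1 + (j - k) = j + 1 by omega] at h4
    rw [h3, ← h4] at h1
    exact h2 h1
  have hclaim : ∀ i, i ≤ j → A.card + κ * i ≤ ((i + 1) • A).card := by
    intro i
    induction i with
    | zero =>
      intro _
      rw [zero_add, one_nsmul]
      simp
    | succ i ih =>
      intro hi
      have h3 := ih (by omega)
      have h4 := hstep ((i + 1) • A) ⟨0, hmem _⟩ (by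
        rw [← succ_nsmul, ← succ_nsmul]
        exact hne (i + 1) hi)
      rw [← succ_nsmul] at h4
      have h5 : κ * (i + 1) = κ * i + κ := by ring
      rw [h5]
      omega
  exact hclaim j le_rfl

/-- The growth of `j • A`, summed up: if `x ∈ d • A`, `x ∉ (d - 1) • A`, `d = j + 2`. -/
theorem growth_two {A : Finset G} (h0 : (0 : G) ∈ A) (hA : 3 ≤ A.card) (x : G) (j : ℕ)
    (h1 : x ∈ (j + 2) • A) (h2 : x ∉ (j + 1) • A) : A.card + 2 * j ≤ ((j + 1) • A).card :=
  nkne_chain h0 2 (fun _ hS hne => (kneser_step hS h0 hne).1 hA) x j h1 h2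

theorem growth_three {A : Finset G} (h0 : (0 : G) ∈ A) (hA : 4 ≤ A.card)
    (hs : ¬ (A.card = 4 ∧ ∃ h : G, h ≠ 0 ∧ h +ᵥ A = A)) (x : G) (j : ℕ)
    (h1 : x ∈ (j + 2) • A) (h2 : x ∉ (j + 1) • A) : A.card + 3 * j ≤ ((j + 1) • A).card :=
  nkne_chain h0 3 (fun _ hS hne => ((kneser_step hS h0 hne).2 hA).resolve_right hs) x j h1 h2

end Pool.Agent.Lib.MP_a2efaf_al.Nar
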