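import Pool.Agent.Lib.MP_a2efaf_al.NPos
import Pool.Agent.Lib.MP_a2efaf_al.NKne

/-!
# Narrow case: distances in the group of residues modulo the width
-/

set_option autoImplicit false

open Pointwise

namespace Pool.Agent.Lib.MP_a2efaf_al.Nar

variable {N : ℕ}

/-- The least degree of an exponent vector in the class `r`. -/
noncomputable def dl (g : Fin (N + 1) → ℕ) (r : ℕ) : ℕ :=
  sInf {d | ∃ u : Fin (N + 1) →₀ ℕ, u.degree = d ∧ val g u % ww g = r}

open Classical in
/-- The missing classes which contain an exponent vector. -/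
noncomputable def Rm (g : Fin (N + 1) → ℕ) : Finset ℕ :=
  (MissN g).filter (fun r => ∃ u : Fin (N + 1) →₀ ℕ, val g u % ww g = r)

/-- The set of residues of the letters. -/
def Ab (g : Fin (N + 1) → ℕ) : Finset (ZMod (ww g)) :=
  Finset.univ.image (fun j => ((g j - g 0 : ℕ) : ZMod (ww g)))

variable {g : Fin (N + 1) → ℕ}

theorem Rm_sub : Rm g ⊆ MissN g := by
  classical
  unfold Rm
  exact Finset.filter_subset _ _

theorem dl_le (u : Fin (N + 1) →₀ ℕ) : dl g (val g u % ww g) ≤ u.degree :=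
  Nat.sInf_le ⟨u, rfl, rfl⟩

theorem ndist_mod_iff (a b : ℕ) :
    ((a : ℕ) : ZMod (ww g)) = ((b : ℕ) : ZMod (ww g)) ↔ a % ww g = b % ww g :=
  ZMod.natCast_eq_natCast_iff' a b (ww g)

theorem ndist_mem_Rm {r : ℕ} : r ∈ Rm g ↔
    r ∈ MissN g ∧ ∃ u : Fin (N + 1) →₀ ℕ, val g u % ww g = r := by
  classical
  unfold Rm
  rw [Finset.mem_filter]

theorem ndist_mem_MissN {r : ℕ} : r ∈ MissN g ↔ r < ww g ∧ ∀ j, (g j - g 0) % ww g ≠ r := by
  unfold MissN
  rw [Finset.mem_filter, Finset.mem_range]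

theorem ndist_sub {u : Fin (N + 1) →₀ ℕ} {i : Fin (N + 1)} (hi : 0 < u i) :
    (u - Finsupp.single i 1) + Finsupp.single i 1 = u := by
  apply tsub_add_cancel_of_le
  rw [Finsupp.single_le_iff]
  exact hi

theorem ndist_sub_deg {u : Fin (N + 1) →₀ ℕ} {i : Fin (N + 1)} (hi : 0 < u i) :
    (u - Finsupp.single i 1).degree + 1 = u.degree := by
  conv_rhs => rw [← ndist_sub hi]
  rw [map_add, Finsupp.degree_single]

theorem ndist_sub_val {u : Fin (N + 1) →₀ ℕ} {i : Fin (N + 1)} (hi : 0 < u i) :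
    val g (u - Finsupp.single i 1) + (g i - g 0) = val g u := by
  conv_rhs => rw [← ndist_sub hi]
  rw [val_add, val_single, one_mul]

/-- Exponent vectors of least degree in a class do not contain `0` or last. -/
theorem ndist_min {r : ℕ} {u : Fin (N + 1) →₀ ℕ} (h1 : u.degree = dl g r)
    (h2 : val g u % ww g = r) : u 0 = 0 ∧ u (Fin.last N) = 0 := by
  constructor
  · by_contra h
    have hi : 0 < u 0 := Nat.pos_of_ne_zero h
    have h3 := ndist_sub_deg hi
    have h4 := ndist_sub_val (g := g) hi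
    rw [Nat.sub_self, add_zero] at h4
    have h5 := dl_le (g := g) (u - Finsupp.single 0 1)
    rw [h4, h2] at h5
    omega
  · by_contra h
    have hi : 0 < u (Fin.last N) := Nat.pos_of_ne_zero h
    have h3 := ndist_sub_deg hi
    have h4 := ndist_sub_val (g := g) hi
    have h5 := dl_le (g := g) (u - Finsupp.single (Fin.last N) 1)
    have h6 : val g (u - Finsupp.single (Fin.last N) 1) % ww g = r := by
      rw [← h2, ← h4]
      show _ = (_ + ww g) % ww g
      rw [Nat.add_mod_right]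
    rw [h6] at h5
    omega

/-- A shortest exponent vector of a missing class does not contain `0` or last (class `0`), and its degree
is at least `2`. -/
theorem dl_spec (hg : Ng g) {r : ℕ} (hr : r ∈ Rm g) :
    2 ≤ dl g r ∧ ∃ u : Fin (N + 1) →₀ ℕ, u 0 = 0 ∧ u (Fin.last N) = 0 ∧ u ≠ 0 ∧
      u.degree = dl g r ∧ val g u % ww g = r := by
  rw [ndist_mem_Rm, ndist_mem_MissN] at hr
  obtain ⟨⟨hr1, hr2⟩, u0, hu0⟩ := hr
  obtain ⟨u, hu1, hu2⟩ : ∃ u : Fin (N + 1) →₀ ℕ, u.degree = dl g r ∧ val g u % ww g = r :=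
    Nat.sInf_mem (s := {d | ∃ u : Fin (N + 1) →₀ ℕ, u.degree = d ∧ val g u % ww g = r})
      ⟨u0.degree, u0, rfl, hu0⟩
  obtain ⟨h1, h2⟩ := ndist_min hu1 hu2
  have hne : u ≠ 0 := by
    rintro rfl
    have h3 : val g (0 : Fin (N + 1) →₀ ℕ) = 0 := by
      have := val_single (g := g) (0 : Fin (N + 1)) 0
      rwa [Finsupp.single_zero, zero_mul] at this
    rw [h3, Nat.zero_mod] at hu2
    apply hr2 0
    rw [Nat.sub_self, Nat.zero_mod, hu2]
  refine ⟨?_, u, h1, h2, hne, hu1, hu2⟩
  by_contra hlt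
  have h3 : u.degree ≠ 0 := by
    intro h
    exact hne ((Finsupp.degree_eq_zero_iff u).1 h)
  have h4 : u.degree = 1 := by omega
  obtain ⟨i, hi⟩ : ∃ i, 0 < u i := by
    by_contra hno
    push Not at hno
    apply hne
    ext i
    have := hno i
    simp only [Finsupp.coe_zero, Pi.zero_apply]
    omega
  have h5 := ndist_sub_deg hi
  have h6 : u - Finsupp.single i 1 = 0 := (Finsupp.degree_eq_zero_iff _).1 (by omega)
  have h7 := ndist_sub hi
  rw [h6, zero_add] at h7
  apply hr2 i
  rw [← hu2, ← h7, val_single, one_mul]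

/-- A homogeneous canonical exponent vector of shortest degree in a missing class (`exists_Hc`). -/
theorem exists_BB_min (hg : Ng g) {r : ℕ} (hr : r ∈ Rm g) :
    ∃ v, BB g v ∧ v.degree = dl g r ∧ val g v % ww g = r := by
  obtain ⟨h2, u, -, -, -, hd, hv⟩ := dl_spec hg hr
  obtain ⟨v, hv1, hv2, hv3⟩ := exists_Hc hg u
  have h3 : val g v = val g u := by
    rw [wt_eq hg, wt_eq hg, hv2] at hv3
    omega
  have h4 : v.degree = dl g r := by rw [hv2, hd]
  have h5 : val g v % ww g = r := by rw [h3, hv]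
  obtain ⟨h6, h7⟩ := ndist_min h4 h5
  refine ⟨v, ⟨hv1, h6, h7, ?_⟩, h4, h5⟩
  rintro rfl
  rw [map_zero] at h4
  omega

theorem class_Rm (hg : Ng g) {v : Fin (N + 1) →₀ ℕ} (hv : BB g v) (hd : 2 ≤ v.degree) :
    val g v % ww g ∈ Rm g ∧ dl g (val g v % ww g) ≤ v.degree := by
  refine ⟨?_, dl_le v⟩
  rw [ndist_mem_Rm]
  exact ⟨class_miss hg hv hd, v, rfl⟩

/-- `j • Ab` is the set of residues of the exponent vectors of degree `j`. -/
theorem mem_nsmul_Ab (hg : Ng g) (j : ℕ) (x : ZMod (ww g)) :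
    x ∈ j • Ab g ↔ ∃ u : Fin (N + 1) →₀ ℕ, u.degree = j ∧ ((val g u : ℕ) : ZMod (ww g)) = x := by
  have hv0 : val g (0 : Fin (N + 1) →₀ ℕ) = 0 := by
    have := val_single (g := g) (0 : Fin (N + 1)) 0
    rwa [Finsupp.single_zero, zero_mul] at this
  induction j generalizing x with
  | zero =>
    rw [zero_nsmul, Finset.mem_zero]
    constructor
    · rintro rfl
      exact ⟨0, map_zero _, by rw [hv0, Nat.cast_zero]⟩
    · rintro ⟨u, hu, rfl⟩
      rw [(Finsupp.degree_eq_zero_iff u).1 hu, hv0, Nat.cast_zero]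
  | succ j ih =>
    rw [succ_nsmul, Finset.mem_add]
    constructor
    · rintro ⟨y, hy, z, hz, rfl⟩
      obtain ⟨u, hu, rfl⟩ := (ih y).1 hy
      unfold Ab at hz
      rw [Finset.mem_image] at hz
      obtain ⟨i, -, rfl⟩ := hz
      refine ⟨u + Finsupp.single i 1, ?_, ?_⟩
      · rw [map_add, Finsupp.degree_single, hu]
      · rw [val_add, val_single, one_mul, Nat.cast_add]
    · rintro ⟨u, hu, rfl⟩
      obtain ⟨i, hi⟩ : ∃ i, 0 < u i := by
        by_contra hno
        push Not at hno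
        have : u = 0 := by
          ext i
          have := hno i
          simp only [Finsupp.coe_zero, Pi.zero_apply]
          omega
        rw [this, map_zero] at hu
        omega
      have h1 := ndist_sub_deg hi
      have h2 := ndist_sub_val (g := g) hi
      refine ⟨((val g (u - Finsupp.single i 1) : ℕ) : ZMod (ww g)),
        (ih _).2 ⟨_, by omega, rfl⟩, ((g i - g 0 : ℕ) : ZMod (ww g)), ?_, ?_⟩
      · unfold Ab
        rw [Finset.mem_image]
        exact ⟨i, Finset.mem_univ _, rfl⟩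
      · rw [← h2, Nat.cast_add]

theorem ndist_zero_mem : (0 : ZMod (ww g)) ∈ Ab g := by
  unfold Ab
  rw [Finset.mem_image]
  exact ⟨0, Finset.mem_univ _, by rw [Nat.sub_self, Nat.cast_zero]⟩

theorem card_Ab (hg : Ng g) : (Ab g).card = N := by
  have h1 : Ab g = Finset.univ.image
      (fun j : Fin N => ((g j.castSucc - g 0 : ℕ) : ZMod (ww g))) := by
    unfold Ab
    ext x
    rw [Finset.mem_image, Finset.mem_image]
    constructor
    · rintro ⟨j, -, rfl⟩
      induction j using Fin.lastCases with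
      | last =>
        refine ⟨⟨0, hg.one⟩, Finset.mem_univ _, ?_⟩
        have e1 : (Fin.castSucc (⟨0, hg.one⟩ : Fin N)) = 0 := by
          apply Fin.ext
          simp
        rw [e1, Nat.sub_self, Nat.cast_zero]
        show (0 : ZMod (ww g)) = ((ww g : ℕ) : ZMod (ww g))
        rw [ZMod.natCast_self]
      | cast i => exact ⟨i, Finset.mem_univ _, rfl⟩
    · rintro ⟨j, -, rfl⟩
      exact ⟨j.castSucc, Finset.mem_univ _, rfl⟩
  rw [h1, Finset.card_image_of_injective, Finset.card_univ, Fintype.card_fin]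
  intro i j hij
  have hlt : ∀ i : Fin N, g i.castSucc - g 0 < ww g := by
    intro i
    have h2 := hg.mono (Fin.castSucc_lt_last i)
    have h3 := (hg.le i.castSucc).1
    unfold ww
    omega
  have h2 := (ndist_mod_iff _ _).1 hij
  rw [Nat.mod_eq_of_lt (hlt i), Nat.mod_eq_of_lt (hlt j)] at h2
  have h3 := (hg.le i.castSucc).1
  have h4 := (hg.le j.castSucc).1
  have h5 : g i.castSucc = g j.castSucc := by omega
  exact Fin.castSucc_injective N (hg.mono.injective h5)

/-- The counting step. -/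
theorem ndist_count (hg : Ng g) (κ : ℕ) {r : ℕ} (hr : r ∈ Rm g)
    (hgrow : ∀ (x : ZMod (ww g)) (j : ℕ), x ∈ (j + 2) • Ab g → x ∉ (j + 1) • Ab g →
      (Ab g).card + κ * j ≤ ((j + 1) • Ab g).card) :
    κ * (dl g r - 2) ≤ ((Rm g).filter (fun r' => dl g r' < dl g r)).card := by
  obtain ⟨h2, u, -, -, -, hd, hv⟩ := dl_spec hg hr
  have hrlt : r < ww g := by
    have := (ndist_mem_Rm.1 hr).1
    rw [ndist_mem_MissN] at this
    exact this.1
  haveI : NeZero (ww g) := ⟨hg.ww_pos.1.ne'⟩
  obtain ⟨j, hj⟩ : ∃ j, dl g r = j + 2 := ⟨dl g r - 2, by omega⟩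
  have h3 := hgrow ((r : ℕ) : ZMod (ww g)) j
    ((mem_nsmul_Ab hg _ _).2 ⟨u, by rw [hd, hj], by
      rw [ndist_mod_iff, hv, Nat.mod_eq_of_lt hrlt]⟩)
    (by
      intro hmem
      obtain ⟨u', hu1, hu2⟩ := (mem_nsmul_Ab hg _ _).1 hmem
      rw [ndist_mod_iff, Nat.mod_eq_of_lt hrlt] at hu2
      have h4 := dl_le (g := g) u'
      rw [hu2] at h4
      omega)
  have h4 : ((((j + 1) • Ab g) \ Ab g).image ZMod.val).card =
      (((j + 1) • Ab g) \ Ab g).card :=
    Finset.card_image_of_injective _ (ZMod.val_injective (ww g))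
  have h5 : (((j + 1) • Ab g) \ Ab g).image ZMod.val ⊆
      (Rm g).filter (fun r' => dl g r' < dl g r) := by
    intro r' hr'
    rw [Finset.mem_image] at hr'
    obtain ⟨x, hx, rfl⟩ := hr'
    rw [Finset.mem_sdiff] at hx
    obtain ⟨hx1, hx2⟩ := hx
    obtain ⟨u', hu1, rfl⟩ := (mem_nsmul_Ab hg _ _).1 hx1
    rw [ZMod.val_natCast, Finset.mem_filter, ndist_mem_Rm, ndist_mem_MissN]
    refine ⟨⟨⟨Nat.mod_lt _ hg.ww_pos.1, ?_⟩, u', rfl⟩, ?_⟩
    · intro i hi
      apply hx2
      unfold Ab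
      rw [Finset.mem_image]
      exact ⟨i, Finset.mem_univ _, (ndist_mod_iff _ _).2 hi⟩
    · have := dl_le (g := g) u'
      omega
  have h6 := Finset.card_le_card h5
  have h7 := Finset.le_card_sdiff (Ab g) ((j + 1) • Ab g)
  rw [hj, Nat.add_sub_cancel]
  rw [h4, hj] at h6
  omega

/-- From `growth_two`: for `dl r = j + 2` the residues in `(j + 1) • Ab \ Ab` are the residues
`r' ∈ Rm g` with `dl r' < dl r`. -/
theorem grow_two (hg : Ng g) (hN : 3 ≤ N) {r : ℕ} (hr : r ∈ Rm g) :
    2 * (dl g r - 2) ≤ ((Rm g).filter (fun r' => dl g r' < dl g r)).card :=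
  ndist_count hg 2 hr (fun x j h1 h2 =>
    growth_two ndist_zero_mem (by rw [card_Ab hg]; exact hN) x j h1 h2)

/-- From `growth_three`. In the exceptional case (`N = 4`, `h + Ab = Ab`, `h ≠ 0`) let `l` be the inner letter
with residue `h`. For every letter `l'` the class of `x_l x_l'` is in `Ab`, so `x_l x_l'` is not `BB`
(`class_gen`). -/
theorem grow_three (hg : Ng g) (hN : 4 ≤ N) :
    (∀ r ∈ Rm g, 3 * (dl g r - 2) ≤ ((Rm g).filter (fun r' => dl g r' < dl g r)).card) ∨
    (N = 4 ∧ ∃ l : Fin (N + 1), l ≠ 0 ∧ l ≠ Fin.last N ∧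
      ∀ v, BB g v → 2 ≤ v.degree → v l = 0) := by
  by_cases hs : (Ab g).card = 4 ∧ ∃ h : ZMod (ww g), h ≠ 0 ∧ h +ᵥ Ab g = Ab g
  · right
    obtain ⟨h4, h, hh0, hh⟩ := hs
    have hhA : ∀ x ∈ Ab g, h + x ∈ Ab g := by
      intro x hx
      rw [← hh, Finset.mem_vadd_finset]
      exact ⟨x, hx, rfl⟩
    have hhA0 := hhA 0 ndist_zero_mem
    rw [add_zero] at hhA0
    have hhA1 := hhA0
    unfold Ab at hhA1
    rw [Finset.mem_image] at hhA1
    obtain ⟨l, -, hl⟩ := hhA1
    refine ⟨by rw [card_Ab hg] at h4; exact h4, l, ?_, ?_, ?_⟩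
    · rintro rfl
      rw [Nat.sub_self, Nat.cast_zero] at hl
      exact hh0 hl.symm
    · rintro rfl
      apply hh0
      rw [← hl]
      show ((ww g : ℕ) : ZMod (ww g)) = 0
      exact ZMod.natCast_self _
    · intro v hv hd
      by_contra hne
      have hvl : 0 < v l := Nat.pos_of_ne_zero hne
      have h1 := ndist_sub_deg hvl
      have h2 := ndist_sub hvl
      obtain ⟨i, hi⟩ : ∃ i, 0 < (v - Finsupp.single l 1 : Fin (N + 1) →₀ ℕ) i := by
        by_contra hno
        push Not at hno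
        have : v - Finsupp.single l 1 = 0 := by
          ext i
          have := hno i
          simp only [Finsupp.coe_zero, Pi.zero_apply]
          omega
        rw [this, map_zero] at h1
        omega
      have h3 := ndist_sub hi
      have hle : Finsupp.single i 1 + Finsupp.single l 1 ≤ v := by
        rw [← h2]
        apply add_le_add_left
        rw [← h3]
        exact le_add_of_nonneg_left zero_le
      have hdeg : (Finsupp.single i 1 + Finsupp.single l 1 : Fin (N + 1) →₀ ℕ).degree = 2 := by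
        rw [map_add, Finsupp.degree_single, Finsupp.degree_single]
      have hbb := hv.sub hle (by
        intro h0
        rw [h0, map_zero] at hdeg
        omega)
      have h5 := hhA ((g i - g 0 : ℕ) : ZMod (ww g)) (by
        unfold Ab
        rw [Finset.mem_image]
        exact ⟨i, Finset.mem_univ _, rfl⟩)
      unfold Ab at h5
      rw [Finset.mem_image] at h5
      obtain ⟨l', -, hl'⟩ := h5
      apply class_gen hg hbb (by rw [hdeg]) l'
      rw [← ndist_mod_iff, hl', val_add, val_single, val_single, one_mul, one_mul, ← hl,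
        ← Nat.cast_add, add_comm]
  · left
    intro r hr
    exact ndist_count hg 3 hr (fun x j h1 h2 =>
      growth_three ndist_zero_mem (by rw [card_Ab hg]; exact hN) hs x j h1 h2)

end Pool.Agent.Lib.MP_a2efaf_al.Nar
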