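import Pool.Agent.Lib.MP_a2efaf_al.WML

/-!
# Narrow case: the minimal non-members of an order ideal of monomials
-/

set_option autoImplicit false

namespace Pool.Agent.Lib.MP_a2efaf_al.Nar

section

variable {ι : Type}

/-- the elements of degree `d` -/
private noncomputable def nlevD (O : Finset (ι →₀ ℕ)) (d : ℕ) : Finset (ι →₀ ℕ) :=
  O.filter (fun v => v.degree = d)

private lemma nlev_mem (O : Finset (ι →₀ ℕ)) (d : ℕ) (v : ι →₀ ℕ) :
    v ∈ nlevD O d ↔ v ∈ O ∧ v.degree = d := by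
  unfold nlevD
  rw [Finset.mem_filter]

private lemma nlev_degree_sub {v : ι →₀ ℕ} {l : ι} (hl : 0 < v l) :
    (v - Finsupp.single l 1).degree + 1 = v.degree := by
  have h : v - Finsupp.single l 1 + Finsupp.single l 1 = v := by
    apply tsub_add_cancel_of_le
    rw [Finsupp.single_le_iff]
    exact hl
  conv_rhs => rw [← h]
  rw [map_add, Finsupp.degree_single]

private lemma nlev_sum_degree (O : Finset (ι →₀ ℕ)) (D : ℕ) (hD : ∀ v ∈ O, v.degree ≤ D)
    (f : ℕ → ℚ) :
    ∑ v ∈ O.filter (fun v => 2 ≤ v.degree), f v.degree =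
      ∑ d ∈ Finset.Icc 2 D, ((nlevD O d).card : ℚ) * f d := by
  rw [← Finset.sum_fiberwise_of_maps_to (s := O.filter (fun v => 2 ≤ v.degree))
    (t := Finset.Icc 2 D) (g := fun v => v.degree)]
  · apply Finset.sum_congr rfl
    intro d hd
    rw [Finset.mem_Icc] at hd
    rw [← nsmul_eq_mul, ← Finset.sum_const]
    have h1 : (O.filter (fun v => 2 ≤ v.degree)).filter (fun v => v.degree = d) = nlevD O d := by
      ext v
      rw [Finset.mem_filter, Finset.mem_filter, nlev_mem]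
      constructor
      · rintro ⟨⟨h1, h2⟩, h3⟩
        exact ⟨h1, h3⟩
      · rintro ⟨h1, h3⟩
        exact ⟨⟨h1, by omega⟩, h3⟩
    rw [h1]
    apply Finset.sum_congr rfl
    intro v hv
    rw [nlev_mem] at hv
    rw [hv.2]
  · intro v hv
    rw [Finset.mem_filter] at hv
    rw [Finset.mem_Icc]
    exact ⟨hv.2, hD v hv.1⟩

/-- `O` is an order ideal, `NC` consists of minimal non-elements of degree `≥ 2`. -/
private theorem nlev_ml_sum (O NC : Finset (ι →₀ ℕ)) (P n : ℕ)
    (hO : ∀ v ∈ O, 2 ≤ v.degree → ∀ l, 0 < v l → v - Finsupp.single l 1 ∈ O)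
    (hNC : ∀ v ∈ NC, 2 ≤ v.degree ∧ v ∉ O ∧ ∀ l, 0 < v l → v - Finsupp.single l 1 ∈ O)
    (h1 : (O.filter (fun v => v.degree = 1)).card ≤ n) (hP : 1 ≤ P)
    (h2 : (O.filter (fun v => v.degree = 2)).card ≤ (P + 1).choose 2) :
    (NC.card : ℚ) + ((O.filter (fun v => 2 ≤ v.degree)).card : ℕ) ≤ ((n + 1).choose 2 : ℕ) +
      ∑ v ∈ O.filter (fun v => 2 ≤ v.degree), (1 + ((P : ℚ) - 1) / ((v.degree : ℚ) + 1)) := by
  classical
  have hHdeg : ∀ d, ∀ z ∈ nlevD O d, z.degree = d := by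
    intro d z hz
    rw [nlev_mem] at hz
    exact hz.2
  have hU : ∀ d, 1 ≤ d → ∀ v ∈ nlevD NC (d + 1) ∪ nlevD O (d + 1),
      v.degree = d + 1 ∧ ∀ l, 0 < v l → v - Finsupp.single l 1 ∈ nlevD O d := by
    intro d hd v hv
    rw [Finset.mem_union, nlev_mem, nlev_mem] at hv
    rcases hv with ⟨hv, hvd⟩ | ⟨hv, hvd⟩
    · refine ⟨hvd, fun l hl => ?_⟩
      have h4 := nlev_degree_sub hl
      rw [nlev_mem]
      exact ⟨(hNC v hv).2.2 l hl, by omega⟩
    · refine ⟨hvd, fun l hl => ?_⟩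
      have h4 := nlev_degree_sub hl
      rw [nlev_mem]
      exact ⟨hO v hv (by omega) l hl, by omega⟩
  have hdisj : ∀ e, Disjoint (nlevD NC e) (nlevD O e) := by
    intro e
    rw [Finset.disjoint_left]
    intro v hv hv'
    rw [nlev_mem] at hv hv'
    exact (hNC v hv.1).2.1 hv'.1
  have hO1 : ∀ d, 2 ≤ d → (nlevD O d).card ≤ (P + d - 1).choose d := by
    intro d hd
    induction d, hd using Nat.le_induction with
    | base => exact h2
    | succ d hd ih =>
      have h3 := ml_ratio d P (by omega) (nlevD O d) (nlevD O (d + 1)) (hHdeg d)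
        (fun v hv => hU d (by omega) v (Finset.mem_union_right _ hv)) ih
      have h4 : (P + d) * (P + d - 1).choose d = (P + d).choose (d + 1) * (d + 1) := by
        have h5 := Nat.add_one_mul_choose_eq (P + d - 1) d
        have h6 : P + d - 1 + 1 = P + d := by omega
        rw [h6] at h5
        exact h5
      have h5 : (d + 1) * (nlevD O (d + 1)).card ≤ (d + 1) * (P + d).choose (d + 1) := by
        calc (d + 1) * (nlevD O (d + 1)).card ≤ (d + P) * (nlevD O d).card := h3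
          _ ≤ (d + P) * (P + d - 1).choose d := Nat.mul_le_mul_left _ ih
          _ = (P + d) * (P + d - 1).choose d := by rw [add_comm d P]
          _ = (d + 1) * (P + d).choose (d + 1) := by rw [h4, mul_comm]
      have h6 : P + (d + 1) - 1 = P + d := by omega
      rw [h6]
      exact Nat.le_of_mul_le_mul_left h5 (by omega)
  have hstep : ∀ d, 2 ≤ d → (d + 1) * ((nlevD NC (d + 1)).card + (nlevD O (d + 1)).card) ≤
        (d + P) * (nlevD O d).card := by
    intro d hd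
    rw [← Finset.card_union_of_disjoint (hdisj (d + 1))]
    exact ml_ratio d P (by omega) _ _ (hHdeg d) (hU d (by omega)) (hO1 d hd)
  have hstep1 : (nlevD NC 2).card + (nlevD O 2).card ≤ (n + 1).choose 2 := by
    rw [← Finset.card_union_of_disjoint (hdisj 2)]
    have h3 := ml_two (nlevD O 1) (nlevD NC 2 ∪ nlevD O 2) (hHdeg 1) (hU 1 le_rfl)
    refine h3.trans ?_
    apply Nat.choose_le_choose
    have h5 : (nlevD O 1).card ≤ n := h1
    omega
  -- the sums
  obtain ⟨D, hD1, hDO, hDN⟩ : ∃ D : ℕ, 2 ≤ D ∧ (∀ v ∈ O, v.degree ≤ D) ∧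
      ∀ v ∈ NC, v.degree ≤ D := by
    refine ⟨(O ∪ NC).sup (fun v => v.degree) + 2, by omega, fun v hv => ?_, fun v hv => ?_⟩
    · have := Finset.le_sup (f := fun v : ι →₀ ℕ => v.degree) (Finset.mem_union_left NC hv)
      omega
    · have := Finset.le_sup (f := fun v : ι →₀ ℕ => v.degree) (Finset.mem_union_right O hv)
      omega
  have hNC2 : NC.filter (fun v => 2 ≤ v.degree) = NC := by
    rw [Finset.filter_eq_self]
    intro v hv
    exact (hNC v hv).1
  have e1 : (NC.card : ℚ) = ∑ d ∈ Finset.Icc 2 D, ((nlevD NC d).card : ℚ) := by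
    have h := nlev_sum_degree NC D hDN (fun _ => 1)
    rw [hNC2] at h
    simpa using h
  have e2 : ((O.filter (fun v => 2 ≤ v.degree)).card : ℚ) =
      ∑ d ∈ Finset.Icc 2 D, ((nlevD O d).card : ℚ) := by
    have h := nlev_sum_degree O D hDO (fun _ => 1)
    simpa using h
  have e3 := nlev_sum_degree O D hDO (fun d => 1 + ((P : ℚ) - 1) / ((d : ℚ) + 1))
  rw [e1, e2, e3, ← Finset.sum_add_distrib]
  have hclaim : ∀ D, 2 ≤ D → ∑ d ∈ Finset.Icc 2 D,
      (((nlevD NC d).card : ℚ) + ((nlevD O d).card : ℚ)) +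
        ((nlevD O D).card : ℚ) * (1 + ((P : ℚ) - 1) / ((D : ℚ) + 1)) ≤ ((n + 1).choose 2 : ℕ) +
      ∑ d ∈ Finset.Icc 2 D, ((nlevD O d).card : ℚ) * (1 + ((P : ℚ) - 1) / ((d : ℚ) + 1)) := by
    intro D hD
    induction D, hD using Nat.le_induction with
    | base =>
      rw [Finset.Icc_self, Finset.sum_singleton, Finset.sum_singleton]
      have : ((nlevD NC 2).card : ℚ) + ((nlevD O 2).card : ℚ) ≤ ((n + 1).choose 2 : ℕ) := by
        exact_mod_cast hstep1
      linarith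
    | succ D hD ih =>
      rw [Finset.sum_Icc_succ_top (by omega), Finset.sum_Icc_succ_top (by omega)]
      have h3 : ((D : ℚ) + 1) * (((nlevD NC (D + 1)).card : ℚ) + ((nlevD O (D + 1)).card : ℚ)) ≤
        ((D : ℚ) + P) * ((nlevD O D).card : ℚ) := by exact_mod_cast hstep D hD
      have hd0 : (0 : ℚ) < (D : ℚ) + 1 := by positivity
      have h5 : ((nlevD NC (D + 1)).card : ℚ) + ((nlevD O (D + 1)).card : ℚ) ≤
          ((nlevD O D).card : ℚ) * (1 + ((P : ℚ) - 1) / ((D : ℚ) + 1)) := by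
        have h6 : ((D : ℚ) + P) * ((nlevD O D).card : ℚ) =
            ((D : ℚ) + 1) * (((nlevD O D).card : ℚ) * (1 + ((P : ℚ) - 1) / ((D : ℚ) + 1))) := by
          field_simp
          ring
        rw [h6] at h3
        exact le_of_mul_le_mul_left h3 hd0
      linarith
  have h3 := hclaim D hD1
  have hP' : (1 : ℚ) ≤ P := by exact_mod_cast hP
  have h4 : 0 ≤ ((nlevD O D).card : ℚ) * (1 + ((P : ℚ) - 1) / ((D : ℚ) + 1)) := by
    apply mul_nonneg (Nat.cast_nonneg _)
    have : 0 ≤ ((P : ℚ) - 1) / ((D : ℚ) + 1) := by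
      apply div_nonneg
      · linarith
      · positivity
    linarith
  linarith


end

/-- Let `O_d`, `V_d` be the elements of degree `d`.

* `|V_2| + |O_2| ≤ C(n+1,2)` (`ml_two` with `H = O_1`, `U = V_2 ∪ O_2`, disjoint by `hV`).
* `|O_d| ≤ C(P+d-1,d)` for `d ≥ 2`: induction, `h2` and `ml_ratio` with `H = O_d`, `U = O_{d+1}`
  (`(d+1) C(P+d,d+1) = (d+P) C(P+d-1,d)`).
* `d ≥ 2`: `(d+1) (|V_{d+1}| + |O_{d+1}|) ≤ (d+P) |O_d|` (`ml_ratio` with `U = V_{d+1} ∪ O_{d+1}`), i.e.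
  `|V_{d+1}| ≤ |O_d| - |O_{d+1}| + (P-1) |O_d| / (d+1)`. Sum over `d` (telescoping). -/
theorem one_level {ι : Type} (O V : Finset (ι →₀ ℕ)) (P n : ℕ)
    (hO : ∀ v ∈ O, 2 ≤ v.degree → ∀ l, 0 < v l → v - Finsupp.single l 1 ∈ O)
    (hV : ∀ v ∈ V, 2 ≤ v.degree ∧ v ∉ O ∧ ∀ l, 0 < v l → v - Finsupp.single l 1 ∈ O)
    (h1 : (O.filter (fun v => v.degree = 1)).card ≤ n) (hP : 1 ≤ P)
    (h2 : (O.filter (fun v => v.degree = 2)).card ≤ (P + 1).choose 2) :
    (V.card : ℚ) ≤ ((n + 1).choose 2 : ℕ) +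
      ((P : ℚ) - 1) * ∑ v ∈ O.filter (fun v => 2 ≤ v.degree), 1 / ((v.degree : ℚ) + 1) := by
  have h := nlev_ml_sum O V P n hO hV h1 hP h2
  rw [Finset.sum_add_distrib, Finset.sum_const, nsmul_eq_mul, mul_one] at h
  rw [Finset.mul_sum]
  have e : ∑ v ∈ O.filter (fun v => 2 ≤ v.degree), ((P : ℚ) - 1) / ((v.degree : ℚ) + 1) =
      ∑ v ∈ O.filter (fun v => 2 ≤ v.degree), ((P : ℚ) - 1) * (1 / ((v.degree : ℚ) + 1)) := by
    apply Finset.sum_congr rfl
    intro v _
    ring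
  rw [e] at h
  linarith

/-- The number of elements of degree `2` whose divisors of degree `1` are among `n` letters. -/
theorem two_le_choose {ι : Type} (O : Finset (ι →₀ ℕ)) (n : ℕ)
    (hO : ∀ v ∈ O, v.degree = 2 → ∀ l, 0 < v l → v - Finsupp.single l 1 ∈ O)
    (h1 : (O.filter (fun v => v.degree = 1)).card ≤ n) :
    (O.filter (fun v => v.degree = 2)).card ≤ (n + 1).choose 2 := by
  have h3 := ml_two (O.filter (fun v => v.degree = 1)) (O.filter (fun v => v.degree = 2))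
    (fun z hz => (Finset.mem_filter.1 hz).2) (fun v hv => by
      rw [Finset.mem_filter] at hv
      refine ⟨hv.2, fun l hl => ?_⟩
      rw [Finset.mem_filter]
      have h4 := nlev_degree_sub hl
      exact ⟨hO v hv.1 hv.2 l hl, by omega⟩)
  refine h3.trans ?_
  apply Nat.choose_le_choose
  omega

end Pool.Agent.Lib.MP_a2efaf_al.Nar
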