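import Pool.Agent.Lib.MP_a2efaf_al.NClass

/-!
# Narrow case: the numerical inequalities
-/

set_option autoImplicit false

namespace Pool.Agent.Lib.MP_a2efaf_al.Nar

lemma nnum_F3_le (n q : ℕ) (hn : 1 ≤ n) :
    F3 n (2 + q) ≤ 3 * (1 + (q : ℚ)) + ((n : ℚ) - 1) := by
  unfold F3
  have h1 : (1 : ℚ) ≤ n := by exact_mod_cast hn
  have h2 : (0 : ℚ) ≤ q := Nat.cast_nonneg q
  push_cast
  have h3 : ((n : ℚ) - 1) * (2 + q) / (2 + q + 1) ≤ (n : ℚ) - 1 := by
    rw [div_le_iff₀ (by linarith)]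
    nlinarith
  linarith

lemma nnum_three_step (n d : ℕ) (hn : 1 ≤ n) :
    F3 n (2 + d / 3) + F3 n (2 + (d + 1) / 3) + F3 n (2 + (d + 2) / 3) ≤
      3 * (n : ℚ) + 3 * d + 6 := by
  have h1 := nnum_F3_le n (d / 3) hn
  have h2 := nnum_F3_le n ((d + 1) / 3) hn
  have h3 := nnum_F3_le n ((d + 2) / 3) hn
  have h4 : d / 3 + (d + 1) / 3 + (d + 2) / 3 = d := by omega
  have h5 : ((d / 3 : ℕ) : ℚ) + (((d + 1) / 3 : ℕ) : ℚ) + (((d + 2) / 3 : ℕ) : ℚ) = d := by
    exact_mod_cast h4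
  linarith

/-- `F3 n (2 + i/3) = 3 (1 + i/3) + (n - 1) - (n - 1) / (3 + i/3)`; `∑_{i<c} 3 (1 + i/3) ≤ c (c+3)/2 + 1` (equality
for `c ≡ 1, 2 mod 3`, and `≤ c (c+3)/2` for `3 ∣ c`), `∑_{i<c} 1/(3 + i/3) ≥ 1` with `>` for `c ≥ 4`. -/
theorem num_three (n c : ℕ) (hn : 3 ≤ n) (hc : 3 ≤ c) :
    ∑ i ∈ Finset.range c, F3 n (2 + i / 3) <
      ((c : ℚ) - 1) * n + (c : ℚ) * (c + 1) / 2 + 2 := by
  have hn' : (3 : ℚ) ≤ n := by exact_mod_cast hn
  induction c using Nat.strong_induction_on with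
  | _ c ih =>
    by_cases hc6 : c < 6
    · interval_cases c
      · simp only [Finset.sum_range_succ, Finset.sum_range_zero, F3]
        norm_num
        linarith
      · simp only [Finset.sum_range_succ, Finset.sum_range_zero, F3]
        norm_num
        linarith
      · simp only [Finset.sum_range_succ, Finset.sum_range_zero, F3]
        norm_num
        linarith
    · obtain ⟨d, rfl⟩ : ∃ d, c = d + 3 := ⟨c - 3, by omega⟩
      have h1 := ih d (by omega) (by omega)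
      have h2 := nnum_three_step n d (by omega)
      rw [Finset.sum_range_succ, Finset.sum_range_succ, Finset.sum_range_succ]
      push_cast
      nlinarith

lemma nnum_two_step (c : ℕ) (hc : 16 ≤ c) : F2 (2 + c / 2) ≤ (c : ℚ) + 3 := by
  unfold F2
  rw [if_neg (by omega)]
  set M := min (3 * (2 + c / 2 - 1)) (min (3 * (1 + (2 + c / 2) / 2))
    (2 * (1 + (2 + c / 2) / 2) + (2 + c / 2 - 3))) with hM
  have h1 : M ≤ 3 * (1 + (2 + c / 2) / 2) :=
    le_trans (min_le_right _ _) (min_le_left _ _)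
  have h2 : 3 * (1 + (2 + c / 2) / 2) + 1 ≤ c + 3 := by omega
  have h3 : (M : ℚ) + 1 ≤ (c : ℚ) + 3 := by exact_mod_cast le_trans (Nat.succ_le_succ h1) h2
  linarith

/-- Two letters: numerical for `c ≤ 16`; for `i ≥ 16` the summand is at most `i + 3`. -/
theorem num_two (n c : ℕ) (hn : 2 ≤ n) (hc : 3 ≤ c) :
    ∑ i ∈ Finset.range c, F2 (2 + i / 2) <
      ((c : ℚ) - 1) * n + (c : ℚ) * (c + 1) / 2 + 2 := by
  have hn' : (2 : ℚ) ≤ n := by exact_mod_cast hn
  by_cases hc16 : c ≤ 16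
  · interval_cases c <;>
    · simp only [Finset.sum_range_succ, Finset.sum_range_zero, F2]
      norm_num
      linarith
  · push Not at hc16
    have key : ∀ k : ℕ, ∑ i ∈ Finset.range (16 + k), F2 (2 + i / 2) <
        (((16 + k : ℕ) : ℚ) - 1) * n + ((16 + k : ℕ) : ℚ) * (((16 + k : ℕ) : ℚ) + 1) / 2 + 2 := by
      intro k
      induction k with
      | zero =>
        simp only [Finset.sum_range_succ, Finset.sum_range_zero, F2]
        norm_num
        linarith
      | succ k ih =>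
        have h2 := nnum_two_step (16 + k) (by omega)
        rw [← add_assoc, Finset.sum_range_succ]
        push_cast at ih h2 ⊢
        nlinarith
    obtain ⟨k, rfl⟩ : ∃ k, c = 16 + k := ⟨c - 16, by omega⟩
    exact key k

/-- `C(n+1,2) + n + (c-1) n + c (c+1)/2 + 1 = C(n+1+c,2) + 1`. -/
theorem num_choose (n c : ℕ) :
    (((n + 1).choose 2 : ℕ) : ℚ) + n + ((c : ℚ) - 1) * n + (c : ℚ) * (c + 1) / 2 =
      (((n + 1 + c).choose 2 : ℕ) : ℚ) := by
  rw [Nat.cast_choose_two, Nat.cast_choose_two]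
  push_cast
  ring

end Pool.Agent.Lib.MP_a2efaf_al.Nar
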