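import Pool.Agent.Lib.MP_a2efaf_al.NCan

/-!
# Narrow case: positions and classes modulo the width
-/

set_option autoImplicit false

namespace Pool.Agent.Lib.MP_a2efaf_al.Nar

variable {N : ℕ}

/-- The first coordinate of the position. -/
noncomputable def pp (g : Fin (N + 1) → ℕ) (v : Fin (N + 1) →₀ ℕ) : ℕ := val g v / ww g

/-- The second coordinate of the position. -/
noncomputable def qq (g : Fin (N + 1) → ℕ) (v : Fin (N + 1) →₀ ℕ) : ℕ := v.degree - 1 - pp g v

/-- The missing residues modulo the width. -/
def MissN (g : Fin (N + 1) → ℕ) : Finset ℕ :=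
  (Finset.range (ww g)).filter (fun r => ∀ j, (g j - g 0) % ww g ≠ r)

variable {g : Fin (N + 1) → ℕ}

theorem npos_ne_last (hg : Ng g) : (0 : Fin (N + 1)) ≠ Fin.last N := by
  intro h
  have h1 := congrArg Fin.val h
  have h2 := hg.one
  simp at h1
  omega

theorem npos_exists {u : Fin (N + 1) →₀ ℕ} (hne : u ≠ 0) : ∃ i, 0 < u i := by
  by_contra h
  push Not at h
  apply hne
  ext i
  have := h i
  simp
  omega

theorem npos_inner (hg : Ng g) {i : Fin (N + 1)} (h0 : i ≠ 0) (hl : i ≠ Fin.last N) :
    0 < g i - g 0 ∧ g i - g 0 < ww g := by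
  have h1 : g 0 < g i := hg.mono (Fin.pos_iff_ne_zero.mpr h0)
  have h2 : g i < g (Fin.last N) := hg.mono (Fin.lt_last_iff_ne_last.mpr hl)
  unfold ww
  omega

theorem npos_degree (u : Fin (N + 1) →₀ ℕ) : u.degree = ∑ i, u i :=
  Finsupp.degree_eq_sum u

/-- Inner exponent vectors: `0 < val < deg * ww` (each inner letter is strictly between `0` and `ww`). -/
theorem val_inner (hg : Ng g) {u : Fin (N + 1) →₀ ℕ} (h0 : u 0 = 0) (hl : u (Fin.last N) = 0)
    (hne : u ≠ 0) : 0 < val g u ∧ val g u < u.degree * ww g := by
  obtain ⟨i, hi⟩ := npos_exists hne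
  have hin : ∀ j, 0 < u j → j ≠ 0 ∧ j ≠ Fin.last N := by
    intro j hj
    constructor
    · rintro rfl
      omega
    · rintro rfl
      omega
  have hval : val g u = ∑ j, u j * (g j - g 0) := rfl
  constructor
  · rw [hval]
    refine Finset.sum_pos' (fun _ _ => Nat.zero_le _) ⟨i, Finset.mem_univ _, ?_⟩
    obtain ⟨h1, h2⟩ := hin i hi
    exact Nat.mul_pos hi (npos_inner hg h1 h2).1
  · rw [hval, npos_degree, Finset.sum_mul]
    refine Finset.sum_lt_sum (fun j _ => ?_) ⟨i, Finset.mem_univ _, ?_⟩
    · rcases Nat.eq_zero_or_pos (u j) with h | h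
      · rw [h]; simp
      · obtain ⟨h1, h2⟩ := hin j h
        exact Nat.mul_le_mul_left _ (npos_inner hg h1 h2).2.le
    · obtain ⟨h1, h2⟩ := hin i hi
      exact Nat.mul_lt_mul_of_pos_left (npos_inner hg h1 h2).2 hi

theorem pq_deg (hg : Ng g) {u : Fin (N + 1) →₀ ℕ} (h0 : u 0 = 0) (hl : u (Fin.last N) = 0)
    (hne : u ≠ 0) : pp g u + qq g u + 1 = u.degree := by
  have h1 := (val_inner hg h0 hl hne).2
  have h2 : pp g u < u.degree := Nat.div_lt_of_lt_mul (by rw [mul_comm]; exact h1)
  unfold qq
  omega

/-- If `u` is inner, `v` inner homogeneous canonical, in the same class, then `v` is not (weakly) above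
`u` unless the positions are equal: otherwise `u + (pp v - pp u) x_last + (qq v - qq u) x_0` has the degree
and the weight of `v` and contradicts `BB.no`. -/
theorem pos_cases (hg : Ng g) {u v : Fin (N + 1) →₀ ℕ} (hv : BB g v) (h0 : u 0 = 0)
    (hl : u (Fin.last N) = 0) (hne : u ≠ 0) (hcl : val g v % ww g = val g u % ww g) :
    pp g v < pp g u ∨ qq g v < qq g u ∨ (pp g v = pp g u ∧ qq g v = qq g u) := by
  by_contra hcon
  push Not at hcon
  obtain ⟨hc1, hc2, hc3⟩ := hcon
  have hu := pq_deg hg h0 hl hne
  have hv' := pq_deg hg hv.zero hv.last hv.ne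
  have hlast := npos_ne_last hg
  set a := pp g v - pp g u with ha
  set b := qq g v - qq g u with hb
  set x := u + (Finsupp.single (Fin.last N) a + Finsupp.single 0 b) with hx
  have hdeg : x.degree = v.degree := by
    rw [hx, map_add, map_add, Finsupp.degree_single, Finsupp.degree_single]
    omega
  have hval : val g x = val g v := by
    rw [hx, val_add, val_add, val_single, val_single, Nat.sub_self, Nat.mul_zero, Nat.add_zero]
    have e1 := Nat.div_add_mod (val g u) (ww g)
    have e2 := Nat.div_add_mod (val g v) (ww g)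
    have e3 : a * (g (Fin.last N) - g 0) = ww g * pp g v - ww g * pp g u := by
      rw [ha, Nat.sub_mul, mul_comm (pp g v), mul_comm (pp g u)]
      rfl
    have e4 : ww g * pp g u ≤ ww g * pp g v := Nat.mul_le_mul_left _ hc1
    rw [e3]
    change ww g * pp g u + _ = _ at e1
    change ww g * pp g v + _ = _ at e2
    omega
  have hwt : wt g x = wt g v := by
    rw [wt_eq hg, wt_eq hg, hdeg, hval]
  obtain ⟨n1, n2⟩ := hv.no hdeg hwt
  have m1 : x 0 = b := by
    rw [hx]
    simp [h0, hlast.symm]
  have m2 : x (Fin.last N) = a := by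
    rw [hx]
    simp [hl, hlast]
  exact hc3 (by omega) (by omega)

/-- Inner homogeneous canonical exponent vectors of one class form an antichain (`pos_cases` twice and
`Hc.unique`). -/
theorem antichain (hg : Ng g) {u v : Fin (N + 1) →₀ ℕ} (hu : BB g u) (hv : BB g v)
    (hcl : val g u % ww g = val g v % ww g) (hne : u ≠ v) :
    (pp g u < pp g v ∧ qq g v < qq g u) ∨ (pp g v < pp g u ∧ qq g u < qq g v) := by
  have h1 := pos_cases hg hv hu.zero hu.last hu.ne hcl.symm
  have h2 := pos_cases hg hu hv.zero hv.last hv.ne hcl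
  have hdu := pq_deg hg hu.zero hu.last hu.ne
  have hdv := pq_deg hg hv.zero hv.last hv.ne
  have h3 : ¬ (pp g v = pp g u ∧ qq g v = qq g u) := by
    rintro ⟨e1, e2⟩
    have hd : u.degree = v.degree := by omega
    have hval : val g u = val g v := by
      have e3 := Nat.div_add_mod (val g u) (ww g)
      have e4 := Nat.div_add_mod (val g v) (ww g)
      change ww g * pp g u + _ = _ at e3
      change ww g * pp g v + _ = _ at e4
      rw [← e3, ← e4, e1, hcl]
    exact hne (hu.hc.unique hv.hc hd (by rw [wt_eq hg, wt_eq hg, hd, hval]))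
  have h4 : ¬ (pp g u = pp g v ∧ qq g u = qq g v) := fun h => h3 ⟨h.1.symm, h.2.symm⟩
  omega

/-- The class of an inner homogeneous canonical exponent vector of degree `≥ 2` is not the class of
a letter: if `val v = p * ww + (g l - g 0)`, `l ≠ last`, then `p ≤ deg v - 1` and
`single l 1 + p x_last + (deg v - 1 - p) x_0` contradicts `BB.no`. -/
theorem class_gen (hg : Ng g) {v : Fin (N + 1) →₀ ℕ} (hv : BB g v) (hd : 2 ≤ v.degree)
    (l : Fin (N + 1)) : (g l - g 0) % ww g ≠ val g v % ww g := by
  have hlast := npos_ne_last hg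
  have key : ∀ l : Fin (N + 1), l ≠ Fin.last N → (g l - g 0) % ww g ≠ val g v % ww g := by
    intro l hl h
    have hw := (Ng.ww_pos hg).1
    have hlt : g l - g 0 < ww g := by
      have h2 : g l < g (Fin.last N) := hg.mono (Fin.lt_last_iff_ne_last.mpr hl)
      have h3 : g 0 < g (Fin.last N) := hg.mono (Fin.pos_iff_ne_zero.mpr hlast.symm)
      unfold ww
      omega
    rw [Nat.mod_eq_of_lt hlt] at h
    have hv' := pq_deg hg hv.zero hv.last hv.ne
    set x := Finsupp.single l 1 + (Finsupp.single (Fin.last N) (pp g v) +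
      Finsupp.single 0 (qq g v)) with hx
    have hdeg : x.degree = v.degree := by
      rw [hx, map_add, map_add, Finsupp.degree_single, Finsupp.degree_single,
        Finsupp.degree_single]
      omega
    have hval : val g x = val g v := by
      rw [hx, val_add, val_add, val_single, val_single, val_single, Nat.sub_self, Nat.mul_zero]
      have e2 := Nat.div_add_mod (val g v) (ww g)
      have e3 : pp g v * (g (Fin.last N) - g 0) = ww g * (val g v / ww g) := mul_comm _ _
      rw [e3]
      omega
    have hwt : wt g x = wt g v := by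
      rw [wt_eq hg, wt_eq hg, hdeg, hval]
    obtain ⟨n1, n2⟩ := hv.no hdeg hwt
    have m1 : qq g v ≤ x 0 := by
      rw [hx]
      simp [Finsupp.single_apply, hlast.symm]
    have m2 : pp g v ≤ x (Fin.last N) := by
      rw [hx]
      simp [Finsupp.single_apply, hlast]
    omega
  by_cases hl : l = Fin.last N
  · have h1 := key 0 hlast
    rw [hl]
    have h2 : (g (Fin.last N) - g 0) % ww g = 0 := Nat.mod_self _
    rw [h2]
    simpa using h1
  · exact key l hl

theorem class_ne_zero (hg : Ng g) {v : Fin (N + 1) →₀ ℕ} (hv : BB g v) :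
    val g v % ww g ≠ 0 := by
  by_cases hd : 2 ≤ v.degree
  · have h := class_gen hg hv hd 0
    rw [Nat.sub_self, Nat.zero_mod] at h
    exact h.symm
  · have h1 := val_inner hg hv.zero hv.last hv.ne
    have h2 := pq_deg hg hv.zero hv.last hv.ne
    have h3 : v.degree = 1 := by omega
    rw [h3, one_mul] at h1
    rw [Nat.mod_eq_of_lt h1.2]
    omega

theorem class_miss (hg : Ng g) {v : Fin (N + 1) →₀ ℕ} (hv : BB g v) (hd : 2 ≤ v.degree) :
    val g v % ww g ∈ MissN g := by
  unfold MissN
  rw [Finset.mem_filter, Finset.mem_range]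
  exact ⟨Nat.mod_lt _ (Ng.ww_pos hg).1, fun j => class_gen hg hv hd j⟩

/-- A proper divisor has another class (the quotient has class `≠ 0`). -/
theorem class_sub (hg : Ng g) {u v : Fin (N + 1) →₀ ℕ} (hv : BB g v) (h : u ≤ v) (hne : u ≠ v) :
    val g u % ww g ≠ val g v % ww g := by
  intro h1
  have h2 : u + (v - u) = v := add_tsub_cancel_of_le h
  have h3 : v - u ≠ 0 := by
    intro h0
    rw [h0, add_zero] at h2
    exact hne h2
  have h4 : BB g (v - u) := hv.sub tsub_le_self h3
  have h5 := class_ne_zero hg h4
  apply h5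
  have h6 : val g v = val g u + val g (v - u) := by rw [← val_add, h2]
  rw [h6] at h1
  have h7 : val g u + 0 ≡ val g u + val g (v - u) [MOD ww g] := h1
  have h8 := Nat.ModEq.add_left_cancel' _ h7
  exact h8.symm

/-- The letters other than the last one have different residues. -/
theorem card_MissN (hg : Ng g) : (MissN g).card + N = ww g := by
  classical
  have hlast := npos_ne_last hg
  set I : Finset ℕ := Finset.univ.image (fun j : Fin N => g j.castSucc - g 0) with hI
  have hlt : ∀ j : Fin N, g j.castSucc - g 0 < ww g := by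
    intro j
    have h2 : g j.castSucc < g (Fin.last N) := hg.mono (Fin.castSucc_lt_last j)
    have h3 : g 0 < g (Fin.last N) := hg.mono (Fin.pos_iff_ne_zero.mpr hlast.symm)
    unfold ww
    omega
  have hcard : I.card = N := by
    rw [hI, Finset.card_image_of_injective, Finset.card_univ, Fintype.card_fin]
    intro i j hij
    have h1 := hg.mono.monotone (Fin.zero_le i.castSucc)
    have h2 := hg.mono.monotone (Fin.zero_le j.castSucc)
    have h3 : g i.castSucc = g j.castSucc := by
      simp only at hij
      omega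
    exact Fin.castSucc_injective N (hg.mono.injective h3)
  have hsub : I ⊆ Finset.range (ww g) := by
    intro r hr
    rw [hI, Finset.mem_image] at hr
    obtain ⟨j, -, rfl⟩ := hr
    exact Finset.mem_range.mpr (hlt j)
  have hM : MissN g = Finset.range (ww g) \ I := by
    ext r
    unfold MissN
    rw [Finset.mem_filter, Finset.mem_sdiff]
    refine and_congr_right (fun hr => ?_)
    constructor
    · intro h hmem
      rw [hI, Finset.mem_image] at hmem
      obtain ⟨j, -, hj⟩ := hmem
      apply h j.castSucc
      rw [Nat.mod_eq_of_lt (hlt j), hj]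
    · intro h j hj
      apply h
      rw [hI, Finset.mem_image]
      by_cases hjl : j = Fin.last N
      · refine ⟨⟨0, hg.one⟩, Finset.mem_univ _, ?_⟩
        have h1 : (Fin.castSucc (⟨0, hg.one⟩ : Fin N)) = 0 := rfl
        rw [h1, Nat.sub_self, ← hj, hjl]
        exact (Nat.mod_self _).symm
      · obtain ⟨i, hi⟩ := Fin.exists_castSucc_eq.mpr hjl
        refine ⟨i, Finset.mem_univ _, ?_⟩
        rw [← hj, ← hi, Nat.mod_eq_of_lt (hlt i)]
  have h1 := Finset.card_le_card hsub
  rw [hM, Finset.card_sdiff_of_subset hsub, Finset.card_range, hcard]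
  rw [Finset.card_range, hcard] at h1
  omega

/-- A chain `v_2 < v_3 < ... < v_d = v` of divisors of `v` with `deg v_i = i` has pairwise different
missing classes. -/
theorem deg_le (hg : Ng g) {v : Fin (N + 1) →₀ ℕ} (hv : BB g v) :
    v.degree ≤ (MissN g).card + 1 := by
  classical
  have key : ∀ n : ℕ, ∀ v : Fin (N + 1) →₀ ℕ, BB g v → v.degree = n + 1 →
      ∃ S : Finset ℕ, S ⊆ MissN g ∧ S.card = n ∧
        ∀ r ∈ S, ∃ u : Fin (N + 1) →₀ ℕ, u ≤ v ∧ val g u % ww g = r := by
    intro n
    induction n with
    | zero =>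
      intro v _ _
      exact ⟨∅, by simp, by simp, by simp⟩
    | succ n ih =>
      intro v hv hd
      obtain ⟨i, hi⟩ := npos_exists hv.ne
      have hle : Finsupp.single i 1 ≤ v := by
        rw [Finsupp.single_le_iff]
        exact hi
      set v' := v - Finsupp.single i 1 with hv'
      have hadd : v' + Finsupp.single i 1 = v := tsub_add_cancel_of_le hle
      have hd' : v'.degree = n + 1 := by
        have : v.degree = v'.degree + 1 := by
          conv_lhs => rw [← hadd]
          rw [map_add, Finsupp.degree_single]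
        omega
      have hne : v' ≠ 0 := by
        intro h0
        rw [h0, map_zero] at hd'
        omega
      have hle' : v' ≤ v := tsub_le_self
      have hB' : BB g v' := hv.sub hle' hne
      obtain ⟨S, hS1, hS2, hS3⟩ := ih v' hB' hd'
      have hnot : val g v % ww g ∉ S := by
        intro hmem
        obtain ⟨u, hu, hur⟩ := hS3 _ hmem
        refine class_sub hg hv (hu.trans hle') ?_ hur
        rintro rfl
        have h1 : u = v' := le_antisymm hu hle'
        rw [← h1] at hd'
        omega
      refine ⟨insert (val g v % ww g) S, ?_, ?_, ?_⟩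
      · intro r hr
        rw [Finset.mem_insert] at hr
        rcases hr with rfl | hr
        · exact class_miss hg hv (by omega)
        · exact hS1 hr
      · rw [Finset.card_insert_of_notMem hnot, hS2]
      · intro r hr
        rw [Finset.mem_insert] at hr
        rcases hr with rfl | hr
        · exact ⟨v, le_rfl, rfl⟩
        · obtain ⟨u, hu, hur⟩ := hS3 r hr
          exact ⟨u, hu.trans hle', hur⟩
  have hpos : v.degree ≠ 0 := by
    intro h0
    exact hv.ne ((Finsupp.degree_eq_zero_iff v).mp h0)
  obtain ⟨S, hS1, hS2, -⟩ := key (v.degree - 1) v hv (by omega)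
  have := Finset.card_le_card hS1
  omega

theorem finite_BB (hg : Ng g) : {v | BB g v}.Finite := by
  have hsub : {v | BB g v} ⊆ ⋃ s ∈ Finset.range
      (((MissN g).card + 1) * g 0 + ((MissN g).card + 1) * ww g + 1),
      {u : Fin (N + 1) →₀ ℕ | wt g u = s} := by
    intro v hv
    have h1 := deg_le hg hv
    have h2 := wt_eq hg v
    have h3 := val_le hg v
    have h4 : v.degree * g 0 ≤ ((MissN g).card + 1) * g 0 := Nat.mul_le_mul_right _ h1
    have h5 : v.degree * ww g ≤ ((MissN g).card + 1) * ww g := Nat.mul_le_mul_right _ h1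
    simp only [Set.mem_iUnion, Set.mem_ofPred_eq, exists_prop, exists_eq_right', Finset.mem_range]
    omega
  refine Set.Finite.subset ?_ hsub
  exact Set.Finite.biUnion (Finset.finite_toSet _) (fun s _ => finite_wt hg s)

theorem exists_O {can : ℕ → (Fin (N + 1) →₀ ℕ)} (hg : Ng g) (hc : IsCanN g can) :
    ∃ O : Finset (Fin (N + 1) →₀ ℕ), ∀ v, v ∈ O ↔ OO g can v := by
  have h : {v | OO g can v}.Finite := (finite_BB hg).subset (fun v hv => OO.bb hc hv)
  exact ⟨h.toFinset, fun v => by rw [Set.Finite.mem_toFinset]; exact Iff.rfl⟩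

end Pool.Agent.Lib.MP_a2efaf_al.Nar
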