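import Pool.Agent.Lib.MP_a2efaf_al.NBad
import Pool.Agent.Lib.MP_a2efaf_al.NPos

/-!
# Narrow case: bad exponent vectors without the letter `0` containing the last letter

Let `u` be bad with `u 0 = 0`, `0 < u last`. Then `v = u.erase last` is canonical (it is a divisor of
`u - single last 1`) without `0` and last, i.e. `v = 0` or `OO v`.
-/

set_option autoImplicit false

namespace Pool.Agent.Lib.MP_a2efaf_al.Nar

variable {N : ℕ} {g : Fin (N + 1) → ℕ} {can : ℕ → (Fin (N + 1) →₀ ℕ)}

theorem nvtwo_last_ne (hg : Ng g) : (Fin.last N : Fin (N + 1)) ≠ 0 := by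
  have h := hg.one
  intro h0
  have h1 := congrArg Fin.val h0
  simp at h1
  omega

theorem nvtwo_erase_le (u : Fin (N + 1) →₀ ℕ) :
    u.erase (Fin.last N) ≤ u - Finsupp.single (Fin.last N) 1 := by
  intro i
  by_cases hi : i = Fin.last N
  · subst hi
    simp
  · rw [Finsupp.erase_ne hi, Finsupp.tsub_apply, Finsupp.single_eq_of_ne hi]
    simp

theorem nvtwo_erase_add (u : Fin (N + 1) →₀ ℕ) :
    u.erase (Fin.last N) + Finsupp.single (Fin.last N) (u (Fin.last N)) = u := by
  rw [Finsupp.erase_add_single]

theorem two_erase (hg : Ng g) (hc : IsCanN g can) {u : Fin (N + 1) →₀ ℕ} (hu : Bad g can u)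
    (h0 : u 0 = 0) (hl : 0 < u (Fin.last N)) :
    u.erase (Fin.last N) = 0 ∨ OO g can (u.erase (Fin.last N)) := by
  have h1 := hu.div hg hc hl
  have h2 := hc.sub h1 (nvtwo_erase_le u)
  by_cases h3 : u.erase (Fin.last N) = 0
  · exact Or.inl h3
  · refine Or.inr ⟨h2, ?_, ?_, h3⟩
    · rw [Finsupp.erase_ne (nvtwo_last_ne hg).symm, h0]
    · exact Finsupp.erase_same

theorem nvtwo_inj_aux (hg : Ng g) (hc : IsCanN g can) {u u' : Fin (N + 1) →₀ ℕ} (hu : Bad g can u)
    (hu' : Bad g can u') (hl' : 0 < u' (Fin.last N))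
    (h : u.erase (Fin.last N) = u'.erase (Fin.last N))
    (hlt : u (Fin.last N) < u' (Fin.last N)) : False := by
  have h1 := hu'.div hg hc hl'
  apply hu.1
  apply hc.sub h1
  intro i
  by_cases hi : i = Fin.last N
  · subst hi
    rw [Finsupp.tsub_apply, Finsupp.single_eq_same]
    omega
  · have h2 : u i = u' i := by
      rw [← Finsupp.erase_ne (f := u) hi, ← Finsupp.erase_ne (f := u') hi, h]
    rw [Finsupp.tsub_apply, Finsupp.single_eq_of_ne hi, h2]
    simp

/-- `u ↦ u.erase last` is injective: if `u = v + j x_last`, `u' = v + j' x_last`, `j < j'` then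
`u ≤ u' - single last 1` is canonical. -/
theorem two_inj (hg : Ng g) (hc : IsCanN g can) {u u' : Fin (N + 1) →₀ ℕ} (hu : Bad g can u)
    (hu' : Bad g can u') (h0 : u 0 = 0) (h0' : u' 0 = 0) (hl : 0 < u (Fin.last N))
    (hl' : 0 < u' (Fin.last N)) (h : u.erase (Fin.last N) = u'.erase (Fin.last N)) : u = u' := by
  rcases lt_trichotomy (u (Fin.last N)) (u' (Fin.last N)) with h1 | h1 | h1
  · exact (nvtwo_inj_aux hg hc hu hu' hl' h h1).elim
  · rw [← nvtwo_erase_add u, ← nvtwo_erase_add u', h, h1]
  · exact (nvtwo_inj_aux hg hc hu' hu hl h.symm h1).elim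

/-- Exponent vectors of degree one are letters. -/
theorem nvtwo_deg_one {v : Fin (N + 1) →₀ ℕ} (h : v.degree = 1) : ∃ a, v = Finsupp.single a 1 := by
  have h1 : v ≠ 0 := by
    intro h2
    rw [h2, map_zero] at h
    omega
  obtain ⟨a, ha⟩ := Finsupp.ne_iff.1 h1
  rw [Finsupp.zero_apply] at ha
  have h2 : v = (v - Finsupp.single a 1) + Finsupp.single a 1 := by
    rw [tsub_add_cancel_of_le]
    rw [Finsupp.single_le_iff]
    omega
  have h3 : v.degree = (v - Finsupp.single a 1).degree + 1 := by
    conv_lhs => rw [h2]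
    rw [map_add, Finsupp.degree_single]
  have h4 : v - Finsupp.single a 1 = 0 := by
    rw [← Finsupp.degree_eq_zero_iff]
    omega
  refine ⟨a, ?_⟩
  rw [h4, zero_add] at h2
  exact h2

/-- If `ww ∣ g 0`, say `g 0 = (Q+1) * ww`, then `(Q+1) x_last` is not canonical (its weight is
`(Q+2) * g 0`), and `l x_last + x_a` is canonical for `l ≤ Q` and `a` inner: its value `l * ww + (g a - g 0)` is less
than `g 0`, so it is of maximal length; a factorization with the same degree `l + 1` and the same
value does not contain `x_0` (`val_le`), contains `x_last` at most `l` times, and if it contains it `l` times it is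
equal. So `u.erase last` is not a letter: `u = l x_last + x_a`, `l ≥ 1`; if `l ≥ Q + 1` then `u / x_a` is not
canonical. -/
theorem two_beta (hg : Ng g) (hc : IsCanN g can) (hw : ww g ∣ g 0) {u : Fin (N + 1) →₀ ℕ}
    (hu : Bad g can u) (h0 : u 0 = 0) (hl : 0 < u (Fin.last N)) :
    (u.erase (Fin.last N)).degree ≠ 1 := by
  intro hd
  obtain ⟨a, ha⟩ := nvtwo_deg_one hd
  have hL0 := nvtwo_last_ne hg
  have haL : a ≠ Fin.last N := by
    intro h
    have h1 : (u.erase (Fin.last N)) a = 0 := by rw [h]; exact Finsupp.erase_same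
    rw [ha, Finsupp.single_eq_same] at h1
    omega
  have ha0 : a ≠ 0 := by
    intro h
    have h1 : (u.erase (Fin.last N)) a = u a := Finsupp.erase_ne haL
    rw [ha, Finsupp.single_eq_same, h, h0] at h1
    omega
  obtain ⟨l, hl'⟩ : ∃ l, u (Fin.last N) = l := ⟨_, rfl⟩
  have hue : u = Finsupp.single a 1 + Finsupp.single (Fin.last N) l := by
    rw [← ha, ← hl', nvtwo_erase_add]
  have hww := hg.ww_pos
  have hgL : g (Fin.last N) = g 0 + ww g := by
    have := (hg.le (Fin.last N)).1
    unfold ww
    omega
  have hga0 : g 0 < g a := hg.mono (Fin.pos_iff_ne_zero.2 ha0)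
  have hgaL : g a < g (Fin.last N) := hg.mono (lt_of_le_of_ne (Fin.le_last a) haL)
  obtain ⟨Q, hQ⟩ := hw
  have hQpos : 0 < Q := by
    rcases Nat.eq_zero_or_pos Q with h | h
    · rw [h] at hQ
      omega
    · exact h
  have hua : u a = 1 := by
    rw [hue, Finsupp.add_apply, Finsupp.single_eq_same, Finsupp.single_eq_of_ne haL, add_zero]
  by_cases hlQ : Q ≤ l
  · -- `u / x_a` is not canonical
    have h1 := hu.div hg hc (i := a) (by omega)
    have h2 : Finsupp.single (Fin.last N) Q ≤ u - Finsupp.single a 1 := by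
      rw [Finsupp.single_le_iff, Finsupp.tsub_apply, Finsupp.single_eq_of_ne haL.symm, hl']
      simpa using hlQ
    have h3 := hc.sub h1 h2
    have h4 : wt g (Finsupp.single (Fin.last N) Q) = wt g (Finsupp.single 0 (Q + 1)) := by
      rw [wt_single, wt_single, hgL, mul_add, mul_comm Q (ww g), ← hQ]
      ring
    have h5 := hc.deg_le (Finsupp.single 0 (Q + 1))
    rw [← h4, ← h3, Finsupp.degree_single, Finsupp.degree_single] at h5
    omega
  · push Not at hlQ
    apply hu.1
    set z := can (wt g u) with hz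
    have hwz : wt g z = wt g u := hc.wt_can u
    have hdu : u.degree = l + 1 := by
      rw [hue, map_add, Finsupp.degree_single, Finsupp.degree_single]
      omega
    have hvu : val g u = (g a - g 0) + l * ww g := by
      rw [hue, val_add, val_single, val_single, one_mul]
      rfl
    have hdz : u.degree ≤ z.degree := hc.deg_le u
    have hwu := wt_eq hg u
    have hwz' := wt_eq hg z
    have hlt : val g u < g 0 := by
      rw [hvu, hQ]
      have h1 : g a - g 0 < ww g := by
        unfold ww
        omega
      have h2 : (l + 1) * ww g ≤ ww g * Q := by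
        rw [mul_comm]
        exact Nat.mul_le_mul_left _ hlQ
      have h3 : (l + 1) * ww g = l * ww g + ww g := by ring
      omega
    have hdz' : z.degree = u.degree := by
      by_contra hne
      have h1 : u.degree + 1 ≤ z.degree := by omega
      have h2 : (u.degree + 1) * g 0 ≤ z.degree * g 0 := Nat.mul_le_mul_right _ h1
      have h3 : (u.degree + 1) * g 0 = u.degree * g 0 + g 0 := by ring
      omega
    have hvz : val g z = val g u := by
      rw [hdz'] at hwz'
      omega
    have hkey : key u ≤ key z := hc.key_le u (by rw [← hz, hdz'])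
    have hz0 : z 0 = 0 := by
      by_contra hne
      have h1 : z = (z - Finsupp.single 0 1) + Finsupp.single 0 1 := by
        rw [tsub_add_cancel_of_le]
        rw [Finsupp.single_le_iff]
        omega
      have h2 : val g z = val g (z - Finsupp.single 0 1) := by
        conv_lhs => rw [h1]
        rw [val_add, val_single]
        simp
      have h3 : z.degree = (z - Finsupp.single 0 1).degree + 1 := by
        conv_lhs => rw [h1]
        rw [map_add, Finsupp.degree_single]
      have h4 := val_le hg (z - Finsupp.single 0 1)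
      have h5 : (z - Finsupp.single 0 1).degree = l := by omega
      rw [h5, ← h2, hvz, hvu] at h4
      omega
    have hlz : l ≤ z (Fin.last N) := by
      rw [← hl']
      exact key_last hkey (by rw [h0, hz0])
    have h1 : z = (z - Finsupp.single (Fin.last N) l) + Finsupp.single (Fin.last N) l := by
      rw [tsub_add_cancel_of_le]
      rw [Finsupp.single_le_iff]
      exact hlz
    have h2 : val g z = val g (z - Finsupp.single (Fin.last N) l) + l * ww g := by
      conv_lhs => rw [h1]
      rw [val_add, val_single]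
      rfl
    have h3 : z.degree = (z - Finsupp.single (Fin.last N) l).degree + l := by
      conv_lhs => rw [h1]
      rw [map_add, Finsupp.degree_single]
    obtain ⟨b, hb⟩ := nvtwo_deg_one (v := z - Finsupp.single (Fin.last N) l) (by omega)
    rw [hb, val_single, one_mul, hvz, hvu] at h2
    have hgb : g b = g a := by
      have := (hg.le b).1
      omega
    have hba : b = a := hg.mono.injective hgb
    rw [h1, hb, hba, ← hue]

/-- A bound for the bad exponent vectors through `u.erase last`. -/
theorem nvtwo_card (hg : Ng g) (hc : IsCanN g can) (T : Finset (Fin (N + 1) →₀ ℕ))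
    (hT : ∀ u, Bad g can u → u 0 = 0 → 0 < u (Fin.last N) → u.erase (Fin.last N) ∈ T) :
    ∃ V : Finset (Fin (N + 1) →₀ ℕ), (∀ u, Bad g can u → u 0 = 0 → 0 < u (Fin.last N) → u ∈ V) ∧
      V.card ≤ T.card := by
  classical
  have hmaps : Set.MapsTo (fun u : Fin (N + 1) →₀ ℕ => u.erase (Fin.last N))
      {u | Bad g can u ∧ u 0 = 0 ∧ 0 < u (Fin.last N)} (T : Set (Fin (N + 1) →₀ ℕ)) := by
    rintro u ⟨h1, h2, h3⟩
    exact hT u h1 h2 h3
  have hinj : Set.InjOn (fun u : Fin (N + 1) →₀ ℕ => u.erase (Fin.last N))
      {u | Bad g can u ∧ u 0 = 0 ∧ 0 < u (Fin.last N)} := by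
    rintro u ⟨h1, h2, h3⟩ u' ⟨h1', h2', h3'⟩ h
    exact two_inj hg hc h1 h1' h2 h2' h3 h3' h
  have hfin : {u | Bad g can u ∧ u 0 = 0 ∧ 0 < u (Fin.last N)}.Finite :=
    Set.Finite.of_injOn hmaps hinj T.finite_toSet
  refine ⟨hfin.toFinset, ?_, ?_⟩
  · intro u h1 h2 h3
    rw [Set.Finite.mem_toFinset]
    exact ⟨h1, h2, h3⟩
  · apply Finset.card_le_card_of_injOn (fun u : Fin (N + 1) →₀ ℕ => u.erase (Fin.last N))
    · intro u hu
      rw [Finset.mem_coe, Set.Finite.mem_toFinset] at hu
      exact hmaps hu
    · rw [Set.Finite.coe_toFinset]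
      exact hinj

/-- The number of inner letters is at most `N - 1`. -/
theorem nvtwo_letters (hg : Ng g) :
    ((Finset.univ : Finset (Fin (N + 1))).filter (fun i => i ≠ 0 ∧ i ≠ Fin.last N)).card ≤ N - 1 := by
  classical
  have hL0 := nvtwo_last_ne hg
  have h1 : ((Finset.univ : Finset (Fin (N + 1))).filter (fun i => i ≠ 0 ∧ i ≠ Fin.last N)) ⊆
      ((Finset.univ : Finset (Fin (N + 1))).erase 0).erase (Fin.last N) := by
    intro i hi
    rw [Finset.mem_filter] at hi
    rw [Finset.mem_erase, Finset.mem_erase]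
    exact ⟨hi.2.2, hi.2.1, Finset.mem_univ _⟩
  have h2 := Finset.card_le_card h1
  rw [Finset.card_erase_of_mem (by rw [Finset.mem_erase]; exact ⟨hL0, Finset.mem_univ _⟩),
    Finset.card_erase_of_mem (Finset.mem_univ _), Finset.card_univ, Fintype.card_fin] at h2
  omega

/-- The bound for the bad exponent vectors without `x_0` containing the last letter. At most one has
`u.erase last = 0`, at most `N - 1` have `u.erase last` a letter (none if `b = ww g`), the others are
counted by `two_inj`. -/
theorem two_card (hg : Ng g) (hc : IsCanN g can) (O : Finset (Fin (N + 1) →₀ ℕ))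
    (hO : ∀ v, v ∈ O ↔ OO g can v) (hN : 2 ≤ N) (q b : ℕ) (hb1 : 1 ≤ b) (hb2 : b ≤ ww g)
    (hM : g 0 = q * ww g + b) :
    ∃ V : Finset (Fin (N + 1) →₀ ℕ), (∀ u, Bad g can u → u 0 = 0 → 0 < u (Fin.last N) → u ∈ V) ∧
      V.card ≤ (O.filter (fun v => 2 ≤ v.degree)).card + (N - 1) + (ww g - b) := by
  classical
  by_cases hbw : b = ww g
  · have hdvd : ww g ∣ g 0 := by
      rw [hM, hbw]
      exact ⟨q + 1, by ring⟩
    obtain ⟨V, hV, hVc⟩ := nvtwo_card hg hc (insert 0 (O.filter (fun v => 2 ≤ v.degree))) (by
      intro u hu h0 hl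
      rw [Finset.mem_insert, Finset.mem_filter]
      rcases two_erase hg hc hu h0 hl with h | h
      · exact Or.inl h
      · refine Or.inr ⟨(hO _).2 h, ?_⟩
        have h1 := two_beta hg hc hdvd hu h0 hl
        have h2 : (u.erase (Fin.last N)).degree ≠ 0 := by
          rw [Ne, Finsupp.degree_eq_zero_iff]
          exact h.ne
        omega)
    refine ⟨V, hV, hVc.trans ?_⟩
    have h1 := Finset.card_insert_le (0 : Fin (N + 1) →₀ ℕ) (O.filter (fun v => 2 ≤ v.degree))
    omega
  · obtain ⟨V, hV, hVc⟩ := nvtwo_card hg hc (insert 0 (O.filter (fun v => 2 ≤ v.degree)) ∪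
        ((Finset.univ : Finset (Fin (N + 1))).filter (fun i => i ≠ 0 ∧ i ≠ Fin.last N)).image
          (fun i => Finsupp.single i 1)) (by
      intro u hu h0 hl
      rw [Finset.mem_union, Finset.mem_insert, Finset.mem_filter]
      rcases two_erase hg hc hu h0 hl with h | h
      · exact Or.inl (Or.inl h)
      · by_cases h1 : (u.erase (Fin.last N)).degree = 1
        · right
          obtain ⟨a, ha⟩ := nvtwo_deg_one h1
          rw [Finset.mem_image]
          refine ⟨a, ?_, ha.symm⟩
          rw [Finset.mem_filter]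
          refine ⟨Finset.mem_univ _, ?_, ?_⟩
          · intro h2
            have h3 := h.zero
            rw [ha, h2, Finsupp.single_eq_same] at h3
            omega
          · intro h2
            have h3 := h.last
            rw [ha, h2, Finsupp.single_eq_same] at h3
            omega
        · refine Or.inl (Or.inr ⟨(hO _).2 h, ?_⟩)
          have h2 : (u.erase (Fin.last N)).degree ≠ 0 := by
            rw [Ne, Finsupp.degree_eq_zero_iff]
            exact h.ne
          omega)
    refine ⟨V, hV, hVc.trans ?_⟩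
    have h1 := Finset.card_insert_le (0 : Fin (N + 1) →₀ ℕ) (O.filter (fun v => 2 ≤ v.degree))
    have h2 := Finset.card_union_le (insert 0 (O.filter (fun v => 2 ≤ v.degree)))
      (((Finset.univ : Finset (Fin (N + 1))).filter (fun i => i ≠ 0 ∧ i ≠ Fin.last N)).image
          (fun i => Finsupp.single i 1))
    have h3 := Finset.card_image_le (s := (Finset.univ : Finset (Fin (N + 1))).filter
      (fun i => i ≠ 0 ∧ i ≠ Fin.last N)) (f := fun i => (Finsupp.single i 1 : Fin (N + 1) →₀ ℕ))
    have h4 := nvtwo_letters hg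
    omega

/-- The case of two generators: at most one bad exponent vector without `x_0` containing the last letter
(there are no inner letters, so `u.erase last = 0`). -/
theorem two_card_one (hg : Ng g) (hc : IsCanN g can) (hN : N = 1) :
    ∃ V : Finset (Fin (N + 1) →₀ ℕ), (∀ u, Bad g can u → u 0 = 0 → 0 < u (Fin.last N) → u ∈ V) ∧
      V.card ≤ 1 := by
  subst hN
  obtain ⟨V, hV, hVc⟩ := nvtwo_card hg hc {0} (by
    intro u hu h0 hl
    rw [Finset.mem_singleton]
    ext i
    have hi : i = 0 ∨ i = Fin.last 1 := by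
      fin_cases i
      · exact Or.inl rfl
      · exact Or.inr rfl
    rcases hi with hi | hi
    · rw [hi, Finsupp.erase_ne (nvtwo_last_ne hg).symm, h0]
      rfl
    · rw [hi, Finsupp.erase_same]
      rfl)
  exact ⟨V, hV, by simpa using hVc⟩

end Pool.Agent.Lib.MP_a2efaf_al.Nar
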