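import Pool.Agent.Lib.MP_a2efaf_al.NVthree
import Pool.Agent.Lib.MP_a2efaf_al.NVtwo
import Pool.Agent.Lib.MP_a2efaf_al.NLev
import Pool.Agent.Lib.MP_a2efaf_al.NNum

/-!
# The narrow case
-/

set_option autoImplicit false

namespace Pool.Agent.Lib.MP_a2efaf_al.Nar

variable {N : ℕ} {g : Fin (N + 1) → ℕ} {can : ℕ → (Fin (N + 1) →₀ ℕ)}

theorem nfinal_split {u : Fin (N + 1) →₀ ℕ} {i : Fin (N + 1)} (hi : 0 < u i) :
    u = Finsupp.single i 1 + (u - Finsupp.single i 1) ∧
      (u - Finsupp.single i 1).degree + 1 = u.degree := by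
  have h1 : Finsupp.single i 1 ≤ u := by rw [Finsupp.single_le_iff]; exact hi
  have h3 : u = Finsupp.single i 1 + (u - Finsupp.single i 1) := (add_tsub_cancel_of_le h1).symm
  refine ⟨h3, ?_⟩
  conv_rhs => rw [h3, map_add, Finsupp.degree_single]
  omega

theorem nfinal_exists {u : Fin (N + 1) →₀ ℕ} (h : u ≠ 0) : ∃ i, 0 < u i := by
  by_contra hcon
  push Not at hcon
  apply h
  ext i
  have := hcon i
  simp only [Finsupp.coe_zero, Pi.zero_apply]
  omega

theorem nfinal_deg_one {u : Fin (N + 1) →₀ ℕ} (h : u.degree = 1) :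
    ∃ l, u = Finsupp.single l 1 := by
  have hne : u ≠ 0 := by
    rintro rfl
    simp at h
  obtain ⟨l, hl⟩ := nfinal_exists hne
  obtain ⟨h1, h2⟩ := nfinal_split hl
  have h3 : (u - Finsupp.single l 1).degree = 0 := by omega
  rw [Finsupp.degree_eq_zero_iff] at h3
  exact ⟨l, by rw [h1, h3, add_zero]⟩

/-- The elements of `O` of degree one are the inner letters. -/
theorem nfinal_O1 (hg : Ng g) (O : Finset (Fin (N + 1) →₀ ℕ))
    (hO : ∀ v ∈ O, v 0 = 0 ∧ v (Fin.last N) = 0) :
    (O.filter (fun v => v.degree = 1)).card ≤ N - 1 := by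
  classical
  have hsub : O.filter (fun v => v.degree = 1) ⊆
      ((Finset.univ.erase (0 : Fin (N + 1))).erase (Fin.last N)).image
        (fun l => Finsupp.single l 1) := by
    intro v hv
    rw [Finset.mem_filter] at hv
    obtain ⟨hv1, hv2⟩ := hv
    obtain ⟨l, rfl⟩ := nfinal_deg_one hv2
    obtain ⟨h0, hl⟩ := hO _ hv1
    rw [Finset.mem_image]
    refine ⟨l, ?_, rfl⟩
    rw [Finset.mem_erase, Finset.mem_erase]
    refine ⟨?_, ?_, Finset.mem_univ _⟩
    · rintro rfl
      simp at hl
    · rintro rfl
      simp at h0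
  refine (Finset.card_le_card hsub).trans (Finset.card_image_le.trans ?_)
  have h01 : (Fin.last N) ≠ (0 : Fin (N + 1)) := by
    intro h
    have := congrArg Fin.val h
    simp at this
    have := hg.one
    omega
  rw [Finset.card_erase_of_mem, Finset.card_erase_of_mem (Finset.mem_univ _)]
  · simp
  · rw [Finset.mem_erase]
    exact ⟨h01, Finset.mem_univ _⟩

/-- The bad exponent vectors without `0` and last. -/
theorem V_one (hg : Ng g) (hc : IsCanN g can) (O : Finset (Fin (N + 1) →₀ ℕ))
    (hO : ∀ v, v ∈ O ↔ OO g can v) (P : ℕ) (hP : 1 ≤ P)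
    (h2 : (O.filter (fun v => v.degree = 2)).card ≤ (P + 1).choose 2) :
    ∃ V : Finset (Fin (N + 1) →₀ ℕ),
      (∀ u, Bad g can u → u 0 = 0 → u (Fin.last N) = 0 → u ∈ V) ∧
      (V.card : ℚ) ≤ (N.choose 2 : ℕ) +
      ((P : ℚ) - 1) * ∑ v ∈ O.filter (fun v => 2 ≤ v.degree), 1 / ((v.degree : ℚ) + 1) := by
  classical
  set S : Set (Fin (N + 1) →₀ ℕ) := {u | Bad g can u ∧ u 0 = 0 ∧ u (Fin.last N) = 0} with hS
  have hdiv : ∀ u ∈ S, ∀ i, 0 < u i → u - Finsupp.single i 1 ∈ O := by
    rintro u ⟨hu, h0, hl⟩ i hi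
    rw [hO]
    refine ⟨hu.div hg hc hi, ?_, ?_, ?_⟩
    · rw [Finsupp.tsub_apply, h0, Nat.zero_sub]
    · rw [Finsupp.tsub_apply, hl, Nat.zero_sub]
    · intro h
      have h2 := hu.two_le hg hc
      obtain ⟨h3, h4⟩ := nfinal_split hi
      rw [h, map_zero] at h4
      omega
  have hfin : S.Finite := by
    apply Set.Finite.subset (((O ×ˢ Finset.univ).image
      (fun x : (Fin (N + 1) →₀ ℕ) × Fin (N + 1) => Finsupp.single x.2 1 + x.1)).finite_toSet)
    intro u hu
    have hu2 := hu.1.two_le hg hc
    have hne : u ≠ 0 := by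
      rintro rfl
      simp at hu2
    obtain ⟨i, hi⟩ := nfinal_exists hne
    rw [Finset.mem_coe, Finset.mem_image]
    refine ⟨(u - Finsupp.single i 1, i), ?_, (nfinal_split hi).1.symm⟩
    rw [Finset.mem_product]
    exact ⟨hdiv u hu i hi, Finset.mem_univ _⟩
  refine ⟨hfin.toFinset, ?_, ?_⟩
  · intro u h1 h2 h3
    rw [Set.Finite.mem_toFinset]
    exact ⟨h1, h2, h3⟩
  · have hNN : N - 1 + 1 = N := by have := hg.one; omega
    have := one_level O hfin.toFinset P (N - 1) ?_ ?_ ?_ hP h2
    · rw [hNN] at this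
      exact this
    · intro v hv hd l hl
      rw [hO] at hv ⊢
      apply hv.sub hc tsub_le_self
      intro h
      obtain ⟨h3, h4⟩ := nfinal_split hl
      rw [h, map_zero] at h4
      omega
    · intro v hv
      rw [Set.Finite.mem_toFinset] at hv
      refine ⟨hv.1.two_le hg hc, ?_, hdiv v hv⟩
      intro h
      rw [hO] at h
      exact hv.1.1 h.can
    · apply nfinal_O1 hg
      intro v hv
      rw [hO] at hv
      exact ⟨hv.zero, hv.last⟩

/-- Elements of degree two with letters among `x, y`. -/
theorem nfinal_O2 (O : Finset (Fin (N + 1) →₀ ℕ)) (x y : Fin (N + 1))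
    (hs : ∀ v ∈ O, 2 ≤ v.degree → ∀ l, l ≠ x → l ≠ y → v l = 0) :
    (O.filter (fun v => v.degree = 2)).card ≤ 3 := by
  classical
  set O' := O.filter (fun v => v.degree = 2) ∪ {Finsupp.single x 1, Finsupp.single y 1} with hO'
  have h1 : O'.filter (fun v => v.degree = 2) = O.filter (fun v => v.degree = 2) := by
    ext v
    simp only [hO', Finset.mem_filter, Finset.mem_union, Finset.mem_insert, Finset.mem_singleton]
    constructor
    · rintro ⟨h | rfl | rfl, h2⟩
      · exact h
      · rw [Finsupp.degree_single] at h2; omega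
      · rw [Finsupp.degree_single] at h2; omega
    · intro h
      exact ⟨Or.inl h, h.2⟩
  have h2 : (O'.filter (fun v => v.degree = 1)).card ≤ 2 := by
    have : O'.filter (fun v => v.degree = 1) ⊆ {Finsupp.single x 1, Finsupp.single y 1} := by
      intro v hv
      simp only [hO', Finset.mem_filter, Finset.mem_union, Finset.mem_insert,
        Finset.mem_singleton] at hv ⊢
      obtain ⟨h | h, h2⟩ := hv
      · omega
      · exact h
    exact (Finset.card_le_card this).trans Finset.card_le_two
  rw [← h1]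
  have h3 := two_le_choose O' 2 ?_ h2
  · exact h3
  · intro v hv hd l hl
    simp only [hO', Finset.mem_union, Finset.mem_filter, Finset.mem_insert,
      Finset.mem_singleton] at hv
    have hvO : v ∈ O := by
      rcases hv with h | rfl | rfl
      · exact h.1
      · rw [Finsupp.degree_single] at hd; omega
      · rw [Finsupp.degree_single] at hd; omega
    obtain ⟨h3, h4⟩ := nfinal_split hl
    obtain ⟨l', hl'⟩ := nfinal_deg_one (show (v - Finsupp.single l 1).degree = 1 by omega)
    have h5 : l' = x ∨ l' = y := by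
      by_contra hcon
      push Not at hcon
      have h6 := hs v hvO (by omega) l' hcon.1 hcon.2
      rw [h3, hl', Finsupp.add_apply, Finsupp.single_eq_same] at h6
      omega
    simp only [hO', Finset.mem_union, Finset.mem_filter, Finset.mem_insert,
      Finset.mem_singleton]
    right
    rw [hl']
    rcases h5 with rfl | rfl
    · exact Or.inl rfl
    · exact Or.inr rfl

/-- The sum of the weights. -/
theorem nfinal_sum (O : Finset (Fin (N + 1) →₀ ℕ)) (P : ℚ) :
    ∑ v ∈ O.filter (fun v => 2 ≤ v.degree), wgt g P v =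
      ((O.filter (fun v => 2 ≤ v.degree)).card : ℚ) +
      ((O.filter (fun v => 2 ≤ v.degree ∧ 3 ≤ qq g v)).card : ℚ) +
      ((O.filter (fun v => 2 ≤ v.degree ∧ 2 ≤ pp g v ∧ 3 ≤ v.degree)).card : ℚ) +
      (P - 1) * ∑ v ∈ O.filter (fun v => 2 ≤ v.degree), 1 / ((v.degree : ℚ) + 1) := by
  classical
  unfold wgt
  rw [Finset.sum_add_distrib, Finset.sum_add_distrib, Finset.sum_add_distrib]
  congr 1
  · congr 1
    · congr 1
      · simp
      · rw [← Finset.sum_filter, Finset.filter_filter]
        simp
    · rw [← Finset.sum_filter, Finset.filter_filter]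
      simp
  · rw [Finset.mul_sum]
    refine Finset.sum_congr rfl ?_
    intro v _
    rw [mul_one_div]

theorem nfinal_small_sum (O : Finset (Fin (N + 1) →₀ ℕ)) :
    ∑ v ∈ O.filter (fun v => 2 ≤ v.degree), 1 / ((v.degree : ℚ) + 1) ≤
      ((O.filter (fun v => 2 ≤ v.degree)).card : ℚ) / 3 := by
  have h : ∀ v ∈ O.filter (fun v => 2 ≤ v.degree), 1 / ((v.degree : ℚ) + 1) ≤ 1 / 3 := by
    intro v hv
    rw [Finset.mem_filter] at hv
    have h2 : (2 : ℚ) ≤ v.degree := by exact_mod_cast hv.2
    apply one_div_le_one_div_of_le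
    · norm_num
    · linarith
  refine (Finset.sum_le_sum h).trans ?_
  rw [Finset.sum_const, nsmul_eq_mul]
  apply le_of_eq
  ring

/-- The number of bad exponent vectors. -/
theorem V_all (hg : Ng g) (hc : IsCanN g can) (hN : 2 ≤ N) (hcard : 1 ≤ (MissN g).card)
    (q b : ℕ) (hb1 : 1 ≤ b) (hb2 : b ≤ ww g) (hM : g 0 = q * ww g + b) :
    ∃ V : Finset (Fin (N + 1) →₀ ℕ), (∀ u, Bad g can u → u ∈ V) ∧
      V.card ≤ (ww g).choose 2 + (ww g - b) + 1 := by
  classical
  obtain ⟨O, hO⟩ := exists_O hg hc
  obtain ⟨V3, hV3, hV3c, hV3e⟩ := three_card hg hc O hO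
  obtain ⟨V2, hV2, hV2c⟩ := two_card hg hc O hO hN q b hb1 hb2 hM
  have hOB : ∀ v ∈ O, BB g v := fun v hv => ((hO v).1 hv).bb hc
  have hcw := card_MissN hg
  have hOd : ∀ v ∈ O, 2 ≤ v.degree → ∀ l, 0 < v l → v - Finsupp.single l 1 ∈ O := by
    intro v hv hd l hl
    rw [hO] at hv ⊢
    apply hv.sub hc tsub_le_self
    intro h
    obtain ⟨h3, h4⟩ := nfinal_split hl
    rw [h, map_zero] at h4
    omega
  have hO1 : (O.filter (fun v => v.degree = 1)).card ≤ N - 1 := by
    apply nfinal_O1 hg
    intro v hv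
    rw [hO] at hv
    exact ⟨hv.zero, hv.last⟩
  set c := (MissN g).card with hcdef
  set o2 := (O.filter (fun v => 2 ≤ v.degree)).card with ho2
  set Th := ∑ v ∈ O.filter (fun v => 2 ≤ v.degree), 1 / ((v.degree : ℚ) + 1) with hTh
  have hTh0 : 0 ≤ Th := by
    apply Finset.sum_nonneg
    intro v _
    positivity
  have hN1 : ((N - 1 : ℕ) : ℚ) = (N : ℚ) - 1 := by
    rw [Nat.cast_sub (by omega)]
    simp
  -- the reduction to an inequality
  have key : ∀ P : ℕ, 1 ≤ P →
      (O.filter (fun v => v.degree = 2)).card ≤ (P + 1).choose 2 →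
      (V3.card : ℚ) + o2 + ((P : ℚ) - 1) * Th <
        ((c : ℚ) - 1) * ((N - 1 : ℕ) : ℚ) + (c : ℚ) * (c + 1) / 2 + 2 →
      ∃ V : Finset (Fin (N + 1) →₀ ℕ), (∀ u, Bad g can u → u ∈ V) ∧
      V.card ≤ (ww g).choose 2 + (ww g - b) + 1 := by
    intro P hP h2 hlt
    obtain ⟨V1, hV1, hV1c⟩ := V_one hg hc O hO P hP h2
    refine ⟨V1 ∪ V2 ∪ V3, ?_, ?_⟩
    · intro u hu
      rw [Finset.mem_union, Finset.mem_union]
      rcases Nat.eq_zero_or_pos (u 0) with h0 | h0
      · rcases Nat.eq_zero_or_pos (u (Fin.last N)) with hl | hl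
        · exact Or.inl (Or.inl (hV1 u hu h0 hl))
        · exact Or.inl (Or.inr (hV2 u hu h0 hl))
      · exact Or.inr (hV3 u hu h0)
    · have h3 : (V1 ∪ V2 ∪ V3).card ≤ V1.card + V2.card + V3.card :=
        (Finset.card_union_le _ _).trans (Nat.add_le_add_right (Finset.card_union_le _ _) _)
      refine h3.trans ?_
      have h4 := num_choose (N - 1) c
      have h5 : N - 1 + 1 = N := by omega
      have h6 : N - 1 + 1 + c = ww g := by omega
      rw [h5, ← h5, h6, h5] at h4
      have h7 : (V2.card : ℚ) ≤ o2 + ((N - 1 : ℕ) : ℚ) + ((ww g - b : ℕ) : ℚ) := by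
        exact_mod_cast hV2c
      have h8 : ((V1.card + V2.card + V3.card : ℕ) : ℚ) <
          (((ww g).choose 2 + (ww g - b) + 2 : ℕ) : ℚ) := by
        push_cast
        linarith
      have h9 : V1.card + V2.card + V3.card < (ww g).choose 2 + (ww g - b) + 2 := by
        exact_mod_cast h8
      omega
  have hV3q : (V3.card : ℚ) ≤ ((O.filter (fun v => 2 ≤ v.degree ∧ 3 ≤ qq g v)).card : ℚ) +
      ((O.filter (fun v => 2 ≤ v.degree ∧ 2 ≤ pp g v ∧ 3 ≤ v.degree)).card : ℚ) := by
    exact_mod_cast hV3c
  -- the version with the weights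
  have keyw : ∀ P : ℕ, 1 ≤ P →
      (O.filter (fun v => v.degree = 2)).card ≤ (P + 1).choose 2 →
      ∑ v ∈ O.filter (fun v => 2 ≤ v.degree), wgt g (P : ℚ) v <
        ((c : ℚ) - 1) * ((N - 1 : ℕ) : ℚ) + (c : ℚ) * (c + 1) / 2 + 2 →
      ∃ V : Finset (Fin (N + 1) →₀ ℕ), (∀ u, Bad g can u → u ∈ V) ∧
      V.card ≤ (ww g).choose 2 + (ww g - b) + 1 := by
    intro P hP h2 hlt
    apply key P hP h2
    rw [nfinal_sum] at hlt
    linarith
  rcases Nat.lt_or_ge c 3 with hc3 | hc3
  · -- at most two missing classes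
    have hV3z : (V3.card : ℚ) = 0 := by
      rw [hV3e hc3]
      simp
    rcases Nat.lt_or_ge N 3 with hN3 | hN3
    · have hN2 : N = 2 := by omega
      have h1 := (total_one hg hN2 O hOB).2
      have h1q : (o2 : ℚ) ≤ c := by exact_mod_cast h1
      apply key 1 le_rfl
      · have := two_le_choose O (N - 1) (fun v hv hd => hOd v hv (by omega)) hO1
        refine this.trans (le_of_eq ?_)
        congr 1
        omega
      · rw [hV3z, hN1, hN2]
        have hcq : (1 : ℚ) ≤ c := by exact_mod_cast hcard
        push_cast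
        nlinarith
    · have h1 : o2 ≤ 2 * c := total_small hg hN3 (by omega) O hOB
      have h2 := nfinal_small_sum O
      have h1q : (o2 : ℚ) ≤ 2 * c := by exact_mod_cast h1
      have hNq : (3 : ℚ) ≤ N := by exact_mod_cast hN3
      have hd2 : (O.filter (fun v => v.degree = 2)).card ≤ o2 := by
        apply Finset.card_le_card
        intro v hv
        rw [Finset.mem_filter] at hv ⊢
        exact ⟨hv.1, by omega⟩
      have hcc : c = 1 ∨ c = 2 := by omega
      rcases hcc with hcc | hcc
      · apply key 2 (by norm_num)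
        · rw [hcc] at h1
          exact hd2.trans (h1.trans (by decide))
        · rw [hV3z, hN1, hcc]
          rw [hcc] at h1q
          push_cast at h1q ⊢
          rw [← ho2, ← hTh] at h2
          linarith
      · apply key 3 (by norm_num)
        · rw [hcc] at h1
          exact hd2.trans (h1.trans (by decide))
        · rw [hV3z, hN1, hcc]
          rw [hcc] at h1q
          push_cast at h1q ⊢
          rw [← ho2, ← hTh] at h2
          linarith
  · have hcq : (3 : ℚ) ≤ c := by exact_mod_cast hc3
    rcases Nat.lt_or_ge N 3 with hN3 | hN3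
    · have hN2 : N = 2 := by omega
      have h1 := (total_one hg hN2 O hOB).1
      apply keyw 1 le_rfl
      · have := two_le_choose O (N - 1) (fun v hv hd => hOd v hv (by omega)) hO1
        refine this.trans (le_of_eq ?_)
        congr 1
        omega
      · have hNq : (N : ℚ) = 2 := by exact_mod_cast hN2
        rw [hN1, hNq]
        have h1' : ∑ v ∈ O.filter (fun v => 2 ≤ v.degree), wgt g ((1 : ℕ) : ℚ) v ≤ 3 * c := by
          push_cast
          exact h1
        refine lt_of_le_of_lt h1' ?_
        nlinarith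
    · rcases Nat.lt_or_ge N 4 with hN4 | hN4
      · -- two inner letters
        have hN3' : N = 3 := by omega
        subst hN3'
        have hs : ∀ v, BB g v → 2 ≤ v.degree → ∀ l : Fin 4, l ≠ 1 → l ≠ 2 → v l = 0 := by
          intro v hv _ l h1 h2
          have hl : l = 0 ∨ l = Fin.last 3 := by
            fin_cases l
            · left; rfl
            · exact absurd rfl h1
            · exact absurd rfl h2
            · right; rfl
          rcases hl with rfl | rfl
          · exact hv.zero
          · exact hv.last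
        apply keyw 2 (by norm_num)
        · exact nfinal_O2 O 1 2 (fun v hv hd => hs v (hOB v hv) hd)
        · refine lt_of_le_of_lt (total_two hg O hOB (fun r hr => grow_two hg le_rfl hr) 1 2
            (by decide) hs) ?_
          exact num_two 2 c le_rfl hc3
      · rcases grow_three hg hN4 with h3 | ⟨hN4', l, hl0, hll, hl⟩
        · apply keyw (N - 1) (by omega)
          · exact two_le_choose O (N - 1) (fun v hv hd => hOd v hv (by omega)) hO1
          · refine lt_of_le_of_lt (total_three hg O hOB _ ?_ h3) ?_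
            · rw [hN1]
              have : (4 : ℚ) ≤ N := by exact_mod_cast hN4
              linarith
            · exact num_three (N - 1) c (by omega) hc3
        · -- the exceptional case
          subst hN4'
          have hxy : ∃ x y : Fin 5, x ≠ y ∧ ∀ j : Fin 5, j ≠ x → j ≠ y → j = 0 ∨ j = Fin.last 4 ∨
              j = l := by
            have hl' : l = 1 ∨ l = 2 ∨ l = 3 := by
              fin_cases l
              · exact absurd rfl hl0
              · left; rfl
              · right; left; rfl
              · right; right; rfl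
              · exact absurd rfl hll
            rcases hl' with rfl | rfl | rfl
            · exact ⟨2, 3, by decide, by decide⟩
            · exact ⟨1, 3, by decide, by decide⟩
            · exact ⟨1, 2, by decide, by decide⟩
          obtain ⟨x, y, hxy, hj⟩ := hxy
          have hs : ∀ v, BB g v → 2 ≤ v.degree → ∀ j : Fin 5, j ≠ x → j ≠ y → v j = 0 := by
            intro v hv hd j h1 h2
            rcases hj j h1 h2 with rfl | rfl | rfl
            · exact hv.zero
            · exact hv.last
            · exact hl v hv hd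
          apply keyw 2 (by norm_num)
          · exact nfinal_O2 O x y (fun v hv hd => hs v (hOB v hv) hd)
          · refine lt_of_le_of_lt (total_two hg O hOB
              (fun r hr => grow_two hg (by norm_num) hr) x y hxy hs) ?_
            exact num_two 3 c (by norm_num) hc3

/-- **The narrow case.** -/
theorem narrow_case (k : Type) [Field k] (hg : Ng g) (hN : N < ww g)
    (q b : ℕ) (hb1 : 1 ≤ b) (hb2 : b ≤ ww g) (hM : g 0 = q * ww g + b) :
    ∃ s : Finset (MvPolynomial (Fin (N + 1)) k), s.card ≤ (ww g).choose 2 + (ww g - b) + 1 ∧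
      Ideal.span (s : Set (MvPolynomial (Fin (N + 1)) k)) = initIdeal k g := by
  classical
  obtain ⟨can, hc⟩ := exists_can hg
  have hcw := card_MissN hg
  have h1 := hg.one
  rcases Nat.lt_or_ge N 2 with hN2 | hN2
  · have hN1 : N = 1 := by omega
    subst hN1
    obtain ⟨V2, hV2, hV2c⟩ := two_card_one hg hc rfl
    obtain ⟨s, hs1, hs2⟩ := gen_bad k hg hc V2 (by
      intro u hu
      have hin : ∀ v : Fin (1 + 1) →₀ ℕ, v 0 = 0 → v (Fin.last 1) = 0 → v = 0 := by
        intro v h0 hl
        ext j
        fin_cases j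
        · simpa using h0
        · simpa using hl
      rcases Nat.eq_zero_or_pos (u 0) with h0 | h0
      · rcases Nat.eq_zero_or_pos (u (Fin.last 1)) with hl | hl
        · exfalso
          have h2 := hu.two_le hg hc
          rw [hin u h0 hl, map_zero] at h2
          omega
        · exact hV2 u hu h0 hl
      · exfalso
        obtain ⟨O, hO⟩ := exists_O hg hc
        obtain ⟨V3, hV3, hV3c, -⟩ := three_card hg hc O hO
        have hOe : O = ∅ := by
          rw [Finset.eq_empty_iff_forall_notMem]
          intro v hv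
          rw [hO] at hv
          exact hv.ne (hin v hv.zero hv.last)
        rw [hOe] at hV3c
        simp only [Finset.filter_empty, Finset.card_empty, add_zero, Nat.le_zero,
          Finset.card_eq_zero] at hV3c
        have := hV3 u hu h0
        rw [hV3c] at this
        simp at this)
    exact ⟨s, by omega, hs2⟩
  · obtain ⟨V, hV, hVc⟩ := V_all hg hc hN2 (by omega) q b hb1 hb2 hM
    obtain ⟨s, hs1, hs2⟩ := gen_bad k hg hc V hV
    exact ⟨s, hs1.trans hVc, hs2⟩

end Pool.Agent.Lib.MP_a2efaf_al.Nar
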