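import Pool.Agent.Lib.MP_a2efaf_al.NDist

/-!
# Narrow case: exponent vectors with few letters
-/

set_option autoImplicit false

namespace Pool.Agent.Lib.MP_a2efaf_al.Nar

variable {N : ℕ} {g : Fin (N + 1) → ℕ}

/-- letters other than the last one are determined by their residues -/
theorem nhalf_letter (hg : Ng g) {x y : Fin (N + 1)} (hx : x ≠ Fin.last N) (hy : y ≠ Fin.last N)
    (h : (g x - g 0) % ww g = (g y - g 0) % ww g) : x = y := by
  have h1 : ∀ z : Fin (N + 1), z ≠ Fin.last N → g z - g 0 < ww g := by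
    intro z hz
    have h2 := hg.mono (lt_of_le_of_ne (Fin.le_last z) hz)
    have h3 := (hg.le z).1
    unfold ww
    omega
  rw [Nat.mod_eq_of_lt (h1 x hx), Nat.mod_eq_of_lt (h1 y hy)] at h
  apply hg.mono.injective
  have h4 := (hg.le x).1
  have h5 := (hg.le y).1
  omega

theorem nhalf_single_last {x : Fin (N + 1)} {n : ℕ} (hn : n ≠ 0)
    (h : BB g (Finsupp.single x n)) : x ≠ Fin.last N := by
  rintro rfl
  have := h.last
  rw [Finsupp.single_eq_same] at this
  exact hn this

/-- two powers of different letters in the same class -/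
theorem nhalf_pow (hg : Ng g) {x y : Fin (N + 1)} (hxy : x ≠ y) {a b : ℕ} (ha : a ≠ 0)
    (hb : b ≠ 0) (hx : BB g (Finsupp.single x a)) (hy : BB g (Finsupp.single y b))
    (hcl : val g (Finsupp.single x a) % ww g = val g (Finsupp.single y b) % ww g) : 2 ≤ a := by
  by_contra hlt
  have ha1 : a = 1 := by omega
  subst ha1
  rw [val_single, one_mul] at hcl
  by_cases hb1 : b = 1
  · subst hb1
    rw [val_single, one_mul] at hcl
    exact hxy (nhalf_letter hg (nhalf_single_last ha hx) (nhalf_single_last hb hy) hcl)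
  · refine class_gen hg hy ?_ x hcl
    rw [Finsupp.degree_single]
    omega

theorem nhalf_aux (hg : Ng g) (x y : Fin (N + 1)) (hxy : x ≠ y) {v v' : Fin (N + 1) →₀ ℕ}
    (hv : BB g v) (hv' : BB g v') (hs : ∀ l, l ≠ x → l ≠ y → v l = 0)
    (hs' : ∀ l, l ≠ x → l ≠ y → v' l = 0) (hcl : val g v % ww g = val g v' % ww g)
    (h1 : v x < v' x) (h2 : v' y < v y) : v x + 2 ≤ v' x ∧ v' y + 2 ≤ v y := by
  set a := v' x - v x with ha
  set b := v y - v' y with hb
  set m : Fin (N + 1) →₀ ℕ := Finsupp.single x (v x) + Finsupp.single y (v' y) with hm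
  have hyx : y ≠ x := fun h => hxy h.symm
  have e1 : v = m + Finsupp.single y b := by
    ext l
    simp only [hm, Finsupp.add_apply]
    by_cases hlx : l = x
    · subst hlx
      rw [Finsupp.single_eq_same, Finsupp.single_eq_of_ne hxy, Finsupp.single_eq_of_ne hxy]
      omega
    · by_cases hly : l = y
      · subst hly
        rw [Finsupp.single_eq_same, Finsupp.single_eq_same, Finsupp.single_eq_of_ne hlx]
        omega
      · rw [Finsupp.single_eq_of_ne hlx, Finsupp.single_eq_of_ne hly,
          Finsupp.single_eq_of_ne hly, hs l hlx hly]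
        rfl
  have e2 : v' = m + Finsupp.single x a := by
    ext l
    simp only [hm, Finsupp.add_apply]
    by_cases hlx : l = x
    · subst hlx
      rw [Finsupp.single_eq_same, Finsupp.single_eq_same, Finsupp.single_eq_of_ne hxy]
      omega
    · by_cases hly : l = y
      · subst hly
        rw [Finsupp.single_eq_same, Finsupp.single_eq_of_ne hlx, Finsupp.single_eq_of_ne hlx]
        omega
      · rw [Finsupp.single_eq_of_ne hlx, Finsupp.single_eq_of_ne hly,
          Finsupp.single_eq_of_ne hlx, hs' l hlx hly]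
        rfl
  have ha0 : a ≠ 0 := by omega
  have hb0 : b ≠ 0 := by omega
  have hB1 : BB g (Finsupp.single y b) := by
    apply hv.sub
    · rw [e1]
      exact le_add_self
    · intro h
      exact hb0 (Finsupp.single_eq_zero.mp h)
  have hB2 : BB g (Finsupp.single x a) := by
    apply hv'.sub
    · rw [e2]
      exact le_add_self
    · intro h
      exact ha0 (Finsupp.single_eq_zero.mp h)
  have hmod : val g (Finsupp.single y b) % ww g = val g (Finsupp.single x a) % ww g := by
    have k1 : val g v = val g m + val g (Finsupp.single y b) := by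
      rw [← val_add, ← e1]
    have k2 : val g v' = val g m + val g (Finsupp.single x a) := by
      rw [← val_add, ← e2]
    rw [k1, k2] at hcl
    have h3 : val g m + val g (Finsupp.single y b) ≡ val g m + val g (Finsupp.single x a)
        [MOD ww g] := hcl
    exact Nat.ModEq.add_left_cancel' _ h3
  have h3 := nhalf_pow hg hxy ha0 hb0 hB2 hB1 hmod.symm
  have h4 := nhalf_pow hg hyx hb0 ha0 hB1 hB2 hmod
  omega

/-- Two different elements of `BB` in the same class whose letters are among `x, y`: the exponents of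
`x` and `y` are in opposite order and differ by at least `2`. (They are incomparable by `class_sub`. If
`v x < v' x`, `v' y < v y` then `f = (v' x - v x) x ≤ v'` and `f' = (v y - v' y) y ≤ v` are `BB` of the same class;
if `v' x - v x = 1` then `deg f' ≥ 2` is impossible by `class_gen` and `deg f' = 1` gives `x = y`, the residues of the
letters `≠ last` being different.) -/
theorem half_aux (hg : Ng g) (x y : Fin (N + 1)) (hxy : x ≠ y) {v v' : Fin (N + 1) →₀ ℕ}
    (hv : BB g v) (hv' : BB g v') (hs : ∀ l, l ≠ x → l ≠ y → v l = 0)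
    (hs' : ∀ l, l ≠ x → l ≠ y → v' l = 0) (hcl : val g v % ww g = val g v' % ww g)
    (hne : v ≠ v') :
    (v x + 2 ≤ v' x ∧ v' y + 2 ≤ v y) ∨ (v' x + 2 ≤ v x ∧ v y + 2 ≤ v' y) := by
  have h1 : ¬ (v x ≤ v' x ∧ v y ≤ v' y) := by
    rintro ⟨h1, h2⟩
    refine class_sub hg hv' ?_ hne hcl
    intro l
    by_cases hlx : l = x
    · subst hlx; exact h1
    · by_cases hly : l = y
      · subst hly; exact h2
      · rw [hs l hlx hly]; exact Nat.zero_le _
  have h2 : ¬ (v' x ≤ v x ∧ v' y ≤ v y) := by
    rintro ⟨h1, h2⟩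
    refine class_sub hg hv ?_ hne.symm hcl.symm
    intro l
    by_cases hlx : l = x
    · subst hlx; exact h1
    · by_cases hly : l = y
      · subst hly; exact h2
      · rw [hs' l hlx hly]; exact Nat.zero_le _
  rcases lt_or_ge (v x) (v' x) with h | h
  · left
    exact nhalf_aux hg x y hxy hv hv' hs hs' hcl h (by
      by_contra h3
      exact h1 ⟨h.le, not_lt.mp h3⟩)
  · right
    have h4 : v y < v' y := by
      by_contra h3
      exact h2 ⟨h, not_lt.mp h3⟩
    have h5 : v' x < v x := by
      by_contra h3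
      exact h1 ⟨not_lt.mp h3, h4.le⟩
    exact nhalf_aux hg x y hxy hv' hv hs' hs hcl.symm h5 h4

/-- a set on which a coordinate is `2`-separated and bounded -/
theorem nhalf_count {α : Type} (S : Finset α) (f : α → ℕ) (i : ℕ)
    (h1 : ∀ v ∈ S, ∀ v' ∈ S, v ≠ v' → f v + 2 ≤ f v' ∨ f v' + 2 ≤ f v)
    (h2 : ∀ v ∈ S, f v + 2 ≤ i) : S.card ≤ i / 2 := by
  classical
  have h3 : S.card ≤ (Finset.range (i / 2)).card := by
    apply Finset.card_le_card_of_injOn (fun v => f v / 2)
    · intro v hv
      have := h2 v hv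
      simp only [Finset.coe_range, Set.mem_Iio]
      omega
    · intro v hv v' hv' h
      by_contra hne
      have h4 := h1 v hv v' hv' hne
      have h5 : f v / 2 = f v' / 2 := h
      omega
  simpa using h3

/-- Let `v0` be as in `exists_BB_min`, `i = v0 x`, `j = v0 y`, `i + j = dl g r`. The elements of `S` other than `v0`
have `v x ≤ i - 2` or `v y ≤ j - 2`; `v ↦ v x / 2` is injective on the first ones with values
`< i / 2`, `v ↦ v y / 2` on the others with values `< j / 2`. -/
theorem half_bound (hg : Ng g) (x y : Fin (N + 1)) (hxy : x ≠ y)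
    (hs : ∀ v, BB g v → 2 ≤ v.degree → ∀ l, l ≠ x → l ≠ y → v l = 0) {r : ℕ} (hr : r ∈ Rm g)
    (S : Finset (Fin (N + 1) →₀ ℕ))
    (hS : ∀ v ∈ S, BB g v ∧ 2 ≤ v.degree ∧ val g v % ww g = r) :
    S.card ≤ 1 + dl g r / 2 := by
  classical
  obtain ⟨v0, hv0, hd0, hc0⟩ := exists_BB_min hg hr
  have h2 : 2 ≤ v0.degree := by
    rw [hd0]
    exact (dl_spec hg hr).1
  have hs0 := hs v0 hv0 h2
  have hsum : v0 x + v0 y = dl g r := by
    rw [← hd0, Finsupp.degree_eq_sum]
    rw [← Finset.sum_subset (Finset.subset_univ ({x, y} : Finset (Fin (N + 1))))]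
    · rw [Finset.sum_pair hxy]
    · intro l _ hl
      simp only [Finset.mem_insert, Finset.mem_singleton, not_or] at hl
      exact hs0 l hl.1 hl.2
  have hsep : ∀ v v' : Fin (N + 1) →₀ ℕ, BB g v → 2 ≤ v.degree → val g v % ww g = r →
      BB g v' → 2 ≤ v'.degree → val g v' % ww g = r → v ≠ v' →
      (v x + 2 ≤ v' x ∧ v' y + 2 ≤ v y) ∨ (v' x + 2 ≤ v x ∧ v y + 2 ≤ v' y) := by
    intro v v' a1 a2 a3 b1 b2 b3 hne
    exact half_aux hg x y hxy a1 b1 (hs v a1 a2) (hs v' b1 b2) (a3.trans b3.symm) hne
  have hsub : S ⊆ insert v0 ((S.filter (fun v => v x + 2 ≤ v0 x)) ∪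
      (S.filter (fun v => v y + 2 ≤ v0 y))) := by
    intro v hv
    by_cases hvv : v = v0
    · subst hvv
      exact Finset.mem_insert_self _ _
    · obtain ⟨a1, a2, a3⟩ := hS v hv
      apply Finset.mem_insert_of_mem
      rw [Finset.mem_union, Finset.mem_filter, Finset.mem_filter]
      rcases hsep v v0 a1 a2 a3 hv0 h2 hc0 hvv with h | h
      · left
        exact ⟨hv, h.1⟩
      · right
        exact ⟨hv, h.2⟩
  have hc1 : (S.filter (fun v => v x + 2 ≤ v0 x)).card ≤ v0 x / 2 := by
    apply nhalf_count _ (fun v => v x)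
    · intro v hv v' hv' hne
      rw [Finset.mem_filter] at hv hv'
      obtain ⟨a1, a2, a3⟩ := hS v hv.1
      obtain ⟨b1, b2, b3⟩ := hS v' hv'.1
      rcases hsep v v' a1 a2 a3 b1 b2 b3 hne with h | h
      · exact Or.inl h.1
      · exact Or.inr h.1
    · intro v hv
      rw [Finset.mem_filter] at hv
      exact hv.2
  have hc2 : (S.filter (fun v => v y + 2 ≤ v0 y)).card ≤ v0 y / 2 := by
    apply nhalf_count _ (fun v => v y)
    · intro v hv v' hv' hne
      rw [Finset.mem_filter] at hv hv'
      obtain ⟨a1, a2, a3⟩ := hS v hv.1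
      obtain ⟨b1, b2, b3⟩ := hS v' hv'.1
      rcases hsep v v' a1 a2 a3 b1 b2 b3 hne with h | h
      · exact Or.inr h.2
      · exact Or.inl h.2
    · intro v hv
      rw [Finset.mem_filter] at hv
      exact hv.2
  have h3 := Finset.card_le_card hsub
  have h4 := Finset.card_insert_le v0 ((S.filter (fun v => v x + 2 ≤ v0 x)) ∪
      (S.filter (fun v => v y + 2 ≤ v0 y)))
  have h5 := Finset.card_union_le (S.filter (fun v => v x + 2 ≤ v0 x))
    (S.filter (fun v => v y + 2 ≤ v0 y))
  omega

/-- One inner letter: comparable exponent vectors of the same class are equal (`class_sub`). -/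
theorem one_letter (hg : Ng g) (hN : N = 2) {r : ℕ} (S : Finset (Fin (N + 1) →₀ ℕ))
    (hS : ∀ v ∈ S, BB g v ∧ 2 ≤ v.degree ∧ val g v % ww g = r) : S.card ≤ 1 := by
  subst hN
  rw [Finset.card_le_one]
  have key : ∀ v ∈ S, ∀ v' ∈ S, v 1 ≤ v' 1 → v = v' := by
    intro v hv v' hv' h
    obtain ⟨a1, a2, a3⟩ := hS v hv
    obtain ⟨b1, b2, b3⟩ := hS v' hv'
    by_contra hne
    refine class_sub hg b1 ?_ hne (a3.trans b3.symm)
    intro l
    have h0 : v 0 = 0 := a1.zero
    have h2 : v 2 = 0 := a1.last
    fin_cases l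
    · simp [h0]
    · exact h
    · simp [h2]
  intro v hv v' hv'
  rcases le_total (v 1) (v' 1) with h | h
  · exact key v hv v' hv' h
  · exact (key v' hv' v hv h).symm

end Pool.Agent.Lib.MP_a2efaf_al.Nar
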