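import Pool.Agent.Lib.MP_a2efaf_al.NBad
import Pool.Agent.Lib.MP_a2efaf_al.NPos

/-!
# Narrow case: bad exponent vectors containing the letter `0`

Let `u` be bad with `0 < u 0`, `z = can (wt u)`, `t = deg z - deg u > 0` (`Bad.deg_lt`),
`c = u - single 0 1` (canonical, `Bad.div`). Then `z 0 = 0` and `val z + t * g 0 = val u = val c`.
-/

set_option autoImplicit false

namespace Pool.Agent.Lib.MP_a2efaf_al.Nar

variable {N : ℕ} {g : Fin (N + 1) → ℕ} {can : ℕ → (Fin (N + 1) →₀ ℕ)}

/-- Basic facts on `c = u - single 0 1`. -/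
theorem nvthree_c (hg : Ng g) (hc : IsCanN g can) {u : Fin (N + 1) →₀ ℕ} (hu : Bad g can u)
    (h0 : 0 < u 0) :
    u - Finsupp.single 0 1 + Finsupp.single 0 1 = u ∧
    (u - Finsupp.single 0 1).degree + 1 = u.degree ∧
    wt g (u - Finsupp.single 0 1) + g 0 = wt g u ∧
    val g (u - Finsupp.single 0 1) = val g u ∧
    u - Finsupp.single 0 1 = can (wt g (u - Finsupp.single 0 1)) := by
  have h1 : u - Finsupp.single 0 1 + Finsupp.single 0 1 = u := by
    apply tsub_add_cancel_of_le
    rw [Finsupp.single_le_iff]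
    omega
  refine ⟨h1, ?_, ?_, ?_, hu.div hg hc h0⟩
  · have h2 := congrArg Finsupp.degree h1
    rw [map_add, Finsupp.degree_single] at h2
    exact h2
  · have h2 := congrArg (wt g) h1
    rw [wt_add, wt_single] at h2
    omega
  · have h2 := congrArg (val g) h1
    rw [val_add, val_single] at h2
    simpa using h2

/-- Basic facts on `z = can (wt u)`. -/
theorem nvthree_z (hg : Ng g) (hc : IsCanN g can) {u : Fin (N + 1) →₀ ℕ} (hu : Bad g can u)
    (h0 : 0 < u 0) :
    ∃ t : ℕ, 0 < t ∧ (can (wt g u)).degree = u.degree + t ∧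
      val g (can (wt g u)) + t * g 0 = val g u ∧
      val g (can (wt g u)) + t * ww g + t ≤ val g u ∧
      val g u ≤ (u.degree - 1) * ww g := by
  have h1 := hu.deg_lt hg hc h0
  obtain ⟨t, ht⟩ := Nat.exists_eq_add_of_lt h1
  obtain ⟨hc1, hc2, hc3, hc4, hc5⟩ := nvthree_c hg hc hu h0
  have h3 : val g (can (wt g u)) + (t + 1) * g 0 = val g u := by
    have h2 : wt g (can (wt g u)) = wt g u := hc.wt_can u
    have h4 := wt_eq hg (can (wt g u))
    have h5 := wt_eq hg u
    rw [ht] at h4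
    have h6 : (u.degree + t + 1) * g 0 = u.degree * g 0 + (t + 1) * g 0 := by ring
    omega
  have hw := hg.ww_pos
  refine ⟨t + 1, Nat.succ_pos t, by rw [ht]; ring, h3, ?_, ?_⟩
  · have h4 : (t + 1) * (ww g + 1) ≤ (t + 1) * g 0 := Nat.mul_le_mul_left _ hw.2
    have h5 : (t + 1) * (ww g + 1) = (t + 1) * ww g + (t + 1) := by ring
    omega
  · have h6 := val_le hg (u - Finsupp.single 0 1)
    rw [hc4] at h6
    have h7 : u.degree - 1 = (u - Finsupp.single 0 1).degree := by omega
    rw [h7]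
    exact h6

/-- `z` splits as `z.erase last` and the last letter. -/
theorem nvthree_erase_last (g : Fin (N + 1) → ℕ) (z : Fin (N + 1) →₀ ℕ) :
    (z.erase (Fin.last N)).degree + z (Fin.last N) = z.degree ∧
    val g (z.erase (Fin.last N)) + z (Fin.last N) * ww g = val g z := by
  have h1 := Finsupp.erase_add_single (Fin.last N) z
  constructor
  · have h2 := congrArg Finsupp.degree h1
    rw [map_add, Finsupp.degree_single] at h2
    exact h2
  · have h2 := congrArg (val g) h1
    rw [val_add, val_single] at h2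
    exact h2

/-- First kind: `z` does not contain the last letter. Then `z` is inner canonical and
`3 ≤ qq z`: `val u ≤ (deg u - 1) * ww` (`val_le` for `c`), `val z = val u - t * g 0 < (deg u - 1 - t) * ww`,
so `pp z ≤ deg u - 2 - t` and `qq z = deg u + t - 1 - pp z ≥ 2 t + 1`. -/
theorem three_a (hg : Ng g) (hc : IsCanN g can) {u : Fin (N + 1) →₀ ℕ} (hu : Bad g can u)
    (h0 : 0 < u 0) (hz : (can (wt g u)) (Fin.last N) = 0) :
    OO g can (can (wt g u)) ∧ 3 ≤ qq g (can (wt g u)) ∧ 2 ≤ (can (wt g u)).degree := by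
  obtain ⟨t, ht, hd, -, hv, hv'⟩ := nvthree_z hg hc hu h0
  have h2 := hu.two_le hg hc
  have hw := hg.ww_pos
  refine ⟨⟨?_, hu.z_zero hg hc h0, hz, ?_⟩, ?_, by omega⟩
  · rw [hc.wt_can u]
  · intro h
    rw [h] at hd
    simp at hd
    omega
  · unfold qq pp
    have h3 : val g (can (wt g u)) / ww g + t < u.degree - 1 := by
      rw [← Nat.add_mul_div_right _ _ hw.1, Nat.div_lt_iff_lt_mul hw.1]
      omega
    omega

/-- Second kind: `z` contains the last letter. Then `v = u.erase 0` is inner canonical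
(`v ≤ c`; `c` does not contain the last letter by `Bad.disj`) with `val v = val u ≥ ww + t * g 0 > 2 * ww`,
so `2 ≤ pp v` and `3 ≤ deg v` (`val_le`). -/
theorem three_b (hg : Ng g) (hc : IsCanN g can) {u : Fin (N + 1) →₀ ℕ} (hu : Bad g can u)
    (h0 : 0 < u 0) (hz : 0 < (can (wt g u)) (Fin.last N)) :
    OO g can (u.erase 0) ∧ 2 ≤ pp g (u.erase 0) ∧ 3 ≤ (u.erase 0).degree := by
  obtain ⟨t, ht, hd, hv0, hv, hv'⟩ := nvthree_z hg hc hu h0
  obtain ⟨hc1, hc2, hc3, hc4, hc5⟩ := nvthree_c hg hc hu h0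
  obtain ⟨-, he2⟩ := nvthree_erase_last g (can (wt g u))
  have hw := hg.ww_pos
  have hlast : (Fin.last N) ≠ 0 := by
    have := hg.one
    intro h
    have := congrArg Fin.val h
    simp at this
    omega
  have hcl : (u - Finsupp.single 0 1 : Fin (N + 1) →₀ ℕ) (Fin.last N) = 0 :=
    hu.disj hg hc h0 hlast hz hc2 hc3
  have hul : u (Fin.last N) = 0 := by
    rw [Finsupp.tsub_apply, Finsupp.single_eq_of_ne hlast] at hcl
    simpa using hcl
  have hle : u.erase 0 ≤ u - Finsupp.single 0 1 := by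
    intro i
    by_cases hi : i = 0
    · rw [hi, Finsupp.erase_same]
      exact Nat.zero_le _
    · rw [Finsupp.erase_ne hi, Finsupp.tsub_apply, Finsupp.single_eq_of_ne hi]
      simp
  have hval : val g (u.erase 0) = val g u := by
    have h1 := congrArg (val g) (Finsupp.erase_add_single 0 u)
    rw [val_add, val_single] at h1
    simpa using h1
  have h5 : ww g ≤ (can (wt g u)) (Fin.last N) * ww g := Nat.le_mul_of_pos_left _ hz
  have h6 : ww g ≤ t * ww g := Nat.le_mul_of_pos_left _ ht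
  have h7 : 2 * ww g + 1 ≤ val g (u.erase 0) := by omega
  have h8 := val_le hg (u.erase 0)
  refine ⟨⟨hc.sub hc5 hle, Finsupp.erase_same, ?_, ?_⟩, ?_, ?_⟩
  · rw [Finsupp.erase_ne hlast, hul]
  · intro h
    rw [h] at h7
    have : val g (0 : Fin (N + 1) →₀ ℕ) = 0 := by
      unfold val
      exact wt_zero _
    omega
  · unfold pp
    rw [Nat.le_div_iff_mul_le hw.1]
    omega
  · by_contra h
    have h9 : (u.erase 0).degree * ww g ≤ 2 * ww g := Nat.mul_le_mul_right _ (by omega)
    omega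

/-- `u ↦ can (wt u)` is injective on the bad `u` with `0 < u 0`: `u = x_0 + can (wt u - g 0)`. -/
theorem three_inj_a (hg : Ng g) (hc : IsCanN g can) {u u' : Fin (N + 1) →₀ ℕ} (hu : Bad g can u)
    (hu' : Bad g can u') (h0 : 0 < u 0) (h0' : 0 < u' 0)
    (h : can (wt g u) = can (wt g u')) : u = u' := by
  obtain ⟨hc1, hc2, hc3, hc4, hc5⟩ := nvthree_c hg hc hu h0
  obtain ⟨hd1, hd2, hd3, hd4, hd5⟩ := nvthree_c hg hc hu' h0'
  have h1 : wt g u = wt g u' := by
    rw [← hc.wt_can u, ← hc.wt_can u', h]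
  have h2 : wt g (u - Finsupp.single 0 1) = wt g (u' - Finsupp.single 0 1) := by omega
  rw [← hc1, ← hd1, hc5, hd5, h2]

/-- `u ↦ u.erase 0` is injective on the bad `u` with `0 < u 0`: if `u = v + j x_0`, `u' = v + j' x_0`, `j < j'`
then `u ≤ u' - single 0 1` is canonical. -/
theorem three_inj_b (hg : Ng g) (hc : IsCanN g can) {u u' : Fin (N + 1) →₀ ℕ} (hu : Bad g can u)
    (hu' : Bad g can u') (h0 : 0 < u 0) (h0' : 0 < u' 0) (h : u.erase 0 = u'.erase 0) :
    u = u' := by
  have key : ∀ {u u' : Fin (N + 1) →₀ ℕ}, Bad g can u → Bad g can u' → 0 < u' 0 →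
      u.erase 0 = u'.erase 0 → ¬ u 0 < u' 0 := by
    intro u u' hu hu' h0' h hlt
    obtain ⟨hd1, hd2, hd3, hd4, hd5⟩ := nvthree_c hg hc hu' h0'
    apply hu.1
    refine hc.sub hd5 ?_
    intro i
    by_cases hi : i = 0
    · rw [hi, Finsupp.tsub_apply, Finsupp.single_eq_same]
      omega
    · rw [Finsupp.tsub_apply, Finsupp.single_eq_of_ne hi]
      have h1 := DFunLike.congr_fun h i
      rw [Finsupp.erase_ne hi, Finsupp.erase_ne hi] at h1
      rw [h1]
      simp
  have h1 := key hu hu' h0' h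
  have h2 := key hu' hu h0 h.symm
  have h3 : u 0 = u' 0 := by omega
  rw [← Finsupp.erase_add_single 0 u, ← Finsupp.erase_add_single 0 u', h, h3]

/-- If there is a bad `u` with `0 < u 0` then there are at least `3` missing classes:
`z' = z.erase last` is inner canonical of degree `≥ 4`: with `j = z last`,
`(deg u - 1) * ww ≥ val u = val z + t * g 0 > j * ww + t * ww` (`z' ≠ 0` or `t * g 0 > t * ww`), so
`deg u - 1 ≥ j + t + 1` and `deg z' = deg u + t - j ≥ 2 t + 2`. Then `deg_le`. -/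
theorem three_miss (hg : Ng g) (hc : IsCanN g can) {u : Fin (N + 1) →₀ ℕ} (hu : Bad g can u)
    (h0 : 0 < u 0) : 3 ≤ (MissN g).card := by
  obtain ⟨t, ht, hd, hv0, hv, hv'⟩ := nvthree_z hg hc hu h0
  obtain ⟨he1, he2⟩ := nvthree_erase_last g (can (wt g u))
  have hw := hg.ww_pos
  set z := can (wt g u) with hz
  set j := z (Fin.last N) with hj
  have h1 : (j + t) * ww g < (u.degree - 1) * ww g := by
    have h2 : (j + t) * ww g = j * ww g + t * ww g := by ring
    omega
  have h3 : j + t < u.degree - 1 := lt_of_mul_lt_mul_right h1 (Nat.zero_le _)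
  have h4 : 4 ≤ (z.erase (Fin.last N)).degree := by omega
  have hzc : z = can (wt g z) := by
    rw [hz, hc.wt_can u]
  have hle : z.erase (Fin.last N) ≤ z := by
    intro i
    by_cases hi : i = Fin.last N
    · rw [hi, Finsupp.erase_same]
      exact Nat.zero_le _
    · rw [Finsupp.erase_ne hi]
  have hlast : (0 : Fin (N + 1)) ≠ Fin.last N := by
    have := hg.one
    intro h
    have := congrArg Fin.val h
    simp at this
    omega
  have hO : OO g can (z.erase (Fin.last N)) := by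
    refine ⟨hc.sub hzc hle, ?_, Finsupp.erase_same, ?_⟩
    · rw [Finsupp.erase_ne hlast]
      exact hu.z_zero hg hc h0
    · intro h
      rw [h] at h4
      simp at h4
  have h5 := deg_le hg (hO.bb hc)
  omega

/-- The bound for the bad exponent vectors containing `x_0`. -/
theorem three_card (hg : Ng g) (hc : IsCanN g can) (O : Finset (Fin (N + 1) →₀ ℕ))
    (hO : ∀ v, v ∈ O ↔ OO g can v) :
    ∃ V : Finset (Fin (N + 1) →₀ ℕ), (∀ u, Bad g can u → 0 < u 0 → u ∈ V) ∧
      V.card ≤ (O.filter (fun v => 2 ≤ v.degree ∧ 3 ≤ qq g v)).card +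
        (O.filter (fun v => 2 ≤ v.degree ∧ 2 ≤ pp g v ∧ 3 ≤ v.degree)).card ∧
      ((MissN g).card < 3 → V = ∅) := by
  classical
  set A : Set (Fin (N + 1) →₀ ℕ) :=
    {u | Bad g can u ∧ 0 < u 0 ∧ (can (wt g u)) (Fin.last N) = 0} with hA
  set B : Set (Fin (N + 1) →₀ ℕ) :=
    {u | Bad g can u ∧ 0 < u 0 ∧ 0 < (can (wt g u)) (Fin.last N)} with hB
  set OA := O.filter (fun v => 2 ≤ v.degree ∧ 3 ≤ qq g v) with hOA
  set OB := O.filter (fun v => 2 ≤ v.degree ∧ 2 ≤ pp g v ∧ 3 ≤ v.degree) with hOB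
  have mA : Set.MapsTo (fun u => can (wt g u)) A (OA : Set (Fin (N + 1) →₀ ℕ)) := by
    rintro u ⟨hu, h0, hz⟩
    obtain ⟨h1, h2, h3⟩ := three_a hg hc hu h0 hz
    simp only [hOA, Finset.coe_filter, Set.mem_ofPred_eq]
    exact ⟨(hO _).2 h1, h3, h2⟩
  have iA : Set.InjOn (fun u => can (wt g u)) A := by
    rintro u ⟨hu, h0, hz⟩ u' ⟨hu', h0', hz'⟩ h
    exact three_inj_a hg hc hu hu' h0 h0' h
  have mB : Set.MapsTo (fun u : Fin (N + 1) →₀ ℕ => u.erase 0) B
      (OB : Set (Fin (N + 1) →₀ ℕ)) := by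
    rintro u ⟨hu, h0, hz⟩
    obtain ⟨h1, h2, h3⟩ := three_b hg hc hu h0 hz
    simp only [hOB, Finset.coe_filter, Set.mem_ofPred_eq]
    exact ⟨(hO _).2 h1, by omega, h2, h3⟩
  have iB : Set.InjOn (fun u : Fin (N + 1) →₀ ℕ => u.erase 0) B := by
    rintro u ⟨hu, h0, hz⟩ u' ⟨hu', h0', hz'⟩ h
    exact three_inj_b hg hc hu hu' h0 h0' h
  have fA : A.Finite := Set.Finite.of_injOn mA iA (Finset.finite_toSet _)
  have fB : B.Finite := Set.Finite.of_injOn mB iB (Finset.finite_toSet _)
  refine ⟨fA.toFinset ∪ fB.toFinset, ?_, ?_, ?_⟩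
  · intro u hu h0
    rw [Finset.mem_union, Set.Finite.mem_toFinset, Set.Finite.mem_toFinset]
    rcases Nat.eq_zero_or_pos ((can (wt g u)) (Fin.last N)) with h | h
    · exact Or.inl ⟨hu, h0, h⟩
    · exact Or.inr ⟨hu, h0, h⟩
  · refine (Finset.card_union_le _ _).trans (Nat.add_le_add ?_ ?_)
    · apply Finset.card_le_card_of_injOn (fun u => can (wt g u))
      · intro u hu
        exact mA (by simpa using hu)
      · intro u hu u' hu' h
        exact iA (by simpa using hu) (by simpa using hu') h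
    · apply Finset.card_le_card_of_injOn (fun u : Fin (N + 1) →₀ ℕ => u.erase 0)
      · intro u hu
        exact mB (by simpa using hu)
      · intro u hu u' hu' h
        exact iB (by simpa using hu) (by simpa using hu') h
  · intro hM
    rw [Finset.eq_empty_iff_forall_notMem]
    intro u hu
    rw [Finset.mem_union, Set.Finite.mem_toFinset, Set.Finite.mem_toFinset] at hu
    rcases hu with ⟨hu, h0, -⟩ | ⟨hu, h0, -⟩
    · have := three_miss hg hc hu h0
      omega
    · have := three_miss hg hc hu h0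
      omega

end Pool.Agent.Lib.MP_a2efaf_al.Nar
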