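import Pool.Agent.Lib.MP_a2efaf_al.WCan
import Pool.Agent.Lib.MP_a2efaf_al.NFinal

/-!
# The narrow case
-/

set_option autoImplicit false

namespace Pool.Agent.Lib.MP_a2efaf_al

variable {N : ℕ} {g : Fin (N + 1) → ℕ}

theorem narrow_case (k : Type) [Field k] (hg : Mg g)
    (w q b : ℕ) (hw : g (Fin.last N) = g 0 + w) (hw1 : 1 ≤ w) (hlt : w + 1 < g 0) (hmiss : N < w)
    (hM : g 0 = q * w + b) (hb : 1 ≤ b) (hbw : b ≤ w) :
    ∃ s : Finset (MvPolynomial (Fin (N + 1)) k), s.card ≤ w.choose 2 + (w - b + 1) ∧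
      Ideal.span (s : Set (MvPolynomial (Fin (N + 1)) k)) = initIdeal k g := by
  have hww : Nar.ww g = w := by
    unfold Nar.ww
    omega
  have hN : 1 ≤ N := by
    rcases Nat.eq_zero_or_pos N with h | h
    · subst h
      have h1 : g (Fin.last 0) = g 0 := rfl
      omega
    · exact h
  have hng : Nar.Ng g := ⟨hg.mono, hg.pos, hN, by omega⟩
  obtain ⟨s, hs, hspan⟩ := Nar.narrow_case k hng (by rw [hww]; exact hmiss) q b hb
    (by rw [hww]; exact hbw) (by rw [hww]; exact hM)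
  rw [hww] at hs
  exact ⟨s, by omega, hspan⟩

end Pool.Agent.Lib.MP_a2efaf_al
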