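import Pool.Agent.Lib.MP_a2efaf_al.Gen

/-!
# Canonical factorizations
-/

set_option autoImplicit false

namespace Pool.Agent.Lib.MP_a2efaf_al

variable {N : ℕ}

/-- `g` is a strictly increasing minimal system of generators. -/
structure Mg (g : Fin (N + 1) → ℕ) : Prop where
  mono : StrictMono g
  pos : 0 < g 0
  min : ∀ i, g i ∉ AddSubmonoid.closure (g '' {j | j ≠ i})

/-- `can s` is the lexicographically largest (most copies of `g 0`, then of `g 1`, ...) among the
factorizations of `s` of maximal length. -/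
structure IsCan (g : Fin (N + 1) → ℕ) (can : ℕ → (Fin (N + 1) →₀ ℕ)) : Prop where
  wt_can : ∀ u : Fin (N + 1) →₀ ℕ, wt g (can (wt g u)) = wt g u
  deg_le : ∀ u : Fin (N + 1) →₀ ℕ, u.degree ≤ (can (wt g u)).degree
  lex_le : ∀ u : Fin (N + 1) →₀ ℕ, u.degree = (can (wt g u)).degree →
    toLex u ≤ toLex (can (wt g u))

variable {g : Fin (N + 1) → ℕ} {can : ℕ → (Fin (N + 1) →₀ ℕ)}

theorem wcan_pos (hg : Mg g) (i : Fin (N + 1)) : 0 < g i :=
  hg.pos.trans_le (hg.mono.monotone (Fin.zero_le i))

theorem wcan_term_le (g : Fin (N + 1) → ℕ) (u : Fin (N + 1) →₀ ℕ) (i : Fin (N + 1)) :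
    u i * g i ≤ wt g u :=
  Finset.single_le_sum (f := fun i => u i * g i) (fun _ _ => Nat.zero_le _) (Finset.mem_univ i)

theorem wcan_le (hg : Mg g) (u : Fin (N + 1) →₀ ℕ) (i : Fin (N + 1)) : u i ≤ wt g u :=
  (Nat.le_mul_of_pos_right _ (wcan_pos hg i)).trans (wcan_term_le g u i)

/-- The factorizations of a number form a finite set. -/
theorem finite_wt (hg : Mg g) (s : ℕ) : {u : Fin (N + 1) →₀ ℕ | wt g u = s}.Finite := by
  refine (Set.finite_Iic (Finsupp.equivFunOnFinite.symm fun _ => s)).subset ?_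
  intro u hu
  have hu' : wt g u = s := hu
  rw [Set.mem_Iic]
  intro i
  rw [Finsupp.equivFunOnFinite_symm_apply_apply, ← hu']
  exact wcan_le hg u i

theorem wcan_exists (hg : Mg g) (s : ℕ) : ∃ c : Fin (N + 1) →₀ ℕ,
    ∀ u : Fin (N + 1) →₀ ℕ, wt g u = s →
      wt g c = s ∧ u.degree ≤ c.degree ∧ (u.degree = c.degree → toLex u ≤ toLex c) := by
  by_cases hne : {u : Fin (N + 1) →₀ ℕ | wt g u = s}.Nonempty
  · obtain ⟨c, hc, hmax⟩ := Set.exists_max_image _
      (fun u : Fin (N + 1) →₀ ℕ => toLex (u.degree, toLex u)) (finite_wt hg s) hne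
    refine ⟨c, fun u hu => ⟨hc, ?_⟩⟩
    have h1 := hmax u hu
    rw [Prod.Lex.toLex_le_toLex] at h1
    simp only at h1
    rcases h1 with h1 | ⟨h1, h2⟩
    · exact ⟨h1.le, fun h => absurd h h1.ne⟩
    · exact ⟨h1.le, fun _ => h2⟩
  · refine ⟨0, fun u hu => ?_⟩
    exact absurd ⟨u, hu⟩ hne

theorem exists_can (hg : Mg g) : ∃ can : ℕ → (Fin (N + 1) →₀ ℕ), IsCan g can := by
  choose can hcan using wcan_exists hg
  exact ⟨can, fun u => (hcan _ u rfl).1, fun u => (hcan _ u rfl).2.1,
    fun u => (hcan _ u rfl).2.2⟩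

theorem wcan_degree_add (u v : Fin (N + 1) →₀ ℕ) : (u + v).degree = u.degree + v.degree :=
  map_add Finsupp.degree u v

theorem wcan_degree_single (i : Fin (N + 1)) (n : ℕ) : (Finsupp.single i n).degree = n :=
  Finsupp.degree_single i n

/-- A divisor of a canonical factorization is canonical (lexicographic order and degree are
translation invariant). -/
theorem IsCan.sub (hc : IsCan g can) {u u' : Fin (N + 1) →₀ ℕ} (hu : u = can (wt g u))
    (h : u' ≤ u) : u' = can (wt g u') := by
  obtain ⟨w, rfl⟩ := exists_add_of_le h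
  have hw : wt g (can (wt g u') + w) = wt g (u' + w) := by
    rw [wt_add, wt_add, hc.wt_can]
  have h1 := hc.deg_le (can (wt g u') + w)
  rw [hw, ← hu, wcan_degree_add, wcan_degree_add] at h1
  have h2 := hc.deg_le u'
  have h3 : u'.degree = (can (wt g u')).degree := by omega
  have h4 := hc.lex_le u' h3
  have h5 := hc.lex_le (can (wt g u') + w) (by
    rw [hw, ← hu, wcan_degree_add, wcan_degree_add, h3])
  rw [hw, ← hu, toLex_add, toLex_add] at h5
  have h6 : toLex (can (wt g u')) ≤ toLex u' := le_of_add_le_add_right h5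
  exact toLex.injective (le_antisymm h4 h6)

/-- Two factorizations of the same number, one canonical: the degree of a divisor of a factorization
of maximal length is maximal. -/
theorem IsCan.deg_sub (hc : IsCan g can) {u u' : Fin (N + 1) →₀ ℕ}
    (hu : u.degree = (can (wt g u)).degree) (h : u' ≤ u) :
    u'.degree = (can (wt g u')).degree := by
  obtain ⟨w, rfl⟩ := exists_add_of_le h
  have hw : wt g (can (wt g u') + w) = wt g (u' + w) := by
    rw [wt_add, wt_add, hc.wt_can]
  have h1 := hc.deg_le (can (wt g u') + w)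
  rw [hw, ← hu, wcan_degree_add, wcan_degree_add] at h1
  have h2 := hc.deg_le u'
  omega

/-- `g i` has a single factorization (minimality). -/
theorem wt_eq_gen (hg : Mg g) {u : Fin (N + 1) →₀ ℕ} {i : Fin (N + 1)} (h : wt g u = g i) :
    u = Finsupp.single i 1 := by
  have hi : 1 ≤ u i := by
    by_contra hh
    have h0 : u i = 0 := by omega
    refine hg.min i ?_
    rw [← h]
    unfold wt
    refine AddSubmonoid.sum_mem _ fun j _ => ?_
    by_cases hj : j = i
    · rw [hj, h0, zero_mul]
      exact AddSubmonoid.zero_mem _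
    · rw [← smul_eq_mul]
      exact nsmul_mem (AddSubmonoid.subset_closure (Set.mem_image_of_mem g hj)) _
  have hle : Finsupp.single i 1 ≤ u := by
    rw [Finsupp.single_le_iff]
    exact hi
  obtain ⟨w, rfl⟩ := exists_add_of_le hle
  rw [wt_add, wt_single, one_mul] at h
  have hw : wt g w = 0 := by omega
  have hw0 : w = 0 := by
    ext j
    have h1 := wcan_le hg w j
    rw [hw] at h1
    rw [Finsupp.coe_zero, Pi.zero_apply]
    omega
  rw [hw0, add_zero]

/-- If `v` is canonical without `g 0` and `wt v - g 0` is in the semigroup, then its order is at most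
`deg v - 2`: otherwise `g 0` times its canonical factorization would be lexicographically larger
(or longer). -/
theorem can_drop (hc : IsCan g can) {u v : Fin (N + 1) →₀ ℕ} (hv : v = can (wt g v))
    (h0 : v 0 = 0) (h : wt g u + g 0 = wt g v) : (can (wt g u)).degree + 2 ≤ v.degree := by
  have hw : wt g (can (wt g u) + Finsupp.single 0 1) = wt g v := by
    rw [wt_add, hc.wt_can, wt_single, one_mul, h]
  have h1 := hc.deg_le (can (wt g u) + Finsupp.single 0 1)
  rw [hw, ← hv, wcan_degree_add, wcan_degree_single] at h1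
  by_contra hlt
  have h2 := hc.lex_le (can (wt g u) + Finsupp.single 0 1) (by
    rw [hw, ← hv, wcan_degree_add, wcan_degree_single]; omega)
  rw [hw, ← hv] at h2
  refine absurd h2 (not_le.mpr ?_)
  rw [Finsupp.Lex.lt_iff]
  refine ⟨0, fun j hj => absurd hj (Fin.not_lt_zero j), ?_⟩
  show v 0 < ((can (wt g u) + Finsupp.single 0 1 : Fin (N + 1) →₀ ℕ) 0)
  rw [h0, Finsupp.add_apply, Finsupp.single_eq_same]
  omega

/-- A canonical factorization without `g 0` and different from `0` has a value not divisible by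
`g 0` (all other generators are larger than `g 0`). -/
theorem can_class (hg : Mg g) (hc : IsCan g can) {v : Fin (N + 1) →₀ ℕ} (hv : v = can (wt g v))
    (h0 : v 0 = 0) (hne : v ≠ 0) : ¬ g 0 ∣ wt g v := by
  rintro ⟨q, hq⟩
  have hw : wt g (Finsupp.single 0 q) = wt g v := by
    rw [wt_single, hq, mul_comm]
  have h1 := hc.deg_le (Finsupp.single 0 q)
  rw [hw, ← hv, wcan_degree_single] at h1
  have h2 : v.degree * g 0 < wt g v := by
    rw [Finsupp.degree_eq_sum, Finset.sum_mul]
    unfold wt
    obtain ⟨i, hi⟩ := Finsupp.ne_iff.mp hne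
    rw [Finsupp.coe_zero, Pi.zero_apply] at hi
    have hi0 : i ≠ 0 := by
      rintro rfl
      exact hi h0
    refine Finset.sum_lt_sum (fun j _ => Nat.mul_le_mul_left _
      (hg.mono.monotone (Fin.zero_le j))) ⟨i, Finset.mem_univ i, ?_⟩
    exact Nat.mul_lt_mul_of_pos_left (hg.mono (Fin.pos_of_ne_zero hi0)) (Nat.pos_of_ne_zero hi)
  rw [hq, mul_comm (g 0)] at h2
  have h3 := lt_of_mul_lt_mul_right h2 (Nat.zero_le _)
  omega

end Pool.Agent.Lib.MP_a2efaf_al
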