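import Pool.Agent.Lib.MP_a2efaf_al.WK

/-!
# Generators of the ideal of initial forms from the corners
-/

set_option autoImplicit false

namespace Pool.Agent.Lib.MP_a2efaf_al

variable {N : ℕ} {g : Fin (N + 1) → ℕ} {can : ℕ → (Fin (N + 1) →₀ ℕ)}

/-- The fourth alternative of the generator principle. -/
private def wgenDead (g : Fin (N + 1) → ℕ) (u : Fin (N + 1) →₀ ℕ) : Prop :=
  ∃ i, 0 < u i ∧ ∃ v : Fin (N + 1) →₀ ℕ, wt g v + g i = wt g u ∧ u.degree ≤ v.degree

/-- The well founded relation. -/
private def wgenRel (g : Fin (N + 1) → ℕ) (u' u : Fin (N + 1) →₀ ℕ) : Prop :=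
  (wgenDead g u' ∧ ¬ wgenDead g u) ∨ ((wgenDead g u' ↔ wgenDead g u) ∧ wt g u' = wt g u ∧
    toLex u < toLex u')

open Classical in
/-- The measure. -/
private noncomputable def wgenMeas (g : Fin (N + 1) → ℕ) (u : Fin (N + 1) →₀ ℕ) : ℕ ×ₗ ℕ :=
  toLex ((if wgenDead g u then 0 else 1 : ℕ),
    Set.ncard {v : Fin (N + 1) →₀ ℕ | wt g v = wt g u ∧ toLex u < toLex v})

private theorem wgen_wf (hg : Mg g) : WellFounded (wgenRel g) := by
  classical
  refine Subrelation.wf (r := InvImage (· < ·) (wgenMeas g)) ?_ (InvImage.wf _ wellFounded_lt)
  intro u' u h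
  change wgenMeas g u' < wgenMeas g u
  unfold wgenMeas
  rw [Prod.Lex.toLex_lt_toLex]
  rcases h with ⟨h1, h2⟩ | ⟨h1, h2, h3⟩
  · left
    rw [if_pos h1, if_neg h2]
    exact zero_lt_one
  · right
    refine ⟨?_, ?_⟩
    · by_cases hd : wgenDead g u
      · rw [if_pos hd, if_pos (h1.mpr hd)]
      · rw [if_neg hd, if_neg fun h => hd (h1.mp h)]
    · refine Set.ncard_lt_ncard ?_ ?_
      · rw [Set.ssubset_iff_exists]
        refine ⟨?_, u', ⟨h2, h3⟩, ?_⟩
        · rintro v ⟨hv1, hv2⟩
          exact ⟨hv1.trans h2, h3.trans hv2⟩
        · rintro ⟨-, hv2⟩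
          exact lt_irrefl _ hv2
      · refine (finite_wt hg (wt g u)).subset ?_
        rintro v ⟨hv1, -⟩
        exact hv1

private theorem wgen_sub {u : Fin (N + 1) →₀ ℕ} {i : Fin (N + 1)} (hi : 0 < u i) :
    Finsupp.single i 1 + (u - Finsupp.single i 1) = u := by
  apply add_tsub_cancel_of_le
  rw [Finsupp.single_le_iff]
  exact hi

private theorem wgen_sub_deg {u : Fin (N + 1) →₀ ℕ} {i : Fin (N + 1)} (hi : 0 < u i) :
    (u - Finsupp.single i 1).degree + 1 = u.degree := by
  conv_rhs => rw [← wgen_sub hi]
  rw [map_add, Finsupp.degree_single, add_comm]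

private theorem wgen_sub_wt {u : Fin (N + 1) →₀ ℕ} {i : Fin (N + 1)} (hi : 0 < u i) :
    wt g (u - Finsupp.single i 1) + g i = wt g u := by
  conv_rhs => rw [← wgen_sub hi]
  rw [wt_add, wt_single, one_mul, add_comm]

private theorem wgen_eq_zero (hg : Mg g) {u : Fin (N + 1) →₀ ℕ} (h : wt g u = 0) : u = 0 := by
  ext i
  unfold wt at h
  rw [Finset.sum_eq_zero_iff] at h
  have h1 := h i (Finset.mem_univ i)
  rcases Nat.mul_eq_zero.mp h1 with h2 | h2
  · rw [h2]
    rfl
  · exfalso
    have h3 : g 0 ≤ g i := hg.mono.monotone (Fin.zero_le i)
    have h4 := hg.pos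
    omega

/-- Apply `gen_principle` with
`V = image (fun v => if 0 < K v then single 0 1 + can (wt v - g 0) else v) R`.
Call `u` dead if `∃ i, 0 < u i ∧ ∃ v, wt v + g i = wt u ∧ deg u ≤ deg v` (the fourth alternative). The
relation `r u' u`: `u'` is dead and `u` is not, or (both dead or both not dead) `deg u' = deg u`,
`wt u' = wt u` and `toLex u < toLex u'` (well founded by `finite_wt`).

Let `u` be not dead.
* `0 < u 0`: let `u1 = u - single 0 1`; not dead gives `deg u1 = deg (can (wt u1))`. If
  `u1 ≠ can (wt u1)` take `u' = single 0 1 + can (wt u1)` (third alternative with `i = 0`; lexicographically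
  larger). So `u = single 0 1 + can (wt u1)`, `s = wt u`. If `deg (can s) = deg u` then `u = can s`
  (`can s` lexicographically at least `u`, so `(can s) 0 ≥ u 0 > 0`, and `can s - single 0 1` is
  canonical of value `wt u1` by `IsCan.sub`). Otherwise `deg (can s) > deg u`, and `z = can s` has
  `z 0 = 0` (else `deg z - 1 ≤ deg (can (wt u1)) = deg u - 1`), so `0 < K z < deg z` by `K_pos_iff`, `K_eq_deg`.
  If `IsR z` then `u ∈ V`. Otherwise (`2 ≤ deg z` by `K_dich`) there is `l` with `0 < z l` and
  `K (z - l) ≤ K z`; by `K_div` (`K z ≤ deg z - 2`) `K (z - l) = K z < deg z - 1`, so by `K_eq_deg` there is a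
  factorization `p` with `wt p + g 0 = wt z - g l` and by `K_fin` (twice)
  `deg (can (wt p)) + 1 = deg (can (wt u1))`. Take `u' = single 0 1 + single l 1 + can (wt p)`: same value and degree
  as `u`, shares `0`, and it is dead (`i = l`, `v = z - single l 1` has larger degree).
* `u 0 = 0`: all `u - single i 1` (`0 < u i`) are of maximal degree. If some of them is not canonical
  take `u' = single i 1 + can (wt (u - single i 1))`. Otherwise, if `u` is not canonical then `K u = 0`;
  `deg u ≥ 2` (degree `0`: `u = 0 = can 0`; degree `1`: `wt_eq_gen`), and all `K (u - single i 1) > 0` by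
  `K_pos_iff`, so `u ∈ R` and `u ∈ V`. -/
theorem gen_R (k : Type) [Field k] (hg : Mg g) (hc : IsCan g can)
    (R : Finset (Fin (N + 1) →₀ ℕ)) (hR : ∀ v, v ∈ R ↔ IsR g can v) :
    ∃ s : Finset (MvPolynomial (Fin (N + 1)) k), s.card ≤ R.card ∧
      Ideal.span (s : Set (MvPolynomial (Fin (N + 1)) k)) = initIdeal k g := by
  classical
  let φ : (Fin (N + 1) →₀ ℕ) → (Fin (N + 1) →₀ ℕ) := fun v =>
    if 0 < K g can v then Finsupp.single 0 1 + can (wt g v - g 0) else v
  obtain ⟨s, hs, hspan⟩ := gen_principle k g can (wgenRel g) (wgen_wf hg)
    (fun u => ⟨hc.wt_can u, hc.deg_le u⟩) (R.image φ) (by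
    intro u
    by_cases hdead : wgenDead g u
    · right; right; right
      exact hdead
    -- divisors of `u` by one variable have maximal degree
    have hmax : ∀ i, 0 < u i → (u - Finsupp.single i 1).degree =
        (can (wt g (u - Finsupp.single i 1))).degree := by
      intro i hi
      have h1 := hc.deg_le (u - Finsupp.single i 1)
      have h2 : ¬ u.degree ≤ (can (wt g (u - Finsupp.single i 1))).degree := by
        intro h
        apply hdead
        refine ⟨i, hi, can (wt g (u - Finsupp.single i 1)), ?_, h⟩
        rw [hc.wt_can]
        exact wgen_sub_wt hi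
      have h3 := wgen_sub_deg hi
      omega
    -- replacement of a non canonical divisor
    have hrep : ∀ i, 0 < u i → u - Finsupp.single i 1 ≠ can (wt g (u - Finsupp.single i 1)) →
        ∃ u', wgenRel g u' u ∧ u'.degree = u.degree ∧ wt g u' = wt g u ∧ ∃ i, 0 < u i ∧ 0 < u' i := by
      intro i hi hne
      have h1 := hc.lex_le _ (hmax i hi)
      have h2 : toLex (u - Finsupp.single i 1) < toLex (can (wt g (u - Finsupp.single i 1))) := by
        refine lt_of_le_of_ne h1 fun h => hne ?_
        exact toLex_inj.mp h
      have hw : wt g (Finsupp.single i 1 + can (wt g (u - Finsupp.single i 1))) = wt g u := by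
        rw [wt_add, hc.wt_can, wt_single, one_mul, add_comm]
        exact wgen_sub_wt hi
      have hl : toLex u < toLex (Finsupp.single i 1 + can (wt g (u - Finsupp.single i 1))) := by
        conv_lhs => rw [← wgen_sub hi]
        rw [toLex_add, toLex_add]
        exact add_lt_add_right h2 _
      refine ⟨Finsupp.single i 1 + can (wt g (u - Finsupp.single i 1)), ?_, ?_, hw, i, hi, ?_⟩
      · by_cases hd : wgenDead g (Finsupp.single i 1 + can (wt g (u - Finsupp.single i 1)))
        · left
          exact ⟨hd, hdead⟩
        · right
          exact ⟨⟨fun h => absurd h hd, fun h => absurd h hdead⟩, hw, hl⟩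
      · rw [map_add, Finsupp.degree_single, ← hmax i hi, add_comm]
        exact wgen_sub_deg hi
      · rw [Finsupp.add_apply, Finsupp.single_eq_same]
        omega
    by_cases hex : ∃ i, 0 < u i ∧ u - Finsupp.single i 1 ≠ can (wt g (u - Finsupp.single i 1))
    · obtain ⟨i, hi, hne⟩ := hex
      right; right; left
      exact hrep i hi hne
    push Not at hex
    by_cases hucan : u = can (wt g u)
    · left
      exact hucan
    right
    rcases Nat.eq_zero_or_pos (u 0) with h0 | h0
    · -- `u` does not contain `g 0`
      left
      have hK0 : ¬ 0 < K g can u := by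
        rw [K_pos_iff hg hc]
        exact fun h => hucan h.1
      have hdeg : 2 ≤ u.degree := by
        by_contra hlt
        rcases Nat.eq_zero_or_pos u.degree with h1 | h1
        · have hu0 : u = 0 := by
            rwa [Finsupp.degree_eq_zero_iff] at h1
          apply hucan
          have h2 : wt g (can (wt g u)) = 0 := by
            rw [hc.wt_can, hu0, wt_zero]
          rw [wgen_eq_zero hg h2, hu0]
        · have h2 : ∃ i, 0 < u i := by
            by_contra hcon
            push Not at hcon
            have : u = 0 := by
              ext i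
              exact Nat.le_zero.mp (hcon i)
            rw [this, map_zero] at h1
            exact lt_irrefl _ h1
          obtain ⟨i, hi⟩ := h2
          have h3 := wgen_sub_deg hi
          have h4 : u - Finsupp.single i 1 = 0 := by
            rw [← Finsupp.degree_eq_zero_iff]
            omega
          have h5 : u = Finsupp.single i 1 := by
            rw [← wgen_sub hi, h4, add_zero]
          apply hucan
          have h6 : wt g (can (wt g u)) = g i := by
            rw [hc.wt_can, h5, wt_single, one_mul]
          rw [wt_eq_gen hg h6, h5]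
      have hIsR : IsR g can u := by
        refine ⟨hdeg, by omega, ?_⟩
        intro l hl
        have h1 : 0 < K g can (u - Finsupp.single l 1) := by
          rw [K_pos_iff hg hc]
          refine ⟨hex l hl, ?_, ?_⟩
          · rw [Finsupp.tsub_apply, h0, Nat.zero_sub]
          · intro h2
            have h3 := wgen_sub_deg hl
            rw [h2, map_zero] at h3
            omega
        omega
      rw [Finset.mem_image]
      refine ⟨u, (hR u).mpr hIsR, ?_⟩
      change (if 0 < K g can u then _ else u) = u
      rw [if_neg hK0]
    · -- `u` contains `g 0`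
      have ha := hex 0 h0
      set a := u - Finsupp.single 0 1 with haDef
      have hau : Finsupp.single 0 1 + a = u := wgen_sub h0
      have hadeg : a.degree + 1 = u.degree := wgen_sub_deg h0
      have hawt : wt g a + g 0 = wt g u := wgen_sub_wt h0
      set z := can (wt g u) with hzDef
      have hzwt : wt g z = wt g u := hc.wt_can u
      have hzcan : z = can (wt g z) := by rw [hzwt]
      have hzdeg := hc.deg_le u
      rw [← hzDef] at hzdeg
      have hne : u.degree ≠ z.degree := by
        intro heq
        apply hucan
        have h1 := hc.lex_le u heq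
        rw [← hzDef] at h1
        have h2 : 0 < z 0 := by
          rcases h1.eq_or_lt with h3 | h3
          · rw [← toLex_inj.mp h3]
            exact h0
          · obtain ⟨i, hi1, hi2⟩ := Finsupp.Lex.lt_iff.mp h3
            rcases Fin.eq_zero_or_eq_succ i with h4 | ⟨j, h4⟩
            · subst h4
              exact lt_trans h0 hi2
            · have h5 := hi1 0 (by rw [h4]; exact Fin.succ_pos j)
              have h6 : u 0 = z 0 := h5
              rw [← h6]
              exact h0
        have h3 : z - Finsupp.single 0 1 = can (wt g (z - Finsupp.single 0 1)) :=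
          hc.sub hzcan tsub_le_self
        have h4 : wt g (z - Finsupp.single 0 1) = wt g a := by
          have h5 : wt g (z - Finsupp.single 0 1) + g 0 = wt g z := wgen_sub_wt h2
          omega
        rw [h4, ← ha] at h3
        rw [← wgen_sub h2, h3, hau]
      have hlt : u.degree < z.degree := lt_of_le_of_ne hzdeg hne
      have hz0 : z 0 = 0 := by
        by_contra hcon
        have h2 : 0 < z 0 := Nat.pos_of_ne_zero hcon
        have h5 : wt g (z - Finsupp.single 0 1) + g 0 = wt g z := wgen_sub_wt h2
        have h6 := wgen_sub_deg h2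
        have h7 := hc.deg_le (z - Finsupp.single 0 1)
        have h8 : wt g (z - Finsupp.single 0 1) = wt g a := by omega
        rw [h8, ← ha] at h7
        omega
      have hKz : 0 < K g can z := by
        rw [K_pos_iff hg hc]
        refine ⟨hzcan, hz0, ?_⟩
        intro h
        rw [h, map_zero] at hlt
        omega
      have hfin := K_fin hg hc hKz (u := a) (by omega)
      rw [← ha] at hfin
      by_cases hIsR : IsR g can z
      · left
        rw [Finset.mem_image]
        refine ⟨z, (hR z).mpr hIsR, ?_⟩
        change (if 0 < K g can z then Finsupp.single 0 1 + can (wt g z - g 0) else z) = u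
        rw [if_pos hKz]
        have h1 : wt g z - g 0 = wt g a := by omega
        rw [h1, ← ha, hau]
      · right; left
        have h2 : 2 ≤ z.degree := by omega
        have h3 : K g can z < z.degree := by omega
        have h4 : ∃ l, 0 < z l ∧ K g can (z - Finsupp.single l 1) ≤ K g can z := by
          by_contra hcon
          push Not at hcon
          exact hIsR ⟨h2, h3, hcon⟩
        obtain ⟨l, hl, hKl⟩ := h4
        have h5 : K g can z + 2 ≤ z.degree := by
          rcases K_dich hg hc z h2 with h | h
          · omega
          · exact h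
        have h6 := K_div hg hc z l h2 hl
        have hbdeg := wgen_sub_deg hl
        have hbwt : wt g (z - Finsupp.single l 1) + g l = wt g z := wgen_sub_wt hl
        set b := z - Finsupp.single l 1 with hbDef
        have h7 : K g can b = K g can z := by
          have h8 : min (K g can z) (z.degree - 1) = K g can z := min_eq_left (by omega)
          rw [h8] at h6
          omega
        have hKb : 0 < K g can b := by omega
        have h8 : ∃ p : Fin (N + 1) →₀ ℕ, wt g p + g 0 = wt g b := by
          by_contra hcon
          have h9 := (K_eq_deg hg hc hKb).mpr hcon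
          omega
        obtain ⟨p, hp⟩ := h8
        have hfinb := K_fin hg hc hKb hp
        have hdeg' : (Finsupp.single 0 1 + Finsupp.single l 1 + can (wt g p)).degree
            = u.degree := by
          rw [map_add, map_add, Finsupp.degree_single, Finsupp.degree_single]
          omega
        have hwt' : wt g (Finsupp.single 0 1 + Finsupp.single l 1 + can (wt g p)) = wt g u := by
          rw [wt_add, wt_add, wt_single, wt_single, hc.wt_can]
          omega
        refine ⟨Finsupp.single 0 1 + Finsupp.single l 1 + can (wt g p), ?_, hdeg', hwt',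
          0, h0, ?_⟩
        · left
          refine ⟨⟨l, ?_, b, ?_, ?_⟩, hdead⟩
          · rw [Finsupp.add_apply, Finsupp.add_apply, Finsupp.single_eq_same]
            omega
          · rw [hwt', hbwt, hzwt]
          · rw [hdeg']
            omega
        · rw [Finsupp.add_apply, Finsupp.add_apply, Finsupp.single_eq_same]
          omega)
  exact ⟨s, hs.trans Finset.card_image_le, hspan⟩

end Pool.Agent.Lib.MP_a2efaf_al
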