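import Pool.Agent.Lib.MP_a2efaf_al.WML

/-!
# The count of the corners by levels
-/

set_option autoImplicit false

namespace Pool.Agent.Lib.MP_a2efaf_al

variable {ι : Type}

open Finset in
/-- the elements of degree `d` with `j ≤ K v` -/
private noncomputable def wlevO (K : (ι →₀ ℕ) → ℕ) (O : Finset (ι →₀ ℕ)) (j d : ℕ) : Finset (ι →₀ ℕ) :=
  O.filter (fun v => v.degree = d ∧ j ≤ K v)

open Finset in
/-- the elements of `R` of degree `e` with `K v + 1 = j` -/
private noncomputable def wlevR (K : (ι →₀ ℕ) → ℕ) (R : Finset (ι →₀ ℕ)) (j e : ℕ) : Finset (ι →₀ ℕ) :=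
  R.filter (fun v => v.degree = e ∧ K v + 1 = j)

private lemma wlev_degree_sub {v : ι →₀ ℕ} {l : ι} (hl : 0 < v l) :
    (v - Finsupp.single l 1).degree + 1 = v.degree := by
  have h : v - Finsupp.single l 1 + Finsupp.single l 1 = v := by
    apply tsub_add_cancel_of_le
    rw [Finsupp.single_le_iff]
    exact hl
  conv_rhs => rw [← h]
  rw [map_add, Finsupp.degree_single]

/-- Let `O j d = {v ∈ O : deg v = d, j ≤ K v}` and `R j e = {v ∈ R : deg v = e, K v + 1 = j}`.

* By `hK` every `v ∈ R` has `K v + 2 ≤ deg v`, so it is in `R j (d+1)` with `1 ≤ j ≤ d`.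
* For `1 ≤ j ≤ d` the sets `R j (d+1)` and `O j (d+1)` are disjoint and all `v - single l 1`
  (`l` in the support) of their elements are in `O j d` (for `v ∈ R`: `j = K v + 1 ≤ K (v - l)`;
  for `v ∈ O j (d+1)`: `hdiv`, `j ≤ min (K v) d`).
* `(O 1 d).card ≤ C(P+d-1,d)` for `d ≥ 2`: induction on `d`, `h2` and `ml_ratio` with
  `H = O 1 d`, `U = O 1 (d+1)`. So the same for `O j d ⊆ O 1 d`.
* `(j,d) = (1,1)`: `|R 1 2| + |O 1 2| ≤ C(n+1,2)` (`ml_two`).
* `d ≥ 2`: `(d+1) (|R j (d+1)| + |O j (d+1)|) ≤ (d+P) |O j d|` (`ml_ratio` with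
  `U = R j (d+1) ∪ O j (d+1)`), i.e.
  `|R j (d+1)| ≤ |O j d| - |O j (d+1)| + (P-1) |O j d| / (d+1)`. Sum over `d` from `max j 2` on
  (telescoping), then over `j`: the first terms are `|O 1 2|` for `j = 1` and, for `j ≥ 2`,
  `|O j j| = #{v ∈ O : deg v = j, K v = deg v}`; and `∑ j, |O j d| = ∑ v of degree d, K v`. -/
theorem levels (K : (ι →₀ ℕ) → ℕ) (O R : Finset (ι →₀ ℕ)) (P n : ℕ)
    (hO : ∀ v, v ∈ O ↔ 0 < K v)
    (hK : ∀ v, 2 ≤ v.degree → K v = v.degree ∨ K v + 2 ≤ v.degree)
    (hdiv : ∀ v l, 2 ≤ v.degree → 0 < v l →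
      min (K v) (v.degree - 1) ≤ K (v - Finsupp.single l 1))
    (hR : ∀ v ∈ R, 2 ≤ v.degree ∧ K v < v.degree ∧
      ∀ l, 0 < v l → K v < K (v - Finsupp.single l 1))
    (h1 : (O.filter (fun v => v.degree = 1)).card ≤ n) (hP : 1 ≤ P)
    (h2 : (O.filter (fun v => v.degree = 2)).card ≤ (P + 1).choose 2) :
    (R.card : ℚ) ≤ ((n + 1).choose 2 : ℕ) +
      ((O.filter (fun v => 2 ≤ v.degree ∧ K v = v.degree)).card : ℕ) +
      ((P : ℚ) - 1) * ∑ v ∈ O.filter (fun v => 2 ≤ v.degree), (K v : ℚ) / ((v.degree : ℚ) + 1) := by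
  classical
  -- the main step
  have hHdeg : ∀ j d, ∀ z ∈ wlevO K O j d, z.degree = d := by
    intro j d z hz
    unfold wlevO at hz
    rw [Finset.mem_filter] at hz
    exact hz.2.1
  have hU : ∀ j d, 1 ≤ j → j ≤ d → ∀ v ∈ wlevR K R j (d + 1) ∪ wlevO K O j (d + 1),
      v.degree = d + 1 ∧ ∀ l, 0 < v l → v - Finsupp.single l 1 ∈ wlevO K O j d := by
    intro j d hj hjd v hv
    rw [Finset.mem_union] at hv
    unfold wlevO wlevR at *
    rcases hv with hv | hv
    · rw [Finset.mem_filter] at hv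
      obtain ⟨hvR, hvd, hvK⟩ := hv
      refine ⟨hvd, fun l hl => ?_⟩
      have h3 := (hR v hvR).2.2 l hl
      have h4 := wlev_degree_sub hl
      rw [Finset.mem_filter, hO]
      refine ⟨by omega, by omega, by omega⟩
    · rw [Finset.mem_filter] at hv
      obtain ⟨hvO, hvd, hvK⟩ := hv
      refine ⟨hvd, fun l hl => ?_⟩
      have h3 := hdiv v l (by omega) hl
      have h4 := wlev_degree_sub hl
      have h5 : j ≤ min (K v) (v.degree - 1) := le_min hvK (by omega)
      rw [Finset.mem_filter, hO]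
      refine ⟨by omega, by omega, by omega⟩
  have hdisj : ∀ j e, Disjoint (wlevR K R j e) (wlevO K O j e) := by
    intro j e
    rw [Finset.disjoint_left]
    intro v hv hv'
    unfold wlevO at hv'
    unfold wlevR at hv
    rw [Finset.mem_filter] at hv hv'
    omega
  have hO1 : ∀ d, 2 ≤ d → (wlevO K O 1 d).card ≤ (P + d - 1).choose d := by
    intro d hd
    induction d, hd using Nat.le_induction with
    | base =>
      have h3 : wlevO K O 1 2 ⊆ O.filter (fun v => v.degree = 2) := by
        intro v hv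
        unfold wlevO at hv
        rw [Finset.mem_filter] at hv ⊢
        exact ⟨hv.1, hv.2.1⟩
      exact (Finset.card_le_card h3).trans h2
    | succ d hd ih =>
      have h3 := ml_ratio d P (by omega) (wlevO K O 1 d) (wlevO K O 1 (d + 1)) (hHdeg 1 d)
        (fun v hv => hU 1 d le_rfl (by omega) v (Finset.mem_union_right _ hv)) ih
      have h4 : (P + d) * (P + d - 1).choose d = (P + d).choose (d + 1) * (d + 1) := by
        have h5 := Nat.add_one_mul_choose_eq (P + d - 1) d
        have h6 : P + d - 1 + 1 = P + d := by omega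
        rw [h6] at h5
        exact h5
      have h5 : (d + 1) * (wlevO K O 1 (d + 1)).card ≤ (d + 1) * (P + d).choose (d + 1) := by
        calc (d + 1) * (wlevO K O 1 (d + 1)).card ≤ (d + P) * (wlevO K O 1 d).card := h3
          _ ≤ (d + P) * (P + d - 1).choose d := Nat.mul_le_mul_left _ ih
          _ = (P + d) * (P + d - 1).choose d := by rw [add_comm d P]
          _ = (d + 1) * (P + d).choose (d + 1) := by rw [h4, mul_comm]
      have h6 : P + (d + 1) - 1 = P + d := by omega
      rw [h6]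
      exact Nat.le_of_mul_le_mul_left h5 (by omega)
  have hstep : ∀ j d, 1 ≤ j → j ≤ d → 2 ≤ d →
      (d + 1) * ((wlevR K R j (d + 1)).card + (wlevO K O j (d + 1)).card) ≤
        (d + P) * (wlevO K O j d).card := by
    intro j d hj hjd hd
    rw [← Finset.card_union_of_disjoint (hdisj j (d + 1))]
    apply ml_ratio d P (by omega) _ _ (hHdeg j d) (hU j d hj hjd)
    refine (Finset.card_le_card ?_).trans (hO1 d hd)
    intro v hv
    unfold wlevO at hv ⊢
    rw [Finset.mem_filter] at hv ⊢
    exact ⟨hv.1, hv.2.1, by omega⟩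
  have hstep1 : (wlevR K R 1 2).card + (wlevO K O 1 2).card ≤ (n + 1).choose 2 := by
    rw [← Finset.card_union_of_disjoint (hdisj 1 2)]
    have h3 := ml_two (wlevO K O 1 1) (wlevR K R 1 2 ∪ wlevO K O 1 2) (hHdeg 1 1)
      (hU 1 1 le_rfl le_rfl)
    refine h3.trans ?_
    apply Nat.choose_le_choose
    have h4 : wlevO K O 1 1 ⊆ O.filter (fun v => v.degree = 1) := by
      intro v hv
      unfold wlevO at hv
      rw [Finset.mem_filter] at hv ⊢
      exact ⟨hv.1, hv.2.1⟩
    have h5 := (Finset.card_le_card h4).trans h1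
    omega
  -- the counts
  set r : ℕ → ℚ := fun d => ((R.filter (fun v => v.degree = d + 1)).card : ℚ) with hr
  set F : ℕ → ℚ := fun d => ∑ j ∈ Finset.Icc 1 d, ((wlevO K O j d).card : ℚ) with hF
  set a : ℕ → ℚ := fun d => ((wlevO K O d d).card : ℚ) with ha
  have hrsum : ∀ d, r d = ∑ j ∈ Finset.Icc 1 d, ((wlevR K R j (d + 1)).card : ℚ) := by
    intro d
    simp only [hr]
    rw [Finset.card_eq_sum_card_fiberwise (f := fun v => K v + 1) (t := Finset.Icc 1 d)]
    · push_cast
      apply Finset.sum_congr rfl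
      intro j _
      unfold wlevR
      rw [Finset.filter_filter]
    · intro v hv
      rw [Finset.mem_coe, Finset.mem_filter] at hv
      rw [Finset.mem_coe, Finset.mem_Icc]
      obtain ⟨hv1, hv2⟩ := hv
      have h3 := (hR v hv1).1
      have h3' := (hR v hv1).2.1
      have h4 := hK v h3
      change 1 ≤ K v + 1 ∧ K v + 1 ≤ d
      omega
  have hF0 : ∀ d, 0 ≤ F d := fun d => Finset.sum_nonneg fun j _ => Nat.cast_nonneg _
  have hmain : ∀ d, 2 ≤ d → r d ≤ F d - F (d + 1) + a (d + 1) +
      ((P : ℚ) - 1) * (F d / ((d : ℚ) + 1)) := by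
    intro d hd
    have hd0 : (0 : ℚ) < (d : ℚ) + 1 := by positivity
    have h3 : F (d + 1) = ∑ j ∈ Finset.Icc 1 d, ((wlevO K O j (d + 1)).card : ℚ) + a (d + 1) := by
      simp only [hF, ha]
      rw [Finset.sum_Icc_succ_top (by omega)]
    have h4 : ((d : ℚ) + 1) * (r d + ∑ j ∈ Finset.Icc 1 d, ((wlevO K O j (d + 1)).card : ℚ)) ≤
        ((d : ℚ) + P) * F d := by
      rw [hrsum, ← Finset.sum_add_distrib, Finset.mul_sum]
      simp only [hF]
      rw [Finset.mul_sum]
      apply Finset.sum_le_sum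
      intro j hj
      rw [Finset.mem_Icc] at hj
      exact_mod_cast hstep j d hj.1 hj.2 hd
    have h5 : r d + ∑ j ∈ Finset.Icc 1 d, ((wlevO K O j (d + 1)).card : ℚ) ≤
        F d + ((P : ℚ) - 1) * (F d / ((d : ℚ) + 1)) := by
      have h6 : ((d : ℚ) + P) * F d =
          ((d : ℚ) + 1) * (F d + ((P : ℚ) - 1) * (F d / ((d : ℚ) + 1))) := by
        field_simp
        ring
      rw [h6] at h4
      exact le_of_mul_le_mul_left h4 hd0
    linarith
  have hbase : r 1 ≤ ((n + 1).choose 2 : ℕ) + a 2 - F 2 := by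
    have h3 : F 2 = ((wlevO K O 1 2).card : ℚ) + a 2 := by
      simp only [hF, ha]
      rw [Finset.sum_Icc_succ_top (by omega)]
      simp
    have h4 : r 1 = ((wlevR K R 1 2).card : ℚ) := by
      rw [hrsum]
      simp
    have h5 : ((wlevR K R 1 2).card : ℚ) + ((wlevO K O 1 2).card : ℚ) ≤
        ((n + 1).choose 2 : ℕ) := by exact_mod_cast hstep1
    rw [h3, h4]
    linarith
  have hclaim : ∀ D, 1 ≤ D → ∑ d ∈ Finset.Icc 1 D, r d ≤ ((n + 1).choose 2 : ℕ) +
      ∑ d ∈ Finset.Icc 1 D, a (d + 1) +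
      ((P : ℚ) - 1) * ∑ d ∈ Finset.Icc 2 D, F d / ((d : ℚ) + 1) - F (D + 1) := by
    intro D hD
    induction D, hD using Nat.le_induction with
    | base =>
      simp only [Finset.Icc_self, Finset.sum_singleton]
      rw [Finset.Icc_eq_empty (by omega), Finset.sum_empty, mul_zero, add_zero]
      exact hbase
    | succ D hD ih =>
      rw [Finset.sum_Icc_succ_top (by omega), Finset.sum_Icc_succ_top (by omega),
        Finset.sum_Icc_succ_top (by omega)]
      have h3 := hmain (D + 1) (by omega)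
      rw [mul_add]
      linarith
  -- the end
  obtain ⟨D, hD1, hDO, hDR⟩ : ∃ D : ℕ, 1 ≤ D ∧ (∀ v ∈ O, v.degree ≤ D) ∧
      ∀ v ∈ R, v.degree ≤ D := by
    refine ⟨(O ∪ R).sup (fun v => v.degree) + 1, by omega, fun v hv => ?_, fun v hv => ?_⟩
    · have := Finset.le_sup (f := fun v : ι →₀ ℕ => v.degree) (Finset.mem_union_left R hv)
      omega
    · have := Finset.le_sup (f := fun v : ι →₀ ℕ => v.degree) (Finset.mem_union_right O hv)
      omega
  have hRc : (R.card : ℚ) = ∑ d ∈ Finset.Icc 1 D, r d := by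
    simp only [hr]
    rw [Finset.card_eq_sum_card_fiberwise (f := fun v => v.degree - 1) (t := Finset.Icc 1 D)]
    · push_cast
      apply Finset.sum_congr rfl
      intro d hd
      rw [Finset.mem_Icc] at hd
      congr 2
      ext v
      rw [Finset.mem_filter, Finset.mem_filter]
      constructor
      · rintro ⟨h3, h4⟩
        have := (hR v h3).1
        exact ⟨h3, by omega⟩
      · rintro ⟨h3, h4⟩
        exact ⟨h3, by omega⟩
    · intro v hv
      rw [Finset.mem_coe] at hv
      rw [Finset.mem_coe, Finset.mem_Icc]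
      have h3 := (hR v hv).1
      have h4 := hDR v hv
      change 1 ≤ v.degree - 1 ∧ v.degree - 1 ≤ D
      omega
  have hac : ∑ d ∈ Finset.Icc 1 D, a (d + 1) ≤
      ((O.filter (fun v => 2 ≤ v.degree ∧ K v = v.degree)).card : ℕ) := by
    have h3 : ∑ d ∈ Finset.Icc 1 D, (wlevO K O (d + 1) (d + 1)).card =
        ((Finset.Icc 1 D).biUnion fun d => wlevO K O (d + 1) (d + 1)).card := by
      rw [Finset.card_biUnion]
      intro d _ e _ hde
      rw [Function.onFun, Finset.disjoint_left]
      intro v hv hv'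
      have h4 := hHdeg _ _ v hv
      have h5 := hHdeg _ _ v hv'
      omega
    simp only [ha]
    rw [← Nat.cast_sum, h3]
    norm_cast
    apply Finset.card_le_card
    intro v hv
    rw [Finset.mem_biUnion] at hv
    obtain ⟨d, hd, hv⟩ := hv
    rw [Finset.mem_Icc] at hd
    unfold wlevO at hv
    rw [Finset.mem_filter] at hv ⊢
    have h4 := hK v (by omega)
    exact ⟨hv.1, by omega, by omega⟩
  have hFc : ∑ d ∈ Finset.Icc 2 D, F d / ((d : ℚ) + 1) ≤
      ∑ v ∈ O.filter (fun v => 2 ≤ v.degree), (K v : ℚ) / ((v.degree : ℚ) + 1) := by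
    rw [← Finset.sum_fiberwise_of_maps_to (g := fun v : ι →₀ ℕ => v.degree)
      (t := Finset.Icc 2 D)]
    · apply Finset.sum_le_sum
      intro d hd
      rw [Finset.mem_Icc] at hd
      rw [Finset.filter_filter]
      have h3 : O.filter (fun v => 2 ≤ v.degree ∧ v.degree = d) =
          O.filter (fun v => v.degree = d) := by
        ext v
        rw [Finset.mem_filter, Finset.mem_filter]
        constructor
        · rintro ⟨h4, h5, h6⟩
          exact ⟨h4, h6⟩
        · rintro ⟨h4, h5⟩
          exact ⟨h4, by omega, h5⟩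
      rw [h3]
      have h4 : ∑ v ∈ O.filter (fun v => v.degree = d), (K v : ℚ) / ((v.degree : ℚ) + 1) =
          (∑ v ∈ O.filter (fun v => v.degree = d), (K v : ℚ)) / ((d : ℚ) + 1) := by
        rw [Finset.sum_div]
        apply Finset.sum_congr rfl
        intro v hv
        rw [Finset.mem_filter] at hv
        rw [hv.2]
      rw [h4]
      apply div_le_div_of_nonneg_right _ (by positivity)
      simp only [hF]
      have h5 : ∀ j, ((wlevO K O j d).card : ℚ) =
          ∑ v ∈ O.filter (fun v => v.degree = d), (if j ≤ K v then 1 else 0) := by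
        intro j
        rw [Finset.sum_boole, Finset.filter_filter]
        rfl
      simp only [h5]
      rw [Finset.sum_comm]
      apply Finset.sum_le_sum
      intro v _
      rw [Finset.sum_boole]
      have h6 : (Finset.Icc 1 d).filter (fun j => j ≤ K v) ⊆ Finset.Icc 1 (K v) := by
        intro j hj
        rw [Finset.mem_filter, Finset.mem_Icc] at hj
        rw [Finset.mem_Icc]
        exact ⟨hj.1.1, hj.2⟩
      have h7 := Finset.card_le_card h6
      rw [Nat.card_Icc, Nat.add_sub_cancel] at h7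
      exact_mod_cast h7
    · intro v hv
      rw [Finset.mem_filter] at hv
      rw [Finset.mem_Icc]
      exact ⟨hv.2, hDO v hv.1⟩
  have hP0 : (0 : ℚ) ≤ (P : ℚ) - 1 := by
    have : (1 : ℚ) ≤ P := by exact_mod_cast hP
    linarith
  have h3 := hclaim D hD1
  have h4 := mul_le_mul_of_nonneg_left hFc hP0
  have h5 := hF0 (D + 1)
  rw [hRc]
  linarith

end Pool.Agent.Lib.MP_a2efaf_al
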