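import Pool.Agent.Lib.MP_a2efaf_al.WTheta
import Pool.Agent.Lib.MP_a2efaf_al.WGen
import Pool.Agent.Lib.MP_a2efaf_al.WLev

/-!
# The wide case: at most `C(g 0, 2)` generators
-/

set_option autoImplicit false

namespace Pool.Agent.Lib.MP_a2efaf_al

variable {N : ℕ} {g : Fin (N + 1) → ℕ}

/-- A monomial of degree one. -/
theorem wfinal_eq_single {v : Fin (N + 1) →₀ ℕ} (h : v.degree = 1) :
    ∃ l, v = Finsupp.single l 1 := by
  have hv : v ≠ 0 := by
    rintro rfl
    rw [map_zero] at h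
    exact absurd h zero_ne_one
  obtain ⟨l, hl⟩ := Finsupp.ne_iff.mp hv
  have hle : Finsupp.single l 1 ≤ v :=
    Finsupp.single_le_iff.mpr (Nat.one_le_iff_ne_zero.mpr hl)
  have h1 : (v - Finsupp.single l 1 + Finsupp.single l 1).degree = v.degree := by
    rw [tsub_add_cancel_of_le hle]
  rw [map_add, Finsupp.degree_single, h] at h1
  have h2 : v - Finsupp.single l 1 = 0 :=
    (Finsupp.degree_eq_zero_iff _).mp (by omega)
  refine ⟨l, ?_⟩
  rw [← tsub_add_cancel_of_le hle, h2, zero_add]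

/-- Elements of degree one. -/
theorem wfinal_deg_one (hg : Mg g) {can : ℕ → (Fin (N + 1) →₀ ℕ)} (hc : IsCan g can)
    (O : Finset (Fin (N + 1) →₀ ℕ)) (hO : ∀ v, v ∈ O ↔ 0 < K g can v) :
    (O.filter (fun v => v.degree = 1)).card ≤ N := by
  classical
  have hsub : O.filter (fun v => v.degree = 1) ⊆
      ((Finset.univ : Finset (Fin (N + 1))).erase 0).image (fun l => Finsupp.single l 1) := by
    intro v hv
    obtain ⟨hvO, hvd⟩ := Finset.mem_filter.mp hv
    obtain ⟨-, h0, -⟩ := (K_pos_iff hg hc v).mp ((hO v).mp hvO)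
    obtain ⟨l, rfl⟩ := wfinal_eq_single hvd
    refine Finset.mem_image.mpr ⟨l, Finset.mem_erase.mpr ⟨?_, Finset.mem_univ l⟩, rfl⟩
    rintro rfl
    rw [Finsupp.single_eq_same] at h0
    exact absurd h0 one_ne_zero
  refine (Finset.card_le_card hsub).trans (Finset.card_image_le.trans ?_)
  rw [Finset.card_erase_of_mem (Finset.mem_univ _), Finset.card_univ, Fintype.card_fin]
  omega

/-- Elements of degree two are Apery elements. -/
theorem wfinal_deg_two_le (hg : Mg g) {can : ℕ → (Fin (N + 1) →₀ ℕ)} (hc : IsCan g can)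
    (O : Finset (Fin (N + 1) →₀ ℕ)) (hO : ∀ v, v ∈ O ↔ 0 < K g can v) :
    (O.filter (fun v => v.degree = 2)).card ≤ (Miss g).card := by
  refine le_trans (Finset.card_le_card ?_) (apery_count hg hc O hO)
  intro v hv
  obtain ⟨hvO, hvd⟩ := Finset.mem_filter.mp hv
  refine Finset.mem_filter.mpr ⟨hvO, hvd.ge, ?_⟩
  have h1 := (hO v).mp hvO
  rcases K_dich hg hc v hvd.ge with h2 | h2
  · exact h2
  · omega

/-- Elements of degree two. -/
theorem wfinal_deg_two (hg : Mg g) {can : ℕ → (Fin (N + 1) →₀ ℕ)} (hc : IsCan g can)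
    (O : Finset (Fin (N + 1) →₀ ℕ)) (hO : ∀ v, v ∈ O ↔ 0 < K g can v) :
    (O.filter (fun v => v.degree = 2)).card ≤ (N + 1).choose 2 := by
  have h := ml_two (O.filter (fun v => v.degree = 1)) (O.filter (fun v => v.degree = 2))
    (fun z hz => (Finset.mem_filter.mp hz).2) (by
      intro v hv
      obtain ⟨hvO, hvd⟩ := Finset.mem_filter.mp hv
      refine ⟨hvd, fun l hl => ?_⟩
      have hle : Finsupp.single l 1 ≤ v := Finsupp.single_le_iff.mpr hl
      have hdeg : (v - Finsupp.single l 1).degree = 1 := by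
        have h1 : (v - Finsupp.single l 1 + Finsupp.single l 1).degree = v.degree := by
          rw [tsub_add_cancel_of_le hle]
        rw [map_add, Finsupp.degree_single, hvd] at h1
        omega
      refine Finset.mem_filter.mpr ⟨(hO _).mpr ?_, hdeg⟩
      refine K_sub hg hc ((hO v).mp hvO) tsub_le_self ?_
      intro h0
      rw [h0, map_zero] at hdeg
      exact absurd hdeg zero_ne_one)
  exact h.trans (Nat.choose_le_choose 2 (Nat.succ_le_succ (wfinal_deg_one hg hc O hO)))

/-- The choice of `P`. -/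
theorem wfinal_exists_P (c : ℕ) (hc : 0 < c) :
    ∃ Q : ℕ, 1 ≤ Q ∧ Q.choose 2 < c ∧ c ≤ (Q + 1).choose 2 := by
  have hex : ∃ Q : ℕ, c ≤ (Q + 1).choose 2 := by
    refine ⟨c, ?_⟩
    rw [Nat.choose_succ_succ' c 1, Nat.choose_one_right]
    exact Nat.le_add_right _ _
  refine ⟨Nat.find hex, ?_, ?_, Nat.find_spec hex⟩
  · rw [Nat.one_le_iff_ne_zero]
    intro h0
    have h1 := Nat.find_spec hex
    rw [h0] at h1
    have h2 : (0 + 1).choose 2 = 0 := rfl
    rw [h2] at h1
    omega
  · by_contra hcon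
    push Not at hcon
    rcases Nat.eq_zero_or_pos (Nat.find hex) with h0 | h0
    · rw [h0] at hcon
      have h2 : Nat.choose 0 2 = 0 := rfl
      rw [h2] at hcon
      omega
    · have h3 : Nat.find hex - 1 < Nat.find hex := by omega
      apply Nat.find_min hex h3
      rwa [Nat.sub_add_cancel h0]

/-- `O` has `N` elements of degree `1`, at most `C(N+1,2)` of degree `2`, at most
`c = (Miss g).card` Apery elements of degree `≥ 2` (this includes all elements of degree `2`). `levels` with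
`n = N`, `P = min N (least P with c ≤ C(P+1,2))` (`P ≥ 1`; `N = 0` or `c = 0` apart), `wide_num`,
`C(N+1,2) + c + c N + C(c,2) = C(N+1+c,2)`, `N + 1 + c = g 0`. -/
theorem corners_le (hg : Mg g) {can : ℕ → (Fin (N + 1) →₀ ℕ)} (hc : IsCan g can)
    (R : Finset (Fin (N + 1) →₀ ℕ)) (hR : ∀ v, v ∈ R ↔ IsR g can v) :
    R.card ≤ (g 0).choose 2 := by
  classical
  obtain ⟨O, hO⟩ := exists_O hg hc
  have hm := card_Miss hg
  have hap := apery_count hg hc O hO
  have hth := theta_bound hg hc O hO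
  have ho1 := wfinal_deg_one hg hc O hO
  have ho2 := wfinal_deg_two hg hc O hO
  have ho2' := wfinal_deg_two_le hg hc O hO
  obtain ⟨c, hcdef⟩ : ∃ c, c = (Miss g).card := ⟨_, rfl⟩
  rw [← hcdef] at hm hap hth ho2'
  have hlev : ∀ P : ℕ, 1 ≤ P → (O.filter (fun v => v.degree = 2)).card ≤ (P + 1).choose 2 →
      (R.card : ℚ) ≤ ((N + 1).choose 2 : ℕ) + (c : ℚ) +
        ((P : ℚ) - 1) * ((N : ℚ) * wA c + ∑ r ∈ Finset.range c, wB (r + 1)) := by
    intro P hP h2
    have h := levels (K g can) O R P N hO (fun v hv => K_dich hg hc v hv)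
      (fun v l hv hl => K_div hg hc v l hv hl)
      (fun v hv => (hR v).mp hv) ho1 hP h2
    have hP' : (0 : ℚ) ≤ (P : ℚ) - 1 := by
      have : (1 : ℚ) ≤ (P : ℚ) := by exact_mod_cast hP
      linarith
    have hap' : ((O.filter (fun v => 2 ≤ v.degree ∧ K g can v = v.degree)).card : ℚ) ≤ (c : ℚ) := by
      exact_mod_cast hap
    have h3 := mul_le_mul_of_nonneg_left hth hP'
    linarith
  have hch : (((g 0).choose 2 : ℕ) : ℚ) =
      ((N + 1).choose 2 : ℕ) + (c : ℚ) + ((c : ℚ) * N + (c.choose 2 : ℕ)) := by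
    rw [← hm, Nat.cast_choose_two, Nat.cast_choose_two, Nat.cast_choose_two]
    push_cast
    ring
  have hgoal : (R.card : ℚ) ≤ (((g 0).choose 2 : ℕ) : ℚ) := by
    rw [hch]
    rcases Nat.eq_zero_or_pos N with hN | hN
    · have h1 := hlev 1 le_rfl (ho2.trans (by rw [hN]; decide))
      have h2 : (0 : ℚ) ≤ (c : ℚ) * N + (c.choose 2 : ℕ) := by positivity
      push_cast at h1
      linarith
    rcases Nat.eq_zero_or_pos c with hc0 | hc0
    · have h1 := hlev 1 le_rfl (ho2'.trans (by rw [hc0]; exact Nat.zero_le _))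
      have h2 : (0 : ℚ) ≤ (c : ℚ) * N + (c.choose 2 : ℕ) := by positivity
      push_cast at h1
      linarith
    obtain ⟨Q, hQ1, hQ2, hQ3⟩ := wfinal_exists_P c hc0
    have hmin1 : 1 ≤ min N Q := le_min hN hQ1
    have h1 := hlev (min N Q) hmin1 (by
      rcases min_choice N Q with h | h
      · rw [h]; exact ho2
      · rw [h]; exact ho2'.trans hQ3)
    have h2 : (min N Q).choose 2 + 1 ≤ c := by
      have : (min N Q).choose 2 ≤ Q.choose 2 := Nat.choose_le_choose 2 (min_le_right _ _)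
      omega
    have h3 := wide_num (min N Q) N c hmin1 (min_le_left _ _) h2
    linarith
  exact_mod_cast hgoal

theorem wide_case (k : Type) [Field k] (hg : Mg g) :
    ∃ s : Finset (MvPolynomial (Fin (N + 1)) k), s.card ≤ (g 0).choose 2 ∧
      Ideal.span (s : Set (MvPolynomial (Fin (N + 1)) k)) = initIdeal k g := by
  obtain ⟨can, hc⟩ := exists_can hg
  obtain ⟨R, hR⟩ := exists_R hg hc
  obtain ⟨s, h1, h2⟩ := gen_R k hg hc R hR
  exact ⟨s, h1.trans (corners_le hg hc R hR), h2⟩

end Pool.Agent.Lib.MP_a2efaf_al
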