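import Pool.Agent.Lib.MP_a2efaf_al.WCan

/-!
# The function `K`
-/

set_option autoImplicit false

namespace Pool.Agent.Lib.MP_a2efaf_al

variable {N : ℕ}

open Classical in
/-- `K v = 0` if `v` is not canonical, `v = 0` or `v` contains `g 0`; `K v = deg v` if
`wt v - g 0` is not in the semigroup (Apery element), and `deg v - 1 - ord (wt v - g 0)` otherwise. -/
noncomputable def K (g : Fin (N + 1) → ℕ) (can : ℕ → (Fin (N + 1) →₀ ℕ))
    (v : Fin (N + 1) →₀ ℕ) : ℕ :=
  if v = can (wt g v) ∧ v 0 = 0 ∧ v ≠ 0 then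
    (if ∃ u : Fin (N + 1) →₀ ℕ, wt g u + g 0 = wt g v then
      v.degree - 1 - (can (wt g v - g 0)).degree else v.degree) else 0

variable {g : Fin (N + 1) → ℕ} {can : ℕ → (Fin (N + 1) →₀ ℕ)}

theorem K_pos_iff (hg : Mg g) (hc : IsCan g can) (v : Fin (N + 1) →₀ ℕ) :
    0 < K g can v ↔ v = can (wt g v) ∧ v 0 = 0 ∧ v ≠ 0 := by
  unfold K
  constructor
  · intro h
    by_contra hn
    rw [if_neg hn] at h
    exact lt_irrefl _ h
  · intro h
    rw [if_pos h]
    split_ifs with hu
    · obtain ⟨u, hu⟩ := hu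
      have h1 : wt g v - g 0 = wt g u := by omega
      rw [h1]
      have := can_drop hc h.1 h.2.1 hu
      omega
    · have : v.degree ≠ 0 := by
        rw [Ne, Finsupp.degree_eq_zero_iff]
        exact h.2.2
      omega

/-- Elements which are not Apery. -/
theorem K_fin (hg : Mg g) (hc : IsCan g can) {u v : Fin (N + 1) →₀ ℕ} (hv : 0 < K g can v)
    (h : wt g u + g 0 = wt g v) : K g can v + 1 + (can (wt g u)).degree = v.degree := by
  have h1 := (K_pos_iff hg hc v).1 hv
  have h2 := can_drop hc h1.1 h1.2.1 h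
  unfold K
  rw [if_pos h1, if_pos ⟨u, h⟩]
  have h3 : wt g v - g 0 = wt g u := by omega
  rw [h3]
  omega

/-- Apery elements. -/
theorem K_eq_deg (hg : Mg g) (hc : IsCan g can) {v : Fin (N + 1) →₀ ℕ} (hv : 0 < K g can v) :
    K g can v = v.degree ↔ ¬ ∃ u : Fin (N + 1) →₀ ℕ, wt g u + g 0 = wt g v := by
  constructor
  · rintro h ⟨u, hu⟩
    have := K_fin hg hc hv hu
    omega
  · intro h
    have h1 := (K_pos_iff hg hc v).1 hv
    unfold K
    rw [if_pos h1, if_neg h]

theorem K_dich (hg : Mg g) (hc : IsCan g can) (v : Fin (N + 1) →₀ ℕ) (hd : 2 ≤ v.degree) :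
    K g can v = v.degree ∨ K g can v + 2 ≤ v.degree := by
  rcases Nat.eq_zero_or_pos (K g can v) with h0 | hv
  · right; omega
  · by_cases hu : ∃ u : Fin (N + 1) →₀ ℕ, wt g u + g 0 = wt g v
    · right
      obtain ⟨u, hu⟩ := hu
      have h1 := K_fin hg hc hv hu
      have h2 : (can (wt g u)).degree ≠ 0 := by
        intro h
        rw [Finsupp.degree_eq_zero_iff] at h
        have h3 := hc.wt_can u
        rw [h, wt_zero] at h3
        rw [← h3, zero_add] at hu
        have h4 := wt_eq_gen hg hu.symm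
        have h5 := ((K_pos_iff hg hc v).1 hv).2.1
        rw [h4] at h5
        simp at h5
      omega
    · left
      exact (K_eq_deg hg hc hv).2 hu

theorem K_single (hg : Mg g) (hc : IsCan g can) {l : Fin (N + 1)} (hl : l ≠ 0) :
    K g can (Finsupp.single l 1) = 1 := by
  have hw : wt g (Finsupp.single l 1) = g l := by rw [wt_single, one_mul]
  have h1 : Finsupp.single l 1 = can (wt g (Finsupp.single l 1)) := by
    have h2 := hc.wt_can (Finsupp.single l 1)
    have h3 : wt g (can (wt g (Finsupp.single l 1))) = g l := by rw [h2, hw]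
    exact (wt_eq_gen hg h3).symm
  have hpos : 0 < K g can (Finsupp.single l 1) := by
    rw [K_pos_iff hg hc]
    refine ⟨h1, ?_, ?_⟩
    · rw [Finsupp.single_apply, if_neg hl]
    · rw [Ne, Finsupp.single_eq_zero]
      exact one_ne_zero
  have hdeg : (Finsupp.single l 1 : Fin (N + 1) →₀ ℕ).degree = 1 := by
    rw [Finsupp.degree_single]
  rw [(K_eq_deg hg hc hpos).2, hdeg]
  rintro ⟨u, hu⟩
  rw [hw] at hu
  have h2 : wt g (u + Finsupp.single 0 1) = g l := by
    rw [wt_add, wt_single, one_mul, hu]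
  have h3 := wt_eq_gen hg h2
  have h4 := DFunLike.congr_fun h3 0
  rw [Finsupp.add_apply, Finsupp.single_eq_same, Finsupp.single_apply, if_neg hl] at h4
  omega

theorem wk_sub_add {v : Fin (N + 1) →₀ ℕ} {l : Fin (N + 1)} (hl : 0 < v l) :
    v - Finsupp.single l 1 + Finsupp.single l 1 = v := by
  apply tsub_add_cancel_of_le
  rw [Finsupp.single_le_iff]
  exact hl

theorem wk_deg_sub {v : Fin (N + 1) →₀ ℕ} {l : Fin (N + 1)} (hl : 0 < v l) :
    (v - Finsupp.single l 1).degree + 1 = v.degree := by
  conv_rhs => rw [← wk_sub_add hl]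
  rw [map_add, Finsupp.degree_single]

/-- Divisors (different from `0`) of elements with `0 < K` have `0 < K`. -/
theorem K_sub (hg : Mg g) (hc : IsCan g can) {v v' : Fin (N + 1) →₀ ℕ} (hv : 0 < K g can v)
    (h : v' ≤ v) (hne : v' ≠ 0) : 0 < K g can v' := by
  have h1 := (K_pos_iff hg hc v).1 hv
  rw [K_pos_iff hg hc]
  refine ⟨hc.sub h1.1 h, ?_, hne⟩
  have := h 0
  rw [h1.2.1] at this
  omega

theorem K_div (hg : Mg g) (hc : IsCan g can) (v : Fin (N + 1) →₀ ℕ) (l : Fin (N + 1))
    (hd : 2 ≤ v.degree) (hl : 0 < v l) :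
    min (K g can v) (v.degree - 1) ≤ K g can (v - Finsupp.single l 1) := by
  rcases Nat.eq_zero_or_pos (K g can v) with h0 | hv
  · rw [h0]; simp
  · have hdeg := wk_deg_sub hl
    have hne : v - Finsupp.single l 1 ≠ 0 := by
      intro h
      rw [h, map_zero] at hdeg
      omega
    have hv' := K_sub hg hc hv tsub_le_self hne
    by_cases hu : ∃ u : Fin (N + 1) →₀ ℕ, wt g u + g 0 = wt g (v - Finsupp.single l 1)
    · obtain ⟨u, hu⟩ := hu
      have h1 := K_fin hg hc hv' hu
      have h2 : wt g (u + Finsupp.single l 1) + g 0 = wt g v := by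
        conv_rhs => rw [← wk_sub_add hl]
        rw [wt_add, wt_add, ← hu]
        omega
      have h3 := K_fin hg hc hv h2
      have h4 := hc.deg_le (can (wt g u) + Finsupp.single l 1)
      have h5 : wt g (can (wt g u) + Finsupp.single l 1) = wt g (u + Finsupp.single l 1) := by
        rw [wt_add, wt_add, hc.wt_can]
      rw [h5, map_add, Finsupp.degree_single] at h4
      refine le_trans (min_le_left _ _) ?_
      omega
    · have h1 := (K_eq_deg hg hc hv').2 hu
      rw [h1]
      refine le_trans (min_le_right _ _) ?_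
      omega

theorem K_class (hg : Mg g) (hc : IsCan g can) {v : Fin (N + 1) →₀ ℕ} (hv : 0 < K g can v) :
    ¬ g 0 ∣ wt g v := by
  have h1 := (K_pos_iff hg hc v).1 hv
  exact can_class hg hc h1.1 h1.2.1 h1.2.2

/-- A chain of divisors. -/
theorem wk_chain (d : ℕ) : ∀ v : Fin (N + 1) →₀ ℕ, v.degree = d →
    ∃ f : ℕ → (Fin (N + 1) →₀ ℕ), f d = v ∧ (∀ i j, i ≤ j → j ≤ d → f i ≤ f j) ∧
      ∀ i, i ≤ d → (f i).degree = i := by
  induction d with
  | zero =>
    intro v hv
    refine ⟨fun _ => v, rfl, fun _ _ _ _ => le_rfl, ?_⟩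
    intro i hi
    have : i = 0 := by omega
    rw [this]; exact hv
  | succ d ih =>
    intro v hv
    have hex : ∃ l, 0 < v l := by
      by_contra hn
      push Not at hn
      have : v = 0 := by
        ext l
        have := hn l
        simp only [Finsupp.coe_zero, Pi.zero_apply]
        omega
      rw [this, map_zero] at hv
      omega
    obtain ⟨l, hl⟩ := hex
    have hdeg := wk_deg_sub hl
    obtain ⟨f, hf1, hf2, hf3⟩ := ih (v - Finsupp.single l 1) (by omega)
    refine ⟨fun i => if i ≤ d then f i else v, ?_, ?_, ?_⟩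
    · simp
    · intro i j hij hj
      dsimp only
      by_cases hjd : j ≤ d
      · rw [if_pos hjd, if_pos (le_trans hij hjd)]
        exact hf2 i j hij hjd
      · rw [if_neg hjd]
        by_cases hid : i ≤ d
        · rw [if_pos hid]
          refine le_trans (hf2 i d hid le_rfl) ?_
          rw [hf1]
          exact tsub_le_self
        · rw [if_neg hid]
    · intro i hi
      dsimp only
      by_cases hid : i ≤ d
      · rw [if_pos hid]; exact hf3 i hid
      · rw [if_neg hid, hv]; omega

/-- Elements with `0 < K` have degree less than `g 0`: otherwise two values on a chain of divisors are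
congruent modulo `g 0` and the quotient is a divisor of value `≡ 0`. -/
theorem K_deg_lt (hg : Mg g) (hc : IsCan g can) {v : Fin (N + 1) →₀ ℕ} (hv : 0 < K g can v) :
    v.degree < g 0 := by
  by_contra hn
  push Not at hn
  obtain ⟨f, hf1, hf2, hf3⟩ := wk_chain v.degree v rfl
  obtain ⟨i, hi, j, hj, hij, he⟩ := Finset.exists_ne_map_eq_of_card_lt_of_maps_to
    (s := Finset.range (g 0 + 1)) (t := Finset.range (g 0)) (f := fun i => wt g (f i) % g 0)
    (by simp) (by
      intro i _
      rw [Finset.mem_coe, Finset.mem_range]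
      exact Nat.mod_lt _ hg.pos)
  rw [Finset.mem_range] at hi hj
  have key : ∀ i j, i < j → j ≤ g 0 → wt g (f i) % g 0 = wt g (f j) % g 0 → False := by
    intro i j hij hj he
    have hle : f i ≤ f j := hf2 i j hij.le (by omega)
    have hd : f j - f i + f i = f j := tsub_add_cancel_of_le hle
    have hne : f j - f i ≠ 0 := by
      intro h
      rw [h, zero_add] at hd
      have h1 := hf3 i (by omega)
      have h2 := hf3 j (by omega)
      rw [hd] at h1
      omega
    have hsub : f j - f i ≤ v := by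
      refine le_trans tsub_le_self ?_
      rw [← hf1]
      exact hf2 j _ (by omega) le_rfl
    have h1 := K_class hg hc (K_sub hg hc hv hsub hne)
    apply h1
    have h2 : wt g (f j - f i) + wt g (f i) = wt g (f j) := by rw [← wt_add, hd]
    have h3 : wt g (f j) - wt g (f i) = wt g (f j - f i) := by omega
    rw [← h3]
    exact (Nat.modEq_iff_dvd' (by omega)).1 he
  rcases Nat.lt_or_gt_of_ne hij with h | h
  · exact key i j h (by omega) he
  · exact key j i h (by omega) he.symm

theorem wk_finite (D : ℕ) : {v : Fin (N + 1) →₀ ℕ | v.degree ≤ D}.Finite := by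
  refine (Set.finite_Icc (0 : Fin (N + 1) →₀ ℕ)
    (Finsupp.equivFunOnFinite.symm (fun _ => D))).subset ?_
  intro v hv
  rw [Set.mem_Icc]
  refine ⟨zero_le, ?_⟩
  intro l
  rw [Finsupp.equivFunOnFinite_symm_apply_apply]
  exact le_trans (Finsupp.le_degree l v) hv

theorem exists_O (hg : Mg g) (hc : IsCan g can) :
    ∃ O : Finset (Fin (N + 1) →₀ ℕ), ∀ v, v ∈ O ↔ 0 < K g can v := by
  have hfin : {v : Fin (N + 1) →₀ ℕ | 0 < K g can v}.Finite := by
    refine (wk_finite (g 0)).subset ?_
    intro v hv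
    exact (K_deg_lt hg hc hv).le
  refine ⟨hfin.toFinset, ?_⟩
  intro v
  rw [Set.Finite.mem_toFinset, Set.mem_setOf_eq]

/-- Corners. -/
def IsR (g : Fin (N + 1) → ℕ) (can : ℕ → (Fin (N + 1) →₀ ℕ)) (v : Fin (N + 1) →₀ ℕ) : Prop :=
  2 ≤ v.degree ∧ K g can v < v.degree ∧ ∀ l, 0 < v l → K g can v < K g can (v - Finsupp.single l 1)

theorem exists_R (hg : Mg g) (hc : IsCan g can) :
    ∃ R : Finset (Fin (N + 1) →₀ ℕ), ∀ v, v ∈ R ↔ IsR g can v := by
  have hfin : {v : Fin (N + 1) →₀ ℕ | IsR g can v}.Finite := by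
    refine (wk_finite (g 0)).subset ?_
    rintro v ⟨hd, _, hR⟩
    have hex : ∃ l, 0 < v l := by
      by_contra hn
      push Not at hn
      have : v = 0 := by
        ext l
        have := hn l
        simp only [Finsupp.coe_zero, Pi.zero_apply]
        omega
      rw [this, map_zero] at hd
      omega
    obtain ⟨l, hl⟩ := hex
    have h1 : 0 < K g can (v - Finsupp.single l 1) := lt_of_le_of_lt (Nat.zero_le _) (hR l hl)
    have h2 := K_deg_lt hg hc h1
    have h3 := wk_deg_sub hl
    show v.degree ≤ g 0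
    omega
  refine ⟨hfin.toFinset, ?_⟩
  intro v
  rw [Set.Finite.mem_toFinset, Set.mem_setOf_eq]

end Pool.Agent.Lib.MP_a2efaf_al
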