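import Mathlib

/-!
# A Macaulay-Lovasz bound for sets of monomials
-/

set_option autoImplicit false

namespace Pool.Agent.Lib.MP_a2efaf_al

variable {ι : Type}

theorem wml_base (e P : ℕ) :
    (P + e + 1) * (P + e).choose (e + 1) = (e + 2) * (P + e + 1).choose (e + 2) := by
  have h := Nat.add_one_mul_choose_eq (P + e) (e + 1)
  rw [h]; ring

theorem wml_aux (e a P : ℕ) :
    (a + e + 1) * (P + e).choose (e + 1) ≤
      (e + 1) * (P + e + 1).choose (e + 2) + (a + e + 1).choose (e + 2) := by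
  have hup : ∀ i : ℕ, (P + i + e + 1) * (P + e).choose (e + 1) ≤
      (e + 1) * (P + e + 1).choose (e + 2) + (P + i + e + 1).choose (e + 2) := by
    intro i
    induction i with
    | zero =>
      have := wml_base e P
      simp only [add_zero]
      rw [this]
      have e2 : (e + 2) * (P + e + 1).choose (e + 2) =
          (e + 1) * (P + e + 1).choose (e + 2) + (P + e + 1).choose (e + 2) := by ring
      omega
    | succ i ih =>
      have h1 : (P + (i + 1) + e + 1).choose (e + 2) =
          (P + i + e + 1).choose (e + 1) + (P + i + e + 1).choose (e + 2) := by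
        have : P + (i + 1) + e + 1 = (P + i + e + 1) + 1 := by ring
        rw [this, Nat.choose_succ_succ]
      have h2 : (P + e).choose (e + 1) ≤ (P + i + e + 1).choose (e + 1) :=
        Nat.choose_le_choose _ (by omega)
      have h3 : (P + (i + 1) + e + 1) * (P + e).choose (e + 1) =
          (P + i + e + 1) * (P + e).choose (e + 1) + (P + e).choose (e + 1) := by ring
      rw [h1, h3]; omega
  have hdown : ∀ i a : ℕ, a + i = P → (a + e + 1) * (P + e).choose (e + 1) ≤
      (e + 1) * (P + e + 1).choose (e + 2) + (a + e + 1).choose (e + 2) := by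
    intro i
    induction i with
    | zero =>
      intro a ha
      have := hup 0
      simp only [add_zero] at this ha
      subst ha
      exact this
    | succ i ih =>
      intro a ha
      have h0 := ih (a + 1) (by omega)
      have h1 : (a + 1 + e + 1).choose (e + 2) =
          (a + e + 1).choose (e + 1) + (a + e + 1).choose (e + 2) := by
        have : a + 1 + e + 1 = (a + e + 1) + 1 := by ring
        rw [this, Nat.choose_succ_succ]
      have h2 : (a + e + 1).choose (e + 1) ≤ (P + e).choose (e + 1) :=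
        Nat.choose_le_choose _ (by omega)
      have h3 : (a + 1 + e + 1) * (P + e).choose (e + 1) =
          (a + e + 1) * (P + e).choose (e + 1) + (P + e).choose (e + 1) := by ring
      rw [h1, h3] at h0; omega
  rcases le_total P a with h | h
  · obtain ⟨i, rfl⟩ := Nat.exists_eq_add_of_le h
    exact hup i
  · obtain ⟨i, hi⟩ := Nat.exists_eq_add_of_le h
    exact hdown i a hi.symm

/-- The numerical lemma: `line d a (C(P+d-1,d)) ≤ C(P+d,d+1)`. -/
theorem ml_binom (d a P : ℕ) (hd : 1 ≤ d) :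
    (a + d) * (P + d - 1).choose d ≤ d * (P + d).choose (d + 1) + (a + d).choose (d + 1) := by
  obtain ⟨e, rfl⟩ : ∃ e, d = e + 1 := ⟨d - 1, by omega⟩
  have := wml_aux e a P
  have e1 : P + (e + 1) - 1 = P + e := by omega
  rw [e1]
  exact this

/-- The numerical step. -/
theorem wml_step (d X Y h0 l a b : ℕ) (hd : 1 ≤ d) (hl : 1 ≤ l)
    (hX : (d + 1) * X + (a + d + 1).choose (d + 2) ≤ (a + d + 1) * h0)
    (hY : d * Y + (b + d).choose (d + 1) ≤ (b + d) * l) (hYh : Y ≤ h0 + l) :
    ∃ n : ℕ, (d + 1) * (X + Y) + (n + d + 1).choose (d + 2) ≤ (n + d + 1) * (h0 + l) := by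
  obtain ⟨e, rfl⟩ : ∃ e, d = e + 1 := ⟨d - 1, by omega⟩
  -- choice of `n`
  have hex : ∃ n, h0 + l ≤ (n + (e + 2)).choose (e + 2) := by
    refine ⟨h0 + l, ?_⟩
    have h1 : (h0 + l + (e + 2)).choose (e + 2) = (h0 + l + (e + 2)).choose (h0 + l) := by
      have := Nat.choose_symm_add (a := h0 + l) (b := e + 2)
      rw [this]
    rw [h1]
    have h2 : (h0 + l + 1).choose (h0 + l) ≤ (h0 + l + (e + 2)).choose (h0 + l) :=
      Nat.choose_le_choose _ (by omega)
    have h3 : (h0 + l + 1).choose (h0 + l) = h0 + l + 1 := Nat.choose_succ_self_right _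
    omega
  obtain ⟨n, hn1, hlo, hhi⟩ : ∃ n, (n + e + 1).choose (e + 2) ≤ h0 + l ∧ 1 ≤ n ∧
      h0 + l ≤ (n + e + 2).choose (e + 2) := by
    classical
    by_cases hz : Nat.find hex = 0
    · have h1 := Nat.find_spec hex
      rw [hz] at h1
      simp only [zero_add, Nat.choose_self] at h1
      refine ⟨1, ?_, le_refl _, ?_⟩
      · have : 1 + e + 1 = e + 2 := by ring
        rw [this, Nat.choose_self]; omega
      · have : (e + 2).choose (e + 2) ≤ (1 + e + 2).choose (e + 2) :=
          Nat.choose_le_choose _ (by omega)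
        rw [Nat.choose_self] at this
        omega
    · refine ⟨Nat.find hex, ?_, by omega, Nat.find_spec hex⟩
      have h1 := Nat.find_min hex (m := Nat.find hex - 1) (by omega)
      have h2 : Nat.find hex - 1 + (e + 2) = Nat.find hex + e + 1 := by omega
      rw [h2] at h1
      omega
  refine ⟨n, ?_⟩
  obtain ⟨n', rfl⟩ : ∃ n', n = n' + 1 := ⟨n - 1, by omega⟩
  -- the numbers, over the rationals
  set p0 : ℚ := (((n' + e + 1).choose (e + 2) : ℕ) : ℚ) with hp0
  set p1 : ℚ := (((n' + e + 2).choose (e + 2) : ℕ) : ℚ) with hp1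
  set p2 : ℚ := (((n' + e + 3).choose (e + 2) : ℕ) : ℚ) with hp2
  set q0 : ℚ := (((n' + e + 1).choose (e + 1) : ℕ) : ℚ) with hq0
  set q1 : ℚ := (((n' + e + 2).choose (e + 1) : ℕ) : ℚ) with hq1
  set F0 : ℚ := (((n' + e + 2).choose (e + 3) : ℕ) : ℚ) with hF0
  set F1 : ℚ := (((n' + e + 3).choose (e + 3) : ℕ) : ℚ) with hF1
  set F2 : ℚ := (((n' + e + 4).choose (e + 3) : ℕ) : ℚ) with hF2
  set Ca : ℚ := (((a + e + 2).choose (e + 3) : ℕ) : ℚ) with hCa
  set Cb : ℚ := (((b + e + 1).choose (e + 2) : ℕ) : ℚ) with hCb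
  have E1 : p1 = q0 + p0 := by
    rw [hp1, hq0, hp0]; norm_cast
  have E2 : p2 = q1 + p1 := by
    rw [hp2, hq1, hp1]; norm_cast
  have E3 : F1 = p1 + F0 := by
    rw [hF1, hp1, hF0]; norm_cast
  have E4 : F2 = p2 + F1 := by
    rw [hF2, hp2, hF1]; norm_cast
  have B0 : ∀ a : ℕ, ((a : ℚ) + e + 2) * p0 ≤ ((e : ℚ) + 2) * F0 + ((a + e + 2).choose (e + 3) : ℕ) := by
    intro a
    have := wml_aux (e + 1) a n'
    rw [hp0, hF0]; exact_mod_cast this
  have B1 : ∀ a : ℕ, ((a : ℚ) + e + 2) * p1 ≤ ((e : ℚ) + 2) * F1 + ((a + e + 2).choose (e + 3) : ℕ) := by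
    intro a
    have := wml_aux (e + 1) a (n' + 1)
    have e1 : n' + 1 + (e + 1) = n' + e + 2 := by ring
    rw [e1] at this
    rw [hp1, hF1]; exact_mod_cast this
  have B2 : ∀ a : ℕ, ((a : ℚ) + e + 2) * p2 ≤ ((e : ℚ) + 2) * F2 + ((a + e + 2).choose (e + 3) : ℕ) := by
    intro a
    have := wml_aux (e + 1) a (n' + 2)
    have e1 : n' + 2 + (e + 1) = n' + e + 3 := by ring
    rw [e1] at this
    rw [hp2, hF2]; exact_mod_cast this
  have D0 : ((b : ℚ) + e + 1) * q0 ≤ ((e : ℚ) + 1) * p1 + Cb := by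
    have := wml_aux e b (n' + 1)
    have e1 : n' + 1 + e = n' + e + 1 := by ring
    rw [e1] at this
    rw [hq0, hp1, hCb]; exact_mod_cast this
  have D1 : ((b : ℚ) + e + 1) * q1 ≤ ((e : ℚ) + 1) * p2 + Cb := by
    have := wml_aux e b (n' + 2)
    have e1 : n' + 2 + e = n' + e + 2 := by ring
    rw [e1] at this
    rw [hq1, hp2, hCb]; exact_mod_cast this
  have G1 : ((n' : ℚ) + 1 + e + 2) * p1 = ((e : ℚ) + 3) * F1 := by
    have := wml_base (e + 1) (n' + 1)
    have e1 : n' + 1 + (e + 1) = n' + e + 2 := by ring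
    rw [e1] at this
    have h2 : ((n' + e + 2 + 1 : ℕ) : ℚ) * (((n' + e + 2).choose (e + 1 + 1) : ℕ) : ℚ) =
        ((e + 1 + 2 : ℕ) : ℚ) * (((n' + e + 2 + 1).choose (e + 1 + 2) : ℕ) : ℚ) := by
      exact_mod_cast this
    rw [hp1, hF1]
    push_cast at h2 ⊢
    linarith
  have G2 : ((n' : ℚ) + 2 + e + 2) * p2 = ((e : ℚ) + 3) * F2 := by
    have := wml_base (e + 1) (n' + 2)
    have e1 : n' + 2 + (e + 1) = n' + e + 3 := by ring
    rw [e1] at this
    have h2 : ((n' + e + 3 + 1 : ℕ) : ℚ) * (((n' + e + 3).choose (e + 1 + 1) : ℕ) : ℚ) =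
        ((e + 1 + 2 : ℕ) : ℚ) * (((n' + e + 3 + 1).choose (e + 1 + 2) : ℕ) : ℚ) := by
      exact_mod_cast this
    rw [hp2, hF2]
    push_cast at h2 ⊢
    linarith
  have hq1pos : 0 < q1 := by
    rw [hq1]; exact_mod_cast Nat.choose_pos (by omega)
  have hq0pos : 0 < q0 := by
    rw [hq0]; exact_mod_cast Nat.choose_pos (by omega)
  have hCb0 : 0 ≤ Cb := by rw [hCb]; positivity
  set h : ℚ := (h0 : ℚ) + l with hh
  have hlo' : p1 ≤ h := by
    rw [hp1, hh]
    have e1 : n' + 1 + e + 1 = n' + e + 2 := by ring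
    rw [e1] at hn1
    exact_mod_cast hn1
  have hhi' : h ≤ p2 := by
    rw [hp2, hh]
    have e1 : n' + 1 + e + 2 = n' + e + 3 := by ring
    rw [e1] at hhi
    exact_mod_cast hhi
  obtain ⟨t, ht0, ht1, hth⟩ : ∃ t : ℚ, 0 ≤ t ∧ t ≤ 1 ∧ h = (1 - t) * p1 + t * p2 := by
    refine ⟨(h - p1) / q1, by apply div_nonneg <;> linarith, ?_, ?_⟩
    · rw [div_le_one hq1pos]; linarith
    · have : (h - p1) / q1 * q1 = h - p1 := div_mul_cancel₀ _ (ne_of_gt hq1pos)
      rw [E2]; linear_combination -this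
  set L : ℚ := (1 - t) * q0 + t * q1 with hL
  set Fh : ℚ := (1 - t) * F1 + t * F2 with hFh
  have hLh : h - L = (1 - t) * p0 + t * p1 := by
    rw [hth, hL]; linear_combination (1 - t) * E1 + t * E2
  have hFhh : Fh - h = (1 - t) * F0 + t * F1 := by
    rw [hth, hFh]; linear_combination (1 - t) * E3 + t * E4
  have hgoal : ((n' : ℚ) + 1 + e + 2) * h - F1 = ((e : ℚ) + 2) * Fh := by
    have g2 : ((n' : ℚ) + 1 + e + 2) * p2 - F1 = ((e : ℚ) + 2) * F2 := by
      linear_combination G2 + E4
    have g1 : ((n' : ℚ) + 1 + e + 2) * p1 - F1 = ((e : ℚ) + 2) * F1 := by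
      linear_combination G1
    rw [hth, hFh]; linear_combination (1 - t) * g1 + t * g2
  have hX' : ((e : ℚ) + 2) * X + Ca ≤ ((a : ℚ) + e + 2) * h0 := by
    rw [hCa]
    have e1 : a + (e + 1) + 1 = a + e + 2 := by ring
    rw [e1] at hX
    have h2 : ((e + 1 + 1 : ℕ) : ℚ) * X + (((a + e + 2).choose (e + 1 + 2) : ℕ) : ℚ) ≤
        ((a + e + 2 : ℕ) : ℚ) * h0 := by exact_mod_cast hX
    push_cast at h2 ⊢
    linarith
  have hY' : ((e : ℚ) + 1) * Y + Cb ≤ ((b : ℚ) + e + 1) * l := by
    rw [hCb]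
    have e1 : b + (e + 1) = b + e + 1 := by ring
    rw [e1] at hY
    have h2 : ((e + 1 : ℕ) : ℚ) * Y + (((b + e + 1).choose (e + 1 + 1) : ℕ) : ℚ) ≤
        ((b + e + 1 : ℕ) : ℚ) * l := by exact_mod_cast hY
    push_cast at h2 ⊢
    linarith
  have hYh' : (Y : ℚ) ≤ h := by rw [hh]; exact_mod_cast hYh
  have hA : ((a : ℚ) + e + 2) * (h - L) - Ca ≤ ((e : ℚ) + 2) * (Fh - h) := by
    have b0 := B0 a
    have b1 := B1 a
    rw [← hCa] at b0 b1
    rw [hLh, hFhh]
    have t0 := mul_le_mul_of_nonneg_left b0 (by linarith : (0 : ℚ) ≤ 1 - t)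
    have t1 := mul_le_mul_of_nonneg_left b1 ht0
    linarith
  have hB0 : ((a : ℚ) + e + 2) * h - Ca ≤ ((e : ℚ) + 2) * Fh := by
    have b1 := B1 a
    have b2 := B2 a
    rw [← hCa] at b1 b2
    have t0 := mul_le_mul_of_nonneg_left b1 (by linarith : (0 : ℚ) ≤ 1 - t)
    have t1 := mul_le_mul_of_nonneg_left b2 ht0
    have e1 : ((a : ℚ) + e + 2) * h = (1 - t) * (((a : ℚ) + e + 2) * p1) +
        t * (((a : ℚ) + e + 2) * p2) := by rw [hth]; ring
    have e2 : ((e : ℚ) + 2) * Fh = (1 - t) * (((e : ℚ) + 2) * F1) + t * (((e : ℚ) + 2) * F2) := by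
      rw [hFh]; ring
    rw [e1, e2]; linarith
  have hB1 : ((b : ℚ) + e + 1) * L - Cb ≤ ((e : ℚ) + 1) * h := by
    have t0 := mul_le_mul_of_nonneg_left D0 (by linarith : (0 : ℚ) ≤ 1 - t)
    have t1 := mul_le_mul_of_nonneg_left D1 ht0
    have e1 : ((b : ℚ) + e + 1) * L = (1 - t) * (((b : ℚ) + e + 1) * q0) +
        t * (((b : ℚ) + e + 1) * q1) := by rw [hL]; ring
    have e2 : ((e : ℚ) + 1) * h = (1 - t) * (((e : ℚ) + 1) * p1) + t * (((e : ℚ) + 1) * p2) := by
      rw [hth]; ring
    rw [e1, e2]; linarith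
  have hL0 : 0 < L := by
    rw [hL]
    rcases lt_or_ge t 1 with h1 | h1
    · have : 0 < (1 - t) * q0 := mul_pos (by linarith) hq0pos
      have : 0 ≤ t * q1 := mul_nonneg ht0 hq1pos.le
      linarith
    · have : t = 1 := le_antisymm ht1 h1
      rw [this]; linarith
  have he0 : (0 : ℚ) < (e : ℚ) + 2 := by positivity
  have he1 : (0 : ℚ) < (e : ℚ) + 1 := by positivity
  have ha0 : (0 : ℚ) ≤ (a : ℚ) + e + 2 := by positivity
  have hfin : ((e : ℚ) + 2) * (X + Y) ≤ ((e : ℚ) + 2) * Fh := by
    rcases le_total L (l : ℚ) with hcase | hcase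
    · have h0le : (h0 : ℚ) ≤ h - L := by rw [hh]; linarith
      have t0 := mul_le_mul_of_nonneg_left h0le ha0
      have t1 := mul_le_mul_of_nonneg_left hYh' he0.le
      have e1 : ((e : ℚ) + 2) * (X + Y) = ((e : ℚ) + 2) * X + ((e : ℚ) + 2) * Y := by ring
      have e2 : ((e : ℚ) + 2) * (Fh - h) = ((e : ℚ) + 2) * Fh - ((e : ℚ) + 2) * h := by ring
      rw [e1]; linarith
    · -- `s = l / L`
      obtain ⟨s, hs0, hs1, hsl⟩ : ∃ s : ℚ, 0 ≤ s ∧ s ≤ 1 ∧ (l : ℚ) = s * L := by
        refine ⟨(l : ℚ) / L, by positivity, ?_, ?_⟩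
        · rw [div_le_one hL0]; exact hcase
        · rw [div_mul_cancel₀ _ (ne_of_gt hL0)]
      have x1 : ((e : ℚ) + 2) * X ≤ ((e : ℚ) + 2) * (Fh - s * h) := by
        have t0 := mul_le_mul_of_nonneg_left hB0 (by linarith : (0 : ℚ) ≤ 1 - s)
        have t1 := mul_le_mul_of_nonneg_left hA hs0
        have h0e : (h0 : ℚ) = h - s * L := by rw [← hsl, hh]; ring
        rw [h0e] at hX'
        have r1 : (1 - s) * (((a : ℚ) + e + 2) * h - Ca) + s * (((a : ℚ) + e + 2) * (h - L) - Ca) =
            ((a : ℚ) + e + 2) * (h - s * L) - Ca := by ring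
        have r2 : (1 - s) * (((e : ℚ) + 2) * Fh) + s * (((e : ℚ) + 2) * (Fh - h)) =
            ((e : ℚ) + 2) * (Fh - s * h) := by ring
        linarith
      have y1 : ((e : ℚ) + 1) * Y ≤ ((e : ℚ) + 1) * (s * h) := by
        have t1 := mul_le_mul_of_nonneg_left hB1 hs0
        have t2 : s * Cb ≤ Cb := mul_le_of_le_one_left hCb0 hs1
        rw [hsl] at hY'
        have r1 : s * (((b : ℚ) + e + 1) * L - Cb) = ((b : ℚ) + e + 1) * (s * L) - s * Cb := by ring
        have r2 : s * (((e : ℚ) + 1) * h) = ((e : ℚ) + 1) * (s * h) := by ring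
        linarith
      have y2 : (Y : ℚ) ≤ s * h := le_of_mul_le_mul_left y1 he1
      have t3 := mul_le_mul_of_nonneg_left y2 he0.le
      have e1 : ((e : ℚ) + 2) * (X + Y) = ((e : ℚ) + 2) * X + ((e : ℚ) + 2) * Y := by ring
      have e2 : ((e : ℚ) + 2) * (Fh - s * h) = ((e : ℚ) + 2) * Fh - ((e : ℚ) + 2) * (s * h) := by
        ring
      rw [e1]; linarith
  have hres : ((e : ℚ) + 2) * (X + Y) + F1 ≤ ((n' : ℚ) + 1 + e + 2) * h := by linarith
  have e1 : n' + 1 + (e + 1) + 1 = n' + e + 3 := by ring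
  rw [e1]
  have h2 : ((e + 1 + 1 : ℕ) : ℚ) * ((X : ℚ) + Y) + (((n' + e + 3).choose (e + 1 + 2) : ℕ) : ℚ) ≤
      ((n' + e + 3 : ℕ) : ℚ) * ((h0 : ℚ) + l) := by
    rw [hF1, hh] at hres
    push_cast at hres ⊢
    linarith
  exact_mod_cast h2

/-- An exponent vector of degree one. -/
theorem wml_deg_one {v : ι →₀ ℕ} (h : v.degree = 1) {a : ι} (ha : 0 < v a) :
    v = Finsupp.single a 1 := by
  classical
  have h1 : Finsupp.single a 1 ≤ v := by rw [Finsupp.single_le_iff]; exact ha
  have h2 : v = Finsupp.single a 1 + (v - Finsupp.single a 1) := (add_tsub_cancel_of_le h1).symm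
  have h3 : v.degree = 1 + (v - Finsupp.single a 1).degree := by
    conv_lhs => rw [h2]
    rw [map_add, Finsupp.degree_single]
  have h4 : (v - Finsupp.single a 1).degree = 0 := by omega
  rw [Finsupp.degree_eq_zero_iff] at h4
  rw [h2, h4, add_zero]

theorem wml_sub_deg {v : ι →₀ ℕ} {a : ι} (ha : 0 < v a) :
    (v - Finsupp.single a 1).degree + 1 = v.degree ∧
      (v - Finsupp.single a 1) + Finsupp.single a 1 = v := by
  classical
  have h1 : Finsupp.single a 1 ≤ v := by rw [Finsupp.single_le_iff]; exact ha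
  have h2 : (v - Finsupp.single a 1) + Finsupp.single a 1 = v := tsub_add_cancel_of_le h1
  refine ⟨?_, h2⟩
  conv_rhs => rw [← h2]
  rw [map_add, Finsupp.degree_single]

theorem wml_exists_pos {v : ι →₀ ℕ} (h : 0 < v.degree) : ∃ a, 0 < v a := by
  by_contra hne
  push Not at hne
  have : v = 0 := by
    ext a; have := hne a; simp only [Finsupp.coe_zero, Pi.zero_apply]; omega
  rw [this] at h
  simp at h

/-- Degree two: `|U| ≤ C(|H|+1, 2)`. -/
theorem ml_two (H U : Finset (ι →₀ ℕ)) (hH : ∀ z ∈ H, z.degree = 1)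
    (hU : ∀ v ∈ U, v.degree = 2 ∧ ∀ l, 0 < v l → v - Finsupp.single l 1 ∈ H) :
    U.card ≤ (H.card + 1).choose 2 := by
  classical
  rw [← Finset.card_sym2]
  let f : Sym2 (ι →₀ ℕ) → (ι →₀ ℕ) := Sym2.lift ⟨fun x y => x + y, fun x y => add_comm x y⟩
  have hsub : U ⊆ H.sym2.image f := by
    intro v hv
    obtain ⟨hd, hv'⟩ := hU v hv
    obtain ⟨l, hl⟩ := wml_exists_pos (v := v) (by omega)
    obtain ⟨d1, e1⟩ := wml_sub_deg hl
    have z1 := hv' l hl
    obtain ⟨a, ha⟩ := wml_exists_pos (v := v - Finsupp.single l 1) (by omega)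
    have hz : v - Finsupp.single l 1 = Finsupp.single a 1 := wml_deg_one (hH _ z1) ha
    have hva : 0 < v a := by
      rw [Finsupp.tsub_apply] at ha
      omega
    have z2 := hv' a hva
    have e2 : v - Finsupp.single a 1 = Finsupp.single l 1 := by
      rw [← e1, hz, add_tsub_cancel_left]
    rw [Finset.mem_image]
    refine ⟨s(Finsupp.single a 1, Finsupp.single l 1), ?_, ?_⟩
    · rw [Finset.mk_mem_sym2_iff]
      exact ⟨hz ▸ z1, e2 ▸ z2⟩
    · show Finsupp.single a 1 + Finsupp.single l 1 = v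
      rw [← hz, e1]
  exact (Finset.card_le_card hsub).trans Finset.card_image_le

theorem wml_sub_inj {a : ι} {v v' : ι →₀ ℕ} (hv : 0 < v a) (hv' : 0 < v' a)
    (h : v - Finsupp.single a 1 = v' - Finsupp.single a 1) : v = v' := by
  rw [← (wml_sub_deg hv).2, ← (wml_sub_deg hv').2, h]

/-- If all divisors of degree `d` of all elements of `U` are in `H` then
`d |U| + C(n+d,d+1) ≤ (n+d) |H|` for some `n`. -/
theorem ml_claim (d : ℕ) (hd : 1 ≤ d) (H U : Finset (ι →₀ ℕ)) (hH : ∀ z ∈ H, z.degree = d)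
    (hU : ∀ v ∈ U, v.degree = d + 1 ∧ ∀ l, 0 < v l → v - Finsupp.single l 1 ∈ H) :
    ∃ n : ℕ, d * U.card + (n + d).choose (d + 1) ≤ (n + d) * H.card := by
  classical
  induction d, hd using Nat.le_induction generalizing H U with
  | base =>
    refine ⟨H.card, ?_⟩
    have h1 := ml_two H U hH hU
    have h2 : (H.card + 1) * H.card = 2 * (H.card + 1).choose 2 := by
      have := Nat.add_one_mul_choose_eq H.card 1
      rw [Nat.choose_one_right] at this
      rw [this]; ring
    rw [h2]
    have h3 : (1 : ℕ) + 1 = 2 := rfl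
    rw [h3]; omega
  | succ d hd ih =>
    obtain ⟨k, hk⟩ : ∃ k, H.card = k := ⟨_, rfl⟩
    induction k using Nat.strong_induction_on generalizing H U with
    | _ k ihk =>
      by_cases hne : H = ∅
      · have hU0 : U = ∅ := by
          rw [Finset.eq_empty_iff_forall_notMem]
          intro v hv
          obtain ⟨h1, h2⟩ := hU v hv
          obtain ⟨l, hl⟩ := wml_exists_pos (v := v) (by omega)
          have := h2 l hl
          rw [hne] at this
          exact absurd this (Finset.notMem_empty _)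
        refine ⟨0, ?_⟩
        rw [hU0]
        simp
      · obtain ⟨z, hz⟩ := Finset.nonempty_iff_ne_empty.2 hne
        obtain ⟨l, hl⟩ := wml_exists_pos (v := z) (by rw [hH z hz]; omega)
        set H0 := H.filter (fun z => ¬ 0 < z l) with hH0
        set H1 := H.filter (fun z => 0 < z l) with hH1
        set L := H1.image (fun z => z - Finsupp.single l 1) with hL
        set U0 := U.filter (fun z => ¬ 0 < z l) with hU0
        set U1 := U.filter (fun z => 0 < z l) with hU1
        set W := U1.image (fun z => z - Finsupp.single l 1) with hW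
        have cH : H1.card + H0.card = H.card := Finset.card_filter_add_card_filter_not _
        have cU : U1.card + U0.card = U.card := Finset.card_filter_add_card_filter_not _
        have cL : L.card = H1.card := by
          apply Finset.card_image_of_injOn
          intro x hx y hy hxy
          rw [Finset.mem_coe, hH1, Finset.mem_filter] at hx hy
          exact wml_sub_inj hx.2 hy.2 hxy
        have cW : W.card = U1.card := by
          apply Finset.card_image_of_injOn
          intro x hx y hy hxy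
          rw [Finset.mem_coe, hU1, Finset.mem_filter] at hx hy
          exact wml_sub_inj hx.2 hy.2 hxy
        have hzH1 : z ∈ H1 := by rw [hH1, Finset.mem_filter]; exact ⟨hz, hl⟩
        have hpos : 1 ≤ H1.card := Finset.card_pos.2 ⟨z, hzH1⟩
        -- the part without `l`
        obtain ⟨a, ha⟩ := ihk H0.card (by omega) H0 U0
          (fun z hz => hH z (Finset.mem_of_mem_filter _ hz)) (by
            intro v hv
            rw [hU0, Finset.mem_filter] at hv
            obtain ⟨h1, h2⟩ := hU v hv.1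
            refine ⟨h1, fun l' hl' => ?_⟩
            rw [hH0, Finset.mem_filter]
            refine ⟨h2 l' hl', ?_⟩
            rw [Finsupp.tsub_apply]
            omega) rfl
        -- the link of `l`
        obtain ⟨b, hb⟩ := ih L W (by
            intro y hy
            rw [hL, Finset.mem_image] at hy
            obtain ⟨x, hx, rfl⟩ := hy
            rw [hH1, Finset.mem_filter] at hx
            have h1 := hH x hx.1
            have h2 := (wml_sub_deg hx.2).1
            omega) (by
            intro y hy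
            rw [hW, Finset.mem_image] at hy
            obtain ⟨v, hv, rfl⟩ := hy
            rw [hU1, Finset.mem_filter] at hv
            obtain ⟨h1, h2⟩ := hU v hv.1
            have h3 := (wml_sub_deg hv.2).1
            refine ⟨by omega, fun l' hl' => ?_⟩
            rw [hL, Finset.mem_image]
            rw [Finsupp.tsub_apply] at hl'
            have hvl' : 0 < v l' := by omega
            refine ⟨v - Finsupp.single l' 1, ?_, ?_⟩
            · rw [hH1, Finset.mem_filter]
              refine ⟨h2 l' hvl', ?_⟩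
              rw [Finsupp.tsub_apply]
              by_cases hll : l' = l
              · subst hll
                rw [Finsupp.single_eq_same] at hl' ⊢
                exact hl'
              · rw [Finsupp.single_eq_of_ne (Ne.symm hll)]
                have := hv.2
                omega
            · rw [tsub_right_comm])
        have hWH : W.card ≤ H.card := by
          apply Finset.card_le_card
          intro y hy
          rw [hW, Finset.mem_image] at hy
          obtain ⟨v, hv, rfl⟩ := hy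
          rw [hU1, Finset.mem_filter] at hv
          exact (hU v hv.1).2 l hv.2
        obtain ⟨n, hn⟩ := wml_step d U0.card W.card H0.card L.card a b hd (by omega) ha hb
          (by omega)
        refine ⟨n, ?_⟩
        have e1 : U.card = U0.card + W.card := by omega
        have e2 : H.card = H0.card + L.card := by omega
        rw [e1, e2]
        exact hn

/-- The ratio form. -/
theorem ml_ratio (d P : ℕ) (hd : 1 ≤ d) (H U : Finset (ι →₀ ℕ)) (hH : ∀ z ∈ H, z.degree = d)
    (hU : ∀ v ∈ U, v.degree = d + 1 ∧ ∀ l, 0 < v l → v - Finsupp.single l 1 ∈ H)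
    (hP : H.card ≤ (P + d - 1).choose d) :
    (d + 1) * U.card ≤ (d + P) * H.card := by
  obtain ⟨n, hn⟩ := ml_claim d hd H U hH hU
  have hb := ml_binom d n P hd
  have hbase : (P + d) * (P + d - 1).choose d = (d + 1) * (P + d).choose (d + 1) := by
    obtain ⟨e, rfl⟩ : ∃ e, d = e + 1 := ⟨d - 1, by omega⟩
    have e1 : P + (e + 1) - 1 = P + e := by omega
    rw [e1]
    exact wml_base e P
  set q : ℕ := (P + d - 1).choose d with hq
  set C : ℕ := (n + d).choose (d + 1) with hC
  set F : ℕ := (P + d).choose (d + 1) with hF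
  rcases Nat.eq_zero_or_pos q with h0 | hqpos
  · rw [h0] at hP
    have hH0 : H.card = 0 := by omega
    rw [hH0] at hn
    have : d * U.card = 0 := by omega
    have hU0 : U.card = 0 := by
      rcases Nat.mul_eq_zero.1 this with h | h
      · omega
      · exact h
    rw [hU0]; simp
  · have hn' : (d : ℚ) * U.card + C ≤ ((n : ℚ) + d) * H.card := by exact_mod_cast hn
    have hb' : ((n : ℚ) + d) * q ≤ d * F + C := by exact_mod_cast hb
    have hbase' : ((P : ℚ) + d) * q = ((d : ℚ) + 1) * F := by exact_mod_cast hbase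
    have hq' : (0 : ℚ) < q := by exact_mod_cast hqpos
    have hP' : (H.card : ℚ) ≤ q := by exact_mod_cast hP
    have hd' : (1 : ℚ) ≤ d := by exact_mod_cast hd
    have hC0 : (0 : ℚ) ≤ C := by positivity
    obtain ⟨θ, t0, t1, ht⟩ : ∃ θ : ℚ, 0 ≤ θ ∧ θ ≤ 1 ∧ (H.card : ℚ) = θ * q := by
      refine ⟨(H.card : ℚ) / q, by positivity, ?_, ?_⟩
      · rw [div_le_one hq']; exact hP'
      · rw [div_mul_cancel₀ _ (ne_of_gt hq')]
    have s1 := mul_le_mul_of_nonneg_left hb' t0
    have s2 : θ * C ≤ C := mul_le_of_le_one_left hC0 t1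
    rw [ht] at hn'
    -- `d (d+1) |U| ≤ d (P+d) θ q`
    have key : (d : ℚ) * (((d : ℚ) + 1) * U.card) ≤ d * (((d : ℚ) + P) * (θ * q)) := by
      have e1 : (d : ℚ) * U.card ≤ θ * (d * F) := by linarith
      have e2 := mul_le_mul_of_nonneg_left e1 (by linarith : (0 : ℚ) ≤ (d : ℚ) + 1)
      have e3 : ((d : ℚ) + 1) * (θ * (d * F)) = d * (((d : ℚ) + P) * (θ * q)) := by
        linear_combination (-(θ * d)) * hbase'
      linarith
    have key2 : ((d : ℚ) + 1) * U.card ≤ ((d : ℚ) + P) * (θ * q) :=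
      le_of_mul_le_mul_left key (by linarith)
    rw [← ht] at key2
    exact_mod_cast key2

end Pool.Agent.Lib.MP_a2efaf_al
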