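import Mathlib

/-!
# The numerical inequality of the wide case
-/

set_option autoImplicit false

namespace Pool.Agent.Lib.MP_a2efaf_al

/-- `∑_{i=1}^{c} 1/(i+3)`. -/
def wA (c : ℕ) : ℚ := ∑ i ∈ Finset.range c, 1 / ((i : ℚ) + 4)

/-- `2/3 + ∑_{i=2}^{r} 1/(i+3)`. -/
def wB (r : ℕ) : ℚ := 2 / 3 + ∑ i ∈ Finset.range (r - 1), 1 / ((i : ℚ) + 5)

/-- `∑_{i=2}^{c+1} 1/(i+3)`. -/
private def wnumT (c : ℕ) : ℚ := ∑ i ∈ Finset.range c, 1 / ((i : ℚ) + 5)

private lemma wnumT_succ (c : ℕ) : wnumT (c + 1) = wnumT c + 1 / ((c : ℚ) + 5) := by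
  simp [wnumT, Finset.sum_range_succ]

private lemma wnum_wB (r : ℕ) : wB (r + 1) = 2 / 3 + wnumT r := rfl

private lemma wnum_wA (c : ℕ) : wA (c + 1) = 1 / 4 + wnumT c := by
  rw [wA, Finset.sum_range_succ', wnumT, add_comm]
  congr 1
  · norm_num
  · refine Finset.sum_congr rfl fun i _ => ?_
    push_cast
    congr 1
    ring

private lemma wnum_S (c : ℕ) : ∑ r ∈ Finset.range (c + 1), wB (r + 1)
    = ((c : ℚ) + 5) * wnumT c - ((c : ℚ) + 1) / 3 + 1 := by
  induction c with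
  | zero => norm_num [wnum_wB, wnumT]
  | succ c ih =>
    rw [Finset.sum_range_succ, ih, wnum_wB, wnumT_succ]
    have h : ((c : ℚ) + 5) ≠ 0 := by positivity
    push_cast
    field_simp
    ring

private lemma wnum_add (a n : ℕ) : wnumT (a + n) ≤ wnumT a + (n : ℚ) / ((a : ℚ) + 5) := by
  induction n with
  | zero => simp
  | succ n ih =>
    rw [← add_assoc, wnumT_succ]
    have h1 : (1 : ℚ) / (((a + n : ℕ) : ℚ) + 5) ≤ 1 / ((a : ℚ) + 5) := by
      apply one_div_le_one_div_of_le (by positivity)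
      push_cast
      have : (0 : ℚ) ≤ n := Nat.cast_nonneg n
      linarith
    have h2 : (((n + 1 : ℕ) : ℚ)) / ((a : ℚ) + 5) = (n : ℚ) / ((a : ℚ) + 5) + 1 / ((a : ℚ) + 5) := by
      push_cast
      rw [add_div]
    rw [h2]
    linarith

private lemma wnum_choose (P : ℕ) : ((P.choose 2 : ℕ) : ℚ) = (P : ℚ) * ((P : ℚ) - 1) / 2 :=
  Nat.cast_choose_two ℚ P

private lemma wnum_T (P : ℕ) (hP : 10 ≤ P) : wnumT (P.choose 2) ≤ ((P : ℚ) + 2) / 5 := by
  induction P, hP using Nat.le_induction with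
  | base =>
    have h : Nat.choose 10 2 = 45 := by decide
    rw [h]
    norm_num [wnumT, Finset.sum_range_succ]
  | succ P hP ih =>
    have h : (P + 1).choose 2 = P.choose 2 + P := by
      rw [Nat.choose_succ_succ' P 1, Nat.choose_one_right, add_comm]
    rw [h]
    refine (wnum_add _ _).trans ?_
    have h1 : (P : ℚ) / (((P.choose 2 : ℕ) : ℚ) + 5) ≤ 1 / 5 := by
      rw [wnum_choose, div_le_div_iff₀ (by
        have : (10 : ℚ) ≤ P := by exact_mod_cast hP
        nlinarith) (by norm_num)]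
      have : (10 : ℚ) ≤ P := by exact_mod_cast hP
      nlinarith
    push_cast
    linarith

private lemma wnum_base1 (P : ℕ) (hP : 1 ≤ P) :
    ((P : ℚ) - 1) * (2 / 3 + wnumT (P.choose 2 + 1)) ≤ ((P.choose 2 : ℕ) : ℚ) + 1 := by
  by_cases h10 : P < 10
  · interval_cases P <;> norm_num [wnumT, Finset.sum_range_succ, Nat.choose]
  · have hT := wnum_T P (by omega)
    have h10' : (10 : ℚ) ≤ P := by exact_mod_cast (not_lt.1 h10)
    rw [wnumT_succ]
    have hk := wnum_choose P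
    have h1 : (1 : ℚ) / (((P.choose 2 : ℕ) : ℚ) + 5) ≤ 1 / 5 := by
      apply one_div_le_one_div_of_le (by norm_num)
      have : (0 : ℚ) ≤ ((P.choose 2 : ℕ) : ℚ) := Nat.cast_nonneg _
      linarith
    have h2 : ((P : ℚ) - 1) * (2 / 3 + (wnumT (P.choose 2) + 1 / (((P.choose 2 : ℕ) : ℚ) + 5)))
        ≤ ((P : ℚ) - 1) * (2 / 3 + (((P : ℚ) + 2) / 5 + 1 / 5)) := by
      apply mul_le_mul_of_nonneg_left _ (by linarith)
      linarith
    refine h2.trans ?_
    rw [hk]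
    nlinarith

private lemma wnum_base2 (P : ℕ) (hP : 1 ≤ P) :
    ((P : ℚ) - 1) * ((P : ℚ) * (1 / 4 + wnumT (P.choose 2)) +
      ((((P.choose 2 : ℕ) : ℚ) + 5) * wnumT (P.choose 2) - (((P.choose 2 : ℕ) : ℚ) + 1) / 3 + 1)) ≤
      (((P.choose 2 : ℕ) : ℚ) + 1) * P
        + (((P.choose 2 : ℕ) : ℚ) + 1) * ((P.choose 2 : ℕ) : ℚ) / 2 := by
  by_cases h10 : P < 10
  · interval_cases P <;> norm_num [wnumT, Finset.sum_range_succ, Nat.choose]
  · have hT := wnum_T P (by omega)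
    obtain ⟨t, rfl⟩ : ∃ t, P = 10 + t := ⟨P - 10, by omega⟩
    have hk := wnum_choose (10 + t)
    set k : ℚ := (((10 + t).choose 2 : ℕ) : ℚ) with hkdef
    set T : ℚ := wnumT ((10 + t).choose 2) with hTdef
    push_cast at hT hk ⊢
    have ht : (0 : ℚ) ≤ t := Nat.cast_nonneg t
    have hk0 : 0 ≤ k := Nat.cast_nonneg _
    have h1 : (9 + (t : ℚ)) * (15 + t + k) * T ≤ (9 + (t : ℚ)) * (15 + t + k) * ((10 + (t : ℚ) + 2) / 5) :=
      mul_le_mul_of_nonneg_left hT (by positivity)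
    have h2 : (9 + (t : ℚ)) * (15 + t + k) * ((10 + (t : ℚ) + 2) / 5)
        + (9 + (t : ℚ)) * ((10 + t) / 4 - (k + 1) / 3 + 1)
        ≤ (k + 1) * (10 + t) + (k + 1) * k / 2 := by
      have hk' : k = (10 + (t : ℚ)) * (9 + t) / 2 := by rw [hk]; ring
      rw [hk', ← sub_nonneg]
      ring_nf
      positivity
    nlinarith

/-- The numerical inequality. Proof: increasing `c` by one changes the right hand side minus the left
hand side by `N + c - (P-1) (N/(c+4) + wB (c+1)) ≥ 0`; the coefficient of `N` is `c - (P-1) wA c ≥ 0`;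
so it is enough to treat `N = P` and `c = C(P,2) + 1`. Here
`T = ∑_{i=2}^{c} 1/(i+3) ≤ P/5 + 2/5` for `P ≥ 10` (adding `P` terms `≤ 1/(C(P,2)+5)` each, and
`P/(C(P,2)+5) ≤ 1/5` for `P ≥ 10`), `∑_{r=1}^c wB r = (c+4) T - c/3 + 1`, and
`(P-1) (P+c+4) (P/5+2/5) ≤ c P + c (c-1)/2 - (P-1)(P/4+1) + (P-1) c/3` for `P ≥ 10`. The cases `P ≤ 10`
are numerical (`c = C(P,2)+1 ≤ 46`). -/
theorem wide_num (P N c : ℕ) (hP : 1 ≤ P) (hN : P ≤ N) (hc : P.choose 2 + 1 ≤ c) :
    ((P : ℚ) - 1) * ((N : ℚ) * wA c + ∑ r ∈ Finset.range c, wB (r + 1)) ≤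
      (c : ℚ) * N + (c.choose 2 : ℕ) := by
  have hP' : (1 : ℚ) ≤ P := by exact_mod_cast hP
  have hN' : (P : ℚ) ≤ N := by exact_mod_cast hN
  have hPk : (P : ℚ) - 1 ≤ ((P.choose 2 : ℕ) : ℚ) + 1 := by
    rw [wnum_choose]
    nlinarith [sq_nonneg ((P : ℚ) - 2)]
  obtain ⟨k, rfl⟩ : ∃ k, c = k + 1 := ⟨c - 1, by omega⟩
  have hk : P.choose 2 ≤ k := by omega
  have key : ((P : ℚ) - 1) * (2 / 3 + wnumT (k + 1)) ≤ (k : ℚ) + 1 ∧
      ((P : ℚ) - 1) * ((N : ℚ) * (1 / 4 + wnumT k) +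
        (((k : ℚ) + 5) * wnumT k - ((k : ℚ) + 1) / 3 + 1)) ≤
      ((k : ℚ) + 1) * N + ((k : ℚ) + 1) * k / 2 := by
    clear hc
    induction k, hk using Nat.le_induction with
    | base =>
      have h1 := wnum_base1 P hP
      have h2 := wnum_base2 P hP
      refine ⟨h1, ?_⟩
      have h3 : ((P : ℚ) - 1) * (1 / 4 + wnumT (P.choose 2)) ≤ ((P.choose 2 : ℕ) : ℚ) + 1 := by
        refine le_trans ?_ h1
        apply mul_le_mul_of_nonneg_left _ (by linarith)
        rw [wnumT_succ]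
        have : (0 : ℚ) ≤ 1 / (((P.choose 2 : ℕ) : ℚ) + 5) := by positivity
        linarith
      nlinarith
    | succ k hk ih =>
      obtain ⟨h1, h2⟩ := ih
      have hk' : ((P.choose 2 : ℕ) : ℚ) ≤ k := by exact_mod_cast hk
      have hk0 : (0 : ℚ) ≤ k := Nat.cast_nonneg k
      constructor
      · rw [wnumT_succ (k + 1)]
        have h3 : ((P : ℚ) - 1) * (1 / (((k + 1 : ℕ) : ℚ) + 5)) ≤ 1 := by
          rw [mul_one_div, div_le_one (by positivity)]
          push_cast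
          linarith
        push_cast at h3 ⊢
        linarith
      · have h3 : ((P : ℚ) - 1) * (1 / ((k : ℚ) + 5)) ≤ 1 := by
          rw [mul_one_div, div_le_one (by positivity)]
          linarith
        have h4 : ((k : ℚ) + 5) * (1 / ((k : ℚ) + 5)) = 1 := by
          field_simp
        rw [wnumT_succ k] at h1 ⊢
        generalize (1 : ℚ) / ((k : ℚ) + 5) = e at *
        generalize wnumT k = T at *
        push_cast
        have h5 : (N : ℚ) * (((P : ℚ) - 1) * e) ≤ N := by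
          have : (0 : ℚ) ≤ N := by linarith
          nlinarith
        have h6 : ((P : ℚ) - 1) * (((k : ℚ) + 5) * e) = (P : ℚ) - 1 := by rw [h4, mul_one]
        nlinarith
  rw [wnum_wA, wnum_S, wnum_choose]
  have := key.2
  push_cast
  have e : ((k : ℚ) + 1) * ((k : ℚ) + 1 - 1) / 2 = ((k : ℚ) + 1) * k / 2 := by ring
  rw [e]
  exact this

end Pool.Agent.Lib.MP_a2efaf_al
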