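import Pool.Agent.Lib.MP_a2efaf_al.WK

/-!
# Positions in the classes modulo `g 0`, and the path lemma
-/

set_option autoImplicit false

namespace Pool.Agent.Lib.MP_a2efaf_al

variable {N : ℕ}

/-- The least element of the semigroup congruent to `s` modulo `g 0` (for `s` congruent to an element
of the semigroup). -/
noncomputable def ap (g : Fin (N + 1) → ℕ) (s : ℕ) : ℕ :=
  sInf {t | (∃ u : Fin (N + 1) →₀ ℕ, wt g u = t) ∧ t % g 0 = s % g 0}

/-- The position of `s`. -/
noncomputable def kk (g : Fin (N + 1) → ℕ) (s : ℕ) : ℕ := (s - ap g s) / g 0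

/-- `psi v = deg v - kk (wt v)`. -/
noncomputable def psi (g : Fin (N + 1) → ℕ) (v : Fin (N + 1) →₀ ℕ) : ℕ :=
  v.degree - kk g (wt g v)

/-- The missing residues. -/
def Miss (g : Fin (N + 1) → ℕ) : Finset ℕ :=
  (Finset.range (g 0)).filter (fun r => ∀ j, g j % g 0 ≠ r)

variable {g : Fin (N + 1) → ℕ} {can : ℕ → (Fin (N + 1) →₀ ℕ)}

private theorem wpath_mod_lt (hg : Mg g) {i j : Fin (N + 1)} (hij : i < j) :
    g i % g 0 ≠ g j % g 0 := by
  intro h
  have hlt : g i < g j := hg.mono hij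
  have h1 : g j % g 0 = g i % g 0 := h.symm
  have h2 : g 0 ∣ g j - g i := (Nat.modEq_iff_dvd' hlt.le).mp h
  obtain ⟨t, ht⟩ := h2
  apply hg.min j
  have hgj : g j = g i + t • g 0 := by
    rw [smul_eq_mul, mul_comm]
    omega
  rw [hgj]
  have hi : g i ∈ AddSubmonoid.closure (g '' {j' | j' ≠ j}) :=
    AddSubmonoid.subset_closure ⟨i, hij.ne, rfl⟩
  have h0' : (0 : Fin (N + 1)) ≠ j → g 0 ∈ AddSubmonoid.closure (g '' {j' | j' ≠ j}) :=
    fun h => AddSubmonoid.subset_closure ⟨0, h, rfl⟩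
  refine AddSubmonoid.add_mem _ hi (AddSubmonoid.nsmul_mem _ (h0' ?_) t)
  intro h0
  have h3 : i < 0 := by
    rw [h0]
    exact hij
  exact absurd h3 (Fin.not_lt_zero i)

private theorem wpath_mod_inj (hg : Mg g) : Function.Injective fun j => g j % g 0 := by
  intro i j h
  rcases lt_trichotomy i j with h1 | h1 | h1
  · exact absurd h (wpath_mod_lt hg h1)
  · exact h1
  · exact absurd h.symm (wpath_mod_lt hg h1)

/-- The residues of the generators are pairwise different. -/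
theorem card_Miss (hg : Mg g) : (Miss g).card + (N + 1) = g 0 := by
  classical
  have h1 : ((Finset.range (g 0)).filter (fun r => ¬ ∀ j, g j % g 0 ≠ r)).card = N + 1 := by
    have h2 : (Finset.range (g 0)).filter (fun r => ¬ ∀ j, g j % g 0 ≠ r)
        = Finset.univ.image fun j => g j % g 0 := by
      ext r
      rw [Finset.mem_filter, Finset.mem_range, Finset.mem_image]
      constructor
      · rintro ⟨-, h3⟩
        push Not at h3
        obtain ⟨j, hj⟩ := h3
        exact ⟨j, Finset.mem_univ _, hj⟩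
      · rintro ⟨j, -, hj⟩
        refine ⟨?_, ?_⟩
        · rw [← hj]
          exact Nat.mod_lt _ hg.pos
        · push Not
          exact ⟨j, hj⟩
    rw [h2, Finset.card_image_of_injective _ (wpath_mod_inj hg), Finset.card_univ,
      Fintype.card_fin]
  have h2 := Finset.card_filter_add_card_filter_not (s := Finset.range (g 0))
    (fun r => ∀ j, g j % g 0 ≠ r)
  rw [h1, Finset.card_range] at h2
  exact h2

/-- `ap` is in the semigroup, congruent to `wt u`, and `wt u = ap + kk * g 0`. -/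
theorem ap_spec (hg : Mg g) (u : Fin (N + 1) →₀ ℕ) :
    (∃ p : Fin (N + 1) →₀ ℕ, wt g p = ap g (wt g u)) ∧
      wt g u = ap g (wt g u) + kk g (wt g u) * g 0 := by
  have hne : {t | (∃ p : Fin (N + 1) →₀ ℕ, wt g p = t) ∧ t % g 0 = wt g u % g 0}.Nonempty :=
    ⟨wt g u, ⟨u, rfl⟩, rfl⟩
  obtain ⟨h1, h2⟩ := Nat.sInf_mem hne
  have h3 : ap g (wt g u) ≤ wt g u := Nat.sInf_le ⟨⟨u, rfl⟩, rfl⟩
  refine ⟨h1, ?_⟩
  have h4 : g 0 ∣ wt g u - ap g (wt g u) := (Nat.modEq_iff_dvd' h3).mp h2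
  unfold kk
  rw [Nat.div_mul_cancel h4]
  omega

theorem ap_le (u : Fin (N + 1) →₀ ℕ) {s : ℕ} (h : wt g u % g 0 = s % g 0) :
    ap g s ≤ wt g u := Nat.sInf_le ⟨⟨u, rfl⟩, h⟩

theorem ap_congr {s t : ℕ} (h : s % g 0 = t % g 0) : ap g s = ap g t := by
  unfold ap
  rw [h]

/-- The elements with residue of a generator `g j` have `ap = g j`. -/
theorem ap_gen (hg : Mg g) (j : Fin (N + 1)) (hj : j ≠ 0) : ap g (g j) = g j := by
  have h0 : wt g (Finsupp.single j 1) = g j := by rw [wt_single, one_mul]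
  obtain ⟨⟨p, hp⟩, h1⟩ := ap_spec hg (Finsupp.single j 1)
  rw [h0] at hp h1
  have h2 : wt g (p + Finsupp.single 0 (kk g (g j))) = g j := by
    rw [wt_add, wt_single, hp]
    exact h1.symm
  have h3 := wt_eq_gen hg h2
  have h4 := DFunLike.congr_fun h3 0
  rw [Finsupp.add_apply, Finsupp.single_eq_same, Finsupp.single_eq_of_ne (Ne.symm hj)] at h4
  have h5 : kk g (g j) = 0 := by omega
  rw [h5, zero_mul, add_zero] at h1
  exact h1.symm

/-- `deg v = psi v + kk (wt v)` and `1 ≤ psi v` (add `kk` copies of `g 0` to a factorization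
of `ap`). -/
theorem psi_spec (hg : Mg g) (hc : IsCan g can) {v : Fin (N + 1) →₀ ℕ} (hv : 0 < K g can v) :
    v.degree = psi g v + kk g (wt g v) ∧ 1 ≤ psi g v := by
  obtain ⟨hcan, h0, hne⟩ := (K_pos_iff hg hc v).mp hv
  obtain ⟨⟨p, hp⟩, h1⟩ := ap_spec hg v
  have h2 : wt g (p + Finsupp.single 0 (kk g (wt g v))) = wt g v := by
    rw [wt_add, wt_single, hp]
    exact h1.symm
  have h3 := hc.deg_le (p + Finsupp.single 0 (kk g (wt g v)))
  rw [h2, ← hcan, map_add, Finsupp.degree_single] at h3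
  have h4 : p.degree ≠ 0 := by
    intro h5
    rw [Finsupp.degree_eq_zero_iff] at h5
    rw [h5, wt_zero] at hp
    rw [← hp, zero_add] at h1
    exact K_class hg hc hv ⟨_, by rw [mul_comm]; exact h1⟩
  unfold psi
  omega

theorem K_eq_deg_iff (hg : Mg g) (hc : IsCan g can) {v : Fin (N + 1) →₀ ℕ}
    (hv : 0 < K g can v) : K g can v = v.degree ↔ kk g (wt g v) = 0 := by
  rw [K_eq_deg hg hc hv]
  obtain ⟨⟨p, hp⟩, h1⟩ := ap_spec hg v
  constructor
  · intro h
    by_contra hk
    apply h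
    refine ⟨p + Finsupp.single 0 (kk g (wt g v) - 1), ?_⟩
    rw [wt_add, wt_single, hp]
    obtain ⟨q, hq⟩ : ∃ q, kk g (wt g v) = q + 1 := ⟨kk g (wt g v) - 1, by omega⟩
    rw [hq, Nat.add_sub_cancel]
    conv_rhs => rw [h1, hq]
    ring
  · rintro hk ⟨u, hu⟩
    rw [hk, zero_mul, add_zero] at h1
    have h2 : wt g u % g 0 = wt g v % g 0 := by
      rw [← hu, Nat.add_mod_right]
    have h3 := ap_le u h2
    have h4 := hg.pos
    omega

/-- In a class the `psi` increase: with `s = wt v`, `s' = wt v' < s`, `ord (s - g 0) ≥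
deg v' + (kk s - kk s' - 1)` and `deg v = ord (s - g 0) + 1 + K v`. -/
theorem psi_step (hg : Mg g) (hc : IsCan g can) {v v' : Fin (N + 1) →₀ ℕ}
    (hv : 0 < K g can v) (hv' : 0 < K g can v') (hcl : wt g v' % g 0 = wt g v % g 0)
    (hlt : wt g v' < wt g v) : psi g v' + K g can v ≤ psi g v ∧ K g can v < v.degree := by
  obtain ⟨-, h1⟩ := ap_spec hg v
  obtain ⟨-, h1'⟩ := ap_spec hg v'
  rw [ap_congr hcl] at h1'
  have hkk : kk g (wt g v') < kk g (wt g v) := by
    by_contra hcon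
    push Not at hcon
    have := Nat.mul_le_mul_right (g 0) hcon
    omega
  obtain ⟨t, ht⟩ : ∃ t, kk g (wt g v) = kk g (wt g v') + t + 1 :=
    ⟨kk g (wt g v) - kk g (wt g v') - 1, by omega⟩
  have hu : wt g (v' + Finsupp.single 0 t) + g 0 = wt g v := by
    rw [wt_add, wt_single, h1']
    conv_rhs => rw [h1, ht]
    ring
  have hfin := K_fin hg hc hv hu
  have hle := hc.deg_le (v' + Finsupp.single 0 t)
  rw [map_add, Finsupp.degree_single] at hle
  have h2 := (psi_spec hg hc hv).1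
  have h2' := (psi_spec hg hc hv').1
  omega

end Pool.Agent.Lib.MP_a2efaf_al
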