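import Pool.Agent.Lib.MP_a2efaf_al.WPath

/-!
# The path lemma
-/

set_option autoImplicit false

namespace Pool.Agent.Lib.MP_a2efaf_al

variable {N : ℕ} {g : Fin (N + 1) → ℕ} {can : ℕ → (Fin (N + 1) →₀ ℕ)}

private theorem wpathb_chain : ∀ (d : ℕ) (v : Fin (N + 1) →₀ ℕ), v.degree = d →
    ∃ c : ℕ → (Fin (N + 1) →₀ ℕ), c 0 = 0 ∧ c d = v ∧
      ∀ i < d, ∃ l, c (i + 1) = c i + Finsupp.single l 1 := by
  intro d
  induction d with
  | zero =>
    intro v hv
    refine ⟨fun _ => 0, rfl, ?_, fun i hi => absurd hi (Nat.not_lt_zero i)⟩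
    exact ((Finsupp.degree_eq_zero_iff v).mp hv).symm
  | succ d ih =>
    intro v hv
    have hne : v ≠ 0 := by
      intro h
      rw [h, map_zero] at hv
      omega
    obtain ⟨l, hl⟩ := Finsupp.ne_iff.mp hne
    have hl' : Finsupp.single l 1 ≤ v := by
      rw [Finsupp.single_le_iff]
      exact Nat.one_le_iff_ne_zero.mpr hl
    have hs : v - Finsupp.single l 1 + Finsupp.single l 1 = v := tsub_add_cancel_of_le hl'
    have hd : (v - Finsupp.single l 1).degree = d := by
      have := congrArg Finsupp.degree hs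
      rw [map_add, Finsupp.degree_single, hv] at this
      omega
    obtain ⟨c, c0, cd, cs⟩ := ih _ hd
    refine ⟨fun i => if i ≤ d then c i else v, ?_, ?_, ?_⟩
    · simp only [Nat.zero_le, if_true]
      exact c0
    · simp only
      rw [if_neg (by omega)]
    · intro i hi
      by_cases h : i < d
      · obtain ⟨m, hm⟩ := cs i h
        refine ⟨m, ?_⟩
        simp only
        rw [if_pos (by omega), if_pos (by omega), hm]
      · have hid : i = d := by omega
        subst hid
        refine ⟨l, ?_⟩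
        simp only
        rw [if_neg (by omega), if_pos le_rfl, cd, hs]

private theorem wpathb_wt_ge (hg : Mg g) (u : Fin (N + 1) →₀ ℕ) : u.degree * g 0 ≤ wt g u := by
  unfold wt
  rw [Finsupp.degree_eq_sum, Finset.sum_mul]
  refine Finset.sum_le_sum ?_
  intro i _
  exact Nat.mul_le_mul_left _ (hg.mono.monotone (Fin.zero_le i))

/-- one step of the chain -/
private theorem wpathb_step (hg : Mg g) (hc : IsCan g can) {u : Fin (N + 1) →₀ ℕ}
    {l : Fin (N + 1)} (hu : 0 < K g can u) (hul : 0 < K g can (u + Finsupp.single l 1)) :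
    psi g (u + Finsupp.single l 1) ≤ psi g u + 1 ∧
      (psi g (u + Finsupp.single l 1) = psi g u + 1 →
        wt g (u + Finsupp.single l 1) % g 0 ∈ Miss g) := by
  have h1 := psi_spec hg hc hu
  have h2 := psi_spec hg hc hul
  rw [map_add, Finsupp.degree_single] at h2
  obtain ⟨⟨p, hp⟩, hs⟩ := ap_spec hg u
  obtain ⟨_, ht⟩ := ap_spec hg (u + Finsupp.single l 1)
  have hwt : wt g (u + Finsupp.single l 1) = wt g u + g l := by
    rw [wt_add, wt_single, one_mul]
  have hpl : wt g (p + Finsupp.single l 1) = ap g (wt g u) + g l := by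
    rw [wt_add, wt_single, one_mul, hp]
  have hle : ap g (wt g (u + Finsupp.single l 1)) ≤ ap g (wt g u) + g l := by
    rw [← hpl]
    refine ap_le _ ?_
    rw [hpl, hwt]
    conv_rhs => rw [hs]
    rw [add_right_comm, Nat.add_mul_mod_self_right]
  have hkk : kk g (wt g u) ≤ kk g (wt g (u + Finsupp.single l 1)) := by
    have h3 : kk g (wt g u) * g 0 ≤ kk g (wt g (u + Finsupp.single l 1)) * g 0 := by omega
    exact Nat.le_of_mul_le_mul_right h3 hg.pos
  refine ⟨by omega, ?_⟩
  intro he
  have hk : kk g (wt g (u + Finsupp.single l 1)) = kk g (wt g u) := by omega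
  rw [hk] at ht
  have hap : ap g (wt g (u + Finsupp.single l 1)) = ap g (wt g u) + g l := by omega
  unfold Miss
  rw [Finset.mem_filter, Finset.mem_range]
  refine ⟨Nat.mod_lt _ hg.pos, ?_⟩
  intro j hj
  have hj0 : j ≠ 0 := by
    intro h
    rw [h, Nat.mod_self] at hj
    exact K_class hg hc hul (Nat.dvd_of_mod_eq_zero hj.symm)
  have h4 : g j = ap g (wt g u) + g l := by
    rw [← hap, ← ap_congr hj, ap_gen hg j hj0]
  rw [← hpl] at h4
  have h5 := wt_eq_gen hg h4.symm
  have h6 := congrArg Finsupp.degree h5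
  rw [map_add, Finsupp.degree_single, Finsupp.degree_single] at h6
  have h7 : p = 0 := (Finsupp.degree_eq_zero_iff p).mp (by omega)
  rw [h7, wt_zero] at hp
  rw [← hp, zero_add] at hs
  exact K_class hg hc hu (Dvd.intro_left _ hs.symm)

open Classical in
/-- **The path lemma.** Choose a chain `0 = v_0 < v_1 < ... < v_d = v` (`d = deg v`,
`v_i = v_{i-1} + single l_i 1`). All `v_i`, `i ≥ 1`, have `0 < K`, and their classes are pairwise
different and nonzero (`v_i - v_j` is a divisor of `v`, `K_class`). For `i ≥ 2` let `σ = wt v_{i-1}`,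
`τ = wt v_i = σ + g l_i`: `ap τ ≤ ap σ + g l_i`, so `kk τ ≥ kk σ` and `psi v_i ≤ psi v_{i-1} + 1` with equality
only if `kk τ = kk σ`, i.e. `ap τ = ap σ + g l_i`; then the class of `τ` is not the class of a generator
(`ap_gen`, minimality). `psi v_1 = 1`.
For `a = 2, ..., psi v` let `i_a` be the last `i` with `psi v_{i-1} < a` (`i ≥ 2`); then `psi v_{i_a} = a`, it is a jump,
so `β_a = wt v_{i_a} % g 0` is in `Miss g`; the `i_a` are different so the `β_a` are different. Finally
`ap β_a ≤ ap (wt v)`: `wt v = ap (wt v) + kk * g 0`, `wt v_{i_a} = ap + k_a * g 0`, `psi v ≥ a = psi v_{i_a}` gives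
`kk - k_a ≤ d - i_a`, and `wt v - wt v_{i_a} ≥ (d - i_a) * g 0`. -/
theorem path_lemma (hg : Mg g) (hc : IsCan g can) {v : Fin (N + 1) →₀ ℕ}
    (hv : 0 < K g can v) :
    psi g v ≤ 1 + ((Miss g).filter (fun β => (∃ u : Fin (N + 1) →₀ ℕ, wt g u % g 0 = β) ∧
      ap g β ≤ ap g (wt g v))).card := by
  obtain ⟨c, c0, cd, cs⟩ := wpathb_chain v.degree v rfl
  set d := v.degree with hd
  have hmono : ∀ i j, i ≤ j → j ≤ d → c i ≤ c j := by
    intro i j hij
    induction j, hij using Nat.le_induction with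
    | base => intro _; exact le_rfl
    | succ j hij ih =>
      intro hj
      obtain ⟨l, hl⟩ := cs j (by omega)
      rw [hl]
      exact (ih (by omega)).trans le_self_add
  have hdeg : ∀ i, i ≤ d → (c i).degree = i := by
    intro i
    induction i with
    | zero => intro _; rw [c0, map_zero]
    | succ i ih =>
      intro hi
      obtain ⟨l, hl⟩ := cs i (by omega)
      rw [hl, map_add, Finsupp.degree_single, ih (by omega)]
  have hcv : ∀ i, i ≤ d → c i ≤ v := by
    intro i hi
    have := hmono i d hi le_rfl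
    rwa [cd] at this
  have hne : ∀ i, 1 ≤ i → i ≤ d → c i ≠ 0 := by
    intro i h1 hi h0
    have := hdeg i hi
    rw [h0, map_zero] at this
    omega
  have hK : ∀ i, 1 ≤ i → i ≤ d → 0 < K g can (c i) := fun i h1 hi =>
    K_sub hg hc hv (hcv i hi) (hne i h1 hi)
  have hcls : ∀ i j, i < j → j ≤ d → wt g (c i) % g 0 ≠ wt g (c j) % g 0 := by
    intro i j hij hj h
    have hle := hmono i j hij.le hj
    have hs : c i + (c j - c i) = c j := add_tsub_cancel_of_le hle
    have hne' : c j - c i ≠ 0 := by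
      intro h0
      rw [h0, add_zero] at hs
      have h1 := hdeg i (by omega)
      rw [hs, hdeg j hj] at h1
      omega
    have hK' := K_sub hg hc hv ((tsub_le_self).trans (hcv j hj)) hne'
    refine K_class hg hc hK' ?_
    have hw : wt g (c j) = wt g (c i) + wt g (c j - c i) := by rw [← wt_add, hs]
    rw [hw] at h
    have h2 : (wt g (c i) + 0) % g 0 = (wt g (c i) + wt g (c j - c i)) % g 0 := by
      rw [add_zero]; exact h
    have h3 : wt g (c i) + 0 ≡ wt g (c i) + wt g (c j - c i) [MOD g 0] := h2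
    have h4 := Nat.ModEq.add_left_cancel' _ h3
    exact (Nat.modEq_zero_iff_dvd).mp h4.symm
  have key : ∀ i, 1 ≤ i → i ≤ d → ∀ a, 2 ≤ a → a ≤ psi g (c i) →
      ∃ j, 1 ≤ j ∧ j + 1 ≤ i ∧ psi g (c (j + 1)) = a ∧ psi g (c (j + 1)) = psi g (c j) + 1 := by
    intro i h1
    induction i, h1 using Nat.le_induction with
    | base =>
      intro hi a h2 ha
      have h3 := psi_spec hg hc (hK 1 le_rfl hi)
      rw [hdeg 1 hi] at h3
      omega
    | succ i h1 ih =>
      intro hi a h2 ha
      by_cases h3 : a ≤ psi g (c i)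
      · obtain ⟨j, j1, j2, j3⟩ := ih (by omega) a h2 h3
        exact ⟨j, j1, by omega, j3⟩
      · obtain ⟨l, hl⟩ := cs i (by omega)
        have h4 := (wpathb_step hg hc (hK i h1 (by omega)) (hl ▸ hK (i + 1) (by omega) hi)).1
        rw [← hl] at h4
        refine ⟨i, h1, le_rfl, by omega, by omega⟩
  by_cases hd0 : d = 0
  · exfalso
    have h1 := (psi_spec hg hc hv)
    omega
  have hd1 : 1 ≤ d := Nat.one_le_iff_ne_zero.mpr hd0
  have key' : ∀ a ∈ Finset.Icc 2 (psi g v), ∃ j, 1 ≤ j ∧ j + 1 ≤ d ∧ psi g (c (j + 1)) = a ∧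
      psi g (c (j + 1)) = psi g (c j) + 1 := by
    intro a ha
    rw [Finset.mem_Icc] at ha
    refine key d hd1 le_rfl a ha.1 ?_
    rw [cd]
    exact ha.2
  choose! J hJ using key'
  have hcard : (Finset.Icc 2 (psi g v)).card ≤ ((Miss g).filter
      (fun β => (∃ u : Fin (N + 1) →₀ ℕ, wt g u % g 0 = β) ∧
      ap g β ≤ ap g (wt g v))).card := by
    refine Finset.card_le_card_of_injOn (fun a => wt g (c (J a + 1)) % g 0) ?_ ?_
    · intro a ha
      have ha' : a ∈ Finset.Icc 2 (psi g v) := ha
      obtain ⟨j1, j2, j3, j4⟩ := hJ a ha'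
      have hav : a ≤ psi g v := (Finset.mem_Icc.mp ha').2
      show wt g (c (J a + 1)) % g 0 ∈ (((Miss g).filter
        (fun β => (∃ u : Fin (N + 1) →₀ ℕ, wt g u % g 0 = β) ∧
        ap g β ≤ ap g (wt g v)) : Finset ℕ) : Set ℕ)
      rw [Finset.mem_coe, Finset.mem_filter]
      refine ⟨?_, ⟨c (J a + 1), rfl⟩, ?_⟩
      · obtain ⟨l, hl⟩ := cs (J a) (by omega)
        have h4 := (wpathb_step hg hc (hK (J a) j1 (by omega))
          (hl ▸ hK (J a + 1) (by omega) j2)).2
        rw [← hl] at h4
        exact h4 j4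
      · have h5 : ap g (wt g (c (J a + 1)) % g 0) = ap g (wt g (c (J a + 1))) :=
          ap_congr (Nat.mod_mod _ _)
        rw [h5]
        have h6 := (ap_spec hg (c (J a + 1))).2
        have h7 := (ap_spec hg v).2
        have h8 := (psi_spec hg hc (hK (J a + 1) (by omega) j2)).1
        rw [hdeg (J a + 1) j2] at h8
        have h9 := (psi_spec hg hc hv).1
        have hs : c (J a + 1) + (v - c (J a + 1)) = v := add_tsub_cancel_of_le (hcv _ j2)
        have hw : wt g v = wt g (c (J a + 1)) + wt g (v - c (J a + 1)) := by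
          rw [← wt_add, hs]
        have hdg : (v - c (J a + 1)).degree = d - (J a + 1) := by
          have := congrArg Finsupp.degree hs
          rw [map_add, hdeg _ j2] at this
          omega
        have hge := wpathb_wt_ge hg (v - c (J a + 1))
        rw [hdg] at hge
        have hkk : kk g (wt g v) ≤ kk g (wt g (c (J a + 1))) + (d - (J a + 1)) := by omega
        have hkk' := Nat.mul_le_mul_right (g 0) hkk
        rw [add_mul] at hkk'
        omega
    · intro a ha b hb hab
      have ha' : a ∈ Finset.Icc 2 (psi g v) := ha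
      have hb' : b ∈ Finset.Icc 2 (psi g v) := hb
      obtain ⟨j1, j2, j3, j4⟩ := hJ a ha'
      obtain ⟨k1, k2, k3, k4⟩ := hJ b hb'
      have hab' : wt g (c (J a + 1)) % g 0 = wt g (c (J b + 1)) % g 0 := hab
      rcases lt_trichotomy (J a) (J b) with h | h | h
      · exact absurd hab' (hcls _ _ (by omega) k2)
      · rw [← j3, ← k3, h]
      · exact absurd hab'.symm (hcls _ _ (by omega) j2)
  rw [Nat.card_Icc] at hcard
  omega

end Pool.Agent.Lib.MP_a2efaf_al
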