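import Pool.Agent.Lib.MP_a2efaf_al.WPathB
import Pool.Agent.Lib.MP_a2efaf_al.WNum

/-!
# The bound for Theta
-/

set_option autoImplicit false

namespace Pool.Agent.Lib.MP_a2efaf_al

variable {N : ℕ} {g : Fin (N + 1) → ℕ} {can : ℕ → (Fin (N + 1) →₀ ℕ)}

theorem wtheta_can (hg : Mg g) (hc : IsCan g can) {v : Fin (N + 1) →₀ ℕ} (hv : 0 < K g can v) :
    v = can (wt g v) := ((K_pos_iff hg hc v).1 hv).1

theorem wtheta_eq_of_wt (hg : Mg g) (hc : IsCan g can) {v v' : Fin (N + 1) →₀ ℕ}
    (hv : 0 < K g can v) (hv' : 0 < K g can v') (h : wt g v = wt g v') : v = v' := by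
  rw [wtheta_can hg hc hv, wtheta_can hg hc hv', h]

/-- The elements of a class which are not Apery. If `a ≤ psi` of all the smaller elements ...: the
intervals `Ioc (psi v - K v) (psi v)`, `v ∈ S`, are pairwise disjoint and contained in `Ioc a b`
(`psi_step`, and `psi_step` with the Apery element), and
`K v / (deg v + 1) = ∑ x ∈ Ioc (psi v - K v) (psi v), 1/(psi v + kk + 1) ≤ ∑ 1/(x+2)`. -/
theorem class_sum (hg : Mg g) (hc : IsCan g can) (S : Finset (Fin (N + 1) →₀ ℕ)) (a b : ℕ)
    (hS : ∀ v ∈ S, 0 < K g can v ∧ K g can v < v.degree ∧ a + K g can v ≤ psi g v ∧ psi g v ≤ b)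
    (hcl : ∀ v ∈ S, ∀ v' ∈ S, wt g v % g 0 = wt g v' % g 0) :
    ∑ v ∈ S, (K g can v : ℚ) / ((v.degree : ℚ) + 1) ≤ ∑ x ∈ Finset.Ioc a b, 1 / ((x : ℚ) + 2) := by
  classical
  have h1 : ∀ v ∈ S, (K g can v : ℚ) / ((v.degree : ℚ) + 1) ≤
      ∑ x ∈ Finset.Ioc (psi g v - K g can v) (psi g v), 1 / ((x : ℚ) + 2) := by
    intro v hv
    obtain ⟨hK, hKd, hKa, hb⟩ := hS v hv
    have hcard : (Finset.Ioc (psi g v - K g can v) (psi g v)).card = K g can v := by
      rw [Nat.card_Ioc]; omega
    have hkk : kk g (wt g v) ≠ 0 := by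
      intro h0
      have := (K_eq_deg_iff hg hc hK).2 h0
      omega
    have hdeg := (psi_spec hg hc hK).1
    calc (K g can v : ℚ) / ((v.degree : ℚ) + 1)
        = ∑ x ∈ Finset.Ioc (psi g v - K g can v) (psi g v), 1 / ((v.degree : ℚ) + 1) := by
          rw [Finset.sum_const, hcard, nsmul_eq_mul]; ring
      _ ≤ _ := by
          refine Finset.sum_le_sum ?_
          intro x hx
          rw [Finset.mem_Ioc] at hx
          have hx2 : (x : ℚ) + 2 ≤ (v.degree : ℚ) + 1 := by
            have : x + 2 ≤ v.degree + 1 := by omega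
            exact_mod_cast this
          exact one_div_le_one_div_of_le (by positivity) hx2
  have hdisj : (S : Set (Fin (N + 1) →₀ ℕ)).PairwiseDisjoint
      (fun v => Finset.Ioc (psi g v - K g can v) (psi g v)) := by
    have key : ∀ v ∈ S, ∀ v' ∈ S, wt g v' < wt g v →
        Disjoint (Finset.Ioc (psi g v - K g can v) (psi g v))
          (Finset.Ioc (psi g v' - K g can v') (psi g v')) := by
      intro v hv v' hv' hlt
      have hst := (psi_step hg hc (hS v hv).1 (hS v' hv').1 (hcl v' hv' v hv) hlt).1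
      rw [Finset.disjoint_left]
      intro x hx hx'
      rw [Finset.mem_Ioc] at hx hx'
      omega
    intro v hv v' hv' hne
    rcases lt_trichotomy (wt g v) (wt g v') with h | h | h
    · exact (key v' hv' v hv h).symm
    · exact absurd (wtheta_eq_of_wt hg hc (hS v hv).1 (hS v' hv').1 h) hne
    · exact key v hv v' hv' h
  calc ∑ v ∈ S, (K g can v : ℚ) / ((v.degree : ℚ) + 1)
      ≤ ∑ v ∈ S, ∑ x ∈ Finset.Ioc (psi g v - K g can v) (psi g v), 1 / ((x : ℚ) + 2) :=
        Finset.sum_le_sum h1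
    _ = ∑ x ∈ S.biUnion (fun v => Finset.Ioc (psi g v - K g can v) (psi g v)),
          1 / ((x : ℚ) + 2) := (Finset.sum_biUnion hdisj).symm
    _ ≤ _ := by
        refine Finset.sum_le_sum_of_subset_of_nonneg ?_ ?_
        · intro x hx
          rw [Finset.mem_biUnion] at hx
          obtain ⟨v, hv, hx⟩ := hx
          rw [Finset.mem_Ioc] at hx ⊢
          obtain ⟨hK, hKd, hKa, hb⟩ := hS v hv
          omega
        · intro x _ _
          positivity

theorem wtheta_sum_Ioc (a n : ℕ) :
    ∑ x ∈ Finset.Ioc a (a + n), 1 / ((x : ℚ) + 2) = ∑ i ∈ Finset.range n, 1 / ((i : ℚ) + a + 3) := by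
  induction n with
  | zero => simp
  | succ n ih =>
    rw [Finset.sum_range_succ, ← ih, ← add_assoc, Finset.sum_Ioc_succ_top (by omega)]
    congr 2
    push_cast
    ring

/-- Elements with the class of a generator. -/
theorem wtheta_ap_gen (hg : Mg g) {s : ℕ} {j : Fin (N + 1)} (hj : j ≠ 0)
    (h : s % g 0 = g j % g 0) : ap g s = g j := by
  rw [ap_congr h, ap_gen hg j hj]

/-- The class of a generator: `≤ wA c`, `c = (Miss g).card`. The Apery element is `single j 1` of degree
`1`, `psi = 1`; `psi ≤ c + 1` by `path_lemma`. -/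
theorem class_gen (hg : Mg g) (hc : IsCan g can) (O : Finset (Fin (N + 1) →₀ ℕ))
    (hO : ∀ v, v ∈ O ↔ 0 < K g can v) (j : Fin (N + 1)) (hj : j ≠ 0) :
    ∑ v ∈ O.filter (fun v => 2 ≤ v.degree ∧ wt g v % g 0 = g j % g 0),
      (K g can v : ℚ) / ((v.degree : ℚ) + 1) ≤ wA (Miss g).card := by
  classical
  have hsw : wt g (Finsupp.single j 1) = g j := by rw [wt_single]; ring
  have hsK : 0 < K g can (Finsupp.single j 1) := by rw [K_single hg hc hj]; exact one_pos
  have hsp : psi g (Finsupp.single j 1) = 1 := by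
    unfold psi kk
    rw [hsw, ap_gen hg j hj]
    simp
  have h1 := class_sum hg hc (O.filter (fun v => 2 ≤ v.degree ∧ wt g v % g 0 = g j % g 0))
    1 (1 + (Miss g).card) ?_ ?_
  · refine h1.trans (le_of_eq ?_)
    rw [wtheta_sum_Ioc]
    unfold wA
    refine Finset.sum_congr rfl ?_
    intro i _
    congr 1
    push_cast
    ring
  · intro v hv
    rw [Finset.mem_filter] at hv
    obtain ⟨hvO, hd, hcl⟩ := hv
    have hK := (hO v).1 hvO
    have hap : ap g (wt g v) = g j := wtheta_ap_gen hg hj hcl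
    have hlt : wt g (Finsupp.single j 1) < wt g v := by
      have h2 := (ap_spec hg v).2
      rw [hap] at h2
      rw [hsw]
      rcases Nat.lt_or_ge (g j) (wt g v) with h | h
      · exact h
      · exfalso
        have h3 : wt g v = g j := by omega
        have h4 := wt_eq_gen hg h3
        rw [h4] at hd
        simp at hd
    have hst := psi_step hg hc hK hsK (by rw [hsw, hcl]) hlt
    rw [hsp] at hst
    refine ⟨hK, hst.2, hst.1, (path_lemma hg hc hK).trans ?_⟩
    exact Nat.add_le_add_left (Finset.card_le_card (Finset.filter_subset _ _)) _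
  · intro v hv v' hv'
    rw [Finset.mem_filter] at hv hv'
    rw [hv.2.2, hv'.2.2]

open Classical in
/-- The rank of a missing class. -/
noncomputable def rk (g : Fin (N + 1) → ℕ) (r : ℕ) : ℕ :=
  ((Miss g).filter (fun β => (∃ u : Fin (N + 1) →₀ ℕ, wt g u % g 0 = β) ∧ ap g β ≤ ap g r)).card

theorem wtheta_num (R i : ℕ) (hi : 2 ≤ i) (hiR : i ≤ R + 1) :
    (i : ℚ) / ((i : ℚ) + 1) + ∑ x ∈ Finset.Ioc i (R + 1), 1 / ((x : ℚ) + 2) ≤ wB R := by
  induction i, hi using Nat.le_induction with
  | base =>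
    unfold wB
    have h1 : R + 1 = 2 + (R - 1) := by omega
    rw [h1, wtheta_sum_Ioc]
    have h2 : 2 + (R - 1) - 1 = R := by omega
    refine le_of_eq ?_
    congr 1
    · norm_num
    · refine Finset.sum_congr rfl ?_
      intro i _
      congr 1
      push_cast
      ring
  | succ i hi ih =>
    have h1 := ih (by omega)
    have h2 : ∑ x ∈ Finset.Ioc i (R + 1), 1 / ((x : ℚ) + 2) =
        1 / (((i : ℚ) + 1) + 2) + ∑ x ∈ Finset.Ioc (i + 1) (R + 1), 1 / ((x : ℚ) + 2) := by
      have h3 : Finset.Ioc i (R + 1) = insert (i + 1) (Finset.Ioc (i + 1) (R + 1)) := by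
        ext x
        simp only [Finset.mem_insert, Finset.mem_Ioc]
        omega
      rw [h3, Finset.sum_insert (by simp)]
      push_cast
      rfl
    rw [h2] at h1
    have h4 : ((i + 1 : ℕ) : ℚ) / (((i + 1 : ℕ) : ℚ) + 1) ≤
        (i : ℚ) / ((i : ℚ) + 1) + 1 / (((i : ℚ) + 1) + 2) := by
      push_cast
      have hi0 : (2 : ℚ) ≤ (i : ℚ) := by exact_mod_cast hi
      rw [div_add_div _ _ (by positivity) (by positivity), div_le_div_iff₀ (by positivity)
        (by positivity)]
      nlinarith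
    linarith

theorem wtheta_ap_mod (hg : Mg g) {s : ℕ} (u : Fin (N + 1) →₀ ℕ) (hu : wt g u % g 0 = s)
    (hs : s < g 0) : ap g s % g 0 = s := by
  have h4 := (ap_spec hg u).2
  have h5 : ap g (wt g u) = ap g s := ap_congr (by rw [hu, Nat.mod_eq_of_lt hs])
  rw [h5] at h4
  calc ap g s % g 0 = (ap g s + kk g (wt g u) * g 0) % g 0 := by rw [Nat.add_mul_mod_self_right]
    _ = wt g u % g 0 := by rw [← h4]
    _ = s := hu

/-- The Apery element of a missing class. -/
theorem wtheta_apery (hg : Mg g) (hc : IsCan g can) {r : ℕ} (hr : r ∈ Miss g)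
    (h : ∃ u : Fin (N + 1) →₀ ℕ, wt g u % g 0 = r) :
    ∃ e : Fin (N + 1) →₀ ℕ, 0 < K g can e ∧ wt g e = ap g r ∧ wt g e % g 0 = r ∧ 2 ≤ e.degree ∧
      kk g (wt g e) = 0 := by
  classical
  obtain ⟨u, hu⟩ := h
  have hr' := hr
  unfold Miss at hr'
  rw [Finset.mem_filter, Finset.mem_range] at hr'
  obtain ⟨hrg, hrj⟩ := hr'
  have hrr : r % g 0 = r := Nat.mod_eq_of_lt hrg
  obtain ⟨⟨p, hp⟩, hpu⟩ := ap_spec hg u
  have hapr : ap g (wt g u) = ap g r := ap_congr (by rw [hu, hrr])
  have hapmod : ap g r % g 0 = r := wtheta_ap_mod hg u hu hrg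
  have hwe : wt g (can (wt g p)) = ap g r := by rw [hc.wt_can, hp, hapr]
  have hcan : can (wt g p) = can (wt g (can (wt g p))) := by rw [hc.wt_can]
  have hapap : ap g (ap g r) = ap g r := ap_congr (by rw [hapmod, hrr])
  have hKe : 0 < K g can (can (wt g p)) := by
    rw [K_pos_iff hg hc]
    refine ⟨hcan, ?_, ?_⟩
    · by_contra h0
      have hle : Finsupp.single 0 1 ≤ can (wt g p) := by
        rw [Finsupp.single_le_iff]; omega
      have hadd : can (wt g p) - Finsupp.single 0 1 + Finsupp.single 0 1 = can (wt g p) :=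
        tsub_add_cancel_of_le hle
      have hw : wt g (can (wt g p) - Finsupp.single 0 1) + g 0 = ap g r := by
        rw [← hwe]
        conv_rhs => rw [← hadd]
        rw [wt_add, wt_single, one_mul]
      have h2 : wt g (can (wt g p) - Finsupp.single 0 1) % g 0 = r % g 0 := by
        rw [hrr, ← hapmod, ← hw]
        simp
      have h3 := ap_le _ h2
      have := hg.pos
      omega
    · intro h0
      rw [h0, wt_zero] at hwe
      rw [← hwe, Nat.zero_mod] at hapmod
      exact hrj 0 (by rw [Nat.mod_self, hapmod])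
  refine ⟨can (wt g p), hKe, hwe, by rw [hwe, hapmod], ?_, ?_⟩
  · by_contra hlt
    have hne : can (wt g p) ≠ 0 := ((K_pos_iff hg hc _).1 hKe).2.2
    have hd1 : (can (wt g p)).degree = 1 := by
      have h0 : (can (wt g p)).degree ≠ 0 := by
        rw [Ne, Finsupp.degree_eq_zero_iff]
        exact hne
      omega
    obtain ⟨j, hj⟩ : ∃ j, can (wt g p) = Finsupp.single j 1 := by
      obtain ⟨j, hj⟩ := Finsupp.ne_iff.1 hne
      refine ⟨j, ?_⟩
      have hle : Finsupp.single j 1 ≤ can (wt g p) := by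
        rw [Finsupp.single_le_iff]
        simp at hj
        omega
      have hadd : can (wt g p) - Finsupp.single j 1 + Finsupp.single j 1 = can (wt g p) :=
        tsub_add_cancel_of_le hle
      have hdd := congrArg Finsupp.degree hadd
      rw [map_add, Finsupp.degree_single, hd1] at hdd
      have hz : can (wt g p) - Finsupp.single j 1 = 0 := by
        rw [← Finsupp.degree_eq_zero_iff]
        omega
      rw [← hadd, hz, zero_add]
    have hwj : wt g (can (wt g p)) = g j := by rw [hj, wt_single, one_mul]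
    exact hrj j (by rw [← hwj, hwe, hapmod])
  · unfold kk
    rw [hwe, hapap]
    simp

open Classical in
/-- A missing class `r` (with at least one element of the semigroup): `≤ wB (rk r)`. The Apery element has degree
`i = psi ≥ 2` and contributes `i/(i+1)`, the others at most `∑ x ∈ Ioc i (rk r + 1), 1/(x+2)`, and
`i/(i+1) + ∑ x ∈ Ioc i (R+1), 1/(x+2) ≤ 2/3 + ∑ x ∈ Ioc 2 (R+1), 1/(x+2)` for `2 ≤ i ≤ R+1`. -/
theorem class_miss (hg : Mg g) (hc : IsCan g can) (O : Finset (Fin (N + 1) →₀ ℕ))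
    (hO : ∀ v, v ∈ O ↔ 0 < K g can v) (r : ℕ) (hr : r ∈ Miss g) :
    ∑ v ∈ O.filter (fun v => 2 ≤ v.degree ∧ wt g v % g 0 = r),
      (K g can v : ℚ) / ((v.degree : ℚ) + 1) ≤
      if (∃ u : Fin (N + 1) →₀ ℕ, wt g u % g 0 = r) then wB (rk g r) else 0 := by
  split_ifs with h
  · obtain ⟨e, heK, hew, her, hed, hek⟩ := wtheta_apery hg hc hr h
    have heKd : K g can e = e.degree := (K_eq_deg_iff hg hc heK).2 hek
    have hepsi : psi g e = e.degree := by unfold psi; rw [hek]; simp
    have hrg : r < g 0 := by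
      have hr' := hr
      unfold Miss at hr'
      rw [Finset.mem_filter, Finset.mem_range] at hr'
      exact hr'.1
    have hrr : r % g 0 = r := Nat.mod_eq_of_lt hrg
    have hapv : ∀ v : Fin (N + 1) →₀ ℕ, wt g v % g 0 = r → ap g (wt g v) = ap g r := by
      intro v hv
      exact ap_congr (by rw [hv, hrr])
    have hpath : ∀ v : Fin (N + 1) →₀ ℕ, 0 < K g can v → wt g v % g 0 = r →
        psi g v ≤ rk g r + 1 := by
      intro v hv hvr
      have := path_lemma hg hc hv
      rw [hapv v hvr] at this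
      unfold rk
      omega
    have hesum : e ∈ O.filter (fun v => 2 ≤ v.degree ∧ wt g v % g 0 = r) := by
      rw [Finset.mem_filter]
      exact ⟨(hO e).2 heK, hed, her⟩
    rw [← Finset.add_sum_erase _ _ hesum]
    have h1 := class_sum hg hc
      ((O.filter (fun v => 2 ≤ v.degree ∧ wt g v % g 0 = r)).erase e) e.degree (rk g r + 1) ?_ ?_
    · have h2 := wtheta_num (rk g r) e.degree hed (by
        have := hpath e heK her
        omega)
      rw [heKd]
      linarith
    · intro v hv
      rw [Finset.mem_erase, Finset.mem_filter] at hv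
      obtain ⟨hne, hvO, hvd, hvr⟩ := hv
      have hK := (hO v).1 hvO
      have hlt : wt g e < wt g v := by
        have h2 := (ap_spec hg v).2
        rw [hapv v hvr, ← hew] at h2
        rcases Nat.lt_or_ge (wt g e) (wt g v) with h | h
        · exact h
        · exfalso
          have h3 : wt g v = wt g e := by omega
          exact hne (wtheta_eq_of_wt hg hc hK heK h3)
      have hst := psi_step hg hc hK heK (by rw [her, hvr]) hlt
      rw [hepsi] at hst
      exact ⟨hK, hst.2, hst.1, hpath v hK hvr⟩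
    · intro v hv v' hv'
      rw [Finset.mem_erase, Finset.mem_filter] at hv hv'
      rw [hv.2.2.2, hv'.2.2.2]
  · refine le_of_eq (Finset.sum_eq_zero ?_)
    intro v hv
    rw [Finset.mem_filter] at hv
    exact absurd ⟨v, hv.2.2⟩ h

theorem wtheta_class (hg : Mg g) (hc : IsCan g can) {v : Fin (N + 1) →₀ ℕ}
    (hv : 0 < K g can v) :
    (∃ j : Fin (N + 1), j ≠ 0 ∧ wt g v % g 0 = g j % g 0) ∨ wt g v % g 0 ∈ Miss g := by
  by_cases h : ∃ j : Fin (N + 1), g j % g 0 = wt g v % g 0
  · left
    obtain ⟨j, hj⟩ := h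
    refine ⟨j, ?_, hj.symm⟩
    rintro rfl
    rw [Nat.mod_self] at hj
    exact K_class hg hc hv (Nat.dvd_of_mod_eq_zero hj.symm)
  · right
    unfold Miss
    rw [Finset.mem_filter, Finset.mem_range]
    refine ⟨Nat.mod_lt _ hg.pos, ?_⟩
    intro j hj
    exact h ⟨j, hj⟩

theorem wtheta_wB_nonneg (r : ℕ) : 0 ≤ wB r := by
  unfold wB
  have : 0 ≤ ∑ i ∈ Finset.range (r - 1), 1 / ((i : ℚ) + 5) :=
    Finset.sum_nonneg (fun i _ => by positivity)
  linarith

open Classical in
theorem wtheta_rk_lt {r r' : ℕ} (hr' : r' ∈ Miss g)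
    (h' : ∃ u : Fin (N + 1) →₀ ℕ, wt g u % g 0 = r') (h : ap g r < ap g r') :
    rk g r < rk g r' := by
  unfold rk
  refine Finset.card_lt_card ?_
  rw [Finset.ssubset_iff_of_subset]
  · refine ⟨r', ?_, ?_⟩
    · rw [Finset.mem_filter]
      exact ⟨hr', h', le_refl _⟩
    · rw [Finset.mem_filter]
      rintro ⟨_, _, h2⟩
      omega
  · intro β hβ
    rw [Finset.mem_filter] at hβ ⊢
    exact ⟨hβ.1, hβ.2.1, hβ.2.2.trans h.le⟩

open Classical in
/-- The sum over the missing classes. -/
theorem wtheta_sum_miss (hg : Mg g) :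
    ∑ r ∈ Miss g, (if (∃ u : Fin (N + 1) →₀ ℕ, wt g u % g 0 = r) then wB (rk g r) else 0) ≤
      ∑ r ∈ Finset.range (Miss g).card, wB (r + 1) := by
  rw [← Finset.sum_filter]
  have hinj : Set.InjOn (fun r => rk g r - 1)
      ((Miss g).filter (fun r => ∃ u : Fin (N + 1) →₀ ℕ, wt g u % g 0 = r)) := by
    intro r hr r' hr' hrr
    simp only [Finset.coe_filter, Set.mem_ofPred_eq] at hr hr'
    have hpos : ∀ s, s ∈ Miss g → (∃ u : Fin (N + 1) →₀ ℕ, wt g u % g 0 = s) → 0 < rk g s := by
      intro s hs hs'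
      unfold rk
      rw [Finset.card_pos]
      exact ⟨s, by rw [Finset.mem_filter]; exact ⟨hs, hs', le_refl _⟩⟩
    have h1 := hpos r hr.1 hr.2
    have h2 := hpos r' hr'.1 hr'.2
    have h3 : rk g r = rk g r' := by
      have : rk g r - 1 = rk g r' - 1 := hrr
      omega
    have hmod : ∀ s, s ∈ Miss g → (∃ u : Fin (N + 1) →₀ ℕ, wt g u % g 0 = s) →
        ap g s % g 0 = s := by
      rintro s hs ⟨u, hu⟩
      have hs' := hs
      unfold Miss at hs'
      rw [Finset.mem_filter, Finset.mem_range] at hs'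
      exact wtheta_ap_mod hg u hu hs'.1
    rcases lt_trichotomy (ap g r) (ap g r') with h | h | h
    · have := wtheta_rk_lt hr'.1 hr'.2 h
      omega
    · rw [← hmod r hr.1 hr.2, ← hmod r' hr'.1 hr'.2, h]
    · have := wtheta_rk_lt hr.1 hr.2 h
      omega
  have hpos : ∀ s, s ∈ Miss g → (∃ u : Fin (N + 1) →₀ ℕ, wt g u % g 0 = s) → 0 < rk g s := by
    intro s hs hs'
    unfold rk
    rw [Finset.card_pos]
    exact ⟨s, by rw [Finset.mem_filter]; exact ⟨hs, hs', le_refl _⟩⟩
  calc ∑ r ∈ (Miss g).filter (fun r => ∃ u : Fin (N + 1) →₀ ℕ, wt g u % g 0 = r), wB (rk g r)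
      = ∑ r ∈ (Miss g).filter (fun r => ∃ u : Fin (N + 1) →₀ ℕ, wt g u % g 0 = r),
          wB ((rk g r - 1) + 1) := by
        refine Finset.sum_congr rfl ?_
        intro r hr
        rw [Finset.mem_filter] at hr
        have := hpos r hr.1 hr.2
        congr 1
        omega
    _ = ∑ x ∈ ((Miss g).filter (fun r => ∃ u : Fin (N + 1) →₀ ℕ, wt g u % g 0 = r)).image
          (fun r => rk g r - 1), wB (x + 1) := by
        rw [Finset.sum_image hinj]
    _ ≤ _ := by
        refine Finset.sum_le_sum_of_subset_of_nonneg ?_ ?_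
        · intro x hx
          rw [Finset.mem_image] at hx
          obtain ⟨r, hr, rfl⟩ := hx
          rw [Finset.mem_filter] at hr
          have h1 := hpos r hr.1 hr.2
          have h2 : rk g r ≤ (Miss g).card := Finset.card_le_card (Finset.filter_subset _ _)
          rw [Finset.mem_range]
          omega
        · intro x _ _
          exact wtheta_wB_nonneg _

/-- The bound for Theta. Group by residues (`K_class`: the residue is not `0`): residues of the
generators `g j`, `j ≠ 0`, and missing residues. `rk` is injective on the missing residues with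
an element of the semigroup (the `ap` are different), with values in `1..c`. -/
theorem theta_bound (hg : Mg g) (hc : IsCan g can) (O : Finset (Fin (N + 1) →₀ ℕ))
    (hO : ∀ v, v ∈ O ↔ 0 < K g can v) :
    ∑ v ∈ O.filter (fun v => 2 ≤ v.degree), (K g can v : ℚ) / ((v.degree : ℚ) + 1) ≤
      (N : ℚ) * wA (Miss g).card + ∑ r ∈ Finset.range (Miss g).card, wB (r + 1) := by
  classical
  have hf : ∀ v : Fin (N + 1) →₀ ℕ, 0 ≤ (K g can v : ℚ) / ((v.degree : ℚ) + 1) := by
    intro v; positivity
  have hcover : O.filter (fun v => 2 ≤ v.degree) ⊆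
      ((Finset.univ.erase (0 : Fin (N + 1))).biUnion
        (fun j => O.filter (fun v => 2 ≤ v.degree ∧ wt g v % g 0 = g j % g 0))) ∪
      ((Miss g).biUnion (fun r => O.filter (fun v => 2 ≤ v.degree ∧ wt g v % g 0 = r))) := by
    intro v hv
    rw [Finset.mem_filter] at hv
    rw [Finset.mem_union]
    rcases wtheta_class hg hc ((hO v).1 hv.1) with ⟨j, hj, hcl⟩ | hm
    · left
      rw [Finset.mem_biUnion]
      exact ⟨j, by simp [hj], by rw [Finset.mem_filter]; exact ⟨hv.1, hv.2, hcl⟩⟩
    · right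
      rw [Finset.mem_biUnion]
      exact ⟨_, hm, by rw [Finset.mem_filter]; exact ⟨hv.1, hv.2, rfl⟩⟩
  have hbi : ∀ {ι : Type} [DecidableEq ι] (s : Finset ι) (t : ι → Finset (Fin (N + 1) →₀ ℕ)),
      ∑ v ∈ s.biUnion t, (K g can v : ℚ) / ((v.degree : ℚ) + 1) ≤
        ∑ i ∈ s, ∑ v ∈ t i, (K g can v : ℚ) / ((v.degree : ℚ) + 1) := by
    intro ι _ s t
    induction s using Finset.induction_on with
    | empty => simp
    | insert i s hi ih =>
      rw [Finset.biUnion_insert, Finset.sum_insert hi]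
      have h1 := Finset.sum_union_inter (s₁ := t i) (s₂ := s.biUnion t)
        (f := fun v : Fin (N + 1) →₀ ℕ => (K g can v : ℚ) / ((v.degree : ℚ) + 1))
      have h2 : 0 ≤ ∑ v ∈ t i ∩ s.biUnion t, (K g can v : ℚ) / ((v.degree : ℚ) + 1) :=
        Finset.sum_nonneg (fun v _ => hf v)
      linarith
  have hunion : ∀ A B : Finset (Fin (N + 1) →₀ ℕ),
      ∑ v ∈ A ∪ B, (K g can v : ℚ) / ((v.degree : ℚ) + 1) ≤
        ∑ v ∈ A, (K g can v : ℚ) / ((v.degree : ℚ) + 1) +
          ∑ v ∈ B, (K g can v : ℚ) / ((v.degree : ℚ) + 1) := by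
    intro A B
    have h1 := Finset.sum_union_inter (s₁ := A) (s₂ := B)
      (f := fun v : Fin (N + 1) →₀ ℕ => (K g can v : ℚ) / ((v.degree : ℚ) + 1))
    have h2 : 0 ≤ ∑ v ∈ A ∩ B, (K g can v : ℚ) / ((v.degree : ℚ) + 1) :=
      Finset.sum_nonneg (fun v _ => hf v)
    linarith
  refine (Finset.sum_le_sum_of_subset_of_nonneg hcover (fun v _ _ => hf v)).trans ?_
  refine (hunion _ _).trans ?_
  refine add_le_add ?_ ?_
  · refine (hbi _ _).trans ?_
    calc ∑ j ∈ Finset.univ.erase (0 : Fin (N + 1)),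
          ∑ v ∈ O.filter (fun v => 2 ≤ v.degree ∧ wt g v % g 0 = g j % g 0),
            (K g can v : ℚ) / ((v.degree : ℚ) + 1)
        ≤ ∑ j ∈ Finset.univ.erase (0 : Fin (N + 1)), wA (Miss g).card := by
          refine Finset.sum_le_sum ?_
          intro j hj
          exact class_gen hg hc O hO j (Finset.ne_of_mem_erase hj)
      _ = (N : ℚ) * wA (Miss g).card := by
          rw [Finset.sum_const, Finset.card_erase_of_mem (Finset.mem_univ _), Finset.card_univ,
            Fintype.card_fin, nsmul_eq_mul]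
          simp
  · refine (hbi _ _).trans ?_
    refine (Finset.sum_le_sum (fun r hr => class_miss hg hc O hO r hr)).trans ?_
    exact wtheta_sum_miss hg

/-- At most one Apery element in each missing class, none of degree `≥ 2` in the other classes. -/
theorem apery_count (hg : Mg g) (hc : IsCan g can) (O : Finset (Fin (N + 1) →₀ ℕ))
    (hO : ∀ v, v ∈ O ↔ 0 < K g can v) :
    (O.filter (fun v => 2 ≤ v.degree ∧ K g can v = v.degree)).card ≤ (Miss g).card := by
  classical
  have hap : ∀ v ∈ O.filter (fun v => 2 ≤ v.degree ∧ K g can v = v.degree),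
      wt g v = ap g (wt g v) := by
    intro v hv
    rw [Finset.mem_filter] at hv
    have hk := (K_eq_deg_iff hg hc ((hO v).1 hv.1)).1 hv.2.2
    have h2 := (ap_spec hg v).2
    rw [hk] at h2
    omega
  refine Finset.card_le_card_of_injOn (fun v => wt g v % g 0) ?_ ?_
  · intro v hv
    have hv' := hv
    rw [Finset.mem_coe, Finset.mem_filter] at hv'
    rcases wtheta_class hg hc ((hO v).1 hv'.1) with ⟨j, hj, hcl⟩ | hm
    · exfalso
      have h1 := hap v hv
      rw [wtheta_ap_gen hg hj hcl] at h1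
      have h4 := wt_eq_gen hg h1
      rw [h4] at hv'
      simp at hv'
    · exact hm
  · intro v hv v' hv' h
    have hv1 := hv
    have hv1' := hv'
    rw [Finset.mem_coe, Finset.mem_filter] at hv1 hv1'
    have h1 := hap v hv
    have h1' := hap v' hv'
    have h2 : ap g (wt g v) = ap g (wt g v') := ap_congr h
    exact wtheta_eq_of_wt hg hc ((hO v).1 hv1.1) ((hO v').1 hv1'.1) (by omega)

end Pool.Agent.Lib.MP_a2efaf_al
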